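import Pool.Agent.Helper14.BECX.Psi
import Pool.Agent.Helper14.BECX.Fs
/-! Stage C, piece Card: a polynomially large set of test functions. -/
set_option autoImplicit false
namespace Pool.Agent.Helper14.BECX
open Finset Pool.Agent.Helper61.LE Pool.Agent.Helper5.BEC Pool.Agent.Helper5.BEC.C

namespace CardAux

theorem card_small_sets (n k : ℕ) :
    #((univ : Finset (Finset (Fin n))).filter fun X => #X ≤ k) ≤ (n + 1) ^ k := by
  classical
  have hsub : ((univ : Finset (Finset (Fin n))).filter fun X => #X ≤ k) ⊆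
      (univ : Finset (Fin k → Option (Fin n))).image
        (fun f => univ.filter fun x => ∃ i, f i = some x) := by
    intro X hX
    rw [Finset.mem_filter] at hX
    have hX := hX.2
    rw [Finset.mem_image]
    let e := X.equivFin
    refine ⟨fun i => if h : (i : ℕ) < #X then some (e.symm ⟨i, h⟩ : Fin n) else none,
      Finset.mem_univ _, ?_⟩
    ext x
    simp only [Finset.mem_filter, Finset.mem_univ, true_and]
    constructor
    · rintro ⟨i, hi⟩
      by_cases h : (i : ℕ) < #X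
      · rw [dif_pos h] at hi
        have h2 := Option.some.inj hi
        rw [← h2]
        exact (e.symm ⟨i, h⟩).2
      · rw [dif_neg h] at hi
        exact absurd hi (by simp)
    · intro hx
      have h1 : ((e ⟨x, hx⟩ : Fin (#X)) : ℕ) < #X := (e ⟨x, hx⟩).2
      refine ⟨⟨(e ⟨x, hx⟩ : Fin (#X)), lt_of_lt_of_le h1 hX⟩, ?_⟩
      rw [dif_pos h1]
      simp
  refine (Finset.card_le_card hsub).trans (Finset.card_image_le.trans ?_)
  simp

theorem le_two_pow_le (n T : ℕ) (hn : 1 ≤ n) : T + 1 ≤ (n + 1) ^ T := by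
  have h1 : T < 2 ^ T := Nat.lt_two_pow_self
  have h2 : 2 ^ T ≤ (n + 1) ^ T := Nat.pow_le_pow_left (by omega) T
  omega

/-- the restriction of a configuration -/
def restr {n : ℕ} (Z : Finset (Fin n)) (φ : Cf n) : Cf n := fun u => if u ∈ Z then φ u else none

/-- the configurations supported on `Z` -/
def Cfg {n : ℕ} (Z : Finset (Fin n)) : Finset (Cf n) :=
  (univ : Finset (Z → Option (Fin n))).image fun g => fun u => if h : u ∈ Z then g ⟨u, h⟩ else none

theorem restr_mem {n : ℕ} (Z : Finset (Fin n)) (φ : Cf n) : restr Z φ ∈ Cfg Z := by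
  unfold Cfg restr
  rw [Finset.mem_image]
  refine ⟨fun u => φ u, Finset.mem_univ _, ?_⟩
  funext u
  by_cases h : u ∈ Z
  · simp [h]
  · simp [h]

theorem card_Cfg {n : ℕ} (Z : Finset (Fin n)) {C : ℕ} (h : #Z ≤ C) : #(Cfg Z) ≤ (n + 1) ^ C := by
  unfold Cfg
  refine Finset.card_image_le.trans ?_
  have h1 : #(univ : Finset (Z → Option (Fin n))) = (n + 1) ^ #Z := by
    rw [Finset.card_univ]
    simp
  rw [h1]
  exact Nat.pow_le_pow_right (by omega) h

theorem restr_eq {n : ℕ} {Z : Finset (Fin n)} (φ : Cf n) {u : Fin n} (h : u ∈ Z) :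
    restr Z φ u = φ u := if_pos h

open Classical in
/-- the kernels -/
noncomputable def H1 {n : ℕ} (D : Dat n) (w : Fin n → ℝ) : Finset (Fin n → ℝ) :=
  (univ : Finset (Fin n)).biUnion fun u => (Cfg (D.A.N u)).image fun φ z => ker D w (Xs D φ u) z

open Classical in
/-- the test functions of the functionals -/
noncomputable def H2 {n : ℕ} (D : Dat n) (w : Fin n → ℝ) (M : ℝ) (k : ℕ) : Finset (Fin n → ℝ) :=
  ((II D k) ×ˢ (univ : Finset (Fin n)) ×ˢ (univ : Finset (Fin n)) ×ˢ (range (D.T + 1)) ×ˢ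
    (range (D.T + 1))).biUnion fun p =>
      (Cfg (bal D.A (D.T + 1) p.2.1 ∪ D.A.N p.2.2.1)).image fun φ =>
        tst D w (qf D w M p.1 p.2.1) p.2.2.2.1 p.2.2.2.2 p.2.2.1 φ

theorem Xs_restr {n : ℕ} (D : Dat n) (φ : Cf n) (u : Fin n) {Z : Finset (Fin n)}
    (h : D.A.N u ⊆ Z) : Xs D (restr Z φ) u = Xs D φ u := by
  refine Xs_congr _ _ u fun p hp => restr_eq φ (h ?_)
  unfold Ea at hp
  exact (Finset.mem_filter.1 hp).1

theorem card_H1 {n k : ℕ} {D : Dat n} (w : Fin n → ℝ) (hA : ∀ v, #(D.A.N v) ≤ k) :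
    #(H1 D w) ≤ (n + 1) ^ (k + 1) := by
  classical
  unfold H1
  refine (Finset.card_biUnion_le_card_mul _ _ ((n + 1) ^ k) ?_).trans ?_
  · intro u _
    exact Finset.card_image_le.trans (card_Cfg _ (hA u))
  · rw [Finset.card_univ, Fintype.card_fin, pow_succ, mul_comm]
    exact Nat.mul_le_mul_left _ (Nat.le_succ n)

theorem card_H2 {n k T E : ℕ} (hn : 1 ≤ n) {D : Dat n} (w : Fin n → ℝ) (M : ℝ)
    (hA : ∀ v, #(D.A.N v) ≤ k) (hT : D.T = T) (hE : #(II D k) ≤ (n + 1) ^ E) :
    #(H2 D w M k) ≤ (n + 1) ^ (E + 2 + 2 * T + ((k + 1) ^ (T + 1) + k)) := by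
  classical
  unfold H2
  refine (Finset.card_biUnion_le_card_mul _ _ ((n + 1) ^ ((k + 1) ^ (T + 1) + k)) ?_).trans ?_
  · intro p _
    refine Finset.card_image_le.trans (card_Cfg _ ?_)
    refine (Finset.card_union_le _ _).trans ?_
    rw [hT]
    exact Nat.add_le_add (bal_card hA _ _) (hA _)
  · simp only [Finset.card_product, Finset.card_univ, Fintype.card_fin, Finset.card_range, hT]
    have h1 := le_two_pow_le n T hn
    have h2 : n ≤ n + 1 := Nat.le_succ n
    calc #(II D k) * (n * (n * ((T + 1) * (T + 1)))) * (n + 1) ^ ((k + 1) ^ (T + 1) + k)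
        ≤ (n + 1) ^ E * ((n + 1) * ((n + 1) * ((n + 1) ^ T * (n + 1) ^ T))) *
          (n + 1) ^ ((k + 1) ^ (T + 1) + k) := by gcongr
      _ = (n + 1) ^ (E + 2 + 2 * T + ((k + 1) ^ (T + 1) + k)) := by ring

theorem poly_exp_tendsto (E : ℕ) (c : ℝ) (hc : 0 < c) :
    Filter.Tendsto (fun n : ℕ => ((n : ℝ) + 1) ^ E * (2 * Real.exp (-(c * n)))) Filter.atTop
      (nhds 0) := by
  have h1 : Filter.Tendsto (fun n : ℕ => c * ((n : ℝ) + 1)) Filter.atTop Filter.atTop := by
    refine Filter.Tendsto.const_mul_atTop hc ?_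
    exact Filter.tendsto_atTop_add_const_right _ _ tendsto_natCast_atTop_atTop
  have h2 := ((Real.tendsto_pow_mul_exp_neg_atTop_nhds_zero E).comp h1).const_mul
    (2 * Real.exp c / c ^ E)
  rw [mul_zero] at h2
  refine h2.congr fun n => ?_
  simp only [Function.comp_apply]
  have h3 : Real.exp (-(c * ((n : ℝ) + 1))) = Real.exp (-(c * n)) * Real.exp (-c) := by
    rw [← Real.exp_add]
    ring_nf
  have h4 : Real.exp c * Real.exp (-c) = 1 := by
    rw [← Real.exp_add]
    simp
  rw [h3, mul_pow]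
  have h5 : c ^ E ≠ 0 := (pow_pos hc E).ne'
  field_simp
  exact h4

end CardAux

open CardAux

/-- `#II ≤ T n + n (n+1)^k` -/
theorem card_II (k T : ℕ) : ∃ E : ℕ, ∀ n ≥ 1, ∀ D : Dat n, D.T = T →
    #(II D k) ≤ (n + 1) ^ E := by
  classical
  refine ⟨T + k + 2, ?_⟩
  intro n hn D hD
  unfold II
  refine (Finset.card_union_le _ _).trans ?_
  have h1 : #(((Icc 1 D.T) ×ˢ (univ : Finset (Fin n))).image
      (Sum.inl : ℕ × Fin n → Ix n)) ≤ (n + 1) ^ (T + k + 1) := by
    refine Finset.card_image_le.trans ?_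
    rw [Finset.card_product, hD]
    simp only [Nat.card_Icc, add_tsub_cancel_right, Finset.card_univ, Fintype.card_fin]
    calc T * n ≤ (n + 1) ^ T * (n + 1) :=
          Nat.mul_le_mul (le_trans (Nat.le_succ T) (le_two_pow_le n T hn)) (Nat.le_succ n)
      _ = (n + 1) ^ (T + 1) := (pow_succ _ _).symm
      _ ≤ (n + 1) ^ (T + k + 1) := Nat.pow_le_pow_right (by omega) (by omega)
  have h2 : #((((univ : Finset (Finset (Fin n))).filter fun X => #X ≤ k) ×ˢ
      (univ : Finset (Fin n))).image (Sum.inr : Finset (Fin n) × Fin n → Ix n)) ≤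
      (n + 1) ^ (T + k + 1) := by
    refine Finset.card_image_le.trans ?_
    rw [Finset.card_product]
    simp only [Finset.card_univ, Fintype.card_fin]
    calc #((univ : Finset (Finset (Fin n))).filter fun X => #X ≤ k) * n
        ≤ (n + 1) ^ k * (n + 1) := Nat.mul_le_mul (card_small_sets n k) (Nat.le_succ n)
      _ = (n + 1) ^ (k + 1) := (pow_succ _ _).symm
      _ ≤ (n + 1) ^ (T + k + 1) := Nat.pow_le_pow_right (by omega) (by omega)
  calc _ ≤ (n + 1) ^ (T + k + 1) + (n + 1) ^ (T + k + 1) := Nat.add_le_add h1 h2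
    _ = (n + 1) ^ (T + k + 1) * 2 := by ring
    _ ≤ (n + 1) ^ (T + k + 1) * (n + 1) := Nat.mul_le_mul_left _ (by omega)
    _ = (n + 1) ^ (T + k + 2) := (pow_succ _ _).symm

/-- The function `tst (q i v) j s u φ` depends on `φ` only through its restriction to
`Z = bal (T+1) v ∪ A.N u` (`Psi_dep`, `Xs_congr`), so it is enough to take the `φ` that are `none`
outside `Z`: at most `(n+1)^(#Z)` of them, `#Z ≤ (k+1)^(T+1) + k`. `H` consists of these functions for
all `i ∈ II`, `v`, `u`, `s, j ≤ T`, of the functions `ker (Xs φ u)` (`φ` = `none` outside `A.N u`)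
and of `fs T / n`. Bounds: `ker_le`, `Psi_bd`, `fs_le_one`, `1 ≤ M`. The locality and the bounds
of `qf` are hypotheses (`qf_loc` in Round). Constants like `T + 1` are `≤ 2^T ≤ (n+1)^T`. -/
theorem exists_tests (k T : ℕ) : ∃ E : ℕ, ∀ n ≥ 1, ∀ (D : Dat n) (w : Fin n → ℝ) (ε d Λ M : ℝ)
    (Bs : Finset (Fin n)), D.T = T → StdX D k d → Wt w Λ → M = 2 * Λ * (k + 1) →
    Loc D (II D k) (qf D w M) →
    ∃ H, Tests D w (fs D w Bs D.T) M (II D k) (qf D w M) H ∧ #H ≤ (n + 1) ^ E := by
  classical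
  obtain ⟨E, hE⟩ := card_II k T
  refine ⟨(k + 1) + (E + 2 + 2 * T + ((k + 1) ^ (T + 1) + k)) + 2, ?_⟩
  intro n hn D w ε d Λ M Bs hT hS hw hM hL
  have hn0 : (0 : ℝ) < n := by exact_mod_cast hn
  have hΛ : 1 ≤ Λ := le_trans (hw.w1 ⟨0, hn⟩) (hw.w2 ⟨0, hn⟩)
  have hM1 : 1 ≤ M := by
    rw [hM]
    have hk : (0 : ℝ) ≤ k := Nat.cast_nonneg k
    nlinarith
  refine ⟨H1 D w ∪ H2 D w M k ∪ {fun z => fs D w Bs D.T z / n}, ⟨?_, ?_, ?_, ?_⟩, ?_⟩
  · intro h hh z
    rw [Finset.mem_union, Finset.mem_union] at hh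
    rcases hh with (hh | hh) | hh
    · unfold H1 at hh
      rw [Finset.mem_biUnion] at hh
      obtain ⟨u, _, hh⟩ := hh
      rw [Finset.mem_image] at hh
      obtain ⟨φ, _, rfl⟩ := hh
      refine ⟨ker_nonneg hS hw _ _, ?_⟩
      rw [hM]
      exact ker_le hS hw _ (Xs_card' hS φ u) z
    · unfold H2 at hh
      rw [Finset.mem_biUnion] at hh
      obtain ⟨p, hp, hh⟩ := hh
      rw [Finset.mem_image] at hh
      obtain ⟨φ, _, rfl⟩ := hh
      have hpI : p.1 ∈ II D k := (Finset.mem_product.1 hp).1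
      have h1 := Psi_bd hS hw (hL.bd p.1 hpI p.2.1) p.2.2.2.1 p.2.2.2.2
        (Function.update φ p.2.2.1 (some z))
      have h2 := ker_nonneg hS hw (Xs D φ p.2.2.1) z
      have h3 := ker_le hS hw _ (Xs_card' hS φ p.2.2.1) z
      rw [← hM] at h3
      unfold tst
      refine ⟨mul_nonneg h2 h1.1, ?_⟩
      calc ker D w (Xs D φ p.2.2.1) z * Psi D w p.2.2.2.1 p.2.2.2.2 (qf D w M p.1 p.2.1)
            (Function.update φ p.2.2.1 (some z))
          ≤ ker D w (Xs D φ p.2.2.1) z * 1 := mul_le_mul_of_nonneg_left h1.2 h2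
        _ ≤ M / n := by rw [mul_one]; exact h3
    · rw [Finset.mem_singleton] at hh
      subst hh
      refine ⟨div_nonneg (fs_pos _ _).le hn0.le, ?_⟩
      exact div_le_div_of_nonneg_right (le_trans (fs_le_one hS hw _ _) hM1) hn0.le
  · intro u φ
    rw [Finset.mem_union, Finset.mem_union]
    left; left
    unfold H1
    rw [Finset.mem_biUnion]
    refine ⟨u, Finset.mem_univ _, ?_⟩
    rw [Finset.mem_image]
    refine ⟨restr (D.A.N u) φ, restr_mem _ _, ?_⟩
    rw [Xs_restr D φ u (Finset.Subset.refl _)]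
  · intro i hi v u φ s hs j hj
    rw [Finset.mem_union, Finset.mem_union]
    left; right
    unfold H2
    rw [Finset.mem_biUnion]
    refine ⟨(i, v, u, j, s), ?_, ?_⟩
    · simp only [Finset.mem_product, Finset.mem_univ, Finset.mem_range, true_and]
      exact ⟨hi, by omega, by omega⟩
    · rw [Finset.mem_image]
      set Z := bal D.A (D.T + 1) v ∪ D.A.N u with hZ
      refine ⟨restr Z φ, restr_mem _ _, ?_⟩
      funext z
      unfold tst
      show ker D w (Xs D (restr Z φ) u) z * Psi D w j s (qf D w M i v)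
        (Function.update (restr Z φ) u (some z)) = _
      rw [Xs_restr D φ u (Finset.subset_union_right)]
      have hdep := Psi_dep hS hw 1 j s v (hL.dep i hi v)
      rw [hdep (Function.update (restr Z φ) u (some z)) (Function.update φ u (some z))]
      intro x hx
      by_cases hxu : x = u
      · subst hxu
        simp
      · rw [Function.update_of_ne hxu, Function.update_of_ne hxu]
        refine restr_eq φ ?_
        rw [hZ, Finset.mem_union]
        left
        exact bal_mono (by omega) v hx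
  · rw [Finset.mem_union]
    right
    exact Finset.mem_singleton_self _
  · have h1 := card_H1 w hS.dA
    have h2 := card_H2 hn w M hS.dA hT (hE n hn D hT)
    have h3 : (n + 1) ^ (k + 1) ≤
        (n + 1) ^ ((k + 1) + (E + 2 + 2 * T + ((k + 1) ^ (T + 1) + k))) :=
      Nat.pow_le_pow_right (by omega) (by omega)
    have h4 : (n + 1) ^ (E + 2 + 2 * T + ((k + 1) ^ (T + 1) + k)) ≤
        (n + 1) ^ ((k + 1) + (E + 2 + 2 * T + ((k + 1) ^ (T + 1) + k))) :=
      Nat.pow_le_pow_right (by omega) (by omega)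
    have h5 : 1 ≤ (n + 1) ^ ((k + 1) + (E + 2 + 2 * T + ((k + 1) ^ (T + 1) + k))) :=
      Nat.one_le_pow _ _ (by omega)
    have h6 : #(H1 D w ∪ H2 D w M k ∪ {fun z => fs D w Bs D.T z / n}) ≤
        #(H1 D w) + #(H2 D w M k) + 1 := by
      refine (Finset.card_union_le _ _).trans ?_
      rw [Finset.card_singleton]
      exact Nat.add_le_add_right (Finset.card_union_le _ _) 1
    set Q := (n + 1) ^ ((k + 1) + (E + 2 + 2 * T + ((k + 1) ^ (T + 1) + k))) with hQ
    calc _ ≤ #(H1 D w) + #(H2 D w M k) + 1 := h6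
      _ ≤ Q * (2 * 2) := by omega
      _ ≤ Q * ((n + 1) * (n + 1)) :=
          Nat.mul_le_mul_left _ (Nat.mul_le_mul (by omega) (by omega))
      _ = (n + 1) ^ ((k + 1) + (E + 2 + 2 * T + ((k + 1) ^ (T + 1) + k)) + 2) := by
          rw [hQ]
          ring

/-- polynomials against exponentials -/
theorem poly_exp (E : ℕ) (c c' : ℝ) (hc : 0 < c) (hc' : 0 < c') : ∃ n2 : ℕ, ∀ n ≥ n2,
    ((n : ℝ) + 1) ^ E * (2 * Real.exp (-(c * n))) +
      ((n : ℝ) + 1) ^ E * (2 * Real.exp (-(c' * n))) < 1 := by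
  have h := (poly_exp_tendsto E c hc).add (poly_exp_tendsto E c' hc')
  rw [add_zero] at h
  have h2 := h.eventually (gt_mem_nhds (show (0 : ℝ) < 1 by norm_num))
  exact Filter.eventually_atTop.1 h2

end Pool.Agent.Helper14.BECX
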