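import Pool.Agent.Helper14.BECX.Defs
/-! Project BECX, piece EdgeM: edge-maximal graphs. -/
set_option autoImplicit false
namespace Pool.Agent.Helper14.BECX
open Finset Pool.Agent.Helper5.BEC Pool.Agent.Helper5.BEC.C

/-- add the edge `ab` -/
def addE {n : ℕ} (A : Nb n) (a b : Fin n) (hab : a ≠ b) : Nb n where
  N u := A.N u ∪ ((if u = a then {b} else ∅) ∪ (if u = b then {a} else ∅))
  symm := by
    intro u v h
    simp only [mem_union] at h ⊢
    rcases h with h | h | h
    · exact Or.inl (A.symm _ _ h)
    · by_cases hv : v = a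
      · rw [if_pos hv, mem_singleton] at h
        right; right
        rw [if_pos h, mem_singleton]
        exact hv
      · rw [if_neg hv] at h
        simp at h
    · by_cases hv : v = b
      · rw [if_pos hv, mem_singleton] at h
        right; left
        rw [if_pos h, mem_singleton]
        exact hv
      · rw [if_neg hv] at h
        simp at h
  irr := by
    intro v h
    simp only [mem_union] at h
    rcases h with h | h | h
    · exact A.irr _ h
    · by_cases hv : v = a
      · rw [if_pos hv, mem_singleton] at h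
        exact hab (hv.symm.trans h)
      · rw [if_neg hv] at h
        simp at h
    · by_cases hv : v = b
      · rw [if_pos hv, mem_singleton] at h
        exact hab (h.symm.trans hv)
      · rw [if_neg hv] at h
        simp at h

theorem mem_addE {n : ℕ} (A : Nb n) (a b : Fin n) (hab : a ≠ b) (u u' : Fin n) :
    u' ∈ (addE A a b hab).N u ↔ u' ∈ A.N u ∨ (u = a ∧ u' = b) ∨ (u = b ∧ u' = a) := by
  unfold addE
  simp only [mem_union]
  have hba : b ≠ a := Ne.symm hab
  by_cases h1 : u = a <;> by_cases h2 : u = b <;> simp [h1, h2, hab, hba]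

theorem addE_deg {n : ℕ} (A : Nb n) (a b : Fin n) (hab : a ≠ b) (k : ℕ)
    (hA : ∀ v, #(A.N v) ≤ k) (ha : #(A.N a) < k) (hb : #(A.N b) < k) (v : Fin n) :
    #((addE A a b hab).N v) ≤ k := by
  by_cases h1 : v = a
  · have hsub : (addE A a b hab).N v ⊆ insert b (A.N a) := by
      intro x hx
      rw [mem_addE] at hx
      rw [mem_insert]
      rcases hx with hx | ⟨_, hx⟩ | ⟨hx, _⟩
      · right; rw [← h1]; exact hx
      · left; exact hx
      · exact absurd (h1.symm.trans hx) hab
    exact (card_le_card hsub).trans ((card_insert_le _ _).trans ha)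
  · by_cases h2 : v = b
    · have hsub : (addE A a b hab).N v ⊆ insert a (A.N b) := by
        intro x hx
        rw [mem_addE] at hx
        rw [mem_insert]
        rcases hx with hx | ⟨hx, _⟩ | ⟨_, hx⟩
        · right; rw [← h2]; exact hx
        · exact absurd hx h1
        · left; exact hx
      exact (card_le_card hsub).trans ((card_insert_le _ _).trans hb)
    · have hsub : (addE A a b hab).N v ⊆ A.N v := by
        intro x hx
        rw [mem_addE] at hx
        rcases hx with hx | ⟨hx, _⟩ | ⟨hx, _⟩
        · exact hx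
        · exact absurd hx h1
        · exact absurd hx h2
      exact (card_le_card hsub).trans (hA v)

theorem addE_sub {n : ℕ} (A : Nb n) (a b : Fin n) (hab : a ≠ b) (v : Fin n) :
    A.N v ⊆ (addE A a b hab).N v := by
  intro x hx
  rw [mem_addE]
  exact Or.inl hx

theorem addE_sum {n : ℕ} (A : Nb n) (a b : Fin n) (hab : a ≠ b) (hn : b ∉ A.N a) :
    ∑ v, #(A.N v) < ∑ v, #((addE A a b hab).N v) := by
  apply Finset.sum_lt_sum
  · intro v _
    exact card_le_card (addE_sub A a b hab v)
  · refine ⟨a, mem_univ a, card_lt_card ?_⟩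
    refine ⟨addE_sub A a b hab a, fun h => hn (h ?_)⟩
    rw [mem_addE]
    exact Or.inr (Or.inl ⟨rfl, rfl⟩)

/-- the structure if the edge `ab` cannot be added -/
theorem addE_str {n : ℕ} (A : Nb n) (a b : Fin n) (hab : a ≠ b) (k : ℕ) (hk : 2 ≤ k)
    (hA : ∀ v, #(A.N v) ≤ k) (hK : NoK A k) (ha : #(A.N a) < k) (hb : #(A.N b) < k)
    (hn : b ∉ A.N a) (hN : ¬ NoK (addE A a b hab) k) :
    (A.N a).Nonempty ∧ ∀ q ∈ A.N a, b ∈ A.N q ∧ A.N q ⊆ insert a (insert b (A.N a)) := by
  unfold NoK at hN
  push Not at hN
  obtain ⟨v, hv, hcl⟩ := hN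
  set A2 := addE A a b hab with hA2
  set K := insert v (A2.N v) with hKd
  have hvK : v ∉ A2.N v := A2.irr v
  have hKc : #K = k + 1 := by rw [hKd, card_insert_of_notMem hvK, hv]
  have hdeg := addE_deg A a b hab k hA ha hb
  have hKN : ∀ x ∈ K, A2.N x = K.erase x := by
    intro x hx
    symm
    apply Finset.eq_of_subset_of_card_le
    · intro y hy
      rw [mem_erase] at hy
      obtain ⟨hyx, hyK⟩ := hy
      rw [hKd, mem_insert] at hx hyK
      rcases hx with hx | hx
      · rcases hyK with hy | hy
        · exact absurd (hy.trans hx.symm) hyx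
        · rw [hx]; exact hy
      · rcases hyK with hy | hy
        · rw [hy]; exact A2.symm _ _ hx
        · exact hcl x hx y hy (Ne.symm hyx)
    · rw [card_erase_of_mem hx, hKc]
      exact hdeg x
  have hab2 : a ∈ K ∧ b ∈ K := by
    by_cases h1 : v = a
    · refine ⟨by rw [hKd, h1]; exact mem_insert_self _ _, ?_⟩
      rw [hKd, mem_insert]
      right
      rw [hA2, mem_addE]
      exact Or.inr (Or.inl ⟨h1, rfl⟩)
    · by_cases h2 : v = b
      · refine ⟨?_, by rw [hKd, h2]; exact mem_insert_self _ _⟩
        rw [hKd, mem_insert]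
        right
        rw [hA2, mem_addE]
        exact Or.inr (Or.inr ⟨h2, rfl⟩)
      · have hEq : A2.N v = A.N v := by
          ext x
          rw [hA2, mem_addE]
          constructor
          · rintro (hx | ⟨hx, _⟩ | ⟨hx, _⟩)
            · exact hx
            · exact absurd hx h1
            · exact absurd hx h2
          · exact Or.inl
        obtain ⟨u, hu, u', hu', hne, hnu⟩ := hK v (by rw [← hEq]; exact hv)
        have h3 := hcl u (by rw [hEq]; exact hu) u' (by rw [hEq]; exact hu') hne
        rw [hA2, mem_addE] at h3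
        rcases h3 with h3 | ⟨h3, h4⟩ | ⟨h3, h4⟩
        · exact absurd h3 hnu
        · constructor
          · rw [hKd, mem_insert, hEq, ← h3]; exact Or.inr hu
          · rw [hKd, mem_insert, hEq, ← h4]; exact Or.inr hu'
        · constructor
          · rw [hKd, mem_insert, hEq, ← h4]; exact Or.inr hu'
          · rw [hKd, mem_insert, hEq, ← h3]; exact Or.inr hu
  obtain ⟨haK, hbK⟩ := hab2
  have hNa : A.N a = (K.erase a).erase b := by
    rw [← hKN a haK]
    ext x
    rw [mem_erase, hA2, mem_addE]
    constructor
    · intro hx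
      exact ⟨fun h => hn (h ▸ hx), Or.inl hx⟩
    · rintro ⟨hxb, hx | ⟨_, hx⟩ | ⟨hx, _⟩⟩
      · exact hx
      · exact absurd hx hxb
      · exact absurd hx hab
  constructor
  · rw [← card_pos, hNa, card_erase_of_mem (mem_erase.mpr ⟨Ne.symm hab, hbK⟩),
      card_erase_of_mem haK, hKc]
    omega
  · intro q hq
    rw [hNa, mem_erase, mem_erase] at hq
    obtain ⟨hqb, hqa, hqK⟩ := hq
    have hNq : A.N q = K.erase q := by
      rw [← hKN q hqK]
      ext x
      rw [hA2, mem_addE]
      constructor
      · exact Or.inl
      · rintro (hx | ⟨hx, _⟩ | ⟨hx, _⟩)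
        · exact hx
        · exact absurd hx hqa
        · exact absurd hx hqb
    rw [hNq, hNa]
    constructor
    · exact mem_erase.mpr ⟨Ne.symm hqb, hbK⟩
    · intro x hx
      have hxK := (mem_erase.mp hx).2
      by_cases h1 : x = a
      · rw [h1]; exact mem_insert_self _ _
      · by_cases h2 : x = b
        · rw [h2]; exact mem_insert_of_mem (mem_insert_self _ _)
        · exact mem_insert_of_mem (mem_insert_of_mem (mem_erase.mpr ⟨h2, mem_erase.mpr ⟨h1, hxK⟩⟩))

/-- Edge-maximal graphs. Among all `A' ⊇ A` with degrees `≤ k` and `NoK` take one with the largest `∑ #(N v)` (bounded by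
`n k`; or induction on `n k - ∑ #(N v)`). Let `a, b` be different nonadjacent vertices of degree `< k`. Adding the edge `ab` violates
`NoK`: some vertex `v` has then degree `k` and complete neighbourhood, so it lies in a `K_{k+1}` that contains `a` and `b`
(otherwise it is a complete neighbourhood already before): `N a = N b`, `#(N a) = k-1`, and every `q ∈ N a` has
`N q = {a, b} ∪ (N a \ {q})`, `#(N q) = k`. `N a ≠ ∅`, so for given `a` at most one such `b` exists. Hence the set of vertices of
degree `< k` has at most `1 + 1 + (k-1)` elements. -/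
theorem edge_max {n : ℕ} (A : Nb n) (k : ℕ) (hk : 2 ≤ k) (hA : ∀ v, #(A.N v) ≤ k)
    (hK : NoK A k) :
    ∃ A' : Nb n, (∀ v, A.N v ⊆ A'.N v) ∧ (∀ v, #(A'.N v) ≤ k) ∧ NoK A' k ∧
      #(univ.filter fun v => #(A'.N v) ≠ k) ≤ k + 1 := by
  obtain ⟨m, hm⟩ : ∃ m, n * k - ∑ v, #(A.N v) ≤ m := ⟨_, le_rfl⟩
  induction m using Nat.strong_induction_on generalizing A with
  | _ m ih =>
    by_cases h : ∃ a b : Fin n, ∃ hab : a ≠ b, #(A.N a) < k ∧ #(A.N b) < k ∧ b ∉ A.N a ∧
        NoK (addE A a b hab) k
    · obtain ⟨a, b, hab, ha, hb, hn, hN⟩ := h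
      have h1 := addE_sum A a b hab hn
      have h2 := addE_deg A a b hab k hA ha hb
      have h3 : ∑ v, #((addE A a b hab).N v) ≤ n * k := by
        calc ∑ v, #((addE A a b hab).N v) ≤ ∑ _v : Fin n, k := sum_le_sum fun v _ => h2 v
          _ = n * k := by simp
      obtain ⟨A', h4, h5, h6, h7⟩ := ih (m - 1) (by omega) (addE A a b hab) h2 hN (by omega)
      exact ⟨A', fun v => (addE_sub A a b hab v).trans (h4 v), h5, h6, h7⟩
    · push Not at h
      refine ⟨A, fun v => Subset.rfl, hA, hK, ?_⟩
      set S := univ.filter fun v => #(A.N v) ≠ k with hS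
      have hSm : ∀ v ∈ S, #(A.N v) < k := by
        intro v hv
        rw [hS, mem_filter] at hv
        exact lt_of_le_of_ne (hA v) hv.2
      by_cases hemp : S = ∅
      · rw [hemp]; simp
      · obtain ⟨a, haS⟩ := nonempty_iff_ne_empty.mpr hemp
        have ha := hSm a haS
        by_cases hb : ∃ b ∈ S, a ≠ b ∧ b ∉ A.N a
        · obtain ⟨b, hbS, hab, hbn⟩ := hb
          have hb1 := hSm b hbS
          obtain ⟨⟨q, hq⟩, hall⟩ := addE_str A a b hab k hk hA hK ha hb1 hbn
            (h a b hab ha hb1 hbn)
          have hsub : S ⊆ insert a (insert b (A.N a)) := by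
            intro c hc
            by_cases hca : c = a
            · rw [hca]; exact mem_insert_self _ _
            · by_cases hcn : c ∈ A.N a
              · exact mem_insert_of_mem (mem_insert_of_mem hcn)
              · have hc1 := hSm c hc
                obtain ⟨_, hall2⟩ := addE_str A a c (Ne.symm hca) k hk hA hK ha hc1 hcn
                  (h a c (Ne.symm hca) ha hc1 hcn)
                exact (hall q hq).2 (hall2 q hq).1
          calc #S ≤ #(insert a (insert b (A.N a))) := card_le_card hsub
            _ ≤ #(insert b (A.N a)) + 1 := card_insert_le _ _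
            _ ≤ #(A.N a) + 1 + 1 := by
              have := card_insert_le b (A.N a)
              omega
            _ ≤ k + 1 := by omega
        · push Not at hb
          have hsub : S ⊆ insert a (A.N a) := by
            intro c hc
            by_cases hca : c = a
            · rw [hca]; exact mem_insert_self _ _
            · exact mem_insert_of_mem (hb c hc (Ne.symm hca))
          calc #S ≤ #(insert a (A.N a)) := card_le_card hsub
            _ ≤ #(A.N a) + 1 := card_insert_le _ _
            _ ≤ k + 1 := by omega

end Pool.Agent.Helper14.BECX
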