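import Pool.Agent.Helper14.BECX.Prod
import Pool.Agent.Helper14.BECX.Fs
/-! Stage C, piece Fin: a large incomplete packing with many swap candidates. -/
set_option autoImplicit false
namespace Pool.Agent.Helper14.BECX
open Finset Pool.Agent.Helper61.LE Pool.Agent.Helper5.BEC Pool.Agent.Helper5.BEC.C

variable {n k : ℕ} {D : Dat n} {w : Fin n → ℝ} {ε d Λ τ η ζ a b a0 M : ℝ}
  {Bs : Finset (Fin n)} {H : Finset (Fin n → ℝ)}

/-- `P_set` with `S = univ` and `ker_sum` -/
theorem P_total (hS : StdX D k d) {w : Fin n → ℝ} (hw : Wt w Λ) :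
    ∑ z, P D w z = #(univ.filter fun v => 1 ≤ D.r v) := by
  have h1 : ∀ v : Fin n, Psi D w D.T 0 (fun φ => ∑ z, ker D w (Xs D φ v) z) (φ0 n) = 1 := by
    intro v
    have h2 : (fun φ : Cf n => ∑ z, ker D w (Xs D φ v) z) = fun _ => (1 : ℝ) := by
      funext φ
      exact ker_sum hS hw _ (Xs_card' hS φ v)
    rw [h2, Psi_const hS hw]
  rw [P_set]
  simp only [h1, Finset.sum_const, nsmul_eq_mul, mul_one]
  have h3 : #(univ.filter fun v => 1 ≤ D.r v) =
      ∑ s ∈ Icc 1 D.T, #(univ.filter fun v => D.r v = s) := by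
    rw [Finset.card_eq_sum_card_fiberwise (f := D.r) (t := Icc 1 D.T)]
    · refine Finset.sum_congr rfl fun s hs => ?_
      congr 1
      ext v
      simp only [Finset.mem_filter, Finset.mem_univ, true_and]
      constructor
      · exact fun h => h.2
      · intro h
        rw [Finset.mem_Icc] at hs
        exact ⟨by omega, h⟩
    · intro v hv
      rw [Finset.mem_coe, Finset.mem_filter] at hv
      rw [Finset.mem_coe, Finset.mem_Icc]
      exact ⟨hv.2, hS.rT v⟩
  rw [h3]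
  push_cast
  rfl

/-- placed vertices: the smallest picker of every picked position -/
def Pl (φ : Cf n) : Finset (Fin n) :=
  univ.filter fun u => ∃ z, φ u = some z ∧ ∀ u' < u, φ u' ≠ some z

/-- positions -/
def sg (φ : Cf n) (u : Fin n) : Fin n := (φ u).getD u

theorem mem_Pl {φ : Cf n} {u : Fin n} :
    u ∈ Pl φ ↔ ∃ z, φ u = some z ∧ ∀ u' < u, φ u' ≠ some z := by
  unfold Pl
  simp only [mem_filter, mem_univ, true_and]

theorem sg_of_some {φ : Cf n} {u z : Fin n} (h : φ u = some z) : sg φ u = z := by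
  unfold sg
  rw [h]
  rfl

theorem Pl_inj (φ : Cf n) : Set.InjOn (sg φ) (Pl φ : Set (Fin n)) := by
  intro u hu v hv huv
  obtain ⟨x, hx, hux⟩ := mem_Pl.mp (Finset.mem_coe.mp hu)
  obtain ⟨y, hy, hvy⟩ := mem_Pl.mp (Finset.mem_coe.mp hv)
  rw [sg_of_some hx, sg_of_some hy] at huv
  subst huv
  rcases lt_trichotomy u v with h | h | h
  · exact absurd hx (hvy u h)
  · exact h
  · exact absurd hy (hux v h)

/-- adjacent placed vertices have different labels `≥ 1` (`rI`), so `val` applies -/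
theorem Pl_valid (hS : StdX D k d) {φ : Cf n} (hst : Stt D w k M Bs H D.T φ a b) :
    ∀ u ∈ Pl φ, ∀ v ∈ Pl φ, v ∈ D.A.N u → sg φ v ∉ D.B.N (sg φ u) := by
  intro u hu v hv hvu
  obtain ⟨x, hx, -⟩ := mem_Pl.mp hu
  obtain ⟨y, hy, -⟩ := mem_Pl.mp hv
  rw [sg_of_some hx, sg_of_some hy]
  have h1 := hst.lab u (by rw [hx]; exact Option.some_ne_none _)
  have h2 := hst.lab v (by rw [hy]; exact Option.some_ne_none _)
  have hne : D.r v ≠ D.r u := hS.rI u v hvu h1.1
  have huv : u ∈ D.A.N v := D.A.symm _ _ hvu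
  rcases lt_or_gt_of_ne hne with h | h
  · have hE : v ∈ Ea D u := by
      unfold Ea
      rw [mem_filter]
      exact ⟨hvu, h2.1, h⟩
    intro hc
    exact hst.val u v hE y x hy hx (D.B.symm _ _ hc)
  · have hE : u ∈ Ea D v := by
      unfold Ea
      rw [mem_filter]
      exact ⟨huv, h1.1, h⟩
    exact hst.val v u hE x y hx hy

/-- the number of unplaced vertices is at most the number of free positions -/
theorem unplaced_le (φ : Cf n) : #(univ \ Pl φ) ≤ #(Fr Bs φ) := by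
  classical
  have h1 : #((Pl φ).image (sg φ)) = #(Pl φ) := Finset.card_image_of_injOn (Pl_inj φ)
  have h2 : univ \ (Pl φ).image (sg φ) ⊆ Fr Bs φ := by
    intro z hz
    rw [mem_sdiff, mem_image] at hz
    unfold Fr
    rw [mem_filter]
    refine ⟨mem_univ _, Or.inr fun u hu => hz.2 ?_⟩
    have hne : (univ.filter fun v : Fin n => φ v = some z).Nonempty :=
      ⟨u, by rw [mem_filter]; exact ⟨mem_univ _, hu⟩⟩
    have hm := Finset.min'_mem _ hne
    rw [mem_filter] at hm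
    refine ⟨(univ.filter fun v : Fin n => φ v = some z).min' hne, ?_, sg_of_some hm.2⟩
    refine mem_Pl.mpr ⟨z, hm.2, fun u' hu' hc => ?_⟩
    have : (univ.filter fun v : Fin n => φ v = some z).min' hne ≤ u' :=
      Finset.min'_le _ _ (by rw [mem_filter]; exact ⟨mem_univ _, hc⟩)
    exact absurd hu' (not_lt.mpr this)
  calc #(univ \ Pl φ) = #(univ : Finset (Fin n)) - #(Pl φ) :=
        Finset.card_sdiff_of_subset (subset_univ _)
    _ = #(univ : Finset (Fin n)) - #((Pl φ).image (sg φ)) := by rw [h1]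
    _ = #(univ \ (Pl φ).image (sg φ)) := (Finset.card_sdiff_of_subset (subset_univ _)).symm
    _ ≤ #(Fr Bs φ) := Finset.card_le_card h2

/-- Number of unplaced vertices = number of unpicked positions `≤ #(Fr Bs φ)
≤ ∑_z fs T z + b n` (`qb` for the test `fs T / n`), `∑_{z ∈ Bs} ≤ #Bs ≤ (a0/ζ) n` (`P z - τ > ζ` on
`Bs`), `∑_{z ∉ Bs} fs T z ≤ ∑_{z ∉ Bs} (1 - P z) + n M/(T ζ)` (`fs_end`, `load_le`),
`∑_{z ∉ Bs} (1 - P z) ≤ n - ∑ P + ∑_{Bs} (P - 1) ≤ n - τ(1-η) n + a0 n` (`P_total`, `Lab.cnt` for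
`j = k`). -/
theorem left_le (hS : StdX D k d) (hw : Wt w Λ) (hM : M = 2 * Λ * (k + 1)) (hL : Lab D k τ η)
    (hζ : 2 * ζ = 1 - τ) (hζ0 : 0 < ζ) (hτ : 0 < τ) (hη : 0 ≤ η)
    (hBs : Bs = univ.filter fun z => 1 - ζ < P D w z)
    (ha0 : ∑ z, max (P D w z - τ) 0 ≤ a0 * n) (hD : 1 ≤ D.T)
    (hT : Tests D w (fs D w Bs D.T) M (II D k) (qf D w M) H)
    {φ : Cf n} (hst : Stt D w k M Bs H D.T φ a b) :
    (#(univ \ Pl φ) : ℝ) ≤ (2 * ζ + η + a0 + a0 / ζ + M / (D.T * ζ) + b) * n := by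
  classical
  have hn : (0 : ℝ) < n := by
    have := hS.n1
    exact_mod_cast this
  have hT0 : (0 : ℝ) < D.T := by exact_mod_cast hD
  have hΛ : 0 ≤ Λ := by
    have h1 := hw.w1 ⟨0, hS.n1⟩
    have h2 := hw.w2 ⟨0, hS.n1⟩
    linarith
  have hM0 : 0 ≤ M := by
    rw [hM]
    positivity
  have hζ1 : ζ ≤ 1 := by linarith
  -- number of free positions
  have hF : (#(Fr Bs φ) : ℝ) ≤ ∑ z, fs D w Bs D.T z + b * n := by
    have h1 := hst.qb _ hT.fT
    have h2 : ∑ z ∈ Fr Bs φ, fs D w Bs D.T z / n / fs D w Bs D.T z = (#(Fr Bs φ) : ℝ) / n := by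
      rw [Finset.sum_congr rfl (g := fun _ => (1 : ℝ) / n) (fun z _ => by
        have := (fs_pos (D := D) (w := w) (Bs := Bs) D.T z).ne'
        field_simp)]
      rw [Finset.sum_const, nsmul_eq_mul]
      ring
    simp only [h2] at h1
    rw [← Finset.sum_div] at h1
    have h3 := (abs_le.mp h1).2
    rw [← sub_div, div_le_iff₀ hn] at h3
    linarith
  -- the set Bs is small
  have hBsP : ∀ z ∈ Bs, ζ ≤ P D w z - τ := by
    intro z hz
    rw [hBs, mem_filter] at hz
    linarith [hz.2]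
  have hBsS : ∑ z ∈ Bs, max (P D w z - τ) 0 ≤ a0 * n :=
    (Finset.sum_le_sum_of_subset_of_nonneg (subset_univ _)
      (fun z _ _ => le_max_right _ _)).trans ha0
  have hBsC : (#Bs : ℝ) ≤ a0 / ζ * n := by
    have h1 : (#Bs : ℝ) * ζ ≤ ∑ z ∈ Bs, max (P D w z - τ) 0 := by
      rw [← nsmul_eq_mul, ← Finset.sum_const]
      exact Finset.sum_le_sum fun z hz => (hBsP z hz).trans (le_max_left _ _)
    have h2 : (#Bs : ℝ) * ζ ≤ a0 * n := h1.trans hBsS
    rw [div_mul_eq_mul_div, le_div_iff₀ hζ0]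
    exact h2
  -- the sum of fs
  have hout : ∀ z ∉ Bs, P D w z ≤ 1 - ζ := by
    intro z hz
    by_contra hc
    push Not at hc
    apply hz
    rw [hBs, mem_filter]
    exact ⟨mem_univ _, hc⟩
  have hload : ∀ s, 1 ≤ s → ∀ z, load D w s z ≤ 2 * M / D.T := by
    intro s hs z
    rw [hM]
    exact load_le hS hw hL s hs z
  have hsplit : ∀ g : Fin n → ℝ, ∑ z, g z = ∑ z ∈ Bs, g z + ∑ z ∈ univ \ Bs, g z := by
    intro g
    rw [add_comm, Finset.sum_sdiff (subset_univ _)]
  have hs1 : ∑ z ∈ Bs, fs D w Bs D.T z ≤ #Bs := by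
    calc ∑ z ∈ Bs, fs D w Bs D.T z ≤ ∑ z ∈ Bs, (1 : ℝ) :=
          Finset.sum_le_sum fun z _ => fs_le_one hS hw _ _
      _ = #Bs := by rw [Finset.sum_const, nsmul_eq_mul, mul_one]
  have hs2 : ∑ z ∈ univ \ Bs, fs D w Bs D.T z ≤
      ∑ z ∈ univ \ Bs, (1 - P D w z) + M / (D.T * ζ) * n := by
    have h1 : ∑ z ∈ univ \ Bs, fs D w Bs D.T z ≤
        ∑ z ∈ univ \ Bs, (1 - P D w z + 2 * M / D.T / (2 * ζ)) := by
      refine Finset.sum_le_sum fun z hz => ?_
      rw [mem_sdiff] at hz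
      exact fs_end hS hw hζ0 hζ1 hout hload z hz.2
    rw [Finset.sum_add_distrib] at h1
    refine h1.trans (add_le_add le_rfl ?_)
    rw [Finset.sum_const, nsmul_eq_mul]
    have h2 : 2 * M / D.T / (2 * ζ) = M / (D.T * ζ) := by
      field_simp
    rw [h2, mul_comm]
    refine mul_le_mul_of_nonneg_left ?_ (by positivity)
    have h3 : #(univ \ Bs) ≤ #(univ : Finset (Fin n)) := Finset.card_le_card (subset_univ _)
    rw [Finset.card_univ, Fintype.card_fin] at h3
    exact_mod_cast h3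
  have hs3 : ∑ z ∈ univ \ Bs, (1 - P D w z) ≤ (2 * ζ + η) * n + a0 * n := by
    have h1 := hsplit (fun z => 1 - P D w z)
    have h2 : ∑ z, (1 - P D w z) = n - ∑ z, P D w z := by
      rw [Finset.sum_sub_distrib, Finset.sum_const, Finset.card_univ, Fintype.card_fin,
        nsmul_eq_mul, mul_one]
    have h3 : -(∑ z ∈ Bs, (1 - P D w z)) ≤ a0 * n := by
      rw [← Finset.sum_neg_distrib]
      refine (Finset.sum_le_sum fun z hz => ?_).trans hBsS
      refine le_trans ?_ (le_max_left _ _)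
      linarith
    have h4 : τ * (1 - η) * n ≤ ∑ z, P D w z := by
      rw [P_total hS hw]
      have h5 := hL.cnt k le_rfl
      have h6 : ((k : ℝ) + 1) / (k + 1) = 1 := div_self (by positivity)
      rw [h6] at h5
      refine h5.trans ?_
      have h7 : #(univ.filter fun v => 1 ≤ D.r v ∧ #(Ea D v) ≤ k) ≤
          #(univ.filter fun v => 1 ≤ D.r v) := by
        refine Finset.card_le_card ?_
        intro v hv
        rw [mem_filter] at hv ⊢
        exact ⟨hv.1, hv.2.1⟩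
      exact_mod_cast h7
    have hτ1 : τ ≤ 1 := by linarith
    have h8 : τ * η * n ≤ η * n := by
      have : τ * η ≤ η := by nlinarith
      exact mul_le_mul_of_nonneg_right this hn.le
    have h9 : (n : ℝ) - ∑ z, P D w z ≤ (2 * ζ + η) * n := by
      have : (n : ℝ) - τ * (1 - η) * n = (1 - τ) * n + τ * η * n := by ring
      rw [hζ]
      linarith
    linarith
  have hfinal : (#(Fr Bs φ) : ℝ) ≤ (2 * ζ + η + a0 + a0 / ζ + M / (D.T * ζ) + b) * n := by
    have h1 := hsplit (fs D w Bs D.T)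
    have h2 : (2 * ζ + η + a0 + a0 / ζ + M / (D.T * ζ) + b) * n =
        (2 * ζ + η) * n + a0 * n + a0 / ζ * n + M / (D.T * ζ) * n + b * n := by ring
    rw [h2]
    linarith
  have h0 : (#(univ \ Pl φ) : ℝ) ≤ #(Fr Bs φ) := by
    exact_mod_cast unplaced_le (Bs := Bs) φ
  exact h0.trans hfinal

/-- Swap candidates: `∑_v qcand v φ ≥ Psi T 0 (∑ qcand) φ0 - a n` (`qa` for the index `inr (X,y)`,
`Psi 0 = id`), `Psi_sum`; a vertex counted by `qcand` that is in `Pl φ` is a candidate. -/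
theorem cand_geX {c : ℝ} (hC : CandH D w k c)
    {φ : Cf n} (hst : Stt D w k M Bs H D.T φ a b) (X : Finset (Fin n)) (hX : #X ≤ k)
    (y : Fin n) :
    (c - a) * n - #(univ \ Pl φ) ≤
      #((Pl φ).filter fun u => sg φ u ∈ Av D.B X ∧
        ∀ p ∈ D.A.N u, p ∈ Pl φ → sg φ p ∉ D.B.N y) := by
  classical
  -- lower bound in the ideal process
  have hlow : c * n ≤ Psi D w D.T 0 (fun φ => ∑ v, qcand D X y v φ) (φ0 n) := by
    rw [Psi_sum]
    exact hC X hX y
  -- the real process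
  have hmem : (Sum.inr (X, y) : Ix n) ∈ II D k := by
    unfold II
    rw [mem_union]
    refine Or.inr (mem_image.mpr ⟨(X, y), ?_, rfl⟩)
    rw [mem_product]
    exact ⟨by rw [mem_filter]; exact ⟨mem_univ _, hX⟩, mem_univ _⟩
  have hqa := hst.qa _ hmem
  rw [Nat.sub_self] at hqa
  have hreal : Psi D w D.T 0 (fun φ => ∑ v, qcand D X y v φ) (φ0 n) - a * n ≤
      ∑ v, qcand D X y v φ := by
    have h1 := (abs_le.mp hqa).1
    have h2 : Psi D w 0 D.T (fun φ => ∑ v, qf D w M (Sum.inr (X, y)) v φ) φ =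
        ∑ v, qcand D X y v φ := rfl
    have h3 : Psi D w D.T 0 (fun φ => ∑ v, qf D w M (Sum.inr (X, y)) v φ) (φ0 n) =
        Psi D w D.T 0 (fun φ => ∑ v, qcand D X y v φ) (φ0 n) := rfl
    rw [h2, h3] at h1
    linarith
  -- counting
  have hcount : ∑ v, qcand D X y v φ ≤
      #((Pl φ).filter fun u => sg φ u ∈ Av D.B X ∧
        ∀ p ∈ D.A.N u, p ∈ Pl φ → sg φ p ∉ D.B.N y) + #(univ \ Pl φ) := by
    have h1 : ∑ v, qcand D X y v φ = #(univ.filter fun v : Fin n =>
        1 ≤ D.r v ∧ (∃ z ∈ Av D.B X, φ v = some z) ∧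
          ∀ p ∈ D.A.N v, ∀ z ∈ D.B.N y, φ p ≠ some z) := by
      unfold qcand
      rw [Finset.sum_boole]
    rw [h1, ← Nat.cast_add, Nat.cast_le, ← Finset.card_union_of_disjoint]
    · refine Finset.card_le_card ?_
      intro v hv
      rw [mem_filter] at hv
      obtain ⟨-, hr, ⟨z, hz, hvz⟩, hp⟩ := hv
      rw [mem_union]
      by_cases hP : v ∈ Pl φ
      · left
        rw [mem_filter]
        refine ⟨hP, by rw [sg_of_some hvz]; exact hz, ?_⟩
        intro p hpn hpP hcon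
        obtain ⟨x, hx, -⟩ := mem_Pl.mp hpP
        rw [sg_of_some hx] at hcon
        exact hp p hpn x hcon hx
      · right
        rw [mem_sdiff]
        exact ⟨mem_univ _, hP⟩
    · rw [Finset.disjoint_left]
      intro v hv hv'
      rw [mem_filter] at hv
      rw [mem_sdiff] at hv'
      exact hv'.2 hv.1
  have hexp : (c - a) * n = c * n - a * n := by ring
  rw [hexp]
  linarith

end Pool.Agent.Helper14.BECX
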