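import Pool.Agent.Helper14.BECX.Iter
import Pool.Agent.Helper14.BECX.Card
import Pool.Agent.Helper14.BECX.Fin
import Pool.Agent.Helper5.BEC.C.Comp
/-! Project BECX, piece Finish: from balanced weights to a packing. -/
set_option autoImplicit false
namespace Pool.Agent.Helper14.BECX
open Finset Pool.Agent.Helper5.BEC Pool.Agent.Helper5.BEC.C

/-- The real process and the completion: balanced weights and many swap candidates give a packing. -/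
theorem finish (k : ℕ) (_hk : 1 ≤ k) (c0 : ℝ) (h0 : 0 < c0) (h1 : c0 ≤ 1) (κ : ℝ) (hκ0 : 0 < κ)
    (hκ : κ * (64 * (k + 1)) ≤ c0) (L : ℝ) (hL0 : 0 < L) :
    ∃ T0 : ℕ, ∀ T ≥ T0, ∃ n0 : ℕ, ∀ n ≥ n0, ∀ (D : Dat n) (d η : ℝ) (w : Fin n → ℝ),
      D.T = T → StdX D k d → Wt w (Real.exp L) → 0 ≤ η → η ≤ κ → Lab D k (1 - 2 * κ) η →
      ∑ z, max (P D w z - (1 - 2 * κ)) 0 ≤ κ * κ * n → CandH D w k c0 →
      ∃ τ : Equiv.Perm (Fin n), ∀ u v, u ∈ D.A.N v → τ u ∉ D.B.N (τ v) := by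
  obtain ⟨K, hK⟩ : ∃ K : ℝ, K = (k : ℝ) + 1 := ⟨_, rfl⟩
  have hk0 : (0 : ℝ) ≤ k := Nat.cast_nonneg k
  have hK1 : 1 ≤ K := by rw [hK]; linarith
  have hK0 : 0 < K := by linarith
  have hκe : κ * (64 * K) ≤ c0 := by rw [hK]; exact hκ
  have hκ64 : κ * 64 ≤ κ * (64 * K) := mul_le_mul_of_nonneg_left (by linarith) hκ0.le
  have hκ1 : κ * 64 ≤ 1 := hκ64.trans (hκe.trans h1)
  have hκκ : κ * κ ≤ κ := mul_le_of_le_one_right hκ0.le (by linarith)
  obtain ⟨M, hM⟩ : ∃ M : ℝ, M = 2 * Real.exp L * (k + 1) := ⟨_, rfl⟩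
  have hM1 : 1 ≤ M := by
    have h2 : 1 ≤ Real.exp L := Real.one_le_exp hL0.le
    have h3 : 1 ≤ (k : ℝ) + 1 := by linarith
    rw [hM]
    exact one_le_mul_of_one_le_of_one_le (by linarith) h3
  refine ⟨⌈M / (κ * κ)⌉₊ + 1, fun T hTT => ?_⟩
  have hT1 : 1 ≤ T := by omega
  have hT0 : (0 : ℝ) < T := by exact_mod_cast hT1
  have hTM : M / (κ * κ) ≤ T := by
    have h2 := Nat.le_ceil (M / (κ * κ))
    have h3 : (⌈M / (κ * κ)⌉₊ : ℝ) ≤ T := by exact_mod_cast (by omega : ⌈M / (κ * κ)⌉₊ ≤ T)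
    linarith
  have hMT : M / (T * κ) ≤ κ := by
    rw [div_le_iff₀ (by positivity)] at hTM ⊢
    linarith
  obtain ⟨t, ht0, nI, hnI⟩ := iter k T M κ κ hM1 hκ0 (by linarith) hκ0
  obtain ⟨E1, hE1⟩ := card_II k T
  obtain ⟨E2, hE2⟩ := exists_tests k T
  obtain ⟨nP, hnP⟩ := poly_exp (max E1 E2) (t ^ 2 / (4 * (((k : ℝ) + 1) ^ (T + 1)) ^ 2))
    (t ^ 2 * κ ^ 2 / (16 * M ^ 2)) (by positivity) (by positivity)
  refine ⟨nI + nP + ⌈4 * k / c0⌉₊ + 1, ?_⟩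
  intro n hn D d η w hDT hS hw hη0 hηκ hLab hwP hCand
  have hn1 : 1 ≤ n := by omega
  have hnR : (1 : ℝ) ≤ n := by exact_mod_cast hn1
  obtain ⟨Bs, hBs⟩ : ∃ Bs : Finset (Fin n), Bs = univ.filter fun z => 1 - κ < P D w z := ⟨_, rfl⟩
  have hBs' : ∀ z ∉ Bs, P D w z ≤ 1 - κ := by
    intro z hz
    rw [hBs, mem_filter, not_and] at hz
    exact not_lt.1 (hz (mem_univ z))
  have hloc : Loc D (II D k) (qf D w M) := qf_loc hS hw hM
  obtain ⟨H, hH, hHc⟩ := hE2 n hn1 D w 0 d (Real.exp L) M Bs hDT hS hw hM hloc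
  have hIIc := hE1 n hn1 D hDT
  have hcard : #(II D k) * (2 * Real.exp (-(t ^ 2 * n / (4 * (((k : ℝ) + 1) ^ (D.T + 1)) ^ 2)))) +
        #H * (2 * Real.exp (-(t ^ 2 * κ ^ 2 * n / (16 * M ^ 2)))) < 1 := by
    have h2 := hnP n (by omega)
    have e1 : t ^ 2 * n / (4 * (((k : ℝ) + 1) ^ (D.T + 1)) ^ 2) =
        t ^ 2 / (4 * (((k : ℝ) + 1) ^ (T + 1)) ^ 2) * n := by rw [hDT]; ring
    have e2 : t ^ 2 * κ ^ 2 * n / (16 * M ^ 2) = t ^ 2 * κ ^ 2 / (16 * M ^ 2) * n := by ring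
    rw [e1, e2]
    have h3 : (#(II D k) : ℝ) ≤ ((n : ℝ) + 1) ^ (max E1 E2) := by
      have h4 : (#(II D k) : ℝ) ≤ ((n : ℝ) + 1) ^ E1 := by exact_mod_cast hIIc
      exact h4.trans (pow_le_pow_right₀ (by linarith) (le_max_left _ _))
    have h5 : (#H : ℝ) ≤ ((n : ℝ) + 1) ^ (max E1 E2) := by
      have h4 : (#H : ℝ) ≤ ((n : ℝ) + 1) ^ E2 := by exact_mod_cast hHc
      exact h4.trans (pow_le_pow_right₀ (by linarith) (le_max_right _ _))
    refine lt_of_le_of_lt (add_le_add (mul_le_mul_of_nonneg_right h3 (by positivity))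
      (mul_le_mul_of_nonneg_right h5 (by positivity))) h2
  obtain ⟨φ, hφ⟩ := hnI n (by omega) D w 0 d (Real.exp L) Bs H hDT hS hw hM hBs' hH hcard
  have hleft := left_le (τ := 1 - 2 * κ) hS hw hM hLab (ζ := κ) (by ring) hκ0 (by linarith) hη0 hBs
    (a0 := κ * κ) hwP (by rw [hDT]; exact hT1) hH hφ
  have hcand := fun X hX y => cand_geX hCand hφ X hX y
  -- number of unplaced vertices
  obtain ⟨U, hU⟩ : ∃ U : ℝ, U = (#(univ \ Pl φ) : ℝ) := ⟨_, rfl⟩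
  have hU1 : U ≤ 7 * κ * n := by
    rw [hU]
    refine hleft.trans (mul_le_mul_of_nonneg_right ?_ (by positivity))
    rw [hDT, mul_div_cancel_right₀ _ hκ0.ne']
    have h2 : κ * κ ≤ κ := hκκ
    linarith
  have hmain : 2 * (K * U) + k < c0 / 2 * n := by
    have h2 : K * U ≤ K * (7 * κ * n) := mul_le_mul_of_nonneg_left hU1 hK0.le
    have h3 : κ * (64 * K) * n ≤ c0 * n := mul_le_mul_of_nonneg_right hκe (by positivity)
    have h3' : K * (7 * κ * n) = 7 / 64 * (κ * (64 * K) * n) := by ring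
    have h4 : 4 * k / c0 < n := by
      have h5 := Nat.le_ceil (4 * k / c0)
      have h6 : (⌈4 * k / c0⌉₊ : ℝ) < n := by exact_mod_cast (show ⌈4 * k / c0⌉₊ < n by omega)
      linarith
    rw [div_lt_iff₀ h0] at h4
    linarith
  have hdone := complete (A := D.A) (B := D.B) hS.dA (Pl φ) (sg φ) (Pl_inj φ) ?_ (c0 / 2) ?_ ?_
  · exact hdone
  · exact Pl_valid hS hφ
  · intro X hX y
    have h2 := hcand X hX y
    rw [← hU] at h2
    refine le_trans ?_ h2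
    have h7 : 16 * κ ≤ c0 := by linarith
    have h8 := mul_le_mul_of_nonneg_right h7 (show (0 : ℝ) ≤ n by positivity)
    linarith
  · rw [← hU, ← hK, mul_assoc]
    exact hmain

end Pool.Agent.Helper14.BECX
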