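import Pool.Agent.Helper14.BECX.Defs
import Pool.Agent.Helper5.BEC.C.LabB
/-! Project BECX, piece LabO: labels with prescribed order patterns. -/
set_option autoImplicit false
namespace Pool.Agent.Helper14.BECX
open Finset Pool.Agent.Helper61.LE Pool.Agent.Helper5.BEC Pool.Agent.Helper5.BEC.C


theorem LabO_count_le {n : ℕ} {Ω : Type*} (A : Nb n) (k : ℕ)
    (hk : ∀ v, #(A.N v) ≤ k) (Q : (Fin n → Ω) → Fin n → Prop) [∀ ω, DecidablePred (Q ω)]
    (hQ : ∀ v, ∀ ω ω' : Fin n → Ω, (∀ u ∈ bal A 3 v, ω u = ω' u) → (Q ω v → Q ω' v))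
    (i : Fin n) (ω : Fin n → Ω) (a b : Ω) :
    (#(univ.filter fun v => Q (Function.update ω i a) v) : ℝ) -
      #(univ.filter fun v => Q (Function.update ω i b) v) ≤ ((k + 1) ^ 3 : ℕ) + 1 := by
  have hsub : (univ.filter fun v => Q (Function.update ω i a) v) ⊆
      (univ.filter fun v => Q (Function.update ω i b) v) ∪ bal A 3 i := by
    intro v hv
    rw [mem_union]
    by_cases hvi : v ∈ bal A 3 i
    · exact Or.inr hvi
    · left
      rw [mem_filter] at hv ⊢
      refine ⟨mem_univ _, hQ v _ _ ?_ hv.2⟩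
      intro u hu
      have hui : u ≠ i := by
        rintro rfl
        exact hvi (bal_symm hu)
      rw [Function.update_of_ne hui, Function.update_of_ne hui]
  have h1 := (card_le_card hsub).trans (card_union_le _ _)
  have h2 := bal_card hk 3 i
  have h3 : #(univ.filter fun v => Q (Function.update ω i a) v) ≤
      #(univ.filter fun v => Q (Function.update ω i b) v) + (k + 1) ^ 3 := by omega
  have h4 : (#(univ.filter fun v => Q (Function.update ω i a) v) : ℝ) ≤
      #(univ.filter fun v => Q (Function.update ω i b) v) + ((k + 1) ^ 3 : ℕ) := by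
    exact_mod_cast h3
  linarith

theorem LabO_count_abs {n : ℕ} {Ω : Type*} (A : Nb n) (k : ℕ)
    (hk : ∀ v, #(A.N v) ≤ k) (Q : (Fin n → Ω) → Fin n → Prop) [∀ ω, DecidablePred (Q ω)]
    (hQ : ∀ v, ∀ ω ω' : Fin n → Ω, (∀ u ∈ bal A 3 v, ω u = ω' u) → (Q ω v → Q ω' v))
    (i : Fin n) (ω : Fin n → Ω) (a b : Ω) :
    |(#(univ.filter fun v => Q (Function.update ω i a) v) : ℝ) -
      #(univ.filter fun v => Q (Function.update ω i b) v)| ≤ ((k + 1) ^ 3 : ℕ) + 1 := by
  rw [abs_le]
  constructor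
  · have := LabO_count_le A k hk Q hQ i ω b a
    linarith
  · exact LabO_count_le A k hk Q hQ i ω a b

theorem LabO_ball_of_nbr {n : ℕ} {A : Nb n} {v : Fin n} {Ω : Type*} {ω ω' : Fin n → Ω}
    (h : ∀ u ∈ bal A 3 v, ω u = ω' u) : ∀ u ∈ insert v (A.N v), ω u = ω' u := by
  intro u hu
  refine h u (bal_mono (by norm_num : 1 ≤ 3) v ?_)
  rw [bal_one]
  exact hu

/-- the rank of `p` in the ball around `v` -/
def LabO_rk {n : ℕ} (A : Nb n) (e : Fin n → ℕ) (v p : Fin n) : ℕ :=
  #((bal A 3 v).filter fun q => e q < e p)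

/-- the labels in the ball around `v` lie in the blocks given by the ranks -/
def LabO_E {n T : ℕ} (A : Nb n) (b : ℕ) (e : Fin n → ℕ) (v : Fin n) (l : Fin n → Fin T) : Prop :=
  ∀ p ∈ bal A 3 v, LabO_rk A e v p * b ≤ (l p : ℕ) ∧ (l p : ℕ) < (LabO_rk A e v p + 1) * b

theorem LabO_rk_lt {n : ℕ} (A : Nb n) (e : Fin n → ℕ) {v p : Fin n} (hp : p ∈ bal A 3 v) :
    LabO_rk A e v p < #(bal A 3 v) := by
  refine card_lt_card ?_
  rw [Finset.ssubset_iff_of_subset (filter_subset _ _)]
  refine ⟨p, hp, ?_⟩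
  rw [mem_filter]
  exact fun h => lt_irrefl _ h.2

theorem LabO_rk_mono {n : ℕ} (A : Nb n) (e : Fin n → ℕ) {v p q : Fin n} (hp : p ∈ bal A 3 v)
    (h : e p < e q) : LabO_rk A e v p < LabO_rk A e v q := by
  refine card_lt_card ?_
  rw [Finset.ssubset_iff_of_subset]
  · refine ⟨p, ?_, ?_⟩
    · rw [mem_filter]
      exact ⟨hp, h⟩
    · rw [mem_filter]
      exact fun h => lt_irrefl _ h.2
  · intro x hx
    rw [mem_filter] at hx ⊢
    exact ⟨hx.1, hx.2.trans h⟩

theorem LabO_E_lt {n T : ℕ} {A : Nb n} {b : ℕ} {e : Fin n → ℕ} {v : Fin n} {l : Fin n → Fin T}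
    (hE : LabO_E A b e v l) {p q : Fin n} (hp : p ∈ bal A 3 v) (hq : q ∈ bal A 3 v)
    (h : e p < e q) : (l p : ℕ) < l q := by
  have h1 := (hE p hp).2
  have h2 := (hE q hq).1
  have h3 := LabO_rk_mono A e hp h
  have h4 : (LabO_rk A e v p + 1) * b ≤ LabO_rk A e v q * b := Nat.mul_le_mul_right _ h3
  omega

theorem LabO_E_ne {n T : ℕ} {A : Nb n} {b : ℕ} {e : Fin n → ℕ} {v : Fin n} {l : Fin n → Fin T}
    (hE : LabO_E A b e v l) (he : Function.Injective e) {p q : Fin n} (hp : p ∈ bal A 3 v)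
    (hq : q ∈ bal A 3 v) (h : p ≠ q) : l p ≠ l q := by
  intro hl
  rcases lt_trichotomy (e p) (e q) with h1 | h1 | h1
  · have := LabO_E_lt hE hp hq h1
    rw [hl] at this
    exact lt_irrefl _ this
  · exact h (he h1)
  · have := LabO_E_lt hE hq hp h1
    rw [hl] at this
    exact lt_irrefl _ this

theorem LabO_E_loc {n T : ℕ} {A : Nb n} {b : ℕ} {e : Fin n → ℕ} {v : Fin n}
    {l l' : Fin n → Fin T} (h : ∀ u ∈ bal A 3 v, l u = l' u) (hE : LabO_E A b e v l) :
    LabO_E A b e v l' := by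
  intro p hp
  rw [← h p hp]
  exact hE p hp

theorem LabO_card_block {T x y : ℕ} (hy : y ≤ T) :
    #(univ.filter fun a : Fin T => x ≤ (a : ℕ) ∧ (a : ℕ) < y) = y - x := by
  have h1 : ((univ.filter fun a : Fin T => x ≤ (a : ℕ) ∧ (a : ℕ) < y).image Fin.val) =
      Finset.Ico x y := by
    ext z
    rw [mem_image, Finset.mem_Ico]
    constructor
    · rintro ⟨a, ha, rfl⟩
      rw [mem_filter] at ha
      exact ha.2
    · intro hz
      refine ⟨⟨z, by omega⟩, ?_, rfl⟩
      rw [mem_filter]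
      exact ⟨mem_univ _, hz⟩
  rw [← card_image_of_injective _ Fin.val_injective, h1, Nat.card_Ico]

theorem LabO_prob {n T m : ℕ} (A : Nb n) (e : Fin n → ℕ) (v : Fin n) (hm : 1 ≤ m)
    (hT : 2 * m ≤ T) (hb : #(bal A 3 v) ≤ m) :
    (1 / (2 * (m : ℝ))) ^ m ≤ PP (fun (_ : Fin n) (_ : Fin T) => (1 : ℝ) / T)
      (fun ω => LabO_E A (T / m) e v ω) := by
  classical
  have hT1 : 1 ≤ T := by omega
  have hT' : (0 : ℝ) < T := by exact_mod_cast hT1
  have hm' : (0 : ℝ) < m := by exact_mod_cast hm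
  have hμ : IsProb (fun (_ : Fin n) (_ : Fin T) => (1 : ℝ) / T) := by
    refine ⟨fun _ _ => by positivity, fun _ => ?_⟩
    rw [sum_const, card_univ, Fintype.card_fin, nsmul_eq_mul]
    field_simp
  have h1 : PP (fun (_ : Fin n) (_ : Fin T) => (1 : ℝ) / T)
      (fun ω => LabO_E A (T / m) e v ω) =
      ∏ p ∈ bal A 3 v, PP (fun (_ : Fin n) (_ : Fin T) => (1 : ℝ) / T)
        (fun ω => LabO_rk A e v p * (T / m) ≤ (ω p : ℕ) ∧
          (ω p : ℕ) < (LabO_rk A e v p + 1) * (T / m)) := by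
    refine Pool.Agent.Helper5.AVD.PP_forall_of_disjoint hμ (bal A 3 v)
      (fun p ω => LabO_rk A e v p * (T / m) ≤ (ω p : ℕ) ∧
          (ω p : ℕ) < (LabO_rk A e v p + 1) * (T / m)) (fun p => {p}) ?_ ?_
    · intro p _ ω ω' hω
      simp only [hω p (mem_singleton_self _)]
    · intro p _ q _ hpq
      simpa using hpq
  rw [h1]
  have hdiv : m * (T / m) ≤ T := Nat.mul_div_le T m
  have hdiv2 : T < m * (T / m) + m := by
    have h2 := Nat.div_add_mod T m
    have h3 := Nat.mod_lt T (by omega : 0 < m)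
    omega
  have h2 : ∀ p ∈ bal A 3 v, 1 / (2 * (m : ℝ)) ≤ PP (fun (_ : Fin n) (_ : Fin T) => (1 : ℝ) / T)
        (fun ω => LabO_rk A e v p * (T / m) ≤ (ω p : ℕ) ∧
          (ω p : ℕ) < (LabO_rk A e v p + 1) * (T / m)) := by
    intro p hp
    have h3 := Pool.Agent.Helper5.AVD.PP_coord hμ p
      (fun a : Fin T => LabO_rk A e v p * (T / m) ≤ (a : ℕ) ∧
          (a : ℕ) < (LabO_rk A e v p + 1) * (T / m))
    rw [h3, ← sum_filter, sum_const, nsmul_eq_mul]
    have hr := LabO_rk_lt A e hp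
    have h4 : (LabO_rk A e v p + 1) * (T / m) ≤ m * (T / m) :=
      Nat.mul_le_mul_right _ (by omega)
    rw [LabO_card_block (h4.trans hdiv)]
    have h5 : (LabO_rk A e v p + 1) * (T / m) - LabO_rk A e v p * (T / m) = T / m := by
      rw [Nat.add_mul, one_mul, Nat.add_sub_cancel_left]
    rw [h5, mul_one_div, div_le_div_iff₀ (by positivity) hT']
    have h6 : T ≤ (T / m) * (2 * m) := by
      have : (T / m) * (2 * m) = 2 * (m * (T / m)) := by ring
      omega
    have h7 : (T : ℝ) ≤ ((T / m : ℕ) : ℝ) * (2 * m) := by exact_mod_cast h6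
    linarith
  calc (1 / (2 * (m : ℝ))) ^ m ≤ (1 / (2 * (m : ℝ))) ^ #(bal A 3 v) := by
        refine pow_le_pow_of_le_one (by positivity) ?_ hb
        rw [div_le_one (by positivity)]
        have : (1 : ℝ) ≤ m := by exact_mod_cast hm
        linarith
    _ = ∏ _p ∈ bal A 3 v, 1 / (2 * (m : ℝ)) := by rw [prod_const]
    _ ≤ _ := prod_le_prod (fun _ _ => by positivity) h2

/-- properties of the labels in the first step -/
def LabO_Q {n : ℕ} (A : Nb n) (k T N b : ℕ) (e : Fin N → Fin n → Fin n → ℕ)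
    (V : Finset (Fin n)) :
    Option (Fin (k + 1) ⊕ Fin T) ⊕ Fin N → (Fin n → Fin T) → Fin n → Prop
  | Sum.inl x => fun ω v => LabBaux_Q A k T x ω v
  | Sum.inr j => fun ω v => v ∈ V ∧ LabO_E A b (e j v) v ω

theorem LabO_Q_loc {n : ℕ} (A : Nb n) (k T N b : ℕ) (e : Fin N → Fin n → Fin n → ℕ)
    (V : Finset (Fin n)) (x : Option (Fin (k + 1) ⊕ Fin T) ⊕ Fin N) (v : Fin n)
    (ω ω' : Fin n → Fin T) (h : ∀ u ∈ bal A 3 v, ω u = ω' u)
    (hQ : LabO_Q A k T N b e V x ω v) : LabO_Q A k T N b e V x ω' v := by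
  rcases x with x | j
  · exact LabBaux_Q_loc A k T x v ω ω' (LabO_ball_of_nbr h) hQ
  · exact ⟨hQ.1, LabO_E_loc h hQ.2⟩

/-- the sets of the second step -/
def LabO_S {n k : ℕ} (C : Fin (k + 1) → Finset (Fin n)) (G : Finset (Fin n)) :
    Option (Option (Fin (k + 1))) → Finset (Fin n)
  | none => univ
  | some none => G
  | some (some j) => C j

/-- properties of the bits in the second step -/
def LabO_R {n k N : ℕ} (A : Nb n) (C : Fin (k + 1) → Finset (Fin n)) (G : Finset (Fin n))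
    (Z : Fin N → Finset (Fin n)) :
    Option (Option (Fin (k + 1))) ⊕ Fin N → (Fin n → Bool) → Fin n → Prop
  | Sum.inl x => fun ω v => v ∈ LabO_S C G x ∧ ω v = true
  | Sum.inr j => fun ω v => v ∈ Z j ∧ ∀ p ∈ bal A 3 v, ω p = true

theorem LabO_step {n : ℕ} (hn0 : 0 < n) (k : ℕ) (hk : 1 ≤ k) (N : ℕ) (τ η : ℝ) (hτ0 : 1 / 2 ≤ τ)
    (hτ1 : τ < 1) (hη : 0 < η) (hη1 : η < 1) (T : ℕ) (hT : 2 * (k + 1) ^ 3 ≤ T)
    (hkT : 4 * k ≤ η * T) (δ : ℝ) (hδ : 0 < δ) (hδa : δ ≤ τ * η / 16) (hδb : δ ≤ 1 / T)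
    (hexp : (k + T + N + 3 : ℝ) *
      (2 * Real.exp (-(δ ^ 2 * n / (4 * (((k + 1) ^ 3 : ℕ) + 1) ^ 2)))) < 1)
    (A : Nb n) (hA : ∀ v, #(A.N v) ≤ k) (e : Fin N → Fin n → Fin n → ℕ)
    (he : ∀ j v, Function.Injective (e j v)) (V : Finset (Fin n)) (hV : n ≤ 2 * #V) :
    ∃ r : Fin n → ℕ, (∀ v, r v ≤ T) ∧ (∀ v, ∀ u ∈ A.N v, 1 ≤ r v → r u ≠ r v) ∧
      (∀ (B : Nb n) (α : ℝ), Lab ⟨A, B, α, r, T⟩ k τ η) ∧
      ∀ j, ∃ Y ⊆ V, (1 / 2) ^ ((k + 1) ^ 3) *
        ((1 / (2 * (((k + 1) ^ 3 : ℕ) : ℝ))) ^ ((k + 1) ^ 3) * (n / 2) - δ * n) - δ * n ≤ #Y ∧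
        ∀ v ∈ Y, OrdP A r (e j v) v := by
  classical
  have hτ : 0 < τ := by linarith
  have hm1 : 1 ≤ (k + 1) ^ 3 := Nat.one_le_pow _ _ (by omega)
  have hT1 : 1 ≤ T := by omega
  have hT' : (0 : ℝ) < T := by exact_mod_cast hT1
  have hτη : τ * η ≤ 1 := by nlinarith
  have hδ1 : δ ≤ 1 := by linarith
  have hn' : (0 : ℝ) < n := by exact_mod_cast hn0
  have hN0 : (0 : ℝ) ≤ N := Nat.cast_nonneg _
  have hT0 : (0 : ℝ) ≤ T := hT'.le
  -- first step: the labels
  have hμ : IsProb (fun (_ : Fin n) (_ : Fin T) => (1 : ℝ) / T) := by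
    refine ⟨fun _ _ => by positivity, fun _ => ?_⟩
    rw [sum_const, card_univ, Fintype.card_fin, nsmul_eq_mul]
    field_simp
  obtain ⟨l, hl⟩ := LabBaux_exists hn0 hμ
    (univ : Finset (Option (Fin (k + 1) ⊕ Fin T) ⊕ Fin N))
    (fun x ω => (#(univ.filter fun v => LabO_Q A k T N (T / (k + 1) ^ 3) e V x ω v) : ℝ))
    ((k + 1) ^ 3)
    (fun x _ i ω a b => LabO_count_abs A k hA
      (fun ω v => LabO_Q A k T N (T / (k + 1) ^ 3) e V x ω v)
      (fun v ω ω' h1 h2 => LabO_Q_loc A k T N (T / (k + 1) ^ 3) e V x v ω ω' h1 h2) i ω a b)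
    hδ hδ1
    (by
      refine lt_of_le_of_lt (mul_le_mul_of_nonneg_right ?_ (by positivity)) hexp
      rw [card_univ, Fintype.card_sum, Fintype.card_option, Fintype.card_sum, Fintype.card_fin,
        Fintype.card_fin, Fintype.card_fin]
      push_cast
      linarith)
  -- the sets
  set C : Fin (k + 1) → Finset (Fin n) := fun j =>
    univ.filter fun v => #((A.N v).filter fun u => l u < l v) ≤ j with hC
  set G : Finset (Fin n) := univ.filter fun v => ∃ u ∈ A.N v, l u = l v with hG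
  set Z : Fin N → Finset (Fin n) := fun j =>
    univ.filter fun v => v ∈ V ∧ LabO_E A (T / (k + 1) ^ 3) (e j v) v l with hZ
  have hCj : ∀ j : Fin (k + 1), (((j : ℕ) : ℝ) + 1) / (k + 1) * n - δ * n ≤ #(C j) := by
    intro j
    have h1 := (abs_lt.mp (hl (Sum.inl (some (Sum.inl j))) (mem_univ _))).1
    rw [LabBaux_EE_count] at h1
    have h2 : (((j : ℕ) : ℝ) + 1) / (k + 1) * n ≤
        ∑ v, PP (fun (_ : Fin n) (_ : Fin T) => (1 : ℝ) / T)
          (fun ω => LabO_Q A k T N (T / (k + 1) ^ 3) e V (Sum.inl (some (Sum.inl j))) ω v) := by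
      calc (((j : ℕ) : ℝ) + 1) / (k + 1) * n = ∑ _v : Fin n, (((j : ℕ) : ℝ) + 1) / (k + 1) := by
            rw [sum_const, card_univ, Fintype.card_fin, nsmul_eq_mul, mul_comm]
        _ ≤ _ := by
            refine sum_le_sum fun v _ => ?_
            exact rank_prob (fun _ => (1 : ℝ) / T) (fun _ => by positivity) (hμ.sum_one v)
              (A.N v) v (A.irr v) k j (hA v) (Nat.lt_succ_iff.mp j.2)
    have h3 : (#(univ.filter fun v =>
        LabO_Q A k T N (T / (k + 1) ^ 3) e V (Sum.inl (some (Sum.inl j))) l v) : ℝ) = #(C j) := by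
      have h4 : (univ.filter fun v =>
          LabO_Q A k T N (T / (k + 1) ^ 3) e V (Sum.inl (some (Sum.inl j))) l v) = C j := by
        ext v
        rw [hC, mem_filter, mem_filter]
        exact Iff.rfl
      rw [h4]
    linarith
  have hGc : (#G : ℝ) ≤ k / T * n + δ * n := by
    have h1 := (abs_lt.mp (hl (Sum.inl none) (mem_univ _))).2
    rw [LabBaux_EE_count] at h1
    have h2 : ∑ v, PP (fun (_ : Fin n) (_ : Fin T) => (1 : ℝ) / T)
          (fun ω => LabO_Q A k T N (T / (k + 1) ^ 3) e V (Sum.inl none) ω v) ≤ k / T * n := by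
      calc _ ≤ ∑ _v : Fin n, (k : ℝ) / T := by
            refine sum_le_sum fun v _ => ?_
            refine (PP_exists_le hμ (A.N v) (fun u ω => ω u = ω v)).trans ?_
            refine (sum_le_sum fun u hu => LabBaux_eq hT1 (u := u) (v := v) (by
              rintro rfl
              exact A.irr _ hu)).trans ?_
            rw [sum_const, nsmul_eq_mul]
            have : (#(A.N v) : ℝ) ≤ k := by exact_mod_cast hA v
            rw [mul_one_div]
            gcongr
        _ = _ := by rw [sum_const, card_univ, Fintype.card_fin, nsmul_eq_mul, mul_comm]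
    have h3 : (#(univ.filter fun v =>
        LabO_Q A k T N (T / (k + 1) ^ 3) e V (Sum.inl none) l v) : ℝ) = #G := by
      have h4 : (univ.filter fun v =>
          LabO_Q A k T N (T / (k + 1) ^ 3) e V (Sum.inl none) l v) = G := by
        ext v
        rw [hG, mem_filter, mem_filter]
        exact Iff.rfl
      rw [h4]
    linarith
  have hsz : ∀ s : Fin T, (#(univ.filter fun v => l v = s) : ℝ) ≤ 2 * n / T := by
    intro s
    have h1 := (abs_lt.mp (hl (Sum.inl (some (Sum.inr s))) (mem_univ _))).2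
    rw [LabBaux_EE_count] at h1
    have h2 : ∑ v, PP (fun (_ : Fin n) (_ : Fin T) => (1 : ℝ) / T)
          (fun ω => LabO_Q A k T N (T / (k + 1) ^ 3) e V (Sum.inl (some (Sum.inr s))) ω v) =
          1 / T * n := by
      calc _ = ∑ _v : Fin n, (1 : ℝ) / T := by
            refine sum_congr rfl fun v _ => ?_
            refine (Pool.Agent.Helper5.AVD.PP_coord hμ v (fun x => x = s)).trans ?_
            simp
        _ = _ := by rw [sum_const, card_univ, Fintype.card_fin, nsmul_eq_mul, mul_comm]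
    have h3 : (#(univ.filter fun v =>
        LabO_Q A k T N (T / (k + 1) ^ 3) e V (Sum.inl (some (Sum.inr s))) l v) : ℝ) =
      #(univ.filter fun v => l v = s) := by
      have h4 : (univ.filter fun v =>
          LabO_Q A k T N (T / (k + 1) ^ 3) e V (Sum.inl (some (Sum.inr s))) l v) =
          univ.filter fun v => l v = s := by
        ext v
        rw [mem_filter, mem_filter]
        exact Iff.rfl
      rw [h4]
    have h4 : δ * n ≤ 1 / T * n := mul_le_mul_of_nonneg_right hδb hn'.le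
    have h5 : 2 * (n : ℝ) / T = 1 / T * n + 1 / T * n := by ring
    linarith
  have hZj : ∀ j, (1 / (2 * (((k + 1) ^ 3 : ℕ) : ℝ))) ^ ((k + 1) ^ 3) * (n / 2) - δ * n ≤
      #(Z j) := by
    intro j
    have h1 := (abs_lt.mp (hl (Sum.inr j) (mem_univ _))).1
    rw [LabBaux_EE_count] at h1
    have h2 : (1 / (2 * (((k + 1) ^ 3 : ℕ) : ℝ))) ^ ((k + 1) ^ 3) * (n / 2) ≤
        ∑ v, PP (fun (_ : Fin n) (_ : Fin T) => (1 : ℝ) / T)
          (fun ω => LabO_Q A k T N (T / (k + 1) ^ 3) e V (Sum.inr j) ω v) := by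
      calc (1 / (2 * (((k + 1) ^ 3 : ℕ) : ℝ))) ^ ((k + 1) ^ 3) * (n / 2)
          ≤ (1 / (2 * (((k + 1) ^ 3 : ℕ) : ℝ))) ^ ((k + 1) ^ 3) * #V := by
            refine mul_le_mul_of_nonneg_left ?_ (by positivity)
            have : (n : ℝ) ≤ 2 * #V := by exact_mod_cast hV
            linarith
        _ = ∑ _v ∈ V, (1 / (2 * (((k + 1) ^ 3 : ℕ) : ℝ))) ^ ((k + 1) ^ 3) := by
            rw [sum_const, nsmul_eq_mul, mul_comm]
        _ ≤ ∑ v ∈ V, PP (fun (_ : Fin n) (_ : Fin T) => (1 : ℝ) / T)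
          (fun ω => LabO_Q A k T N (T / (k + 1) ^ 3) e V (Sum.inr j) ω v) := by
            refine sum_le_sum fun v hv => ?_
            refine (LabO_prob A (e j v) v hm1 hT (bal_card hA 3 v)).trans ?_
            exact PP_mono hμ fun ω hω => ⟨hv, hω⟩
        _ ≤ _ := sum_le_sum_of_subset_of_nonneg (subset_univ _) fun v _ _ => PP_nonneg hμ _
    have h3 : (#(univ.filter fun v =>
        LabO_Q A k T N (T / (k + 1) ^ 3) e V (Sum.inr j) l v) : ℝ) = #(Z j) := by
      have h4 : (univ.filter fun v =>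
          LabO_Q A k T N (T / (k + 1) ^ 3) e V (Sum.inr j) l v) = Z j := by
        ext v
        rw [hZ, mem_filter, mem_filter]
        exact Iff.rfl
      rw [h4]
    linarith
  -- second step: the bits
  have hμ2 : IsProb (fun (_ : Fin n) (b : Bool) => if b then τ else 1 - τ) := by
    refine ⟨fun _ b => ?_, fun _ => ?_⟩
    · cases b
      · simp only [Bool.false_eq_true, if_false]
        linarith
      · simp only [if_true]
        exact hτ.le
    · rw [Fintype.sum_bool]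
      simp
  obtain ⟨b, hb⟩ := LabBaux_exists hn0 hμ2
    (univ : Finset (Option (Option (Fin (k + 1))) ⊕ Fin N))
    (fun x ω => (#(univ.filter fun v => LabO_R A C G Z x ω v) : ℝ)) ((k + 1) ^ 3)
    (fun x _ i ω a b => LabO_count_abs A k hA (fun ω v => LabO_R A C G Z x ω v)
      (fun v ω ω' h1 h2 => by
        rcases x with x | j
        · exact ⟨h2.1, by rw [← h1 v (mem_bal_self 3 v)]; exact h2.2⟩
        · exact ⟨h2.1, fun p hp => by rw [← h1 p hp]; exact h2.2 p hp⟩) i ω a b) hδ hδ1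
    (by
      refine lt_of_le_of_lt (mul_le_mul_of_nonneg_right ?_ (by positivity)) hexp
      rw [card_univ, Fintype.card_sum, Fintype.card_option, Fintype.card_option,
        Fintype.card_fin, Fintype.card_fin]
      push_cast
      linarith)
  have hES : ∀ x, EE (fun (_ : Fin n) (b : Bool) => if b then τ else 1 - τ)
      (fun ω => (#(univ.filter fun v => LabO_R A C G Z (Sum.inl x) ω v) : ℝ)) =
      τ * #(LabO_S C G x) := by
    intro x
    rw [LabBaux_EE_count]
    have h1 : ∀ v, PP (fun (_ : Fin n) (b : Bool) => if b then τ else 1 - τ)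
        (fun ω => LabO_R A C G Z (Sum.inl x) ω v) = if v ∈ LabO_S C G x then τ else 0 := by
      intro v
      change PP (fun (_ : Fin n) (b : Bool) => if b then τ else 1 - τ)
        (fun ω => v ∈ LabO_S C G x ∧ ω v = true) = if v ∈ LabO_S C G x then τ else 0
      by_cases hv : v ∈ LabO_S C G x
      · rw [if_pos hv]
        rw [PP_congr (B := fun ω => ω v = true) (fun ω => by simp [hv])]
        rw [Pool.Agent.Helper5.AVD.PP_coord hμ2 v (fun x => x = true)]
        rw [Fintype.sum_bool]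
        simp
      · rw [if_neg hv]
        rw [PP_congr (B := fun _ => False) (fun ω => by simp [hv])]
        unfold PP
        simp [EE]
    simp only [h1]
    rw [sum_ite_mem, univ_inter, sum_const, nsmul_eq_mul, mul_comm]
  have hbS : ∀ x, |(#(univ.filter fun v => v ∈ LabO_S C G x ∧ b v = true) : ℝ) -
      τ * #(LabO_S C G x)| < δ * n := by
    intro x
    have h0 := hb (Sum.inl x) (mem_univ _)
    rw [hES x] at h0
    have h4 : (univ.filter fun v => LabO_R A C G Z (Sum.inl x) b v) =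
        univ.filter fun v => v ∈ LabO_S C G x ∧ b v = true := by
      ext v
      rw [mem_filter, mem_filter]
      exact Iff.rfl
    rwa [h4] at h0
  have hbU : (#(univ.filter fun v => b v = true) : ℝ) ≤ τ * n + δ * n := by
    have h1 := (abs_lt.mp (hbS none)).2
    have h2 : (univ.filter fun v => v ∈ LabO_S C G none ∧ b v = true) =
        univ.filter fun v => b v = true := by
      apply filter_congr
      intro v _
      exact ⟨fun h => h.2, fun h => ⟨mem_univ _, h⟩⟩
    have h3 : (#(LabO_S C G none) : ℝ) = n := by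
      change (#(univ : Finset (Fin n)) : ℝ) = n
      rw [card_univ, Fintype.card_fin]
    rw [h2, h3] at h1
    linarith
  have hbG : (#(univ.filter fun v => v ∈ G ∧ b v = true) : ℝ) ≤ τ * #G + δ * n := by
    have h1 := (abs_lt.mp (hbS (some none))).2
    change (#(univ.filter fun v => v ∈ G ∧ b v = true) : ℝ) - τ * #G < δ * n at h1
    linarith
  have hbC : ∀ j, τ * #(C j) - δ * n ≤ #(univ.filter fun v => v ∈ C j ∧ b v = true) := by
    intro j
    have h1 := (abs_lt.mp (hbS (some (some j)))).1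
    change -(δ * n) < (#(univ.filter fun v => v ∈ C j ∧ b v = true) : ℝ) - τ * #(C j) at h1
    linarith
  have hbZ : ∀ j, (1 / 2) ^ ((k + 1) ^ 3) * (#(Z j) : ℝ) - δ * n ≤
      #(univ.filter fun v => v ∈ Z j ∧ ∀ p ∈ bal A 3 v, b p = true) := by
    intro j
    have h1 := (abs_lt.mp (hb (Sum.inr j) (mem_univ _))).1
    rw [LabBaux_EE_count] at h1
    have h0 : (univ.filter fun v => LabO_R A C G Z (Sum.inr j) b v) =
        univ.filter fun v => v ∈ Z j ∧ ∀ p ∈ bal A 3 v, b p = true := by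
      ext v
      rw [mem_filter, mem_filter]
      exact Iff.rfl
    rw [h0] at h1
    change -(δ * n) < (#(univ.filter fun v => v ∈ Z j ∧ ∀ p ∈ bal A 3 v, b p = true) : ℝ) -
      ∑ v, PP (fun (_ : Fin n) (b : Bool) => if b then τ else 1 - τ)
        (fun ω => v ∈ Z j ∧ ∀ p ∈ bal A 3 v, ω p = true) at h1
    have h2 : (1 / 2) ^ ((k + 1) ^ 3) * (#(Z j) : ℝ) ≤
      ∑ v, PP (fun (_ : Fin n) (b : Bool) => if b then τ else 1 - τ)
        (fun ω => v ∈ Z j ∧ ∀ p ∈ bal A 3 v, ω p = true) := by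
      calc (1 / 2) ^ ((k + 1) ^ 3) * (#(Z j) : ℝ) = ∑ _v ∈ Z j, ((1 : ℝ) / 2) ^ ((k + 1) ^ 3) := by
            rw [sum_const, nsmul_eq_mul, mul_comm]
        _ ≤ ∑ v ∈ Z j, PP (fun (_ : Fin n) (b : Bool) => if b then τ else 1 - τ)
            (fun ω => v ∈ Z j ∧ ∀ p ∈ bal A 3 v, ω p = true) := by
            refine sum_le_sum fun v hv => ?_
            have h3 : PP (fun (_ : Fin n) (b : Bool) => if b then τ else 1 - τ)
                (fun ω => ∀ p ∈ bal A 3 v, ω p = true) = τ ^ #(bal A 3 v) := by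
              rw [Pool.Agent.Helper5.AVD.PP_forall_of_disjoint hμ2 (bal A 3 v)
                (fun p ω => ω p = true) (fun p => {p})
                (fun p _ ω ω' hω => by simp only [hω p (mem_singleton_self _)])
                (fun p _ q _ hpq => by simpa using hpq)]
              rw [← prod_const]
              refine prod_congr rfl fun p _ => ?_
              rw [Pool.Agent.Helper5.AVD.PP_coord hμ2 p (fun x => x = true), Fintype.sum_bool]
              simp
            have h4 : PP (fun (_ : Fin n) (b : Bool) => if b then τ else 1 - τ)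
                (fun ω => v ∈ Z j ∧ ∀ p ∈ bal A 3 v, ω p = true) = τ ^ #(bal A 3 v) := by
              rw [← h3]
              exact PP_congr fun ω => ⟨fun h => h.2, fun h => ⟨hv, h⟩⟩
            rw [h4]
            calc ((1 : ℝ) / 2) ^ ((k + 1) ^ 3) ≤ (1 / 2) ^ #(bal A 3 v) :=
                  pow_le_pow_of_le_one (by norm_num) (by norm_num) (bal_card hA 3 v)
              _ ≤ τ ^ #(bal A 3 v) := pow_le_pow_left₀ (by norm_num) hτ0 _
        _ ≤ _ := sum_le_sum_of_subset_of_nonneg (subset_univ _) fun v _ _ => PP_nonneg hμ2 _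
    linarith
  -- the final labels
  set r : Fin n → ℕ := fun v => if b v = true ∧ v ∉ G then (l v : ℕ) + 1 else 0 with hr
  have hr1 : ∀ v, 1 ≤ r v → b v = true ∧ v ∉ G ∧ r v = (l v : ℕ) + 1 := by
    intro v hv
    by_cases h : b v = true ∧ v ∉ G
    · exact ⟨h.1, h.2, if_pos h⟩
    · have : r v = 0 := if_neg h
      omega
  refine ⟨r, fun v => ?_, fun v u hu hv huv => ?_, fun B α => ?_, fun j => ?_⟩
  · by_cases h : b v = true ∧ v ∉ G
    · have h1 : r v = (l v : ℕ) + 1 := if_pos h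
      rw [h1]
      exact (l v).2
    · have : r v = 0 := if_neg h
      omega
  · obtain ⟨_, h2, h3⟩ := hr1 v hv
    obtain ⟨_, _, h6⟩ := hr1 u (by omega)
    apply h2
    rw [hG, mem_filter]
    refine ⟨mem_univ _, u, hu, ?_⟩
    apply Fin.ext
    omega
  · refine ⟨?_, ?_, ?_⟩
    · intro j hj
      have hj' : j < k + 1 := Nat.lt_succ_of_le hj
      have hsub : (univ.filter fun v => v ∈ C ⟨j, hj'⟩ ∧ b v = true) ⊆
          (univ.filter fun v => 1 ≤ r v ∧ #(Ea (⟨A, B, α, r, T⟩ : Dat n) v) ≤ j) ∪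
            (univ.filter fun v => v ∈ G ∧ b v = true) := by
        intro v hv
        rw [mem_filter] at hv
        rw [mem_union, mem_filter, mem_filter]
        by_cases hvG : v ∈ G
        · exact Or.inr ⟨mem_univ _, hvG, hv.2.2⟩
        · left
          have h1 : r v = (l v : ℕ) + 1 := if_pos ⟨hv.2.2, hvG⟩
          refine ⟨mem_univ _, by omega, ?_⟩
          have h2 : #((A.N v).filter fun u => l u < l v) ≤ j := by
            have := hv.2.1
            rw [hC, mem_filter] at this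
            exact this.2
          refine le_trans (card_le_card ?_) h2
          intro u hu
          unfold Ea at hu
          rw [mem_filter] at hu ⊢
          refine ⟨hu.1, ?_⟩
          obtain ⟨_, _, h5⟩ := hr1 u hu.2.1
          have h6 : r u < r v := hu.2.2
          apply Fin.lt_def.mpr
          omega
      have h1 : (#(univ.filter fun v => v ∈ C ⟨j, hj'⟩ ∧ b v = true) : ℝ) ≤
          #(univ.filter fun v => 1 ≤ r v ∧ #(Ea (⟨A, B, α, r, T⟩ : Dat n) v) ≤ j) +
            #(univ.filter fun v => v ∈ G ∧ b v = true) := by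
        exact_mod_cast (card_le_card hsub).trans (card_union_le _ _)
      have h2 := hbC ⟨j, hj'⟩
      have h3 : ((j : ℝ) + 1) / (k + 1) * n - δ * n ≤ #(C ⟨j, hj'⟩) := hCj ⟨j, hj'⟩
      have h4 : τ * (((j : ℝ) + 1) / (k + 1) * n - δ * n) ≤ τ * #(C ⟨j, hj'⟩) :=
        mul_le_mul_of_nonneg_left h3 hτ.le
      have h5 : τ * #G ≤ τ * (k / T * n + δ * n) := mul_le_mul_of_nonneg_left hGc hτ.le
      have h6 : (k : ℝ) / T ≤ η / 4 := by
        rw [div_le_iff₀ hT']
        linarith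
      have h7 : τ * (k / T * n + δ * n) ≤ τ * (η / 4 * n + δ * n) := by gcongr
      have h8 : τ * (δ * n) ≤ δ * n := by nlinarith [mul_pos hδ hn']
      have h9 : δ * n ≤ τ * η / 16 * n := mul_le_mul_of_nonneg_right hδa hn'.le
      have h10 : 0 ≤ τ * η * n := by positivity
      change τ * (((j : ℝ) + 1) / (k + 1) - η) * n ≤
        #(univ.filter fun v => 1 ≤ r v ∧ #(Ea (⟨A, B, α, r, T⟩ : Dat n) v) ≤ j)
      nlinarith
    · change (#(univ.filter fun v => 1 ≤ r v) : ℝ) ≤ τ * (1 + η) * n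
      have hsub : (univ.filter fun v => 1 ≤ r v) ⊆ (univ.filter fun v => b v = true) := by
        intro v hv
        rw [mem_filter] at hv ⊢
        exact ⟨mem_univ _, (hr1 v hv.2).1⟩
      have h1 : (#(univ.filter fun v => 1 ≤ r v) : ℝ) ≤ #(univ.filter fun v => b v = true) := by
        exact_mod_cast card_le_card hsub
      have h9 : δ * n ≤ τ * η / 16 * n := mul_le_mul_of_nonneg_right hδa hn'.le
      have h10 : 0 ≤ τ * η * n := by positivity
      nlinarith
    · intro s hs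
      change (#(univ.filter fun v => r v = s) : ℝ) ≤ 2 * n / T
      by_cases hsT : s ≤ T
      · have hs' : s - 1 < T := by omega
        refine le_trans ?_ (hsz ⟨s - 1, hs'⟩)
        have hsub : (univ.filter fun v => r v = s) ⊆
            (univ.filter fun v => l v = ⟨s - 1, hs'⟩) := by
          intro v hv
          rw [mem_filter] at hv ⊢
          refine ⟨mem_univ _, ?_⟩
          obtain ⟨_, _, h3⟩ := hr1 v (by omega)
          apply Fin.ext
          change (l v : ℕ) = s - 1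
          omega
        exact_mod_cast card_le_card hsub
      · have h0 : (univ.filter fun v => r v = s) = ∅ := by
          rw [filter_eq_empty_iff]
          intro v _ hv
          obtain ⟨_, _, h3⟩ := hr1 v (by omega)
          have := (l v).2
          omega
        rw [h0, card_empty]
        have : (0 : ℝ) ≤ 2 * n / T := by positivity
        exact_mod_cast this
  · refine ⟨univ.filter fun v => v ∈ Z j ∧ ∀ p ∈ bal A 3 v, b p = true, ?_, ?_, ?_⟩
    · intro v hv
      rw [mem_filter] at hv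
      have h1 := hv.2.1
      rw [hZ, mem_filter] at h1
      exact h1.2.1
    · refine le_trans ?_ (hbZ j)
      have h1 := mul_le_mul_of_nonneg_left (hZj j)
        (by positivity : (0 : ℝ) ≤ (1 / 2) ^ ((k + 1) ^ 3))
      linarith
    · intro v hv
      rw [mem_filter] at hv
      obtain ⟨_, hvZ, hvb⟩ := hv
      rw [hZ, mem_filter] at hvZ
      obtain ⟨_, _, hE⟩ := hvZ
      have h23 : bal A 2 v ⊆ bal A 3 v := bal_mono (by norm_num) v
      have hlab : ∀ p ∈ bal A 2 v, r p = (l p : ℕ) + 1 := by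
        intro p hp
        refine if_pos ⟨hvb p (h23 hp), ?_⟩
        intro hpG
        rw [hG, mem_filter] at hpG
        obtain ⟨_, u, hu, hul⟩ := hpG
        have hup : u ≠ p := by
          rintro rfl
          exact A.irr _ hu
        exact LabO_E_ne hE (he j v) (bal_nbr hp hu) (h23 hp) hup hul
      refine ⟨fun p hp => ?_, fun p hp q hq hpq => ?_⟩
      · rw [hlab p hp]
        omega
      · rw [hlab p hp, hlab q hq]
        have := LabO_E_lt hE (h23 hp) (h23 hq) hpq
        omega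

/-- Labels as in `C.labels`, such that moreover for each `j < N` at least `c n` vertices `v ∈ V` have all
labels in `bal A 2 v` nonzero and ordered like the given injective map `e j v`.
Proof: extend the proof of `C.labels` (`LabBaux_exists` is for general functionals; its `k` is a free
parameter, take `(k+1)^3`). Put `m = (k+1)^3 ≥ #(bal A 3 v)` (`bal_card`). For `T ≥ 2m` let the blocks
`I_i = {a : Fin T | i ⌊T/m⌋ ≤ a < (i+1) ⌊T/m⌋}`, `i < m`, of size `⌊T/m⌋ ≥ T/(2m)`. Event `E_{j,v}` for the first step labels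
`l`: every `p ∈ bal A 3 v` has `l p ∈ I_i` with `i = #{q ∈ bal A 3 v | e j v q < e j v p}`. It has probability
`≥ (1/(2m))^m` (product measure), it depends on `bal A 3 v` only. In the second step keep all vertices of `bal A 3 v`
(probability `≥ τ^m ≥ (1/2)^m`). If both happen, the labels in `bal A 3 v` are distinct, so no vertex of `bal A 2 v` has a neighbour
with the same label, `r p = l p + 1` on `bal A 2 v`, and `OrdP` holds. (One step with `Ω = Fin T × Bool` is
possible as well.) Counts of `v ∈ V` with such local events change by at most `(k+1)^3` if one coordinate changes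
(`bal_symm`). Take `c = (1/(4m))^m / 8` or smaller. -/
theorem labels_orders (k : ℕ) (hk : 1 ≤ k) (N : ℕ) : ∃ c : ℝ, 0 < c ∧ c ≤ 1 ∧
    ∀ (τ η : ℝ), 1 / 2 ≤ τ → τ < 1 → 0 < η → η < 1 → ∃ T0 : ℕ, ∀ T ≥ T0, ∃ n0 : ℕ, ∀ n ≥ n0,
      ∀ A : Nb n, (∀ v, #(A.N v) ≤ k) → ∀ e : Fin N → Fin n → Fin n → ℕ,
        (∀ j v, Function.Injective (e j v)) → ∀ V : Finset (Fin n), n ≤ 2 * #V →
        ∃ r : Fin n → ℕ, (∀ v, r v ≤ T) ∧ (∀ v, ∀ u ∈ A.N v, 1 ≤ r v → r u ≠ r v) ∧
          (∀ (B : Nb n) (α : ℝ), Lab ⟨A, B, α, r, T⟩ k τ η) ∧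
          ∀ j, ∃ Y ⊆ V, c * n ≤ #Y ∧ ∀ v ∈ Y, OrdP A r (e j v) v := by
  have hm1 : 1 ≤ (k + 1) ^ 3 := Nat.one_le_pow _ _ (by omega)
  have hm' : (1 : ℝ) ≤ (((k + 1) ^ 3 : ℕ) : ℝ) := by exact_mod_cast hm1
  set p0 : ℝ := (1 / (2 * (((k + 1) ^ 3 : ℕ) : ℝ))) ^ ((k + 1) ^ 3) with hp0
  set q0 : ℝ := (1 / 2) ^ ((k + 1) ^ 3) with hq0
  have hp0' : 0 < p0 := by positivity
  have hq0' : 0 < q0 := by positivity
  have hp1 : p0 ≤ 1 := by
    refine pow_le_one₀ (by positivity) ?_
    rw [div_le_one (by positivity)]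
    linarith
  have hq1 : q0 ≤ 1 := pow_le_one₀ (by norm_num) (by norm_num)
  have hpq : q0 * p0 ≤ 1 := by nlinarith
  refine ⟨q0 * p0 / 8, by positivity, by linarith, fun τ η hτ0 hτ1 hη hη1 => ?_⟩
  refine ⟨max (2 * (k + 1) ^ 3) (⌈4 * k / η⌉₊), fun T hT => ?_⟩
  have hTa : 2 * (k + 1) ^ 3 ≤ T := (le_max_left _ _).trans hT
  have hTb : ⌈4 * k / η⌉₊ ≤ T := (le_max_right _ _).trans hT
  have hkT : 4 * k ≤ η * T := by
    have h1 : 4 * k / η ≤ (T : ℝ) := (Nat.le_ceil _).trans (by exact_mod_cast hTb)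
    rw [div_le_iff₀ hη] at h1
    linarith
  have hT1 : 1 ≤ T := by omega
  have hT' : (0 : ℝ) < T := by exact_mod_cast hT1
  have hτ : 0 < τ := by linarith
  set δ : ℝ := min (min (τ * η / 16) (1 / T)) (q0 * p0 / 8) with hδdef
  have hδ : 0 < δ := lt_min (lt_min (by positivity) (by positivity)) (by positivity)
  have hδa : δ ≤ τ * η / 16 := (min_le_left _ _).trans (min_le_left _ _)
  have hδb : δ ≤ 1 / T := (min_le_left _ _).trans (min_le_right _ _)
  have hδc : δ ≤ q0 * p0 / 8 := min_le_right _ _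
  set c : ℝ := δ ^ 2 / (4 * (((k + 1) ^ 3 : ℕ) + 1) ^ 2) with hc
  have hcpos : 0 < c := by positivity
  set K : ℝ := 2 * (k + T + N + 3) with hK
  refine ⟨⌈K / c⌉₊ + 1, fun n hn A hA e he V hV => ?_⟩
  have hn0 : 0 < n := by omega
  have hn' : (0 : ℝ) < n := by exact_mod_cast hn0
  have hKn : K ≤ c * n := by
    have h1 : K / c ≤ n := by
      refine (Nat.le_ceil _).trans ?_
      exact_mod_cast (by omega : ⌈K / c⌉₊ ≤ n)
    rw [div_le_iff₀ hcpos] at h1
    linarith
  have hexp : (k + T + N + 3 : ℝ) *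
      (2 * Real.exp (-(δ ^ 2 * n / (4 * (((k + 1) ^ 3 : ℕ) + 1) ^ 2)))) < 1 := by
    have h1 : δ ^ 2 * n / (4 * (((k + 1) ^ 3 : ℕ) + 1) ^ 2) = c * n := by rw [hc]; ring
    rw [h1, Real.exp_neg]
    have h2 := Real.add_one_le_exp (c * n)
    have h3 : K < Real.exp (c * n) := by linarith
    have h4 : 0 < Real.exp (c * n) := Real.exp_pos _
    rw [show (k + T + N + 3 : ℝ) * (2 * (Real.exp (c * n))⁻¹) = K / Real.exp (c * n) by
      rw [hK]; ring]
    rw [div_lt_one h4]
    exact h3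
  obtain ⟨r, h1, h2, h3, h4⟩ := LabO_step hn0 k hk N τ η hτ0 hτ1 hη hη1 T hTa hkT δ hδ hδa hδb
    hexp A hA e he V hV
  refine ⟨r, h1, h2, h3, fun j => ?_⟩
  obtain ⟨Y, hYV, hY, hO⟩ := h4 j
  refine ⟨Y, hYV, le_trans ?_ hY, hO⟩
  have h5 : δ * n ≤ q0 * p0 / 8 * n := mul_le_mul_of_nonneg_right hδc hn'.le
  have h6 : q0 * (δ * n) ≤ δ * n := by nlinarith [mul_pos hδ hn']
  have h7 : q0 * (p0 * (n / 2) - δ * n) = q0 * p0 * n / 2 - q0 * (δ * n) := by ring
  have h8 : 0 ≤ q0 * p0 * n := by positivity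
  rw [h7]
  linarith

end Pool.Agent.Helper14.BECX
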