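import Pool.Agent.Helper14.BECX.Defs
/-! Project BECX, piece PatO: the patterns come from orders. -/
set_option autoImplicit false
namespace Pool.Agent.Helper14.BECX
open Finset Pool.Agent.Helper61.LE Pool.Agent.Helper5.BEC Pool.Agent.Helper5.BEC.C

/-- Under `OrdP A r e v` (`e` injective), `Ea D p = {q ∈ A.N p | e q < e p}` for `p ∈ bal A 1 v`. -/
theorem Ea_of_OrdP {n : ℕ} (D : Dat n) (e : Fin n → ℕ) (he : Function.Injective e) (v : Fin n)
    (h : OrdP D.A D.r e v) (p : Fin n) (hp : p ∈ bal D.A 1 v) :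
    Ea D p = (D.A.N p).filter fun q => e q < e p := by
  unfold Ea
  refine Finset.filter_congr fun q hq => ?_
  have hq2 : q ∈ bal D.A 2 v := bal_nbr hp hq
  have hp2 : p ∈ bal D.A 2 v := bal_mono (by norm_num) v hp
  constructor
  · rintro ⟨_, h2⟩
    by_contra hc
    have hne : e p ≠ e q := by
      intro hpq
      have := he hpq
      subst this
      exact D.A.irr _ hq
    have h3 : e p < e q := lt_of_le_of_ne (not_lt.1 hc) hne
    have h4 := h.2 p hp2 q hq2 h3
    omega
  · intro h2
    exact ⟨h.1 q hq2, h.2 q hq2 p hp2 h2⟩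

/-- the order given by classes, ties broken by the index -/
private def ordC {n : ℕ} (g : Fin n → ℕ) : Fin n → ℕ := fun p => g p * n + (p : ℕ)

private theorem ordC_lt {n : ℕ} (g : Fin n → ℕ) {p q : Fin n} :
    ordC g p < ordC g q ↔ g p < g q ∨ (g p = g q ∧ p < q) := by
  unfold ordC
  have hp := p.2
  have hq := q.2
  constructor
  · intro h
    rcases lt_trichotomy (g p) (g q) with h1 | h1 | h1
    · exact Or.inl h1
    · right
      refine ⟨h1, ?_⟩
      rw [h1] at h
      exact Fin.lt_def.2 (by omega)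
    · exfalso
      have h2 : (g q + 1) * n ≤ g p * n := Nat.mul_le_mul_right _ h1
      have h3 : (g q + 1) * n = g q * n + n := by ring
      omega
  · rintro (h | ⟨h1, h2⟩)
    · have h2 : (g p + 1) * n ≤ g q * n := Nat.mul_le_mul_right _ h
      have h3 : (g p + 1) * n = g p * n + n := by ring
      omega
    · rw [h1]
      have := Fin.lt_def.1 h2
      omega

private theorem ordC_inj {n : ℕ} (g : Fin n → ℕ) : Function.Injective (ordC g) := by
  intro p q h
  by_contra hne
  rcases lt_trichotomy (g p) (g q) with h1 | h1 | h1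
  · exact absurd h ((ordC_lt g).2 (Or.inl h1)).ne
  · rcases lt_or_gt_of_ne hne with h2 | h2
    · exact absurd h ((ordC_lt g).2 (Or.inr ⟨h1, h2⟩)).ne
    · exact absurd h ((ordC_lt g).2 (Or.inr ⟨h1.symm, h2⟩)).ne'
  · exact absurd h ((ordC_lt g).2 (Or.inl h1)).ne'

private theorem self_bal1 {n : ℕ} (A : Nb n) (v : Fin n) : v ∈ bal A 1 v := mem_bal_self 1 v

private theorem nbr_bal1 {n : ℕ} (A : Nb n) {v u : Fin n} (h : u ∈ A.N v) : u ∈ bal A 1 v := by
  rw [bal_one]
  exact Finset.mem_insert_of_mem h

/-- For `v` with `#(N v) = k` take nonadjacent `u, u' ∈ N v`. Order for `Ptwo D s`: `u, u'`, then `s-2` other neighbours of `v`,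
then `v`, then the rest. -/
theorem ord_two {n : ℕ} (A : Nb n) (k s : ℕ) (hs : 2 ≤ s) (hsk : s ≤ k) (v : Fin n)
    (hv : #(A.N v) = k) (hK : NoK A k) :
    ∃ e : Fin n → ℕ, Function.Injective e ∧
      ∀ D : Dat n, D.A = A → OrdP A D.r e v → v ∈ Ptwo D s := by
  obtain ⟨u, hu, u', hu', huu, hadj⟩ := hK v hv
  have hadj' : u ∉ A.N u' := fun h => hadj (A.symm _ _ h)
  have hcard : #(((A.N v).erase u).erase u') = k - 2 := by
    rw [Finset.card_erase_of_mem (Finset.mem_erase.2 ⟨huu.symm, hu'⟩),
      Finset.card_erase_of_mem hu, hv]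
    omega
  obtain ⟨S, hS, hSc⟩ := Finset.exists_subset_card_eq
    (show s - 2 ≤ #(((A.N v).erase u).erase u') by rw [hcard]; omega)
  have hSm : ∀ q ∈ S, q ≠ u' ∧ q ≠ u ∧ q ∈ A.N v := fun q hq => by
    have := hS hq
    rw [Finset.mem_erase, Finset.mem_erase] at this
    exact this
  have hvu : v ≠ u := fun h => A.irr v (by rw [h] at hu ⊢; exact hu)
  have hvu' : v ≠ u' := fun h => A.irr v (by rw [h] at hu' ⊢; exact hu')
  set g : Fin n → ℕ := fun p => if p = u ∨ p = u' then 0 else if p ∈ S then 1 else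
    if p = v then 2 else 3 with hg
  have hvS : v ∉ S := fun h => A.irr v (hSm v h).2.2
  have gv : g v = 2 := by simp [hg, hvu, hvu', hvS]
  have gu : g u = 0 := by simp [hg]
  have gu' : g u' = 0 := by simp [hg]
  have g0 : ∀ q, g q = 0 → q = u ∨ q = u' := by
    intro q hq
    by_contra hc
    simp only [hg] at hq
    split_ifs at hq <;> first | omega | exact hc (by assumption)
  refine ⟨ordC g, ordC_inj g, fun D hD hO => ?_⟩
  subst hD
  have hE := fun p hp => Ea_of_OrdP D (ordC g) (ordC_inj g) v hO p hp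
  have hEu : Ea D u = ∅ := by
    rw [hE u (nbr_bal1 _ hu), Finset.filter_eq_empty_iff]
    intro q hq hlt
    rw [ordC_lt, gu] at hlt
    rcases hlt with h | ⟨h, _⟩
    · omega
    · rcases g0 q h with rfl | rfl
      · exact D.A.irr _ hq
      · exact hadj hq
  have hEu' : Ea D u' = ∅ := by
    rw [hE u' (nbr_bal1 _ hu'), Finset.filter_eq_empty_iff]
    intro q hq hlt
    rw [ordC_lt, gu'] at hlt
    rcases hlt with h | ⟨h, _⟩
    · omega
    · rcases g0 q h with rfl | rfl
      · exact hadj' hq
      · exact D.A.irr _ hq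
  have hEv : Ea D v = insert u (insert u' S) := by
    rw [hE v (self_bal1 _ v)]
    ext q
    rw [Finset.mem_filter, Finset.mem_insert, Finset.mem_insert, ordC_lt, gv]
    constructor
    · rintro ⟨hq, h⟩
      have hqv : q ≠ v := fun h => D.A.irr v (by rw [h] at hq; exact hq)
      by_contra hc
      push Not at hc
      obtain ⟨h1, h2, h3⟩ := hc
      have : g q = 3 := by simp [hg, h1, h2, h3, hqv]
      rw [this] at h
      rcases h with h | ⟨h, _⟩ <;> omega
    · rintro (rfl | rfl | h)
      · exact ⟨hu, Or.inl (by rw [gu]; norm_num)⟩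
      · exact ⟨hu', Or.inl (by rw [gu']; norm_num)⟩
      · refine ⟨(hSm q h).2.2, Or.inl ?_⟩
        have : g q = 1 := by simp [hg, (hSm q h).1, (hSm q h).2.1, h]
        rw [this]
        norm_num
  unfold Ptwo
  rw [Finset.mem_filter]
  refine ⟨Finset.mem_univ _, hO.1 v (mem_bal_self 2 v), ?_, u, ?_, u', ?_, huu, hEu, hEu'⟩
  · rw [hEv, Finset.card_insert_of_notMem, Finset.card_insert_of_notMem, hSc]
    · omega
    · exact fun h => (hSm u' h).1 rfl
    · rw [Finset.mem_insert]
      rintro (h | h)
      · exact huu h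
      · exact (hSm u h).2.1 rfl
  · rw [hEv]
    exact Finset.mem_insert_self _ _
  · rw [hEv]
    exact Finset.mem_insert_of_mem (Finset.mem_insert_self _ _)

/-- Order for `Pmid D` (middle vertex `v`): `u, v, u'`, then the rest, `u, u' ∈ N v` nonadjacent. -/
theorem ord_mid {n : ℕ} (A : Nb n) (k : ℕ) (v : Fin n) (hv : #(A.N v) = k) (hK : NoK A k) :
    ∃ e : Fin n → ℕ, Function.Injective e ∧
      ∀ D : Dat n, D.A = A → OrdP A D.r e v → v ∈ Pmid D := by
  obtain ⟨u, hu, u', hu', huu, hadj⟩ := hK v hv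
  have hadj' : u ∉ A.N u' := fun h => hadj (A.symm _ _ h)
  have hvu : v ≠ u := fun h => A.irr v (by rw [h] at hu ⊢; exact hu)
  have hvu' : v ≠ u' := fun h => A.irr v (by rw [h] at hu' ⊢; exact hu')
  set g : Fin n → ℕ := fun p => if p = u then 0 else if p = v then 1 else
    if p = u' then 2 else 3 with hg
  have gv : g v = 1 := by simp [hg, hvu]
  have gu : g u = 0 := by simp [hg]
  have gu' : g u' = 2 := by simp [hg, huu.symm, hvu'.symm]
  have g0 : ∀ q, g q = 0 → q = u := by
    intro q hq
    by_contra hc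
    simp only [hg] at hq
    split_ifs at hq <;> first | omega | exact hc (by assumption)
  have g1 : ∀ q, g q = 1 → q = v := by
    intro q hq
    by_contra hc
    simp only [hg] at hq
    split_ifs at hq <;> first | omega | exact hc (by assumption)
  have g2 : ∀ q, g q = 2 → q = u' := by
    intro q hq
    by_contra hc
    simp only [hg] at hq
    split_ifs at hq <;> first | omega | exact hc (by assumption)
  refine ⟨ordC g, ordC_inj g, fun D hD hO => ?_⟩
  subst hD
  have hE := fun p hp => Ea_of_OrdP D (ordC g) (ordC_inj g) v hO p hp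
  unfold Pmid
  rw [Finset.mem_filter]
  refine ⟨Finset.mem_univ _, u, ?_, ?_, u', ?_⟩
  · rw [hE u (nbr_bal1 _ hu), Finset.filter_eq_empty_iff]
    intro q hq hlt
    rw [ordC_lt, gu] at hlt
    rcases hlt with h | ⟨h, _⟩
    · omega
    · rw [g0 q h] at hq
      exact D.A.irr _ hq
  · rw [hE v (self_bal1 _ v)]
    ext q
    rw [Finset.mem_filter, Finset.mem_singleton, ordC_lt, gv]
    constructor
    · rintro ⟨hq, h | ⟨h, _⟩⟩
      · exact g0 q (by omega)
      · rw [g1 q h] at hq
        exact absurd hq (D.A.irr _)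
    · rintro rfl
      exact ⟨hu, Or.inl (by rw [gu]; norm_num)⟩
  · rw [hE u' (nbr_bal1 _ hu')]
    ext q
    rw [Finset.mem_filter, Finset.mem_singleton, ordC_lt, gu']
    constructor
    · rintro ⟨hq, h | ⟨h, _⟩⟩
      · have h01 : g q = 0 ∨ g q = 1 := by omega
        rcases h01 with h0 | h0
        · rw [g0 q h0] at hq
          exact absurd hq hadj'
        · exact g1 q h0
      · rw [g2 q h] at hq
        exact absurd hq (D.A.irr _)
    · rintro rfl
      exact ⟨D.A.symm _ _ hu', Or.inl (by rw [gv]; norm_num)⟩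

/-- Order for `Pfst D k`: `v`, then `N v` such that every `p ∈ N v` has at most `k-2` earlier neighbours in `N v` (if
`#(N v) < k` any order; otherwise put `u'` last and `u` before it: all vertices but `u'` have at most `k-2` earlier
ones in `N v`, and `u'` is not adjacent to `u`), then the rest. Then `#(Ea D p) ≤ 1 + (k-2)`. -/
theorem ord_fst {n : ℕ} (A : Nb n) (k : ℕ) (hk : 2 ≤ k) (hA : ∀ v, #(A.N v) ≤ k) (v : Fin n)
    (hK : NoK A k) :
    ∃ e : Fin n → ℕ, Function.Injective e ∧
      ∀ D : Dat n, D.A = A → OrdP A D.r e v → v ∈ Pfst D k := by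
  rcases lt_or_eq_of_le (hA v) with hlt | heq
  · -- degree less than k
    set g : Fin n → ℕ := fun p => if p = v then 0 else if p ∈ A.N v then 1 else 2 with hg
    have gv : g v = 0 := by simp [hg]
    have gN : ∀ p ∈ A.N v, g p = 1 := by
      intro p hp
      have : p ≠ v := fun h => A.irr v (by rw [h] at hp; exact hp)
      simp [hg, this, hp]
    have g0 : ∀ q, g q = 0 → q = v := by
      intro q hq
      by_contra hc
      simp only [hg] at hq
      split_ifs at hq <;> first | omega | exact hc (by assumption)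
    have g1 : ∀ q, g q = 1 → q ∈ A.N v := by
      intro q hq
      by_contra hc
      simp only [hg] at hq
      split_ifs at hq <;> first | omega | exact hc (by assumption)
    refine ⟨ordC g, ordC_inj g, fun D hD hO => ?_⟩
    subst hD
    have hE := fun p hp => Ea_of_OrdP D (ordC g) (ordC_inj g) v hO p hp
    unfold Pfst
    rw [Finset.mem_filter]
    refine ⟨Finset.mem_univ _, hO.1 v (mem_bal_self 2 v), ?_, fun p hp => ?_⟩
    · rw [hE v (self_bal1 _ v), Finset.filter_eq_empty_iff]
      intro q hq hlt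
      rw [ordC_lt, gv] at hlt
      rcases hlt with h | ⟨h, _⟩
      · omega
      · rw [g0 q h] at hq
        exact D.A.irr _ hq
    · have hsub : Ea D p ⊆ insert v ((D.A.N v).erase p) := by
        rw [hE p (nbr_bal1 _ hp)]
        intro q hq
        rw [Finset.mem_filter, ordC_lt, gN p hp] at hq
        obtain ⟨hq1, hq2⟩ := hq
        have hqp : q ≠ p := fun h => D.A.irr p (by rw [h] at hq1; exact hq1)
        rw [Finset.mem_insert, Finset.mem_erase]
        rcases hq2 with h | ⟨h, _⟩
        · exact Or.inl (g0 q (by omega))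
        · exact Or.inr ⟨hqp, g1 q h⟩
      have h1 := Finset.card_le_card hsub
      have h2 := Finset.card_insert_le v ((D.A.N v).erase p)
      rw [Finset.card_erase_of_mem hp] at h2
      have h3 : 0 < #(D.A.N v) := Finset.card_pos.2 ⟨p, hp⟩
      omega
  · obtain ⟨u, hu, u', hu', huu, hadj⟩ := hK v heq
    have hadj' : u ∉ A.N u' := fun h => hadj (A.symm _ _ h)
    have hvu' : v ≠ u' := fun h => A.irr v (by rw [h] at hu' ⊢; exact hu')
    set g : Fin n → ℕ := fun p => if p = v then 0 else if p = u' then 2 else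
      if p ∈ A.N v then 1 else 3 with hg
    have gv : g v = 0 := by simp [hg]
    have gu' : g u' = 2 := by simp [hg, hvu'.symm]
    have gN : ∀ p ∈ A.N v, p ≠ u' → g p = 1 := by
      intro p hp hp'
      have : p ≠ v := fun h => A.irr v (by rw [h] at hp; exact hp)
      simp [hg, this, hp, hp']
    have g0 : ∀ q, g q = 0 → q = v := by
      intro q hq
      by_contra hc
      simp only [hg] at hq
      split_ifs at hq <;> first | omega | exact hc (by assumption)
    have g1 : ∀ q, g q = 1 → q ∈ A.N v ∧ q ≠ u' := by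
      intro q hq
      simp only [hg] at hq
      split_ifs at hq with h1 h2 h3 <;> first | omega | exact ⟨by assumption, by assumption⟩
    have g2 : ∀ q, g q = 2 → q = u' := by
      intro q hq
      simp only [hg] at hq
      split_ifs at hq with h1 h2 h3 <;> first | omega | assumption
    refine ⟨ordC g, ordC_inj g, fun D hD hO => ?_⟩
    subst hD
    have hE := fun p hp => Ea_of_OrdP D (ordC g) (ordC_inj g) v hO p hp
    unfold Pfst
    rw [Finset.mem_filter]
    refine ⟨Finset.mem_univ _, hO.1 v (mem_bal_self 2 v), ?_, fun p hp => ?_⟩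
    · rw [hE v (self_bal1 _ v), Finset.filter_eq_empty_iff]
      intro q hq hlt
      rw [ordC_lt, gv] at hlt
      rcases hlt with h | ⟨h, _⟩
      · omega
      · rw [g0 q h] at hq
        exact D.A.irr _ hq
    · by_cases hpu : p = u'
      · subst hpu
        have hsub : Ea D p ⊆ insert v (((D.A.N v).erase p).erase u) := by
          rw [hE p (nbr_bal1 _ hp)]
          intro q hq
          rw [Finset.mem_filter, ordC_lt, gu'] at hq
          obtain ⟨hq1, hq2⟩ := hq
          have hqu : q ≠ u := fun h => hadj' (by rw [h] at hq1; exact hq1)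
          rw [Finset.mem_insert, Finset.mem_erase, Finset.mem_erase]
          rcases hq2 with h | ⟨h, _⟩
          · have h01 : g q = 0 ∨ g q = 1 := by omega
            rcases h01 with h0 | h0
            · exact Or.inl (g0 q h0)
            · exact Or.inr ⟨hqu, (g1 q h0).2, (g1 q h0).1⟩
          · rw [g2 q h] at hq1
            exact absurd hq1 (D.A.irr _)
        have h1 := Finset.card_le_card hsub
        have h2 := Finset.card_insert_le v (((D.A.N v).erase p).erase u)
        rw [Finset.card_erase_of_mem (Finset.mem_erase.2 ⟨huu, hu⟩),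
          Finset.card_erase_of_mem hp] at h2
        omega
      · have hsub : Ea D p ⊆ insert v (((D.A.N v).erase p).erase u') := by
          rw [hE p (nbr_bal1 _ hp)]
          intro q hq
          rw [Finset.mem_filter, ordC_lt, gN p hp hpu] at hq
          obtain ⟨hq1, hq2⟩ := hq
          have hqp : q ≠ p := fun h => D.A.irr p (by rw [h] at hq1; exact hq1)
          rw [Finset.mem_insert, Finset.mem_erase, Finset.mem_erase]
          rcases hq2 with h | ⟨h, _⟩
          · exact Or.inl (g0 q (by omega))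
          · exact Or.inr ⟨(g1 q h).2, hqp, (g1 q h).1⟩
        have h1 := Finset.card_le_card hsub
        have h2 := Finset.card_insert_le v (((D.A.N v).erase p).erase u')
        rw [Finset.card_erase_of_mem (Finset.mem_erase.2 ⟨fun h => hpu h.symm, hu'⟩),
          Finset.card_erase_of_mem hp] at h2
        omega

/-- Choose the orders (index `0`: `fst`, `1`: `mid`, `j ≥ 2`: `two j`; identity for vertices of degree `≠ k`). -/
theorem pat_orders {n : ℕ} (A : Nb n) (k : ℕ) (hk : 2 ≤ k) (hA : ∀ v, #(A.N v) ≤ k)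
    (hK : NoK A k) :
    ∃ e : Fin (k + 1) → Fin n → Fin n → ℕ, (∀ j v, Function.Injective (e j v)) ∧
      ∀ (D : Dat n) (c : ℝ), D.A = A →
        (∀ j, ∃ Y ⊆ univ.filter (fun v => #(A.N v) = k), c * n ≤ #Y ∧
          ∀ v ∈ Y, OrdP A D.r (e j v) v) → Pat D k c := by
  have key : ∀ (j : Fin (k + 1)) (v : Fin n), ∃ e : Fin n → ℕ, Function.Injective e ∧
      (#(A.N v) = k → ∀ D : Dat n, D.A = A → OrdP A D.r e v →
        ((j : ℕ) = 0 → v ∈ Pfst D k) ∧ ((j : ℕ) = 1 → v ∈ Pmid D) ∧
        (2 ≤ (j : ℕ) → v ∈ Ptwo D j)) := by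
    intro j v
    by_cases hv : #(A.N v) = k
    · rcases Nat.lt_or_ge (j : ℕ) 2 with h2 | h2
      · have h01 : (j : ℕ) = 0 ∨ (j : ℕ) = 1 := by omega
        rcases h01 with h0 | h0
        · obtain ⟨e, he, h⟩ := ord_fst A k hk hA v hK
          exact ⟨e, he, fun _ D hD hO => ⟨fun _ => h D hD hO, fun h1 => by omega,
            fun h1 => by omega⟩⟩
        · obtain ⟨e, he, h⟩ := ord_mid A k v hv hK
          exact ⟨e, he, fun _ D hD hO => ⟨fun h1 => by omega, fun _ => h D hD hO,
            fun h1 => by omega⟩⟩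
      · obtain ⟨e, he, h⟩ := ord_two A k j h2 (by omega) v hv hK
        exact ⟨e, he, fun _ D hD hO => ⟨fun h1 => by omega, fun h1 => by omega,
          fun _ => h D hD hO⟩⟩
    · exact ⟨fun p => (p : ℕ), fun p q h => Fin.ext h, fun h => absurd h hv⟩
  choose e he hprop using key
  refine ⟨e, he, fun D c hD hY => ?_⟩
  have deg : ∀ {Y : Finset (Fin n)}, Y ⊆ univ.filter (fun v => #(A.N v) = k) → ∀ v ∈ Y,
      #(A.N v) = k := fun hY v hv => (Finset.mem_filter.1 (hY hv)).2
  refine ⟨fun s hs hsk => ?_, ?_, ?_⟩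
  · obtain ⟨Y, hY1, hY2, hY3⟩ := hY ⟨s, by omega⟩
    refine hY2.trans ?_
    exact_mod_cast Finset.card_le_card fun v hv =>
      (hprop ⟨s, by omega⟩ v (deg hY1 v hv) D hD (hY3 v hv)).2.2 hs
  · obtain ⟨Y, hY1, hY2, hY3⟩ := hY ⟨1, by omega⟩
    refine hY2.trans ?_
    exact_mod_cast Finset.card_le_card fun v hv =>
      (hprop ⟨1, by omega⟩ v (deg hY1 v hv) D hD (hY3 v hv)).2.1 rfl
  · obtain ⟨Y, hY1, hY2, hY3⟩ := hY ⟨0, by omega⟩
    refine hY2.trans ?_
    exact_mod_cast Finset.card_le_card fun v hv =>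
      (hprop ⟨0, by omega⟩ v (deg hY1 v hv) D hD (hY3 v hv)).1 rfl

end Pool.Agent.Helper14.BECX
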