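import Pool.Agent.Helper14.BECX.OverX
import Pool.Agent.Helper14.BECX.LabO
import Pool.Agent.Helper14.BECX.PatO
import Pool.Agent.Helper14.BECX.EdgeM
import Pool.Agent.Helper14.BECX.Finish
/-! Project BECX: graphs without `K_{k+1}` pack even if `(k+1) d` is slightly larger than `n`. -/
set_option autoImplicit false
namespace Pool.Agent.Helper14.BECX
open Finset Pool.Agent.Helper5.BEC Pool.Agent.Helper5.BEC.C

/-- Parameters: `c` from `labels_orders`, `e = c²/(1000 K³)`, `γ = α = e/5`; `c0 = c (α/(2K))^K`; `κ = c0/(64 K)`;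
`η`, `r0` with `2η + r0/(e/5) ≤ κ²`; `L = 2/r0 + 1`; `T`, `n` large. -/
theorem cplus (k : ℕ) (hk : 2 ≤ k) :
    ∃ γ : ℝ, 0 < γ ∧ ∃ n0 : ℕ, ∀ n ≥ n0, ∀ A B : Nb n, (∀ v, #(A.N v) ≤ k) → NoK A k →
      (∀ y, ((k : ℝ) + 1) * #(B.N y) ≤ (1 + γ) * n) →
      ∃ τ : Equiv.Perm (Fin n), ∀ u v, u ∈ A.N v → τ u ∉ B.N (τ v) := by
  obtain ⟨c, hc0, hc1, hlab⟩ := labels_orders k (by omega) (k + 1)
  obtain ⟨K, hK⟩ : ∃ K : ℝ, K = (k : ℝ) + 1 := ⟨_, rfl⟩
  have hk2 : (2 : ℝ) ≤ k := by exact_mod_cast hk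
  have hK3 : 3 ≤ K := by rw [hK]; linarith
  have hK0 : 0 < K := by linarith
  have hKK : (1 : ℝ) ≤ K ^ 3 := one_le_pow₀ (by linarith)
  obtain ⟨e, he⟩ : ∃ e : ℝ, e = c ^ 2 / (1000 * K ^ 3) := ⟨_, rfl⟩
  have he0 : 0 < e := by rw [he]; positivity
  have hee : 1000 * K ^ 3 * e = c ^ 2 := by rw [he]; field_simp
  have hK3K : K ≤ K ^ 3 := by
    calc K = K ^ 1 := (pow_one K).symm
      _ ≤ K ^ 3 := pow_le_pow_right₀ (by linarith) (by norm_num)
  have hc2 : c ^ 2 ≤ 1 := pow_le_one₀ hc0.le hc1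
  have heK : 1000 * (K * e) ≤ 1 := by
    have h1 : K * e ≤ K ^ 3 * e := mul_le_mul_of_nonneg_right hK3K he0.le
    linarith
  have he1 : 1000 * e ≤ 1 := by
    have h1 : 1 * e ≤ K * e := mul_le_mul_of_nonneg_right (by linarith) he0.le
    linarith
  obtain ⟨α, hα⟩ : ∃ α : ℝ, α = e / 5 := ⟨_, rfl⟩
  have hα0 : 0 < α := by rw [hα]; positivity
  have hα5 : 5 * α = e := by rw [hα]; ring
  obtain ⟨b, hb⟩ : ∃ b : ℝ, b = (α / (2 * (k + 1))) ^ (k + 1) := ⟨_, rfl⟩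
  have hb0 : 0 < b := by rw [hb]; positivity
  have hb1 : b ≤ 1 := by
    rw [hb]
    apply pow_le_one₀ (by positivity)
    rw [div_le_one (by positivity)]
    linarith
  obtain ⟨c0, hc0'⟩ : ∃ c0 : ℝ, c0 = c * b := ⟨_, rfl⟩
  have hc00 : 0 < c0 := by rw [hc0']; positivity
  have hc01 : c0 ≤ 1 := by rw [hc0']; exact mul_le_one₀ hc1 hb0.le hb1
  obtain ⟨κ, hκ⟩ : ∃ κ : ℝ, κ = c0 / (64 * K) := ⟨_, rfl⟩
  have hκ0 : 0 < κ := by rw [hκ]; positivity
  have hκe : κ * (64 * K) = c0 := by rw [hκ]; field_simp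
  have hκ64 : κ * 64 ≤ κ * (64 * K) := mul_le_mul_of_nonneg_left (by linarith) hκ0.le
  have hκ1 : κ * 64 ≤ 1 := hκ64.trans (hκe.le.trans hc01)
  obtain ⟨η, hη⟩ : ∃ η : ℝ, η = min (κ * κ / 4) (e / 5) := ⟨_, rfl⟩
  have hη0 : 0 < η := by rw [hη]; exact lt_min (by positivity) (by positivity)
  have hηκ2 : η ≤ κ * κ / 4 := by rw [hη]; exact min_le_left _ _
  have hηe : 5 * η ≤ e := by
    have : η ≤ e / 5 := by rw [hη]; exact min_le_right _ _
    linarith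
  have hκκ : κ * κ ≤ κ := mul_le_of_le_one_right hκ0.le (by linarith)
  have hηκ : η ≤ κ := by linarith
  have hη1 : η < 1 := by linarith
  obtain ⟨r0, hr0⟩ : ∃ r0 : ℝ, r0 = min (κ * κ / 2 * (e / 5)) (e ^ 2 / 25) := ⟨_, rfl⟩
  have hr00 : 0 < r0 := by rw [hr0]; exact lt_min (by positivity) (by positivity)
  have hr1 : r0 / (e / 5) ≤ κ * κ / 2 := by
    rw [div_le_iff₀ (by positivity), hr0]
    exact min_le_left _ _
  have hr2 : 25 * r0 ≤ e ^ 2 := by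
    have : r0 ≤ e ^ 2 / 25 := by rw [hr0]; exact min_le_right _ _
    linarith
  obtain ⟨L, hL⟩ : ∃ L : ℝ, L = 2 / r0 + 1 := ⟨_, rfl⟩
  have hL0 : 0 < L := by rw [hL]; positivity
  obtain ⟨T0, hT0⟩ := hlab (1 - 2 * κ) η (by linarith) (by linarith) hη0 hη1
  obtain ⟨T1, hT1⟩ := finish k (by omega) c0 hc00 hc01 κ hκ0 (by rw [← hK]; exact hκe.le) L hL0
  obtain ⟨n0, hn0⟩ := hT0 (max T0 T1) (le_max_left _ _)
  obtain ⟨n1, hn1⟩ := hT1 (max T0 T1) (le_max_right _ _)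
  refine ⟨e / 5, by positivity, n0 + n1 + 2 * (k + 1) + 1, ?_⟩
  intro n hn A B hA hNoK hB
  obtain ⟨A', hsub, hA', hNoK', hmax⟩ := edge_max A k hk hA hNoK
  obtain ⟨ord, hinj, hpat⟩ := pat_orders A' k hk hA' hNoK'
  obtain ⟨V, hV⟩ : ∃ V : Finset (Fin n), V = univ.filter fun v => #(A'.N v) = k := ⟨_, rfl⟩
  have hVc : n ≤ 2 * #V := by
    have h1 := Finset.card_filter_add_card_filter_not (s := (univ : Finset (Fin n)))
      (fun v => #(A'.N v) = k)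
    rw [card_univ, Fintype.card_fin] at h1
    have h2 : #(univ.filter fun v : Fin n => ¬ #(A'.N v) = k) ≤ k + 1 := hmax
    rw [hV]
    omega
  obtain ⟨r, hr1', hr2', hr3, hr4⟩ := hn0 n (by omega) A' hA' ord hinj V hVc
  obtain ⟨D, hD⟩ : ∃ D : Dat n, D = ⟨A', B, α, r, max T0 T1⟩ := ⟨_, rfl⟩
  have hDA : D.A = A' := by rw [hD]
  have hDB : D.B = B := by rw [hD]
  have hDr : D.r = r := by rw [hD]
  have hDα : D.α = α := by rw [hD]
  have hDT : D.T = max T0 T1 := by rw [hD]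
  have hnR : (0 : ℝ) < n := by exact_mod_cast (by omega : 0 < n)
  obtain ⟨d, hd⟩ : ∃ d : ℝ, d = (1 + e / 5) * n / (k + 1) := ⟨_, rfl⟩
  have hdK : ((k : ℝ) + 1) * d = (1 + e / 5) * n := by rw [hd]; field_simp
  have hd0 : 0 ≤ d := by rw [hd]; positivity
  have hS : StdX D k d := by
    refine ⟨by omega, by omega, ?_, ?_, hd0, ?_, ?_, ?_, ?_, ?_⟩
    · rw [hDA]; exact hA'
    · intro y
      rw [hDB, hd, le_div_iff₀ (by positivity)]
      have := hB y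
      linarith
    · have h1 : 2 * ((k : ℝ) + 1) * (k * d) = 2 * k * ((k + 1) * d) := by ring
      rw [h1, hdK]
      have h2 : (k : ℝ) * e ≤ K * e := mul_le_mul_of_nonneg_right (by rw [hK]; linarith) he0.le
      have h3 : (k : ℝ) * e * n ≤ 1 * n := mul_le_mul_of_nonneg_right (by linarith) hnR.le
      nlinarith
    · rw [hDα]; exact hα0
    · rw [hDα]; linarith
    · rw [hDr, hDT]; exact hr1'
    · rw [hDr, hDA]; exact hr2'
  have hLab : Lab D k (1 - 2 * κ) η := by rw [hD]; exact hr3 B α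
  have hPat : Pat D k c := by
    apply hpat D c hDA
    intro j
    obtain ⟨Y, hYV, hY1, hY2⟩ := hr4 j
    rw [hV] at hYV
    exact ⟨Y, hYV, hY1, by rw [hDr]; exact hY2⟩
  obtain ⟨w, hw, hwP⟩ := exists_weightsX (γ := e / 5) (e := e) (r0 := r0) (L := L) hS hk
    (by positivity) (by linarith) hdK (by rw [hDα]; exact hα5.le) hη0.le hηe hc0 hc1 he0
    (by rw [← hK]; exact hee.le) (by linarith) (by linarith) hLab hPat
    (by rw [hDα, ← hK, hα]; linarith) hr00 hr2 hL.ge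
  have hCand : CandH D w k c0 := by
    have h1 := candH_of_Pfst hS hw hPat.fst
    rw [hDα, ← hb, ← hc0'] at h1
    exact h1
  obtain ⟨τ, hτ⟩ := hn1 n (by omega) D d η w hDT hS hw hη0.le hηκ hLab
    (by
      refine hwP.trans ?_
      have h1 : 2 * η + r0 / (e / 5) ≤ κ * κ := by linarith
      calc (n : ℝ) * (2 * η + r0 / (e / 5)) ≤ n * (κ * κ) :=
            mul_le_mul_of_nonneg_left h1 hnR.le
        _ = κ * κ * n := by ring) hCand
  refine ⟨τ, fun u v huv => ?_⟩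
  rw [hDA, hDB] at hτ
  exact hτ u v (hsub v huv)

end Pool.Agent.Helper14.BECX
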