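import Pool.Agent.Helper14.BECX.Defs
/-! Project BECX: gluing, and the complete components. -/
set_option autoImplicit false
namespace Pool.Agent.Helper14.BECX
open Finset Pool.Agent.Helper5.BEC

/-- combining an injection on `R` with bijections of the classes -/
theorem glue_perm {V : Type} [Fintype V] {m : ℕ} (C T : Fin m → Finset V)
    (hC : ∀ i j, i ≠ j → Disjoint (C i) (C j)) (hT : ∀ i j, i ≠ j → Disjoint (T i) (T j))
    (hcard : ∀ i, (C i).card = (T i).card) (R : Finset V) (hR : ∀ v, v ∈ R ∨ ∃ i, v ∈ C i)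
    (hRC : ∀ v ∈ R, ∀ i, v ∉ C i) (f : V → V) (hf : Set.InjOn f (R : Set V))
    (hfT : ∀ a ∈ R, ∀ i, f a ∉ T i) :
    ∃ σ : Equiv.Perm V, (∀ v ∈ R, σ v = f v) ∧ ∀ i, ∀ v ∈ C i, σ v ∈ T i := by
  classical
  have he : ∀ i, Nonempty (C i ≃ T i) := fun i => ⟨Finset.equivOfCardEq (hcard i)⟩
  let e : ∀ i, C i ≃ T i := fun i => (he i).some
  have huniq : ∀ v i j, v ∈ C i → v ∈ C j → i = j := by
    intro v i j hi hj
    by_contra hne
    exact (Finset.disjoint_left.1 (hC i j hne)) hi hj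
  have key : ∀ v, ∃ w, (v ∈ R → w = f v) ∧ ∀ i (h : v ∈ C i), w = (e i ⟨v, h⟩ : V) := by
    intro v
    rcases hR v with h | ⟨i, hi⟩
    · exact ⟨f v, fun _ => rfl, fun i hi => absurd hi (hRC v h i)⟩
    · refine ⟨(e i ⟨v, hi⟩ : V), fun h => absurd hi (hRC v h i), ?_⟩
      intro j hj
      obtain rfl := huniq v i j hi hj
      rfl
  choose g hg1 hg2 using key
  have hinj : Function.Injective g := by
    intro u v huv
    rcases hR u with hu | ⟨i, hi⟩
    · rcases hR v with hv | ⟨j, hj⟩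
      · rw [hg1 u hu, hg1 v hv] at huv
        exact hf hu hv huv
      · exfalso
        rw [hg1 u hu, hg2 v j hj] at huv
        exact hfT _ hu j (huv ▸ (e j ⟨v, hj⟩).2)
    · rcases hR v with hv | ⟨j, hj⟩
      · exfalso
        rw [hg2 u i hi, hg1 v hv] at huv
        exact hfT _ hv i (huv ▸ (e i ⟨u, hi⟩).2)
      · rw [hg2 u i hi, hg2 v j hj] at huv
        have hij : i = j := by
          by_contra hne
          have h1 := (e i ⟨u, hi⟩).2
          have h2 := (e j ⟨v, hj⟩).2
          rw [huv] at h1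
          exact (Finset.disjoint_left.1 (hT i j hne)) h1 h2
        subst hij
        have := (e i).injective (Subtype.ext huv)
        simpa using this
  refine ⟨Equiv.ofBijective g (Finite.injective_iff_bijective.1 hinj), ?_, ?_⟩
  · intro v h
    exact hg1 v h
  · intro i v hv
    change g v ∈ T i
    rw [hg2 v i hv]
    exact (e i ⟨v, hv⟩).2

/-- the neighbours of a vertex of a complete component -/
theorem inK_nb {n : ℕ} (A : Nb n) (k : ℕ) (hA : ∀ v, #(A.N v) ≤ k) (v u : Fin n) (h : InK A k v)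
    (hu : u ∈ A.N v) : insert u (A.N u) = insert v (A.N v) ∧ InK A k u := by
  classical
  have hsub : (insert v (A.N v)).erase u ⊆ A.N u := by
    intro x hx
    rw [mem_erase, mem_insert] at hx
    obtain ⟨hxu, rfl | hx⟩ := hx
    · exact A.symm _ _ hu
    · exact h.2 u hu x hx (Ne.symm hxu)
  have huc : u ∈ insert v (A.N v) := mem_insert_of_mem hu
  have hcard : #((insert v (A.N v)).erase u) = k := by
    rw [card_erase_of_mem huc, card_insert_of_notMem (A.irr v), h.1]
    rfl
  have heq : (insert v (A.N v)).erase u = A.N u :=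
    eq_of_subset_of_card_le hsub (by rw [hcard]; exact hA u)
  have hcl : insert u (A.N u) = insert v (A.N v) := by
    rw [← heq, insert_erase huc]
  refine ⟨hcl, by rw [← heq, hcard], ?_⟩
  intro x hx y hy hxy
  have hx' : x ∈ insert v (A.N v) := by rw [← hcl]; exact mem_insert_of_mem hx
  have hy' : y ∈ insert v (A.N v) := by rw [← hcl]; exact mem_insert_of_mem hy
  rw [mem_insert] at hx' hy'
  rcases hx' with rfl | hx' <;> rcases hy' with rfl | hy'
  · exact absurd rfl hxy
  · exact hy'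
  · exact A.symm _ _ hx'
  · exact h.2 x hx' y hy' hxy

/-- the complete components -/
theorem classes_exist {n : ℕ} (A : Nb n) (k : ℕ) (hA : ∀ v, #(A.N v) ≤ k) (R : Finset (Fin n))
    (hR : ∀ v, v ∈ R ↔ ¬ InK A k v) :
    ∃ (m : ℕ) (C : Fin m → Finset (Fin n)), (∀ i j, i ≠ j → Disjoint (C i) (C j)) ∧
      (∀ i, #(C i) = k + 1) ∧ (∀ v, v ∈ R ∨ ∃ i, v ∈ C i) ∧ (∀ v ∈ R, ∀ i, v ∉ C i) ∧
      (∀ i, ∀ v ∈ C i, ∀ u ∈ A.N v, u ∈ C i) ∧ n = (k + 1) * m + #R := by
  classical
  set Ks : Finset (Fin n) := univ.filter fun v => InK A k v with hKs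
  set P : Finset (Finset (Fin n)) := Ks.image (fun v => insert v (A.N v)) with hP
  have hmem : ∀ v, InK A k v → ∀ x ∈ insert v (A.N v), insert x (A.N x) = insert v (A.N v) ∧
      InK A k x := by
    intro v hv x hx
    rw [mem_insert] at hx
    rcases hx with rfl | hx
    · exact ⟨rfl, hv⟩
    · exact inK_nb A k hA v x hv hx
  have hPc : ∀ c ∈ P, #c = k + 1 := by
    intro c hc
    rw [hP, mem_image] at hc
    obtain ⟨v, hv, rfl⟩ := hc
    rw [hKs, mem_filter] at hv
    rw [card_insert_of_notMem (A.irr v), hv.2.1]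
  have hPd : ∀ c ∈ P, ∀ c' ∈ P, c ≠ c' → Disjoint c c' := by
    intro c hc c' hc' hne
    rw [hP, mem_image] at hc hc'
    obtain ⟨v, hv, rfl⟩ := hc
    obtain ⟨v', hv', rfl⟩ := hc'
    rw [hKs, mem_filter] at hv hv'
    rw [disjoint_left]
    intro x hx hx'
    exact hne ((hmem v hv.2 x hx).1.symm.trans (hmem v' hv'.2 x hx').1)
  have hPcl : ∀ c ∈ P, ∀ v ∈ c, ∀ u ∈ A.N v, u ∈ c := by
    intro c hc v hv u hu
    rw [hP, mem_image] at hc
    obtain ⟨w, hw, rfl⟩ := hc
    rw [hKs, mem_filter] at hw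
    have h2 := (hmem w hw.2 v hv)
    rw [← h2.1]
    exact mem_insert_of_mem hu
  have hPU : P.biUnion id = Ks := by
    ext x
    simp only [mem_biUnion, id]
    constructor
    · rintro ⟨c, hc, hx⟩
      rw [hP, mem_image] at hc
      obtain ⟨v, hv, rfl⟩ := hc
      rw [hKs, mem_filter] at hv ⊢
      exact ⟨mem_univ _, (hmem v hv.2 x hx).2⟩
    · intro hx
      exact ⟨_, mem_image_of_mem _ hx, mem_insert_self _ _⟩
  have hKsc : #Ks = (k + 1) * #P := by
    have h1 : ∑ c ∈ P, #(id c) = #P * (k + 1) := sum_const_nat (fun c hc => hPc c hc)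
    rw [← hPU, card_biUnion (t := id) (fun c hc c' hc' hne => hPd c hc c' hc' hne), h1, mul_comm]
  have hRK : R = univ \ Ks := by
    ext v
    rw [hR]
    simp [hKs]
  refine ⟨#P, fun i => (P.equivFin.symm i : Finset (Fin n)), ?_, ?_, ?_, ?_, ?_, ?_⟩
  · intro i j hij
    exact hPd _ (P.equivFin.symm i).2 _ (P.equivFin.symm j).2
      (fun h => hij (P.equivFin.symm.injective (Subtype.ext h)))
  · intro i
    exact hPc _ (P.equivFin.symm i).2
  · intro v
    by_cases hv : InK A k v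
    · right
      have h1 : v ∈ P.biUnion id := by rw [hPU, hKs, mem_filter]; exact ⟨mem_univ _, hv⟩
      obtain ⟨c, hc, hvc⟩ := mem_biUnion.1 h1
      exact ⟨P.equivFin ⟨c, hc⟩, by simpa using hvc⟩
    · exact Or.inl ((hR v).2 hv)
  · intro v hv i hvi
    have h1 : v ∈ P.biUnion id := mem_biUnion.2 ⟨_, (P.equivFin.symm i).2, hvi⟩
    rw [hPU, hKs, mem_filter] at h1
    exact (hR v).1 hv h1.2
  · intro i v hv u hu
    exact hPcl _ (P.equivFin.symm i).2 v hv u hu
  · have h1 : #R + #Ks = n := by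
      rw [hRK, card_sdiff_add_card_eq_card (subset_univ _), card_univ, Fintype.card_fin]
    omega

end Pool.Agent.Helper14.BECX
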