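import Pool.Agent.Helper14.BECX.Rand
/-! Project BECX, piece Rand2: random unions of many tiles, degrees of all vertices. -/
set_option autoImplicit false
namespace Pool.Agent.Helper14.BECX
open Finset Pool.Agent.Helper61.LE Pool.Agent.Helper5.BEC

/-- Disjoint tiles `{v | t v = j}`, `j < N`, of size at most `K`; linearly many (`q ≥ δ n`) of them can be chosen such that EVERY vertex
has at most the expected number `(q/N) #(B.N v)` of neighbours in the chosen tiles, plus `ε n`.
Proof. As in `random_tiles` (Rand.lean): select every tile independently with probability `q/N`; exactly `q` tiles are selected with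
probability at least `1/(e q)` (`PP_card_lower`), and for a fixed `v` the sum over the tiles `j ∈ J` of `#(B.N v ∩ tile j) ≤ K` exceeds its
expectation by `ε n` with probability at most `exp(-c n)` (exponential moments, `sel_tail`); union bound over the `n` vertices.
Alternatively without exact counts: select with probability `(1-ε/2) q/N`; the number of selected tiles is `≤ q` and `≥ q - ε n/(2K)`-ish
with positive probability; add arbitrary tiles (they add at most `K` neighbours each). -/
theorem random_tiles_all (K : ℕ) (hK : 1 ≤ K) (δ ε : ℝ) (hδ : 0 < δ) (hε : 0 < ε) :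
    ∃ n0 : ℕ, ∀ (n N q : ℕ), n0 ≤ n → δ * n ≤ q → q ≤ N → N ≤ n → ∀ (B : Nb n) (t : Fin n → ℕ),
      (∀ j < N, #(univ.filter fun v => t v = j) ≤ K) →
      ∃ J ⊆ range N, #J = q ∧ ∀ v,
        (#((B.N v).filter fun u => t u ∈ J) : ℝ) ≤ q / N * #(B.N v) + ε * n := by
  classical
  obtain ⟨e, he0, he1, heε⟩ : ∃ e : ℝ, 0 < e ∧ e ≤ 1 ∧ e ≤ ε :=
    ⟨min ε 1, lt_min hε one_pos, min_le_right _ _, min_le_left _ _⟩
  have hKr : (1 : ℝ) ≤ K := by exact_mod_cast hK
  have hK0 : (0 : ℝ) < K := by linarith
  obtain ⟨c1, hc1⟩ : ∃ c1 : ℝ, c1 = e ^ 2 / (16 * K ^ 2) := ⟨_, rfl⟩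
  have hc10 : 0 < c1 := by rw [hc1]; positivity
  obtain ⟨n0, hn0⟩ := exists_nat_gt (18 / c1 ^ 3)
  refine ⟨n0, ?_⟩
  intro n N q hn hδq hqN hNn B t ht
  have hnr : (n0 : ℝ) ≤ n := by exact_mod_cast hn
  have hn1 : 18 / c1 ^ 3 < n := hn0.trans_le hnr
  have hnpos : (0 : ℝ) < n := lt_trans (by positivity) hn1
  have hqpos : (0 : ℝ) < q := lt_of_lt_of_le (mul_pos hδ hnpos) hδq
  have hq1' : 1 ≤ q := by exact_mod_cast hqpos
  have hNpos : (0 : ℝ) < N := lt_of_lt_of_le hqpos (by exact_mod_cast hqN)
  have hqn : (q : ℝ) ≤ n := by exact_mod_cast hqN.trans hNn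
  by_contra hcon
  push Not at hcon
  obtain ⟨p, hp⟩ : ∃ p : ℝ, p = (q : ℝ) / N := ⟨_, rfl⟩
  have hp0 : 0 ≤ p := by rw [hp]; positivity
  have hp1 : p ≤ 1 := by
    rw [hp, div_le_one hNpos]
    exact_mod_cast hqN
  have hpN : p * N = q := by rw [hp]; field_simp
  have hIP := ber_isProb N p hp0 hp1
  obtain ⟨T, hT⟩ : ∃ T : ℝ, T = e * n := ⟨_, rfl⟩
  have hT0 : 0 ≤ T := by rw [hT]; positivity
  let a : Fin n → Fin N → ℝ := fun v i => (#((B.N v).filter fun u => t u = i) : ℝ)
  let A : Fin n → (Fin N → Bool) → Prop := fun v ω => T ≤ sel (a v) ω - p * ∑ i, a v i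
  have ha0 : ∀ v i, 0 ≤ a v i := by
    intro v i
    simp only [a]
    positivity
  have haK : ∀ v i, a v i ≤ K := by
    intro v i
    simp only [a]
    exact_mod_cast (Finset.card_le_card (Finset.filter_subset_filter _
      (Finset.subset_univ _))).trans (ht i i.2)
  have hmean : ∀ v, p * ∑ i, a v i ≤ p * #(B.N v) := by
    intro v
    refine mul_le_mul_of_nonneg_left ?_ hp0
    calc ∑ i, a v i = ((∑ i : Fin N, #((B.N v).filter fun u => t u = i) : ℕ) : ℝ) := by
          simp only [a]
          push_cast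
          rfl
      _ ≤ (#(B.N v) : ℝ) := by
          have h1 : ∑ i : Fin N, #((B.N v).filter fun u => t u = i) =
              #((univ : Finset (Fin N)).biUnion fun i => (B.N v).filter fun u => t u = i) := by
            rw [Finset.card_biUnion]
            intro i _ j _ hij
            refine Finset.disjoint_left.2 fun u hu hu' => ?_
            rw [Finset.mem_filter] at hu hu'
            exact hij (Fin.ext (hu.2.symm.trans hu'.2))
          rw [h1]
          exact_mod_cast Finset.card_le_card (Finset.biUnion_subset.2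
            fun i _ => Finset.filter_subset _ _)
  have key : ∀ ω : Fin N → Bool, #(univ.filter fun i => ω i = true) = q →
      ∃ v ∈ (univ : Finset (Fin n)), A v ω := by
    intro ω hω
    obtain ⟨v, hv2⟩ := hcon ((univ.filter fun i => ω i = true).map Fin.valEmbedding)
      (by
        intro j hj
        rw [Finset.mem_map] at hj
        obtain ⟨i, _, rfl⟩ := hj
        exact Finset.mem_range.2 i.2) (by rw [Finset.card_map, hω])
    set J := (univ.filter fun i => ω i = true).map Fin.valEmbedding with hJ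
    refine ⟨v, Finset.mem_univ _, ?_⟩
    have h2 : (#((B.N v).filter fun u => t u ∈ J) : ℝ) ≤ sel (a v) ω := by
      rw [Finset.card_eq_sum_card_fiberwise (f := t) (t := J) (by
        intro u hu
        rw [Finset.mem_coe, Finset.mem_filter] at hu
        exact hu.2)]
      rw [hJ, Finset.sum_map, Finset.sum_filter]
      push_cast
      unfold sel
      refine Finset.sum_le_sum fun i _ => ?_
      by_cases hi : ω i = true
      · rw [if_pos hi, if_pos hi]
        simp only [a]
        have h3 : ((B.N v).filter fun u => t u ∈ J).filter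
            (fun u => t u = Fin.valEmbedding i) ⊆ (B.N v).filter fun u => t u = i := by
          intro u hu
          rw [Finset.mem_filter, Finset.mem_filter] at hu
          exact Finset.mem_filter.2 ⟨hu.1.1, hu.2⟩
        rw [← hJ]
        exact_mod_cast Finset.card_le_card h3
      · rw [if_neg hi, if_neg hi]
    have h4 : e * n ≤ ε * n := mul_le_mul_of_nonneg_right heε hnpos.le
    have h5 := hmean v
    show T ≤ sel (a v) ω - p * ∑ i, a v i
    rw [hp] at h5 ⊢
    linarith
  have hL0 : (0 : ℝ) < K * n := by positivity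
  have hTL : T ≤ 4 * (K * n) := by
    rw [hT]
    nlinarith
  have hx : Real.exp (-(T ^ 2 / (16 * K * (K * n)))) = Real.exp (-(c1 * n)) := by
    congr 2
    rw [hT, hc1]
    field_simp
  have hA : ∀ v, PP (ber N p) (A v) ≤ Real.exp (-(c1 * n)) := by
    intro v
    rw [← hx]
    refine sel_tail N p hp0 hp1 K (K * n) hK0 (a v) (ha0 v) (haK v) ?_ hL0 T hT0 hTL
    rw [hpN, mul_comm]
    exact mul_le_mul_of_nonneg_left hqn hK0.le
  have hmain : 1 / (Real.exp 1 * q) ≤ n * Real.exp (-(c1 * n)) := by
    calc 1 / (Real.exp 1 * q) ≤ PP (ber N ((q : ℝ) / N))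
          (fun ω => #(univ.filter fun i => ω i = true) = q) := PP_card_lower N q hq1' hqN
      _ = PP (ber N p) (fun ω => #(univ.filter fun i => ω i = true) = q) := by rw [hp]
      _ ≤ PP (ber N p) (fun ω => ∃ v ∈ (univ : Finset (Fin n)), A v ω) := PP_mono hIP key
      _ ≤ ∑ v : Fin n, PP (ber N p) (A v) := PP_exists_le hIP _ _
      _ ≤ ∑ v : Fin n, Real.exp (-(c1 * n)) := Finset.sum_le_sum fun v _ => hA v
      _ = _ := by
          rw [Finset.sum_const, Finset.card_univ, Fintype.card_fin, nsmul_eq_mul]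
  -- contradiction
  have he3 : Real.exp 1 < 3 := lt_trans Real.exp_one_lt_d9 (by norm_num)
  have hexp : (c1 * n) ^ 3 / 6 ≤ Real.exp (c1 * n) := by
    have := Real.pow_div_factorial_le_exp (c1 * n) (by positivity) 3
    norm_num [Nat.factorial] at this
    exact this
  have h1 : Real.exp (c1 * n) ≤ n * (Real.exp 1 * q) := by
    rw [Real.exp_neg] at hmain
    rw [div_le_iff₀ (by positivity)] at hmain
    have h2 : (n : ℝ) * (Real.exp (c1 * n))⁻¹ * (Real.exp 1 * q) =
        (n * (Real.exp 1 * q)) / Real.exp (c1 * n) := by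
      field_simp
    rw [h2, le_div_iff₀ (Real.exp_pos _), one_mul] at hmain
    exact hmain
  have h2 : (n : ℝ) * (Real.exp 1 * q) ≤ 3 * n ^ 2 := by
    have h21 : Real.exp 1 * q ≤ 3 * n := mul_le_mul he3.le hqn hqpos.le (by norm_num)
    nlinarith
  have h3 : (c1 * n) ^ 3 ≤ 18 * n ^ 2 := by linarith
  rw [div_lt_iff₀ (by positivity)] at hn1
  have h4 : 18 * (n : ℝ) ^ 2 < n * c1 ^ 3 * n ^ 2 :=
    mul_lt_mul_of_pos_right hn1 (by positivity)
  have h5 : n * c1 ^ 3 * (n : ℝ) ^ 2 = (c1 * n) ^ 3 := by ring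
  linarith

end Pool.Agent.Helper14.BECX
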