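import Pool.Agent.Helper14.BECX.TilesA
/-! Project BECX, piece TilesC: a partition into independent sets of sizes `k+1` and `k`. -/
set_option autoImplicit false
namespace Pool.Agent.Helper14.BECX
open Finset Pool.Agent.Helper5.BEC

/-- a renumbering of `D+1` classes which moves the classes of `S` to the end -/
theorem tilesC_renumber (m p : ℕ) (S : Finset ℕ) (hS : S ⊆ range m) (hp : #S = p) (hpm : p ≤ m) :
    ∃ π : ℕ → ℕ, (∀ i ∈ range m, π i < m) ∧
      (∀ j < m - p, ∃ j' ∈ range m, j' ∉ S ∧ ∀ i ∈ range m, π i = j ↔ i = j') ∧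
      (∀ j, m - p ≤ j → j < m → ∃ j' ∈ S, ∀ i ∈ range m, π i = j ↔ i = j') := by
  classical
  have hT : #(range m \ S) = m - p := by
    rw [card_sdiff_of_subset hS, card_range, hp]
  let eS := S.equivFinOfCardEq hp
  let eT := (range m \ S).equivFinOfCardEq hT
  let π : ℕ → ℕ := fun j => if h : j ∈ S then (m - p) + (eS ⟨j, h⟩ : ℕ) else
    if h' : j ∈ range m \ S then (eT ⟨j, h'⟩ : ℕ) else 0
  have hπS : ∀ j (h : j ∈ S), π j = (m - p) + (eS ⟨j, h⟩ : ℕ) := by
    intro j h
    simp only [π, dif_pos h]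
  have hπT : ∀ j (h : j ∈ range m \ S), π j = (eT ⟨j, h⟩ : ℕ) := by
    intro j h
    have h1 : j ∉ S := (mem_sdiff.1 h).2
    simp only [π, dif_neg h1, dif_pos h]
  refine ⟨π, ?_, ?_, ?_⟩
  · intro i hi
    by_cases h : i ∈ S
    · rw [hπS i h]
      have := (eS ⟨i, h⟩).2
      omega
    · have h' : i ∈ range m \ S := mem_sdiff.2 ⟨hi, h⟩
      rw [hπT i h']
      have := (eT ⟨i, h'⟩).2
      omega
  · intro j hj
    have hm := (eT.symm ⟨j, hj⟩).2
    refine ⟨(eT.symm ⟨j, hj⟩ : ℕ), (mem_sdiff.1 hm).1, (mem_sdiff.1 hm).2, ?_⟩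
    intro i hi
    constructor
    · intro h
      by_cases hiS : i ∈ S
      · rw [hπS i hiS] at h
        omega
      · have h' : i ∈ range m \ S := mem_sdiff.2 ⟨hi, hiS⟩
        rw [hπT i h'] at h
        have h1 : eT ⟨i, h'⟩ = ⟨j, hj⟩ := Fin.ext h
        rw [← h1, Equiv.symm_apply_apply]
    · intro h
      subst h
      rw [hπT _ hm]
      have h1 : (⟨(eT.symm ⟨j, hj⟩ : ℕ), hm⟩ : {x // x ∈ range m \ S}) = eT.symm ⟨j, hj⟩ := rfl
      rw [h1, Equiv.apply_symm_apply]
  · intro j hj hjm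
    have hj' : j - (m - p) < p := by omega
    have hm := (eS.symm ⟨j - (m - p), hj'⟩).2
    refine ⟨(eS.symm ⟨j - (m - p), hj'⟩ : ℕ), hm, ?_⟩
    intro i hi
    constructor
    · intro h
      by_cases hiS : i ∈ S
      · rw [hπS i hiS] at h
        have h1 : eS ⟨i, hiS⟩ = ⟨j - (m - p), hj'⟩ := by
          apply Fin.ext
          show (eS ⟨i, hiS⟩ : ℕ) = j - (m - p)
          omega
        rw [← h1, Equiv.symm_apply_apply]
      · have h' : i ∈ range m \ S := mem_sdiff.2 ⟨hi, hiS⟩
        rw [hπT i h'] at h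
        have := (eT ⟨i, h'⟩).2
        omega
    · intro h
      subst h
      rw [hπS _ hm]
      have h1 : (⟨(eS.symm ⟨j - (m - p), hj'⟩ : ℕ), hm⟩ : {x // x ∈ S}) =
          eS.symm ⟨j - (m - p), hj'⟩ := rfl
      rw [h1, Equiv.apply_symm_apply]
      show m - p + (j - (m - p)) = j
      omega

/-- Equitable colouring with `D+1` colours for `n = (D+1)(k+1) - p`, `p ≤ D+1`: the first `D+1-p` classes have `k+1` vertices, the last
`p` classes have `k` vertices.
Proof: add a complete graph on `p` new vertices (degrees `p-1 ≤ D`): the graph on `n + p = (D+1)(k+1)` vertices has all degrees `≤ D`;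
`Helper64.BEC.exact_exists` (all sizes `k+1 = c`, `r = D`, `(D+1)(k+1) ≤ n+p+1`, as in TilesA) gives `D+1` independent classes of size
`k+1`; every class contains at most one new vertex, so exactly `p` classes contain one; renumber the classes. -/
theorem exists_tiles_plus (k n p D : ℕ) (B : Nb n) (hB : ∀ y, #(B.N y) ≤ D)
    (hn : n + p = (D + 1) * (k + 1)) (hp : p ≤ D + 1) :
    ∃ t : Fin n → ℕ, (∀ v, t v < D + 1) ∧
      (∀ j < D + 1 - p, #(univ.filter fun v => t v = j) = k + 1) ∧
      (∀ j, D + 1 - p ≤ j → j < D + 1 → #(univ.filter fun v => t v = j) = k) ∧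
      ∀ u v, u ∈ B.N v → t u ≠ t v := by
  classical
  let G : SimpleGraph (Fin n ⊕ Fin p) :=
    { Adj := fun a b => (∃ u v, a = Sum.inl u ∧ b = Sum.inl v ∧ u ∈ B.N v) ∨
        (∃ i j, a = Sum.inr i ∧ b = Sum.inr j ∧ i ≠ j)
      symm := ⟨fun a b h => by
        rcases h with ⟨u, v, rfl, rfl, h⟩ | ⟨i, j, rfl, rfl, h⟩
        · exact Or.inl ⟨v, u, rfl, rfl, B.symm u v h⟩
        · exact Or.inr ⟨j, i, rfl, rfl, h.symm⟩⟩
      loopless := ⟨fun a h => by
        rcases h with ⟨u, v, hu, hv, h⟩ | ⟨i, j, hi, hj, h⟩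
        · rw [hu] at hv
          rw [Sum.inl_injective hv] at h
          exact B.irr v h
        · rw [hi] at hj
          exact h (Sum.inr_injective hj)⟩ }
  have hGl : ∀ u v : Fin n, G.Adj (Sum.inl u) (Sum.inl v) ↔ u ∈ B.N v := by
    intro u v
    constructor
    · rintro (⟨u', v', hu, hv, h⟩ | ⟨i, j, hi, hj, h⟩)
      · rw [Sum.inl_injective hu, Sum.inl_injective hv]
        exact h
      · exact absurd hi (by simp)
    · intro h
      exact Or.inl ⟨u, v, rfl, rfl, h⟩
  have hGr : ∀ i j : Fin p, i ≠ j → G.Adj (Sum.inr i) (Sum.inr j) := by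
    intro i j h
    exact Or.inr ⟨i, j, rfl, rfl, h⟩
  have hdeg : ∀ v ∈ (univ : Finset (Fin n ⊕ Fin p)), (Helper64.BEC.nbs G univ v).card ≤ D := by
    rintro (v | i) _
    · have h1 : Helper64.BEC.nbs G univ (Sum.inl v) ⊆ (B.N v).map ⟨Sum.inl, Sum.inl_injective⟩ := by
        intro w hw
        rw [Helper64.BEC.mem_nbs] at hw
        rcases hw.2 with ⟨u', v', hu, hv, h⟩ | ⟨i, j, hi, hj, h⟩
        · rw [mem_map]
          refine ⟨v', ?_, hv.symm⟩
          rw [Sum.inl_injective hu]
          exact B.symm _ _ h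
        · exact absurd hi (by simp)
      refine (card_le_card h1).trans ?_
      rw [card_map]
      exact hB v
    · have h1 : Helper64.BEC.nbs G univ (Sum.inr i) ⊆
          (univ.erase i).map ⟨Sum.inr, Sum.inr_injective⟩ := by
        intro w hw
        rw [Helper64.BEC.mem_nbs] at hw
        rcases hw.2 with ⟨u', v', hu, hv, h⟩ | ⟨i', j, hi, hj, h⟩
        · exact absurd hu (by simp)
        · rw [mem_map]
          refine ⟨j, ?_, hj.symm⟩
          rw [mem_erase]
          refine ⟨?_, mem_univ _⟩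
          rw [Sum.inr_injective hi]
          exact h.symm
      refine (card_le_card h1).trans ?_
      rw [card_map, card_erase_of_mem (mem_univ _), card_univ, Fintype.card_fin]
      omega
  have hcard : (univ : Finset (Fin n ⊕ Fin p)).card = (D + 1) * (k + 1) := by
    rw [card_univ, Fintype.card_sum, Fintype.card_fin, Fintype.card_fin, hn]
  obtain ⟨f, hf⟩ := Helper64.BEC.exact_exists (V := Fin n ⊕ Fin p) (fun _ : ℕ => k + 1) (k + 1)
    (univ : Finset (Fin n ⊕ Fin p)).card G univ (range (D + 1)) D rfl hdeg (by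
      rw [sum_const, card_range, smul_eq_mul, hcard]) (fun i _ => le_rfl) (by
      rw [hcard]
      omega)
  have hmaps : ∀ a, f a < D + 1 := fun a => mem_range.1 (hf.maps a (mem_univ a))
  have hinj : Function.Injective (fun i : Fin p => f (Sum.inr i)) := by
    intro i j h
    by_contra hij
    exact hf.proper _ (mem_univ _) _ (mem_univ _) (hGr i j hij) h
  -- the classes with a new vertex
  set S : Finset ℕ := univ.image (fun i : Fin p => f (Sum.inr i)) with hSdef
  have hSp : #S = p := by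
    rw [hSdef, card_image_of_injective _ hinj, card_univ, Fintype.card_fin]
  have hSr : S ⊆ range (D + 1) := by
    intro j hj
    rw [hSdef, mem_image] at hj
    obtain ⟨i, _, rfl⟩ := hj
    exact mem_range.2 (hmaps _)
  have hcount : ∀ j ∈ range (D + 1), #(univ.filter fun v : Fin n => f (Sum.inl v) = j) +
      #(univ.filter fun i : Fin p => f (Sum.inr i) = j) = k + 1 := by
    intro j hj
    have h1 := hf.card j hj
    rw [← h1]
    unfold Helper64.BEC.cl
    rw [card_filter, card_filter, card_filter, Fintype.sum_sum_type]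
    refine congrArg₂ (· + ·) (sum_congr rfl fun i _ => ?_) (sum_congr rfl fun i _ => ?_)
    · by_cases h : f (Sum.inl i) = j
      · rw [if_pos h, if_pos h]
      · rw [if_neg h, if_neg h]
    · by_cases h : f (Sum.inr i) = j
      · rw [if_pos h, if_pos h]
      · rw [if_neg h, if_neg h]
  have hin : ∀ j ∈ S, #(univ.filter fun i : Fin p => f (Sum.inr i) = j) = 1 := by
    intro j hj
    rw [hSdef, mem_image] at hj
    obtain ⟨i, _, hi⟩ := hj
    rw [card_eq_one]
    refine ⟨i, ?_⟩
    ext i'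
    rw [mem_filter, mem_singleton]
    constructor
    · intro h
      exact hinj (h.2.trans hi.symm)
    · intro h
      rw [h]
      exact ⟨mem_univ _, hi⟩
  have hout : ∀ j, j ∉ S → #(univ.filter fun i : Fin p => f (Sum.inr i) = j) = 0 := by
    intro j hj
    rw [card_eq_zero, filter_eq_empty_iff]
    intro i _ h
    apply hj
    rw [hSdef, mem_image]
    exact ⟨i, mem_univ _, h⟩
  obtain ⟨π, hπ1, hπ2, hπ3⟩ := tilesC_renumber (D + 1) p S hSr hSp hp
  have hfr : ∀ v : Fin n, f (Sum.inl v) ∈ range (D + 1) := fun v => mem_range.2 (hmaps _)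
  refine ⟨fun v => π (f (Sum.inl v)), fun v => hπ1 _ (hfr v), ?_, ?_, ?_⟩
  · intro j hj
    obtain ⟨j', hj', hj'S, h⟩ := hπ2 j hj
    have h1 : (univ.filter fun v : Fin n => π (f (Sum.inl v)) = j) =
        univ.filter fun v : Fin n => f (Sum.inl v) = j' :=
      filter_congr fun v _ => h _ (hfr v)
    rw [h1]
    have h2 := hcount j' hj'
    rw [hout j' hj'S] at h2
    omega
  · intro j hj hjD
    obtain ⟨j', hj'S, h⟩ := hπ3 j hj hjD
    have h1 : (univ.filter fun v : Fin n => π (f (Sum.inl v)) = j) =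
        univ.filter fun v : Fin n => f (Sum.inl v) = j' :=
      filter_congr fun v _ => h _ (hfr v)
    rw [h1]
    have h2 := hcount j' (hSr hj'S)
    rw [hin j' hj'S] at h2
    omega
  · intro u v huv h
    have h0 : f (Sum.inl u) ≠ f (Sum.inl v) :=
      hf.proper _ (mem_univ _) _ (mem_univ _) ((hGl u v).2 huv)
    apply h0
    -- `π` is injective on the range
    have hlt := hπ1 _ (hfr v)
    by_cases hc : π (f (Sum.inl v)) < D + 1 - p
    · obtain ⟨j', _, _, h1⟩ := hπ2 _ hc
      rw [(h1 _ (hfr u)).1 h, (h1 _ (hfr v)).1 rfl]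
    · obtain ⟨j', _, h1⟩ := hπ3 _ (not_lt.1 hc) hlt
      rw [(h1 _ (hfr u)).1 h, (h1 _ (hfr v)).1 rfl]

end Pool.Agent.Helper14.BECX
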