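import Pool.Agent.Helper14.BECX.Tiles
import Pool.Agent.Helper14.BECX.TilesC
import Pool.Agent.Helper14.BECX.Rand2
import Pool.Agent.Helper14.BECX.Glue
/-! Project BECX: beyond the bound, if linearly many vertices are outside the complete components. -/
set_option autoImplicit false
namespace Pool.Agent.Helper14.BECX
open Finset Pool.Agent.Helper5.BEC

/-- Beyond the bound: if at least `ε n` vertices of `A` are outside the complete components
`K_{k+1}`, then a packing exists for `(k+1) D ≤ (1+γ) n`. -/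
theorem cplus_eps (k : ℕ) (hk : 2 ≤ k) (ε : ℝ) (hε : 0 < ε) :
    ∃ γ : ℝ, 0 < γ ∧ ∃ n0 : ℕ, ∀ (n : ℕ) (A B : Nb n) (D : ℕ), n0 ≤ n → (∀ v, #(A.N v) ≤ k) →
      (∀ y, #(B.N y) ≤ D) → ((k : ℝ) + 1) * D ≤ (1 + γ) * n →
      (∃ R : Finset (Fin n), ε * n ≤ #R ∧ ∀ v ∈ R, ¬ InK A k v) →
      ∃ τ : Equiv.Perm (Fin n), ∀ u v, u ∈ A.N v → τ u ∉ B.N (τ v) := by
  classical
  obtain ⟨n1, hn1⟩ := packing_plus k hk
  obtain ⟨γc, hγc, n2, hn2⟩ := cplus_sub k hk
  have hk1 : (2 : ℝ) ≤ k := by exact_mod_cast hk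
  have hK0 : (0 : ℝ) < (k : ℝ) + 1 := by positivity
  -- constants
  obtain ⟨ε₁, hε₁⟩ : ∃ ε₁ : ℝ, ε₁ = γc * ε / (2 * ((k : ℝ) + 1)) := ⟨_, rfl⟩
  have hε₁0 : 0 < ε₁ := by rw [hε₁]; positivity
  obtain ⟨δ, hδ⟩ : ∃ δ : ℝ, δ = ε / (2 * ((k : ℝ) + 1)) := ⟨_, rfl⟩
  have hδ0 : 0 < δ := by rw [hδ]; positivity
  obtain ⟨n3, hn3⟩ := random_tiles_all (k + 1) (by omega) δ ε₁ hδ0 hε₁0
  obtain ⟨γ, hγ⟩ : ∃ γ : ℝ, γ = min (γc * ε / (4 * ((k : ℝ) + 1) ^ 2))
      (min (ε / (4 * ((k : ℝ) + 1))) (1 / (4 * ((k : ℝ) + 1)))) := ⟨_, rfl⟩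
  have hγ0 : 0 < γ := by rw [hγ]; positivity
  have hγ1 : γ ≤ γc * ε / (4 * ((k : ℝ) + 1) ^ 2) := by rw [hγ]; exact min_le_left _ _
  have hγ2 : γ ≤ ε / (4 * ((k : ℝ) + 1)) := by
    rw [hγ]; exact (min_le_right _ _).trans (min_le_left _ _)
  have hγ3 : γ ≤ 1 / (4 * ((k : ℝ) + 1)) := by
    rw [hγ]; exact (min_le_right _ _).trans (min_le_right _ _)
  obtain ⟨n4, hn4⟩ := exists_nat_gt (max (max ((n1 : ℝ) / ε) ((n2 : ℝ) / ε)) (((k : ℝ) + 1) / γ))
  refine ⟨γ, hγ0, max n3 n4, ?_⟩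
  intro n A B D hn hA hB hD hR0
  have hn3' : n3 ≤ n := (le_max_left _ _).trans hn
  have hn4' : (n4 : ℝ) ≤ n := by exact_mod_cast (le_max_right _ _).trans hn
  have hna : (n1 : ℝ) < ε * n := by
    have : (n1 : ℝ) / ε < n := lt_of_le_of_lt ((le_max_left _ _).trans (le_max_left _ _))
      (hn4.trans_le hn4')
    rw [div_lt_iff₀ hε] at this
    linarith
  have hnb : (n2 : ℝ) < ε * n := by
    have : (n2 : ℝ) / ε < n := lt_of_le_of_lt ((le_max_right _ _).trans (le_max_left _ _))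
      (hn4.trans_le hn4')
    rw [div_lt_iff₀ hε] at this
    linarith
  have hnc : (k : ℝ) + 1 < γ * n := by
    have : ((k : ℝ) + 1) / γ < n := lt_of_le_of_lt (le_max_right _ _) (hn4.trans_le hn4')
    rw [div_lt_iff₀ hγ0] at this
    linarith
  obtain ⟨R', hR'1, hR'2⟩ := hR0
  by_cases hcase : (k + 1) * (D + 1) ≤ n + 1
  · refine hn1 n A B D hA hB hcase ⟨R', ?_, hR'2⟩
    have : (n1 : ℝ) < #R' := lt_of_lt_of_le hna hR'1
    exact_mod_cast this.le
  push Not at hcase
  -- the vertices outside the complete components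
  obtain ⟨R, hR⟩ : ∃ R : Finset (Fin n), ∀ v, v ∈ R ↔ ¬ InK A k v :=
    ⟨univ.filter fun v => ¬ InK A k v, fun v => by simp⟩
  have hRc : ε * n ≤ #R := by
    refine hR'1.trans ?_
    exact_mod_cast card_le_card (fun v hv => (hR v).2 (hR'2 v hv))
  have hRn : #R ≤ n := by
    have := card_le_univ R
    rwa [Fintype.card_fin] at this
  obtain ⟨m, C, hC1, hC2, hC3, hC4, hC5, hC6⟩ := classes_exist A k hA R hR
  -- the tiles
  obtain ⟨p, hp⟩ : ∃ p, n + p = (D + 1) * (k + 1) := by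
    refine ⟨(D + 1) * (k + 1) - n, ?_⟩
    have : (k + 1) * (D + 1) = (D + 1) * (k + 1) := mul_comm _ _
    omega
  have hpR : (n : ℝ) + p = ((D : ℝ) + 1) * ((k : ℝ) + 1) := by exact_mod_cast hp
  have hp2 : (p : ℝ) ≤ 2 * γ * n := by nlinarith only [hD, hnc, hpR]
  have hn0 : (0 : ℝ) < n := by
    by_contra hcon
    push Not at hcon
    nlinarith only [hna, hε, hcon]
  have hpD : p ≤ D + 1 := by
    have h1 : (p : ℝ) ≤ (D : ℝ) + 1 := by
      have h2 : (n : ℝ) ≤ ((D : ℝ) + 1) * ((k : ℝ) + 1) := by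
        have : (0 : ℝ) ≤ p := Nat.cast_nonneg _
        linarith
      have h3 : 2 * γ * n * ((k : ℝ) + 1) ≤ n := by
        have h4 : γ * (4 * ((k : ℝ) + 1)) ≤ 1 := by
          rw [le_div_iff₀ (by positivity)] at hγ3
          exact hγ3
        nlinarith only [hk1, hγ0, hnc, h4]
      have h5 : (p : ℝ) * ((k : ℝ) + 1) ≤ ((D : ℝ) + 1) * ((k : ℝ) + 1) := by
        calc (p : ℝ) * ((k : ℝ) + 1) ≤ 2 * γ * n * ((k : ℝ) + 1) :=
              mul_le_mul_of_nonneg_right hp2 hK0.le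
          _ ≤ n := h3
          _ ≤ _ := h2
      exact le_of_mul_le_mul_right h5 hK0
    exact_mod_cast h1
  obtain ⟨t, ht1, ht2, ht3, ht4⟩ := exists_tiles_plus k n p D B hB hp hpD
  obtain ⟨N, hN⟩ : ∃ N, N + p = D + 1 := ⟨D + 1 - p, by omega⟩
  have hNe : D + 1 - p = N := by omega
  rw [hNe] at ht2 ht3
  -- `N (k+1) + p k = n`
  have hNn : N * (k + 1) + p * k = n := by
    have : (N + p) * (k + 1) = n + p := by rw [hN, hp]
    nlinarith only [this]
  have hpk : (p : ℝ) * k ≤ ε / 2 * n := by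
    have h1 : (p : ℝ) * k ≤ 2 * γ * n * k := mul_le_mul_of_nonneg_right hp2 (by positivity)
    have h2 : γ * (4 * ((k : ℝ) + 1)) ≤ ε := by
      rw [le_div_iff₀ (by positivity)] at hγ2
      exact hγ2
    nlinarith only [hk1, hnc, h1, h2, mul_pos hγ0 hn0]
  have hpkR : (p : ℝ) * k ≤ #R := by nlinarith only [hna, hRc, hpk]
  have hpkR' : p * k ≤ #R := by exact_mod_cast hpkR
  have hmN : m ≤ N := by
    by_contra hcon
    push Not at hcon
    have h1 : (N + 1) * (k + 1) ≤ m * (k + 1) := Nat.mul_le_mul_right _ hcon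
    have h2 : (k + 1) * m = m * (k + 1) := mul_comm _ _
    have h3 : (N + 1) * (k + 1) = N * (k + 1) + (k + 1) := by ring
    omega
  obtain ⟨q, hq⟩ : ∃ q, m + q = N := ⟨N - m, by omega⟩
  have hqR : q * (k + 1) + p * k = #R := by
    have h1 : (m + q) * (k + 1) = m * (k + 1) + q * (k + 1) := by ring
    have h2 : (k + 1) * m = m * (k + 1) := mul_comm _ _
    rw [hq] at h1
    omega
  have hqRr : (q : ℝ) * ((k : ℝ) + 1) + p * k = #R := by exact_mod_cast hqR
  have hδq : δ * n ≤ q := by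
    rw [hδ, div_mul_eq_mul_div, div_le_iff₀ (by positivity)]
    nlinarith only [hRc, hpk, hqRr]
  have hNn' : N ≤ n := by nlinarith only [hk, hp, hN]
  obtain ⟨J, hJ1, hJ2, hJ3⟩ := hn3 n N q hn3' hδq (by omega) hNn' B t
    (fun j hj => (ht2 j hj).le)
  -- the set of positions for `R`
  obtain ⟨W, hW⟩ : ∃ W : Finset (Fin n), ∀ v, v ∈ W ↔ (t v ∈ J ∨ N ≤ t v) :=
    ⟨univ.filter fun v => t v ∈ J ∨ N ≤ t v, fun v => by simp⟩
  have hlast : #(univ.filter fun v => N ≤ t v) = p * k := by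
    have h1 : (univ.filter fun v => N ≤ t v) =
        (Ico N (N + p)).biUnion fun j => univ.filter fun v => t v = j := by
      ext v
      simp only [mem_filter, mem_univ, true_and, mem_biUnion, mem_Ico]
      constructor
      · intro h
        exact ⟨t v, ⟨h, by rw [hN]; exact ht1 v⟩, rfl⟩
      · rintro ⟨j, ⟨h1, -⟩, h2⟩
        omega
    rw [h1, card_biUnion]
    · rw [sum_const_nat (m := k)]
      · rw [Nat.card_Ico]
        congr 1
        omega
      · intro j hj
        rw [mem_Ico, hN] at hj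
        exact ht3 j hj.1 hj.2
    · intro i _ j _ hij
      rw [Function.onFun, disjoint_left]
      intro v hv hv'
      rw [mem_filter] at hv hv'
      exact hij (hv.2.symm.trans hv'.2)
  have hJpart : #(univ.filter fun v => t v ∈ J) = q * (k + 1) := by
    have h1 : (univ.filter fun v => t v ∈ J) =
        J.biUnion fun j => univ.filter fun v => t v = j := by
      ext v
      simp only [mem_filter, mem_univ, true_and, mem_biUnion]
      constructor
      · intro h
        exact ⟨t v, h, rfl⟩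
      · rintro ⟨j, h1, h2⟩
        rw [h2]; exact h1
    rw [h1, card_biUnion]
    · rw [sum_const_nat (m := k + 1)]
      · rw [hJ2]
      · intro j hj
        exact ht2 j (mem_range.1 (hJ1 hj))
    · intro i _ j _ hij
      rw [Function.onFun, disjoint_left]
      intro v hv hv'
      rw [mem_filter] at hv hv'
      exact hij (hv.2.symm.trans hv'.2)
  have hWe : W = (univ.filter fun v => t v ∈ J) ∪ (univ.filter fun v => N ≤ t v) := by
    ext v
    rw [hW]
    simp
  have hWc : #W = #R := by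
    rw [hWe, card_union_of_disjoint, hJpart, hlast, hqR]
    rw [disjoint_left]
    intro v hv hv'
    rw [mem_filter] at hv hv'
    have := mem_range.1 (hJ1 hv.2)
    omega
  have hWd : ∀ y ∈ W, ((k : ℝ) + 1) * #(B.N y ∩ W) ≤ (1 + γc) * #W := by
    intro y _
    have h1 : #(B.N y ∩ W) ≤ #((B.N y).filter fun u => t u ∈ J) + p * k := by
      have h2 : B.N y ∩ W ⊆ ((B.N y).filter fun u => t u ∈ J) ∪
          (univ.filter fun v => N ≤ t v) := by
        intro u hu
        rw [mem_inter, hW] at hu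
        rw [mem_union, mem_filter, mem_filter]
        rcases hu.2 with h | h
        · exact Or.inl ⟨hu.1, h⟩
        · exact Or.inr ⟨mem_univ _, h⟩
      refine (card_le_card h2).trans ((card_union_le _ _).trans ?_)
      rw [hlast]
    have h1R : (#(B.N y ∩ W) : ℝ) ≤ #((B.N y).filter fun u => t u ∈ J) + p * k := by
      exact_mod_cast h1
    have h3 := hJ3 y
    have hN0 : (0 : ℝ) < N := by
      have : (δ : ℝ) * n ≤ N := hδq.trans (by exact_mod_cast (by omega : q ≤ N))
      nlinarith only [this, hδ0, hn0, mul_pos hδ0 hn0]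
    have h4 : (q : ℝ) / N * #(B.N y) ≤ q + p := by
      have h5 : (#(B.N y) : ℝ) ≤ (N : ℝ) + p := by
        have h6 : #(B.N y) ≤ N + p := by have := hB y; omega
        exact_mod_cast h6
      have h7 : (q : ℝ) / N * #(B.N y) ≤ (q : ℝ) / N * ((N : ℝ) + p) :=
        mul_le_mul_of_nonneg_left h5 (by positivity)
      have h8 : (q : ℝ) / N * ((N : ℝ) + p) = q + q / N * p := by
        field_simp
      have h9 : (q : ℝ) / N ≤ 1 := by
        rw [div_le_one hN0]
        exact_mod_cast (by omega : q ≤ N)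
      have h10 : (q : ℝ) / N * p ≤ p := by
        have : (0 : ℝ) ≤ p := Nat.cast_nonneg _
        nlinarith only [h9]
      linarith
    have h11 : (#(B.N y ∩ W) : ℝ) ≤ q + p + ε₁ * n + p * k := by linarith
    have h12 : ((k : ℝ) + 1) * #(B.N y ∩ W) ≤ ((k : ℝ) + 1) * (q + p + ε₁ * n + p * k) :=
      mul_le_mul_of_nonneg_left h11 hK0.le
    have h13 : ((k : ℝ) + 1) * (ε₁ * n) = γc * ε / 2 * n := by
      rw [hε₁]
      field_simp
    have h14 : ((k : ℝ) + 1) ^ 2 * p ≤ γc * ε / 2 * n := by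
      have h15 : γ * (4 * ((k : ℝ) + 1) ^ 2) ≤ γc * ε := by
        rw [le_div_iff₀ (by positivity)] at hγ1
        exact hγ1
      have h16 : ((k : ℝ) + 1) ^ 2 * p ≤ ((k : ℝ) + 1) ^ 2 * (2 * γ * n) :=
        mul_le_mul_of_nonneg_left hp2 (by positivity)
      nlinarith only [h16, h15]
    have h17 : (0 : ℝ) ≤ p * k := by positivity
    rw [hWc]
    have h18 : ((k : ℝ) + 1) * (q + p + ε₁ * n + p * k) =
        ((q : ℝ) * ((k : ℝ) + 1) + p * k) + (((k : ℝ) + 1) ^ 2 * p - p * k) +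
          ((k : ℝ) + 1) * (ε₁ * n) := by ring
    have h19 : γc * (ε * n) ≤ γc * #R := mul_le_mul_of_nonneg_left hRc hγc.le
    rw [h18, hqRr, h13] at h12
    nlinarith only [h12, h14, h17, h19]
  have hn2' : n2 ≤ #R := by
    have : (n2 : ℝ) ≤ #R := hnb.le.trans hRc
    exact_mod_cast this
  obtain ⟨f, hf1, hf2, hf3⟩ := hn2 n A B R W hn2' hWc (by
      intro v hv
      refine ⟨hA v, ?_⟩
      intro u hu
      rw [hR]
      intro huK
      have := (inK_nb A k hA u v huK (A.symm _ _ hu)).2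
      exact (hR v).1 hv this) (by
      intro v hv hvk
      have h1 := (hR v).1 hv
      by_contra hcon
      apply h1
      refine ⟨hvk, ?_⟩
      intro u hu u' hu' hne
      by_contra h2
      exact hcon ⟨u, hu, u', hu', hne, h2⟩) hWd
  -- the tiles for the complete components
  have hJc : #(range N \ J) = m := by
    rw [card_sdiff_of_subset hJ1, card_range, hJ2]
    omega
  let ι : Fin m ≃ (range N \ J : Finset ℕ) := ((range N \ J).equivFinOfCardEq hJc).symm
  have hι : ∀ i, (ι i : ℕ) < N ∧ (ι i : ℕ) ∉ J := by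
    intro i
    have := (ι i).2
    rw [mem_sdiff, mem_range] at this
    exact this
  obtain ⟨σ, hσ1, hσ2⟩ := glue_perm C (fun i => univ.filter fun v => t v = (ι i : ℕ)) hC1
    (by
      intro i j hij
      rw [disjoint_left]
      intro v hv hv'
      rw [mem_filter] at hv hv'
      exact hij (ι.injective (Subtype.ext (hv.2.symm.trans hv'.2))))
    (by
      intro i
      rw [hC2, ht2 _ (hι i).1]) R hC3 hC4 f hf1
    (by
      intro a ha i hi
      rw [mem_filter] at hi
      have h1 := (hW _).1 (hf2 a ha)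
      rw [hi.2] at h1
      rcases h1 with h1 | h1
      · exact (hι i).2 h1
      · exact absurd (hι i).1 (by omega))
  refine ⟨σ, ?_⟩
  intro u v huv
  rcases hC3 v with hv | ⟨i, hi⟩
  · have hu : u ∈ R := by
      rw [hR]
      intro huK
      exact (hR v).1 hv (inK_nb A k hA u v huK (A.symm _ _ huv)).2
    rw [hσ1 u hu, hσ1 v hv]
    exact hf3 u hu v hv huv
  · have hu := hC5 i v hi u huv
    have h1 := hσ2 i u hu
    have h2 := hσ2 i v hi
    rw [mem_filter] at h1 h2
    intro h3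
    exact ht4 _ _ h3 (h1.2.trans h2.2.symm)

end Pool.Agent.Helper14.BECX
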