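import Pool.Agent.Helper5.BEC.C.Defs
import Pool.Agent.Helper5.BEC.C.Hyb
import Pool.Agent.Helper5.BEC.C.Bal

/-!
# Project BECX (MP_436ed3_co): the exact Bollobás–Eldridge–Catlin theorem for bounded degree

Stage C of project BEC with weaker standing assumptions: `(k+1) d` may be slightly larger than `n`.
The definitions of the process (`Dat`, `ker`, `Psi`, `P`, …) are those of stage C.
-/

set_option autoImplicit false

namespace Pool.Agent.Helper14.BECX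

open Finset Pool.Agent.Helper61.LE Pool.Agent.Helper5.BEC Pool.Agent.Helper5.BEC.C

variable {n : ℕ}

/-- standing assumptions: `k d ≤ (1 - 1/(2(k+1))) n` -/
structure StdX (D : Dat n) (k : ℕ) (d : ℝ) : Prop where
  n1 : 1 ≤ n
  k1 : 1 ≤ k
  dA : ∀ v, #(D.A.N v) ≤ k
  dB : ∀ y, (#(D.B.N y) : ℝ) ≤ d
  d0 : 0 ≤ d
  hd : 2 * (k + 1) * (k * d) ≤ (2 * k + 1) * n
  α0 : 0 < D.α
  α1 : D.α ≤ 1 / 8
  rT : ∀ v, D.r v ≤ D.T
  rI : ∀ v, ∀ u ∈ D.A.N v, 1 ≤ D.r v → D.r u ≠ D.r v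

/-- the level set of the exponents -/
noncomputable def SX (x : Fin n → ℝ) (θ : ℝ) : Finset (Fin n) := univ.filter fun z => θ ≤ x z

/-- the leak of a level -/
noncomputable def RX (x : Fin n → ℝ) (θ : ℝ) : ℝ :=
  1 / n * ∑ z ∈ univ.filter (fun z => x z < θ), Real.exp (x z - θ)

/-- the weights -/
noncomputable def wx (x : Fin n → ℝ) : Fin n → ℝ := fun y => Real.exp (x y)

/-- probability that `v` goes to `S` in the ideal process (if `v` has a label `≥ 1`) -/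
noncomputable def mS (D : Dat n) (w : Fin n → ℝ) (S : Finset (Fin n)) (v : Fin n) : ℝ :=
  Psi D w D.T 0 (fun φ => ∑ z ∈ S, ker D w (Xs D φ v) z) (φ0 n)

/-- vertices with a label that have at most `j` earlier neighbours -/
def VJ (D : Dat n) (j : ℕ) : Finset (Fin n) := univ.filter fun v => 1 ≤ D.r v ∧ #(Ea D v) ≤ j

/-- vertices with exactly `s` earlier neighbours, two of which have no earlier neighbours -/
def Ptwo (D : Dat n) (s : ℕ) : Finset (Fin n) :=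
  univ.filter fun v => 1 ≤ D.r v ∧ #(Ea D v) = s ∧
    ∃ u ∈ Ea D v, ∃ u' ∈ Ea D v, u ≠ u' ∧ Ea D u = ∅ ∧ Ea D u' = ∅

/-- middle vertices of paths `u0, u, v` with `Ea u0 = ∅`, `Ea u = {u0}`, `Ea v = {u}` -/
def Pmid (D : Dat n) : Finset (Fin n) :=
  univ.filter fun u => ∃ u0, Ea D u0 = ∅ ∧ Ea D u = {u0} ∧ ∃ v, Ea D v = {u}

/-- first vertices all of whose neighbours have at most `k - 1` earlier neighbours -/
def Pfst (D : Dat n) (k : ℕ) : Finset (Fin n) :=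
  univ.filter fun v => 1 ≤ D.r v ∧ Ea D v = ∅ ∧ ∀ p ∈ D.A.N v, #(Ea D p) + 1 ≤ k

/-- every pattern occurs at least `c n` times -/
structure Pat (D : Dat n) (k : ℕ) (c : ℝ) : Prop where
  two : ∀ s, 2 ≤ s → s ≤ k → c * n ≤ #(Ptwo D s)
  mid : c * n ≤ #(Pmid D)
  fst : c * n ≤ #(Pfst D k)

/-- the labels in the ball of radius `2` around `v` are `≥ 1` and ordered like `e` -/
def OrdP (A : Nb n) (r : Fin n → ℕ) (e : Fin n → ℕ) (v : Fin n) : Prop :=
  (∀ p ∈ bal A 2 v, 1 ≤ r p) ∧ ∀ p ∈ bal A 2 v, ∀ q ∈ bal A 2 v, e p < e q → r p < r q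

/-- no vertex of degree `k` has a complete neighbourhood (no `K_{k+1}`, if all degrees are `≤ k`) -/
def NoK {n : ℕ} (A : Nb n) (k : ℕ) : Prop :=
  ∀ v, #(A.N v) = k → ∃ u ∈ A.N v, ∃ u' ∈ A.N v, u ≠ u' ∧ u' ∉ A.N u

/-- the closed neighbourhood of `v` is a complete graph on `k+1` vertices -/
def InK {n : ℕ} (A : Nb n) (k : ℕ) (v : Fin n) : Prop :=
  #(A.N v) = k ∧ ∀ u ∈ A.N v, ∀ u' ∈ A.N v, u ≠ u' → u' ∈ A.N u

/-- there are many swap candidates in the ideal process -/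
def CandH (D : Dat n) (w : Fin n → ℝ) (k : ℕ) (c : ℝ) : Prop :=
  ∀ X : Finset (Fin n), #X ≤ k → ∀ y, c * n ≤ ∑ v, Psi D w D.T 0 (qcand D X y v) (φ0 n)

end Pool.Agent.Helper14.BECX
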