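import Pool.Agent.Helper14.BECX.Simple
import Pool.Agent.Helper64.BX.Main
import Pool.Agent.Helper64.BEC.Final
/-! Project BECX: the exact theorem for every fixed maximum degree of the first graph. -/
set_option autoImplicit false
namespace Pool.Agent.Helper14.BECX
open Finset Pool.Agent.Helper5.BEC

/-- The exact theorem for every fixed bound `k ≥ 2` of the degrees of the first graph: many vertices
outside the complete components (`packing_plus`) or few (`packing_few`). -/
theorem exact_nb (k : ℕ) (hk : 2 ≤ k) :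
    ∃ n₀ : ℕ, ∀ (n : ℕ) (A B : Nb n) (d : ℕ), n₀ ≤ n → (∀ v, #(A.N v) ≤ k) →
      (∀ y, #(B.N y) ≤ d) → (k + 1) * (d + 1) ≤ n + 1 →
      ∃ τ : Equiv.Perm (Fin n), ∀ u v, u ∈ A.N v → τ u ∉ B.N (τ v) := by
  classical
  obtain ⟨n₁, hn₁⟩ := packing_plus k hk
  obtain ⟨μ, hμ, n₂, hn₂⟩ := Pool.Agent.Helper64.BX.packing_few k (by omega)
  refine ⟨max n₂ ⌈(n₁ : ℝ) / μ⌉₊, ?_⟩
  intro n A B d hn hA hB hd
  by_cases hR : n₁ ≤ #(univ.filter fun v => ¬ InK A k v)
  · exact hn₁ n A B d hA hB hd ⟨_, hR, fun v hv => (mem_filter.1 hv).2⟩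
  · push Not at hR
    refine hn₂ n A B d ((le_max_left _ _).trans hn) hA hB hd ?_
    have h1 : (n₁ : ℝ) / μ ≤ n := by
      refine (Nat.le_ceil _).trans ?_
      exact_mod_cast (le_max_right _ _).trans hn
    rw [div_le_iff₀ hμ] at h1
    have h2 : (#(univ.filter fun v => ¬ InK A k v) : ℝ) ≤ n₁ := by
      refine le_trans (le_of_eq ?_) (by exact_mod_cast hR.le : (#(univ.filter fun v => ¬ InK A k v) : ℝ) ≤ n₁)
      rfl
    have h3 : (#(univ.filter fun v => ¬ InK A k v) : ℝ) ≤ μ * n := by linarith
    convert h3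

/-- The exact Bollobás–Eldridge–Catlin theorem for every fixed bound of the degrees of the first
graph and large `n`. -/
theorem exact_simple (k : ℕ) :
    ∃ n₀ : ℕ, ∀ (V : Type) [Fintype V] (G₁ G₂ : SimpleGraph V) (D : ℕ), n₀ ≤ Fintype.card V →
      (∀ v, (G₁.neighborSet v).ncard ≤ k) → (∀ v, (G₂.neighborSet v).ncard ≤ D) →
      (k + 1) * (D + 1) ≤ Fintype.card V + 1 →
      ∃ σ : Equiv.Perm V, ∀ u v, G₁.Adj u v → ¬ G₂.Adj (σ u) (σ v) := by
  classical
  rcases Nat.lt_or_ge k 2 with hk | hk
  · -- components with at most `k + 1` vertices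
    refine ⟨0, ?_⟩
    intro V _ G₁ G₂ D _ h1 h2 hD
    have hreach : ∀ v w, G₁.Reachable v w → w = v ∨ G₁.Adj v w := by
      intro v w h
      obtain ⟨p⟩ := h
      induction p with
      | nil => exact Or.inl rfl
      | @cons a b c hab p ih =>
        rcases ih with rfl | ih
        · exact Or.inr hab
        · -- `b` has the neighbours `a` and `c`
          left
          by_contra hne
          have h3 : ({a, c} : Set V) ⊆ G₁.neighborSet b := by
            intro x hx
            rcases hx with rfl | hx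
            · exact hab.symm
            · rw [Set.mem_singleton_iff] at hx
              subst hx; exact ih
          have h4 := Set.ncard_le_ncard h3 (Set.toFinite _)
          rw [Set.ncard_pair (Ne.symm hne)] at h4
          have := h1 b
          omega
    have hcomp : ∀ v, {w | G₁.Reachable v w}.ncard ≤ k + 1 := by
      intro v
      have h3 : {w | G₁.Reachable v w} ⊆ insert v (G₁.neighborSet v) := by
        intro w hw
        rcases hreach v w hw with h | h
        · exact Or.inl h
        · exact Or.inr h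
      refine (Set.ncard_le_ncard h3 (Set.toFinite _)).trans ((Set.ncard_insert_le _ _).trans ?_)
      have := h1 v
      omega
    obtain ⟨τ, hτ⟩ := Pool.Agent.Helper64.BEC.packing G₂ G₁ D (k + 1) (by
      intro v
      refine le_trans (le_of_eq ?_) (h2 v)
      rw [← Set.ncard_coe_finset]
      congr 1
      ext w
      simp [Pool.Agent.Helper64.BEC.mem_nbs]) hcomp (by rw [mul_comm]; exact hD)
    refine ⟨τ.symm, fun u v huv h => ?_⟩
    have := hτ _ _ h
    simp only [Equiv.apply_symm_apply] at this
    exact this huv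
  · obtain ⟨n₀, h0⟩ := exact_nb k hk
    refine ⟨n₀, ?_⟩
    intro V _ G₁ G₂ D hV h1 h2 hD
    obtain ⟨e⟩ : Nonempty (V ≃ Fin (Fintype.card V)) := ⟨Fintype.equivFin V⟩
    refine pack_of e G₁ G₂ (h0 _ _ _ D hV ?_ ?_ hD)
    · intro v
      rw [card_ofS]
      exact h1 _
    · intro y
      rw [card_ofS]
      exact h2 _

end Pool.Agent.Helper14.BECX
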