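import Pool.Agent.Helper14.BECX.Mass
/-! Project BECX, piece Gain1a: assumptions for level sets; simple bounds. -/
set_option autoImplicit false
namespace Pool.Agent.Helper14.BECX
open Finset Pool.Agent.Helper61.LE Pool.Agent.Helper5.BEC Pool.Agent.Helper5.BEC.C

variable {n k : ℕ} {D : Dat n} {d γ c e τ η : ℝ} {x : Fin n → ℝ} {θ : ℝ}

/-- standing assumptions for the level sets: `(k+1) d = (1+γ) n`, all errors are at most `e/5`, `e` is
small compared with the pattern frequency `c`, and `P ≤ τ` where `x > 0` -/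
structure LevH (D : Dat n) (k : ℕ) (d γ c e τ η : ℝ) (x : Fin n → ℝ) (θ : ℝ) : Prop where
  hS : StdX D k d
  k2 : 2 ≤ k
  γ0 : 0 ≤ γ
  hγ : 5 * γ ≤ e
  hd : (k + 1) * d = (1 + γ) * n
  hα : 5 * D.α ≤ e
  η0 : 0 ≤ η
  hη : 5 * η ≤ e
  c0 : 0 < c
  c1 : c ≤ 1
  e0 : 0 < e
  he : 1000 * ((k : ℝ) + 1) ^ 3 * e ≤ c ^ 2
  hτ : 1 / 2 ≤ τ
  hτ1 : τ ≤ 1
  hL : Lab D k τ η
  hP : Pat D k c
  hx : ∀ z, 0 ≤ x z
  hPx : ∀ z, 0 < x z → P D (wx x) z ≤ τ
  θ0 : 0 < θ
  hR : 25 * RX x θ ≤ e ^ 2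

/-- If `x z > 0`, then `P z ≤ τ ≤ 1`. If `x z = 0`, the weight of `z` is `1` and `ker X z ≤ 1/#Av X ≤
2(k+1)/n` for every vertex (`Av_card'`, `∑_{Av X} w ≥ #Av X`), at most `n` vertices (`P_setX`). -/
theorem P_le_all (h : LevH D k d γ c e τ η x θ) (z : Fin n) : P D (wx x) z ≤ 2 * (k + 1) := by
  have hS := h.hS
  have hw := Wt_wx x h.hx
  have hk0 : (0 : ℝ) ≤ k := Nat.cast_nonneg _
  have hn : (0 : ℝ) < n := by exact_mod_cast hS.n1
  rcases (h.hx z).lt_or_eq with hz | hz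
  · have h1 := h.hPx z hz
    have h2 := h.hτ1
    linarith
  · have hwz : wx x z = 1 := by
      unfold wx
      rw [← hz, Real.exp_zero]
    have hα0 := hS.α0
    have hα1 := hS.α1
    have hker : ∀ X : Finset (Fin n), #X ≤ k → ker D (wx x) X z ≤ 2 * (k + 1) / n := by
      intro X hX
      have hc := ker_card_pos hS X hX
      have hsum := ker_W_pos (D := D) hw X
      have hW : (0 : ℝ) < ∑ y ∈ Av D.B X, wx x y := lt_of_lt_of_le hc hsum
      have h1 : 1 / (#(Av D.B X) : ℝ) ≤ 2 * (k + 1) / n := by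
        have h2 := Av_card' hS X hX
        rw [div_le_div_iff₀ hc hn]
        rw [div_le_iff₀ (by positivity)] at h2
        linarith
      refine le_trans ?_ h1
      unfold ker
      split_ifs with hA
      · rw [hwz, mul_one]
        have h3 : (1 - D.α) / (∑ y ∈ Av D.B X, wx x y) ≤ (1 - D.α) / #(Av D.B X) :=
          div_le_div_of_nonneg_left (by linarith) hc hsum
        calc (1 - D.α) / (∑ y ∈ Av D.B X, wx x y) + D.α / #(Av D.B X)
            ≤ (1 - D.α) / #(Av D.B X) + D.α / #(Av D.B X) := by linarith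
          _ = 1 / #(Av D.B X) := by rw [← add_div]; congr 1; ring
      · positivity
    have h1 := P_setX (w := wx x) hS {z}
    rw [sum_singleton] at h1
    rw [h1]
    have h2 : ∀ v, mS D (wx x) {z} v ≤ 2 * (k + 1) / n := by
      intro v
      have h3 := Psi_mono hS hw (g := fun φ => ∑ z ∈ {z}, ker D (wx x) (Xs D φ v) z)
        (g' := fun _ => (2 * (k + 1) / n : ℝ))
        (fun φ => by rw [sum_singleton]; exact hker _ (Xs_card' hS φ v)) D.T 0 (φ0 n)
      rw [Psi_const hS hw] at h3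
      exact h3
    calc ∑ v ∈ univ.filter (fun v => 1 ≤ D.r v), mS D (wx x) {z} v
        ≤ ∑ _v ∈ univ.filter (fun v : Fin n => 1 ≤ D.r v), (2 * (k + 1) / n : ℝ) :=
          sum_le_sum fun v _ => h2 v
      _ = #(univ.filter (fun v : Fin n => 1 ≤ D.r v)) * (2 * (k + 1) / n) := by
          rw [sum_const, nsmul_eq_mul]
      _ ≤ n * (2 * (k + 1) / n) := by
          apply mul_le_mul_of_nonneg_right _ (by positivity)
          have := card_le_univ (univ.filter (fun v : Fin n => 1 ≤ D.r v))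
          rw [Fintype.card_fin] at this
          exact_mod_cast this
      _ = 2 * (k + 1) := by field_simp

/-- `q = (1-α)(1-R/ρ) ≥ 1 - 2e/5` for `ρ = e/5` -/
theorem q_ge (h : LevH D k d γ c e τ η x θ) :
    1 - 2 * e / 5 ≤ (1 - D.α) * (1 - RX x θ / (e / 5)) := by
  have hα := h.hα
  have hα0 := h.hS.α0
  have he0 := h.e0
  have hR := h.hR
  have hk0 : (0 : ℝ) ≤ k := Nat.cast_nonneg _
  have he1 : e ≤ 1 := by
    have h1 := h.he
    have h2 : c ^ 2 ≤ 1 := by nlinarith [h.c0, h.c1]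
    have h3 : 1 ≤ ((k : ℝ) + 1) ^ 3 := one_le_pow₀ (by linarith)
    nlinarith
  have h1 : RX x θ / (e / 5) ≤ e / 5 := by
    rw [div_le_iff₀ (by positivity)]
    nlinarith
  have h2 : D.α ≤ e / 5 := by linarith
  have h3 : (1 - e / 5) * (1 - e / 5) ≤ (1 - D.α) * (1 - RX x θ / (e / 5)) :=
    mul_le_mul (by linarith) (by linarith) (by linarith) (by linarith)
  nlinarith

/-- double counting of the `B`-edges between `S` and its complement -/
theorem cross_edges (B : Nb n) (S Z : Finset (Fin n)) (hZ : Disjoint S Z) (b a : ℝ)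
    (h1 : ∑ y ∈ S, (#(B.N y \ S) : ℝ) ≤ a) (h2 : ∀ z ∈ Z, b ≤ #(B.N z ∩ S)) :
    b * #Z ≤ a := by
  classical
  have h3 : ∑ z ∈ Z, #(B.N z ∩ S) = ∑ y ∈ S, #(B.N y ∩ Z) := by
    have e1 : ∀ z ∈ Z, #(B.N z ∩ S) = ∑ y ∈ S, if y ∈ B.N z then 1 else 0 := by
      intro z _
      rw [← sum_filter, sum_const, smul_eq_mul, mul_one, inter_comm, filter_mem_eq_inter]
    have e2 : ∀ y ∈ S, #(B.N y ∩ Z) = ∑ z ∈ Z, if y ∈ B.N z then 1 else 0 := by
      intro y _
      rw [← sum_filter, sum_const, smul_eq_mul, mul_one]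
      congr 1
      ext z
      rw [mem_inter, mem_filter, and_comm]
      exact and_congr_right fun _ => ⟨fun h => B.symm _ _ h, fun h => B.symm _ _ h⟩
    rw [sum_congr rfl e1, sum_congr rfl e2, sum_comm]
  have h4 : ∀ y ∈ S, #(B.N y ∩ Z) ≤ #(B.N y \ S) := by
    intro y _
    apply card_le_card
    intro z hz
    rw [mem_inter] at hz
    rw [mem_sdiff]
    exact ⟨hz.1, fun hzS => disjoint_left.mp hZ hzS hz.2⟩
  calc b * #Z = ∑ _z ∈ Z, b := by rw [sum_const, nsmul_eq_mul, mul_comm]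
    _ ≤ ∑ z ∈ Z, (#(B.N z ∩ S) : ℝ) := sum_le_sum h2
    _ = ∑ y ∈ S, (#(B.N y ∩ Z) : ℝ) := by exact_mod_cast h3
    _ ≤ ∑ y ∈ S, (#(B.N y \ S) : ℝ) := sum_le_sum fun y hy => by exact_mod_cast h4 y hy
    _ ≤ a := h1

end Pool.Agent.Helper14.BECX
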