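import Pool.Agent.Helper14.BECX.Law
import Pool.Agent.Helper14.BECX.Gain1a
/-! Project BECX, piece Gain1: level sets of size about `d` are not tight. -/
set_option autoImplicit false
namespace Pool.Agent.Helper14.BECX
open Finset Pool.Agent.Helper61.LE Pool.Agent.Helper5.BEC Pool.Agent.Helper5.BEC.C

variable {n k : ℕ} {D : Dat n} {d γ c e τ η : ℝ} {x : Fin n → ℝ} {θ : ℝ}

/-- real arithmetic of step (a) -/
private theorem arith_a {N F m τ e γ η d K : ℝ} (hN : 0 < N) (hK : 3 ≤ K) (hτ : 1 / 2 ≤ τ)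
    (he0 : 0 < e) (he1 : e ≤ 1) (hγ : 5 * γ ≤ e) (hη : 5 * η ≤ e)
    (hd : K * d = (1 + γ) * N) (hF : τ * (1 / K - η) * N ≤ F) (hm : 1 - 2 * e / 5 ≤ m)
    (hF0 : 0 ≤ F) :
    τ * (1 / K - e / 3) * N ≤ F * m ∧ d ≤ (1 / K + e / 15) * N ∧ N / K ≤ d + -(γ * N / K) := by
  have hK0 : 0 < K := by linarith
  have hu0 : 0 < 1 / K := by positivity
  have hu3 : 1 / K ≤ 1 / 3 := one_div_le_one_div_of_le (by norm_num) hK
  set u := 1 / K with hu
  have hKu : K * u = 1 := by rw [hu]; field_simp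
  have hdu : d = (1 + γ) * N * u := by
    have h1 : u * (K * d) = u * ((1 + γ) * N) := by rw [hd]
    have h2 : u * (K * d) = d := by
      rw [← mul_assoc, mul_comm u K, hKu, one_mul]
    linarith
  refine ⟨?_, ?_, ?_⟩
  · have h1 : τ * (u - η) * N * (1 - 2 * e / 5) ≤ F * m :=
      (mul_le_mul_of_nonneg_right hF (by linarith)).trans (mul_le_mul_of_nonneg_left hm hF0)
    have h2 : u - e / 3 ≤ (u - η) * (1 - 2 * e / 5) := by
      have h3 : (u - e / 5) * (1 - 2 * e / 5) ≤ (u - η) * (1 - 2 * e / 5) :=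
        mul_le_mul_of_nonneg_right (by linarith) (by linarith)
      nlinarith
    have h4 : 0 ≤ τ * N := by positivity
    have h5 := mul_le_mul_of_nonneg_left h2 h4
    nlinarith
  · rw [hdu]
    have h1 : (1 + γ) * u ≤ u + e / 15 := by nlinarith
    have h2 := mul_le_mul_of_nonneg_right h1 hN.le
    nlinarith
  · rw [hdu]
    have h1 : N / K = N * u := by rw [hu]; ring
    have h2 : γ * N / K = γ * N * u := by rw [hu]; ring
    rw [h1, h2]
    linarith

/-- the mass of `S` for the kernel with `X = {y}` is at least `1/2`, if there is room -/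
private theorem half_mass (h : LevH D k d γ c e τ η x θ) (ρ : ℝ) (hρ : 0 < ρ)
    (hRρ : 4 * RX x θ ≤ ρ) (y : Fin n) (hroom : ρ * n ≤ #(SX x θ \ D.B.N y)) :
    1 / 2 ≤ ∑ z ∈ SX x θ, ker D (wx x) {y} z := by
  have hS := h.hS
  have h1 : Av D.B {y} ∩ SX x θ = SX x θ \ D.B.N y := by
    ext z
    rw [mem_inter, mem_sdiff]
    unfold Av
    rw [mem_filter]
    constructor
    · rintro ⟨⟨-, hz⟩, hz'⟩
      exact ⟨hz', hz y (mem_singleton_self y)⟩
    · rintro ⟨hz, hz'⟩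
      refine ⟨⟨mem_univ _, ?_⟩, hz⟩
      intro a ha
      rw [mem_singleton] at ha
      rw [ha]
      exact hz'
  have h2 := (massX hS x h.hx θ {y} (by rw [card_singleton]; exact hS.k1) ρ hρ
    (by rw [h1]; exact hroom)).1
  refine le_trans ?_ h2
  have h3 : RX x θ / ρ ≤ 1 / 4 := by
    rw [div_le_iff₀ hρ]
    linarith
  have hα := hS.α1
  nlinarith

/-- a lower bound for the mass of a vertex with one earlier neighbour -/
private theorem one_mass (h : LevH D k d γ c e τ η x θ) (v u : Fin n) (hv : Ea D v = {u})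
    (Y : Finset (Fin n)) (hY : ∀ y ∈ Y, 1 / 2 ≤ ∑ z ∈ SX x θ, ker D (wx x) {y} z) :
    1 / 2 * mS D (wx x) Y u ≤ mS D (wx x) (SX x θ) v := by
  have hS := h.hS
  have hw := Wt_wx x h.hx
  refine le_trans ?_ (mS_one hS hw v u hv (SX x θ))
  rw [← mS_sum u Y, mul_sum]
  calc ∑ y ∈ Y, 1 / 2 * mS D (wx x) {y} u
      ≤ ∑ y ∈ Y, mS D (wx x) {y} u * ∑ z ∈ SX x θ, ker D (wx x) {y} z := by
        apply sum_le_sum
        intro y hy
        rw [mul_comm]
        exact mul_le_mul_of_nonneg_left (hY y hy) (mS_nonneg hS hw _ _)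
    _ ≤ ∑ y, mS D (wx x) {y} u * ∑ z ∈ SX x θ, ker D (wx x) {y} z := by
        apply sum_le_sum_of_subset_of_nonneg (subset_univ _)
        intro y _ _
        exact mul_nonneg (mS_nonneg hS hw _ _) (sum_nonneg fun z _ => ker_nonneg hS hw _ _)

/-- real arithmetic of the constants -/
private theorem arith_c {K c e : ℝ} (hK : 3 ≤ K) (hc0 : 0 < c) (hc1 : c ≤ 1) (he0 : 0 < e)
    (he : 1000 * K ^ 3 * e ≤ c ^ 2) :
    ∃ t β : ℝ, e = t * c ∧ 0 < t ∧ e ≤ t ∧ 27000 * t ≤ c ∧ 3000 * (K ^ 2 * t) ≤ c ∧ 0 < β ∧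
      64 * K ^ 2 * β = c ∧ 46 * e ≤ β ∧ 1000 * (K * e) ≤ 1 ∧ e ^ 2 ≤ e := by
  have hK0 : 0 < K := by linarith
  have het : e = e / c * c := by field_simp
  have ht0 : 0 < e / c := by positivity
  obtain ⟨t, ht⟩ : ∃ t : ℝ, t = e / c := ⟨_, rfl⟩
  rw [← ht] at het ht0
  have htK : 1000 * K ^ 3 * t ≤ c := by
    have h3 : 1000 * K ^ 3 * t * c ≤ c * c := by
      rw [het] at he
      linarith
    exact le_of_mul_le_mul_right h3 hc0
  have hK9 : 9 ≤ K ^ 2 := by nlinarith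
  have htK2 : 3000 * (K ^ 2 * t) ≤ c := by
    have h3 : 3 * (K ^ 2 * t) ≤ K * (K ^ 2 * t) :=
      mul_le_mul_of_nonneg_right hK (by positivity)
    linarith
  have ht1 : 27000 * t ≤ c := by
    have h3 : 9 * t ≤ K ^ 2 * t := mul_le_mul_of_nonneg_right hK9 ht0.le
    linarith
  have het' : e ≤ t := by
    have h3 : t * c ≤ t * 1 := mul_le_mul_of_nonneg_left hc1 ht0.le
    linarith
  have he1 : e ≤ 1 := by linarith
  refine ⟨t, c / (64 * K ^ 2), het, ht0, het', ht1, htK2, by positivity, by field_simp, ?_, ?_, ?_⟩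
  · rw [le_div_iff₀ (by positivity)]
    have h5 : K ^ 2 * e ≤ K ^ 2 * t := mul_le_mul_of_nonneg_left het' (by positivity)
    linarith
  · have h5 : K * e ≤ K ^ 2 * e := by
      have h6 : 1 * (K * e) ≤ K * (K * e) :=
        mul_le_mul_of_nonneg_right (by linarith) (by positivity)
      linarith
    have h7 : K ^ 2 * e ≤ K ^ 2 * t := mul_le_mul_of_nonneg_left het' (by positivity)
    linarith
  · have h5 : e * e ≤ e * 1 := mul_le_mul_of_nonneg_left he1 he0.le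
    linarith

/-- Gain for `s = 1`. Let `S = SX x θ`, `e/5 n ≤ #S ≤ d + (e/5) n`, `w = wx x`, `K = k+1`, `μ = ker ∅`.
Put `q = (1-α)(1-R/ρ) ≥ 1-2e/5`, `ρ = e/5`, `β = c/(64K²)`.
(a) `F1 = VJ D 0`, `#F1 ≥ τ(1/K-η) n`; every `v ∈ F1` has `mS S v = μ(S) ≥ q` (`mS_level`, `j = 0`).
`Ext = ∑_{v ∉ F1, r v ≥ 1} mS S v = P(S) - #F1 μ(S)`; `P(S) ≤ τ #S`. If `#S < (1-β) d`, then
`τ(1/K-η) n q ≤ P(S) ≤ τ(1-β) d` is a contradiction (`β/K > e`). So `#S ≥ (1-β) d ≥ n/(2K)`, and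
`Ext ≤ τ(d + e n/5) - τ(1/K-η) q n ≤ e n`.
(b) `u ∈ Pmid`: `Ea u = {u0}`, `Ea u0 = ∅`: with `Y = {y | β n ≤ #(S \ B.N y)}` and `mS_one`, `massX`
(`X = {y}`, `Av {y} ∩ S = S \ B.N y`), `mS S u ≥ μ(Y) (1-α)(1-R/β) ≥ μ(Y)/2`; `Pmid` is disjoint from
`F1`, so `c n μ(Y)/2 ≤ Ext ≤ e n`, `μ(Y) ≤ 2e/c`.
(c) `#F1 μ(z) ≤ P(z) ≤ τ` for `z ∈ S` (`P_ge` for the set `{z}`), so
`τ #S - τ e n ≤ #F1 μ(S) ≤ #F1 μ(Y) + τ(#S - #(Y ∩ S))`, hence `#(Y ∩ S) ≤ 5 (e/c) n`.
(d) for `y ∈ S \ Y`: `#(B.N y \ S) ≤ d - (#S - β n) ≤ β d + β n`; so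
`∑_{y ∈ S} #(B.N y \ S) ≤ n² (2β + 5e/c)` (`d ≤ n`, `#S ≤ n`). `Z0 = {z ∉ S | #S/2 ≤ #(B.N z ∩ S)}` has
`#Z0 ≤ 4K n (2β + 5e/c)` (`cross_edges`), and `P(Z0) ≤ 2K #Z0` (`P_le_all`).
(e) for `u ∈ Pmid` choose `v(u)` with `Ea v = {u}` (injective in `u`, not in `F1`); `mS_one` for
`v`: `mS S v ≥ ∑_{y ∉ S ∪ Z0} mS {y} u (1/2) = (1/2)(1 - mS S u - mS Z0 u)` (`massX` with `X = {y}` and
`#(S \ B.N y) ≥ #S/2 ≥ n/(4K)`; `mS_sum`, `mS_union`, `mS_univ`). Sum over `u ∈ Pmid`: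
`2 Ext ≥ (1/2)(c n - P(Z0))`. So `4 e ≥ c - 8K²(2β + 5e/c) ≥ c - c/4 - 40K² e/c`, contradiction. -/
theorem gain1 (h : LevH D k d γ c e τ η x θ) (h1 : e / 5 * n ≤ #(SX x θ))
    (h2 : (#(SX x θ) : ℝ) ≤ d + e / 5 * n) : False := by
  classical
  have hS := h.hS
  have hw := Wt_wx x h.hx
  have hn : (0 : ℝ) < n := by exact_mod_cast hS.n1
  have hk2 : (2 : ℝ) ≤ k := by exact_mod_cast h.k2
  have hc0 := h.c0
  have hc1 := h.c1
  have he0 := h.e0
  have hτ := h.hτ
  have hτ1 := h.hτ1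
  have hR0 := RX_nonneg x θ
  have hR := h.hR
  obtain ⟨K, hK⟩ : ∃ K : ℝ, K = (k : ℝ) + 1 := ⟨_, rfl⟩
  have hK3 : 3 ≤ K := by rw [hK]; linarith
  have hK0 : 0 < K := by linarith
  obtain ⟨t, β, het, ht0, het', ht1, htK2, hβ0, hβK, hβe, hKe, hee⟩ :=
    arith_c hK3 hc0 hc1 he0 (by rw [hK]; exact h.he)
  have he1 : 27000 * e ≤ 1 := by linarith
  set S := SX x θ with hSdef
  set F1 := VJ D 0 with hF1
  obtain ⟨μ, hμ⟩ : ∃ μ : Finset (Fin n) → ℝ, ∀ T, μ T = ∑ z ∈ T, ker D (wx x) ∅ z :=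
    ⟨fun T => ∑ z ∈ T, ker D (wx x) ∅ z, fun T => rfl⟩
  -- first vertices
  have hEF : ∀ v ∈ F1, 1 ≤ D.r v ∧ Ea D v = ∅ := by
    intro v hv
    rw [hF1] at hv
    unfold VJ at hv
    rw [mem_filter] at hv
    exact ⟨hv.2.1, card_eq_zero.mp (Nat.le_zero.mp hv.2.2)⟩
  have hmF : ∀ T : Finset (Fin n), ∀ v ∈ F1, mS D (wx x) T v = μ T := by
    intro T v hv
    rw [hμ]
    exact mS_first hS hw T v (hEF v hv).2
  have hcnt : τ * (1 / K - η) * n ≤ #F1 := by
    have h3 := h.hL.cnt 0 (Nat.zero_le _)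
    rw [hK]
    have h4 : (((0 : ℕ) : ℝ) + 1) / ((k : ℝ) + 1) = 1 / ((k : ℝ) + 1) := by
      rw [Nat.cast_zero, zero_add]
    rw [h4] at h3
    exact h3
  have hF0 : (0 : ℝ) ≤ #F1 := Nat.cast_nonneg _
  have hFn : (#F1 : ℝ) ≤ n := by
    have h3 := card_le_univ F1
    rw [Fintype.card_fin] at h3
    exact_mod_cast h3
  have hSn : (#S : ℝ) ≤ n := by
    have h3 := card_le_univ S
    rw [Fintype.card_fin] at h3
    exact_mod_cast h3
  -- mass of `S`
  have hμS : 1 - 2 * e / 5 ≤ μ S := by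
    refine (q_ge h).trans ?_
    have h3 := (massX hS x h.hx θ ∅ (by simp) (e / 5) (by positivity) (by
      have h4 : Av D.B ∅ ∩ SX x θ = SX x θ := by
        ext z
        simp [Av]
      rw [h4]
      exact h1)).1
    rw [hμ]
    exact h3
  have hμ0 : ∀ T, 0 ≤ μ T := by
    intro T
    rw [hμ]
    exact sum_nonneg fun z _ => ker_nonneg hS hw _ z
  obtain ⟨ha1, ha2, -⟩ := arith_a (N := n) (F := #F1) (m := μ S) (τ := τ) (e := e) (γ := γ)
    (η := η) (d := d) (K := K) hn hK3 hτ he0 (by linarith) h.hγ h.hη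
    (by rw [hK]; exact h.hd) hcnt hμS hF0
  have hdn : n / K ≤ d := by
    rw [div_le_iff₀ hK0]
    have h3 := h.hd
    rw [← hK] at h3
    have h4 := mul_nonneg h.γ0 hn.le
    linarith
  have hdn1 : d ≤ n := by
    have h3 : 1 / K ≤ 1 / 3 := one_div_le_one_div_of_le (by norm_num) hK3
    have h4 : (1 / K + e / 15) * n ≤ 1 * n := mul_le_mul_of_nonneg_right (by linarith) hn.le
    linarith
  -- load of `S`
  have hPS : ∑ z ∈ S, P D (wx x) z ≤ τ * #S := by
    calc ∑ z ∈ S, P D (wx x) z ≤ ∑ _z ∈ S, τ := by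
          apply sum_le_sum
          intro z hz
          apply h.hPx z
          rw [hSdef] at hz
          unfold SX at hz
          exact lt_of_lt_of_le h.θ0 (mem_filter.mp hz).2
      _ = τ * #S := by rw [sum_const, nsmul_eq_mul, mul_comm]
  -- vertices outside `F1`
  have hJ : ∀ J : Finset (Fin n), (∀ v ∈ J, 1 ≤ D.r v ∧ #(Ea D v) = 1) →
      #F1 * μ S + ∑ v ∈ J, mS D (wx x) S v ≤ τ * #S := by
    intro J hJ
    refine le_trans ?_ hPS
    have h3 := P_ge hS hw S F1 J ?_ (fun v hv => (hEF v hv).1) (fun v hv => (hJ v hv).1)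
    · rw [sum_congr rfl (hmF S), sum_const, nsmul_eq_mul] at h3
      exact h3
    · rw [disjoint_left]
      intro v hv hv'
      have h4 := (hJ v hv').2
      rw [(hEF v hv).2] at h4
      simp at h4
  have hsl : (1 / K - e / 3) * n ≤ #S := by
    have h3 := hJ ∅ (by simp)
    rw [sum_empty, add_zero] at h3
    have h4 : τ * ((1 / K - e / 3) * n) ≤ τ * #S := by linarith
    exact le_of_mul_le_mul_left h4 (by linarith)
  have hExt : ∀ J : Finset (Fin n), (∀ v ∈ J, 1 ≤ D.r v ∧ #(Ea D v) = 1) →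
      ∑ v ∈ J, mS D (wx x) S v ≤ e * n := by
    intro J hJ'
    have h3 := hJ J hJ'
    have h4 : (#S : ℝ) ≤ (1 / K + 4 * e / 15) * n := by linarith
    have h5 : τ * #S ≤ τ * ((1 / K + 4 * e / 15) * n) :=
      mul_le_mul_of_nonneg_left h4 (by linarith)
    have h6 : 0 ≤ e * n := by positivity
    have h7 : τ * (e * n) ≤ 1 * (e * n) := mul_le_mul_of_nonneg_right hτ1 h6
    linarith
  -- the middle vertices
  have hPm : ∀ u ∈ Pmid D, 1 ≤ D.r u ∧ #(Ea D u) = 1 := by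
    intro u hu
    unfold Pmid at hu
    rw [mem_filter] at hu
    obtain ⟨-, u0, -, hu0, v, hv⟩ := hu
    have h3 : u ∈ Ea D v := by
      rw [hv]
      exact mem_singleton_self u
    exact ⟨(mem_filter.1 h3).2.1, by rw [hu0, card_singleton]⟩
  have hPmc : c * n ≤ #(Pmid D) := h.hP.mid
  have hPmE := hExt (Pmid D) hPm
  -- the set `Y`
  have hRe : 4 * RX x θ ≤ e := by linarith
  obtain ⟨Y, hY⟩ : ∃ Y : Finset (Fin n), Y = univ.filter fun y =>
      β * n ≤ (#(S \ D.B.N y) : ℝ) := ⟨_, rfl⟩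
  have hYm : ∀ y ∈ Y, 1 / 2 ≤ ∑ z ∈ SX x θ, ker D (wx x) {y} z := by
    intro y hy
    rw [hY, mem_filter] at hy
    exact half_mass h β hβ0 (by linarith) y hy.2
  have hμY : μ Y ≤ 2 * t := by
    have h3 : ∀ u ∈ Pmid D, 1 / 2 * μ Y ≤ mS D (wx x) S u := by
      intro u hu
      unfold Pmid at hu
      rw [mem_filter] at hu
      obtain ⟨-, u0, hu00, hu0, -⟩ := hu
      have h4 := one_mass h u u0 hu0 Y hYm
      rw [mS_first hS hw Y u0 hu00, ← hμ] at h4
      exact h4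
    have h4 : (#(Pmid D) : ℝ) * (1 / 2 * μ Y) ≤ e * n := by
      calc (#(Pmid D) : ℝ) * (1 / 2 * μ Y) = ∑ _u ∈ Pmid D, 1 / 2 * μ Y := by
            rw [sum_const, nsmul_eq_mul]
        _ ≤ ∑ u ∈ Pmid D, mS D (wx x) S u := sum_le_sum h3
        _ ≤ e * n := hPmE
    have h5 : c * n * (1 / 2 * μ Y) ≤ e * n :=
      (mul_le_mul_of_nonneg_right hPmc (by have := hμ0 Y; positivity)).trans h4
    rw [het] at h5
    have h6 : c * n * (1 / 2 * μ Y) ≤ c * n * t := by linarith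
    have h7 := le_of_mul_le_mul_left h6 (by positivity)
    linarith
  -- few elements of `S` belong to `Y`
  have hker : ∀ z ∈ S, #F1 * ker D (wx x) ∅ z ≤ τ := by
    intro z hz
    have h3 := P_ge hS hw {z} F1 ∅ (disjoint_empty_right _) (fun v hv => (hEF v hv).1)
      (fun v hv => absurd hv (notMem_empty v))
    rw [sum_empty, add_zero, sum_congr rfl (hmF {z}), sum_const, nsmul_eq_mul, sum_singleton,
      hμ, sum_singleton] at h3
    refine h3.trans (h.hPx z ?_)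
    rw [hSdef] at hz
    unfold SX at hz
    exact lt_of_lt_of_le h.θ0 (mem_filter.mp hz).2
  have hSY : (#(S ∩ Y) : ℝ) ≤ 5 * t * n := by
    have h3 : μ S = μ (S ∩ Y) + μ (S \ Y) := by
      rw [hμ, hμ, hμ, sum_inter_add_sum_sdiff]
    have h4 : μ (S ∩ Y) ≤ μ Y := by
      rw [hμ, hμ]
      exact sum_le_sum_of_subset_of_nonneg inter_subset_right fun z _ _ => ker_nonneg hS hw _ z
    have h5 : #F1 * μ (S \ Y) ≤ τ * #(S \ Y) := by
      rw [hμ, mul_sum]
      calc ∑ z ∈ S \ Y, #F1 * ker D (wx x) ∅ z ≤ ∑ _z ∈ S \ Y, τ :=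
            sum_le_sum fun z hz => hker z (mem_sdiff.mp hz).1
        _ = τ * #(S \ Y) := by rw [sum_const, nsmul_eq_mul, mul_comm]
    have h6 : (#(S \ Y) : ℝ) + #(S ∩ Y) = #S := by exact_mod_cast card_sdiff_add_card_inter S Y
    have h7 : #F1 * μ (S ∩ Y) ≤ n * (2 * t) :=
      mul_le_mul hFn (h4.trans hμY) (hμ0 _) hn.le
    have h8 : (#F1 : ℝ) * μ S = #F1 * μ (S ∩ Y) + #F1 * μ (S \ Y) := by
      rw [h3]
      ring
    have h9 : (#S : ℝ) ≤ (1 / K + 4 * e / 15) * n := by linarith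
    have h10 : τ * #S ≤ τ * ((1 / K + 4 * e / 15) * n) :=
      mul_le_mul_of_nonneg_left h9 (by linarith)
    have h11 : τ * #(S ∩ Y) ≤ n * (2 * t) + τ * (3 / 5 * e * n) := by
      have h12 : τ * #(S \ Y) = τ * #S - τ * #(S ∩ Y) := by
        rw [← h6]
        ring
      linarith
    have h12 : n * (2 * t) ≤ τ * (4 * t * n) := by
      have h13 : 1 / 2 * (4 * t * n) ≤ τ * (4 * t * n) :=
        mul_le_mul_of_nonneg_right hτ (by positivity)
      linarith
    have h13 : τ * #(S ∩ Y) ≤ τ * (5 * t * n) := by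
      have h14 : e * n ≤ t * n := mul_le_mul_of_nonneg_right het' hn.le
      have h15 : τ * (e * n) ≤ τ * (t * n) := mul_le_mul_of_nonneg_left h14 (by linarith)
      have h16 : 0 ≤ τ * (t * n) := by positivity
      linarith
    exact le_of_mul_le_mul_left h13 (by linarith)
  -- few edges leave `S`
  have hcross : ∑ y ∈ S, (#(D.B.N y \ S) : ℝ) ≤ (2 * β + 5 * t) * n * n := by
    have h3 : ∀ y ∈ S, (#(D.B.N y \ S) : ℝ) ≤ 2 * β * n + if y ∈ Y then (n : ℝ) else 0 := by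
      intro y _
      split_ifs with hy
      · have h4 : (#(D.B.N y \ S) : ℝ) ≤ n := by
          have h5 := card_le_univ (D.B.N y \ S)
          rw [Fintype.card_fin] at h5
          exact_mod_cast h5
        have h5 : 0 ≤ 2 * β * n := by positivity
        linarith
      · have h4 : (#(S \ D.B.N y) : ℝ) < β * n := by
          rw [hY, mem_filter] at hy
          by_contra h5
          exact hy ⟨mem_univ _, not_lt.mp h5⟩
        have h5 : (#(S \ D.B.N y) : ℝ) + #(S ∩ D.B.N y) = #S := by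
          exact_mod_cast card_sdiff_add_card_inter S (D.B.N y)
        have h6 : (#(D.B.N y \ S) : ℝ) + #(D.B.N y ∩ S) = #(D.B.N y) := by
          exact_mod_cast card_sdiff_add_card_inter (D.B.N y) S
        rw [inter_comm] at h6
        have h7 := hS.dB y
        have h8 : e * n ≤ β * n := mul_le_mul_of_nonneg_right (by linarith) hn.le
        have h9 : 0 ≤ e * n := by positivity
        linarith
    calc ∑ y ∈ S, (#(D.B.N y \ S) : ℝ)
        ≤ ∑ y ∈ S, (2 * β * n + if y ∈ Y then (n : ℝ) else 0) := sum_le_sum h3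
      _ = #S * (2 * β * n) + #(S ∩ Y) * n := by
          rw [sum_add_distrib, sum_const, nsmul_eq_mul, ← sum_filter, filter_mem_eq_inter,
            sum_const, nsmul_eq_mul]
      _ ≤ n * (2 * β * n) + 5 * t * n * n :=
          add_le_add (mul_le_mul_of_nonneg_right hSn (by positivity))
            (mul_le_mul_of_nonneg_right hSY hn.le)
      _ = (2 * β + 5 * t) * n * n := by ring
  -- the set `Z0`
  obtain ⟨Z0, hZ0⟩ : ∃ Z0 : Finset (Fin n), Z0 = univ.filter fun z =>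
      z ∉ S ∧ (#S : ℝ) / 2 ≤ #(D.B.N z ∩ S) := ⟨_, rfl⟩
  have hdisj : Disjoint S Z0 := by
    rw [disjoint_left]
    intro z hz hz'
    rw [hZ0, mem_filter] at hz'
    exact hz'.2.1 hz
  have hS4 : 1 / (4 * K) * n ≤ (#S : ℝ) / 2 := by
    have h3 : 1 / (4 * K) = 1 / K / 4 := by field_simp
    rw [h3]
    have h4 : 2 * e ≤ 1 / K := by
      rw [le_div_iff₀ hK0]
      linarith
    have h5 : 2 * e * n ≤ 1 / K * n := mul_le_mul_of_nonneg_right h4 hn.le
    linarith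
  have hZc : (#Z0 : ℝ) ≤ 4 * K * (2 * β + 5 * t) * n := by
    have h3 := cross_edges D.B S Z0 hdisj ((#S : ℝ) / 2) _ hcross (fun z hz => by
      rw [hZ0, mem_filter] at hz
      exact hz.2.2)
    have h4 : 1 / (4 * K) * n * #Z0 ≤ (2 * β + 5 * t) * n * n :=
      (mul_le_mul_of_nonneg_right hS4 (Nat.cast_nonneg _)).trans h3
    have h5 : n * (#Z0 : ℝ) ≤ n * (4 * K * (2 * β + 5 * t) * n) := by
      have h6 : 4 * K * (1 / (4 * K) * n * #Z0) ≤ 4 * K * ((2 * β + 5 * t) * n * n) :=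
        mul_le_mul_of_nonneg_left h4 (by positivity)
      have h7 : 4 * K * (1 / (4 * K)) = 1 := mul_one_div_cancel (by positivity)
      have h8 : 4 * K * (1 / (4 * K) * n * #Z0) = n * #Z0 := by
        calc 4 * K * (1 / (4 * K) * n * #Z0) = 4 * K * (1 / (4 * K)) * (n * #Z0) := by ring
          _ = n * #Z0 := by rw [h7, one_mul]
      rw [h8] at h6
      linarith
    exact le_of_mul_le_mul_left h5 hn
  have hPZ : ∑ z ∈ Z0, P D (wx x) z ≤ (c / 4 + c / 75) * n := by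
    have h3 : ∑ z ∈ Z0, P D (wx x) z ≤ #Z0 * (2 * K) := by
      calc ∑ z ∈ Z0, P D (wx x) z ≤ ∑ _z ∈ Z0, 2 * K := by
            apply sum_le_sum
            intro z _
            rw [hK]
            exact P_le_all h z
        _ = #Z0 * (2 * K) := by rw [sum_const, nsmul_eq_mul]
    refine h3.trans ?_
    have h4 : (#Z0 : ℝ) * (2 * K) ≤ 4 * K * (2 * β + 5 * t) * n * (2 * K) :=
      mul_le_mul_of_nonneg_right hZc (by positivity)
    refine h4.trans ?_
    have h5 : 4 * K * (2 * β + 5 * t) * n * (2 * K) =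
        (64 * K ^ 2 * β / 4 + 40 * K ^ 2 * t) * n := by ring
    rw [h5, hβK]
    apply mul_le_mul_of_nonneg_right _ hn.le
    linarith
  have hPmZ : ∑ u ∈ Pmid D, mS D (wx x) Z0 u ≤ (c / 4 + c / 75) * n := by
    refine le_trans ?_ hPZ
    have h3 := P_ge hS hw Z0 ∅ (Pmid D) (disjoint_empty_left _)
      (fun v hv => absurd hv (notMem_empty v)) (fun v hv => (hPm v hv).1)
    rw [sum_empty, zero_add] at h3
    exact h3
  -- the last vertices of the paths
  have hex : ∀ u, u ∈ Pmid D → ∃ v, Ea D v = {u} := by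
    intro u hu
    unfold Pmid at hu
    rw [mem_filter] at hu
    obtain ⟨-, u0, -, -, v, hv⟩ := hu
    exact ⟨v, hv⟩
  choose! f hf using hex
  have hinj : Set.InjOn f (Pmid D : Set (Fin n)) := by
    intro u hu u' hu' huu
    have h3 := hf u hu
    rw [huu, hf u' hu'] at h3
    exact (singleton_injective h3).symm
  have hJf : ∀ v ∈ (Pmid D).image f, 1 ≤ D.r v ∧ #(Ea D v) = 1 := by
    intro v hv
    rw [mem_image] at hv
    obtain ⟨u, hu, rfl⟩ := hv
    have h3 : u ∈ Ea D (f u) := by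
      rw [hf u hu]
      exact mem_singleton_self u
    have h4 := (mem_filter.1 h3).2
    exact ⟨by omega, by rw [hf u hu, card_singleton]⟩
  have hfE := hExt _ hJf
  rw [sum_image hinj] at hfE
  have hfl : ∀ u ∈ Pmid D,
      1 / 2 * (1 - mS D (wx x) S u - mS D (wx x) Z0 u) ≤ mS D (wx x) S (f u) := by
    intro u hu
    have h3 : ∀ y ∈ univ \ (S ∪ Z0), 1 / 2 ≤ ∑ z ∈ SX x θ, ker D (wx x) {y} z := by
      intro y hy
      rw [mem_sdiff, mem_union, not_or] at hy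
      obtain ⟨-, hyS, hyZ⟩ := hy
      have h4 : (#(D.B.N y ∩ S) : ℝ) < #S / 2 := by
        by_contra h5
        apply hyZ
        rw [hZ0, mem_filter]
        exact ⟨mem_univ _, hyS, not_lt.mp h5⟩
      have h5 : (#(S \ D.B.N y) : ℝ) + #(S ∩ D.B.N y) = #S := by
        exact_mod_cast card_sdiff_add_card_inter S (D.B.N y)
      rw [inter_comm] at h5
      refine half_mass h (1 / (4 * K)) (by positivity) ?_ y ?_
      · rw [le_div_iff₀ (by positivity)]
        have h6 : 4 * RX x θ * (4 * K) ≤ e * (4 * K) :=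
          mul_le_mul_of_nonneg_right hRe (by positivity)
        linarith
      · rw [← hSdef]
        linarith
    have h4 := one_mass h (f u) u (hf u hu) _ h3
    have h5 := mS_univ hS hw u
    have h6 : (univ : Finset (Fin n)) = (S ∪ Z0) ∪ (univ \ (S ∪ Z0)) :=
      (union_sdiff_of_subset (subset_univ _)).symm
    rw [h6, mS_union _ _ disjoint_sdiff, mS_union _ _ hdisj] at h5
    rw [← hSdef] at h4
    linarith
  have hsum := sum_le_sum hfl
  rw [← mul_sum, sum_sub_distrib, sum_sub_distrib, sum_const, nsmul_eq_mul, mul_one] at hsum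
  have hfin : c * n ≤ (3 * e + c / 4 + c / 75) * n := by linarith
  have hfin2 := le_of_mul_le_mul_right hfin hn
  have hte : 27000 * e ≤ c := by linarith
  linarith

end Pool.Agent.Helper14.BECX
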