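import Pool.Agent.Helper5.BEC.C.Defs
/-! Project BECX, piece Pair: two independent positions block less than two full neighbourhoods. -/
set_option autoImplicit false
namespace Pool.Agent.Helper14.BECX
open Finset Pool.Agent.Helper5.BEC Pool.Agent.Helper5.BEC.C

variable {n : ℕ}

/-- Two independent positions `x, x'` with law `μ`: the union of `B.N x`, `B.N x'` inside `S` is on the
average smaller than `2 d`. With `m_x = #(B.N x ∩ S) ≤ d`, `m = ∑ μ x m_x`, `p_z = ∑_{x : z ∈ B.N x} μ x`,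
`∑_{z ∈ S} p_z = m`: `E #(B.N x ∩ B.N x' ∩ S) = ∑_{z ∈ S} p_z² ≥ m²/#S` (Cauchy-Schwarz), so
`E (2 d - U) ≥ 2 (d - m) + m²/#S ≥ d²/#S ≥ d/(k+1)` (`d ≤ #S ≤ (k+1) d`), and `0 ≤ 2 d - U ≤ 2 d`. So
`2 d - U ≥ d/(2(k+1))` has probability `≥ 1/(4(k+1))`. -/
theorem pair_prob (B : Nb n) (k : ℕ) (d : ℝ) (hd0 : 0 < d) (hB : ∀ y, (#(B.N y) : ℝ) ≤ d)
    (S : Finset (Fin n)) (h1 : d ≤ #S) (h2 : (#S : ℝ) ≤ (k + 1) * d) (μ : Fin n → ℝ)
    (hμ0 : ∀ x, 0 ≤ μ x) (hμ1 : ∑ x, μ x = 1) :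
    1 / (4 * ((k : ℝ) + 1)) ≤ ∑ x, ∑ x', μ x * μ x' *
      (if (#((B.N x ∪ B.N x') ∩ S) : ℝ) ≤ 2 * d - d / (2 * (k + 1)) then 1 else 0) := by
  classical
  have hk : (0 : ℝ) < (k : ℝ) + 1 := by positivity
  have hS : (0 : ℝ) < #S := lt_of_lt_of_le hd0 h1
  -- indicator of `z ∈ B.N x`
  set f : Fin n → Fin n → ℝ := fun z x => if z ∈ B.N x then (1 : ℝ) else 0 with hf
  set p : Fin n → ℝ := fun z => ∑ x, μ x * f z x with hp
  set m : ℝ := ∑ z ∈ S, p z with hm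
  -- cardinality of the union
  have hU : ∀ x x', (#((B.N x ∪ B.N x') ∩ S) : ℝ) = ∑ z ∈ S, (f z x + f z x' - f z x * f z x') := by
    intro x x'
    have e1 : (B.N x ∪ B.N x') ∩ S = S.filter fun z => z ∈ B.N x ∪ B.N x' := by
      ext z; simp only [mem_inter, mem_filter]; tauto
    rw [e1, card_filter]
    push_cast
    refine sum_congr rfl fun z _ => ?_
    simp only [hf, mem_union]
    by_cases a : z ∈ B.N x <;> by_cases b : z ∈ B.N x' <;> simp [a, b]
  have hN : ∀ x, ∑ z ∈ S, f z x ≤ d := by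
    intro x
    have e1 : ∑ z ∈ S, f z x = (#(S.filter fun z => z ∈ B.N x) : ℝ) := by
      rw [card_filter]; push_cast; rfl
    rw [e1]
    refine le_trans ?_ (hB x)
    exact_mod_cast card_le_card (fun z hz => (mem_filter.mp hz).2)
  have hf0 : ∀ z x, 0 ≤ f z x := by
    intro z x; simp only [hf]; split_ifs <;> norm_num
  have hf1 : ∀ z x, f z x ≤ 1 := by
    intro z x; simp only [hf]; split_ifs <;> norm_num
  have hmd : m ≤ d := by
    have e1 : m = ∑ x, μ x * ∑ z ∈ S, f z x := by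
      simp only [hm, hp, mul_sum]
      rw [sum_comm]
    rw [e1]
    calc ∑ x, μ x * ∑ z ∈ S, f z x ≤ ∑ x, μ x * d :=
          sum_le_sum fun x _ => mul_le_mul_of_nonneg_left (hN x) (hμ0 x)
      _ = d := by rw [← sum_mul, hμ1, one_mul]
  have hEU : ∑ x, ∑ x', μ x * μ x' * (#((B.N x ∪ B.N x') ∩ S) : ℝ)
      = 2 * m - ∑ z ∈ S, p z ^ 2 := by
    have e1 : ∀ z, ∑ x, ∑ x', μ x * μ x' * (f z x + f z x' - f z x * f z x')
        = 2 * p z - p z ^ 2 := by
      intro z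
      have e2 : ∀ x, ∑ x', μ x * μ x' * (f z x + f z x' - f z x * f z x')
          = μ x * f z x + μ x * p z - μ x * f z x * p z := by
        intro x
        have e3 : ∀ x', μ x * μ x' * (f z x + f z x' - f z x * f z x')
            = μ x * f z x * μ x' + μ x * (μ x' * f z x') - μ x * f z x * (μ x' * f z x') := by
          intro x'; ring
        simp only [e3, sum_sub_distrib, sum_add_distrib, ← mul_sum, hμ1, mul_one, hp]
      simp only [e2, sum_sub_distrib, sum_add_distrib, ← sum_mul, hμ1, one_mul]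
      change p z + p z - p z * p z = _
      ring
    calc ∑ x, ∑ x', μ x * μ x' * (#((B.N x ∪ B.N x') ∩ S) : ℝ)
        = ∑ x, ∑ x', ∑ z ∈ S, μ x * μ x' * (f z x + f z x' - f z x * f z x') := by
          refine sum_congr rfl fun x _ => sum_congr rfl fun x' _ => ?_
          rw [hU, mul_sum]
      _ = ∑ z ∈ S, ∑ x, ∑ x', μ x * μ x' * (f z x + f z x' - f z x * f z x') := by
          rw [sum_comm]
          simp_rw [sum_comm (s := (univ : Finset (Fin n))) (t := S)]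
          refine sum_congr rfl fun z _ => ?_
          rw [sum_comm]
      _ = ∑ z ∈ S, (2 * p z - p z ^ 2) := sum_congr rfl fun z _ => e1 z
      _ = 2 * m - ∑ z ∈ S, p z ^ 2 := by
          rw [sum_sub_distrib, ← mul_sum]
  -- Cauchy-Schwarz
  have hCS : m ^ 2 ≤ #S * ∑ z ∈ S, p z ^ 2 := by
    have := sq_sum_le_card_mul_sum_sq (s := S) (f := p)
    simpa [hm] using this
  have hCS' : m ^ 2 / #S ≤ ∑ z ∈ S, p z ^ 2 := by
    rw [div_le_iff₀ hS]; linarith [mul_comm (#S : ℝ) (∑ z ∈ S, p z ^ 2)]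
  have hkey : d / (k + 1) ≤ 2 * d - (2 * m - ∑ z ∈ S, p z ^ 2) := by
    have a1 : d / (k + 1) ≤ d ^ 2 / #S := by
      rw [div_le_div_iff₀ hk hS]
      nlinarith
    have a2 : d ^ 2 / #S ≤ 2 * (d - m) + m ^ 2 / #S := by
      have : 2 * (d - m) + m ^ 2 / #S - d ^ 2 / #S = (d - m) * (2 * #S - (d + m)) / #S := by
        field_simp
        ring
      have h3 : 0 ≤ (d - m) * (2 * #S - (d + m)) / #S := by
        apply div_nonneg _ hS.le
        apply mul_nonneg <;> linarith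
      linarith
    linarith
  -- the indicator
  have hpt : ∀ x x', 2 * d - (#((B.N x ∪ B.N x') ∩ S) : ℝ) ≤ d / (2 * (k + 1)) + 2 * d *
      (if (#((B.N x ∪ B.N x') ∩ S) : ℝ) ≤ 2 * d - d / (2 * (k + 1)) then 1 else 0) := by
    intro x x'
    have h0 : (0 : ℝ) ≤ #((B.N x ∪ B.N x') ∩ S) := by positivity
    have h00 : 0 ≤ d / (2 * ((k : ℝ) + 1)) := by positivity
    split_ifs with h
    · linarith
    · push Not at h; linarith
  have hsum : ∑ x, ∑ x', μ x * μ x' * (2 * d - (#((B.N x ∪ B.N x') ∩ S) : ℝ)) ≤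
      ∑ x, ∑ x', μ x * μ x' * (d / (2 * (k + 1)) + 2 * d *
      (if (#((B.N x ∪ B.N x') ∩ S) : ℝ) ≤ 2 * d - d / (2 * (k + 1)) then 1 else 0)) :=
    sum_le_sum fun x _ => sum_le_sum fun x' _ =>
      mul_le_mul_of_nonneg_left (hpt x x') (mul_nonneg (hμ0 x) (hμ0 x'))
  have hμμ : ∀ c : ℝ, ∑ x, ∑ x', μ x * μ x' * c = c := by
    intro c
    simp only [← sum_mul, ← mul_sum, hμ1, mul_one, one_mul]
  have hL : ∑ x, ∑ x', μ x * μ x' * (2 * d - (#((B.N x ∪ B.N x') ∩ S) : ℝ))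
      = 2 * d - (2 * m - ∑ z ∈ S, p z ^ 2) := by
    rw [← hEU]
    simp only [mul_sub, sum_sub_distrib]
    rw [hμμ]
  have hR : ∑ x, ∑ x', μ x * μ x' * (d / (2 * (k + 1)) + 2 * d *
      (if (#((B.N x ∪ B.N x') ∩ S) : ℝ) ≤ 2 * d - d / (2 * (k + 1)) then 1 else 0))
      = d / (2 * (k + 1)) + 2 * d * ∑ x, ∑ x', μ x * μ x' *
      (if (#((B.N x ∪ B.N x') ∩ S) : ℝ) ≤ 2 * d - d / (2 * (k + 1)) then 1 else 0) := by
    simp only [mul_add, sum_add_distrib]
    rw [hμμ, mul_sum]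
    congr 1
    refine sum_congr rfl fun x _ => ?_
    rw [mul_sum]
    refine sum_congr rfl fun x' _ => ?_
    ring
  rw [hL, hR] at hsum
  set Q : ℝ := ∑ x, ∑ x', μ x * μ x' *
      (if (#((B.N x ∪ B.N x') ∩ S) : ℝ) ≤ 2 * d - d / (2 * (k + 1)) then 1 else 0) with hQ
  have h5 : d / (k + 1) ≤ d / (2 * (k + 1)) + 2 * d * Q := le_trans hkey hsum
  have h6 : d / ((k : ℝ) + 1) = d / (2 * (k + 1)) + d / (2 * (k + 1)) := by
    field_simp
    ring
  have h7 : d / (2 * ((k : ℝ) + 1)) = 2 * d * (1 / (4 * ((k : ℝ) + 1))) := by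
    field_simp
    ring
  have h8 : 2 * d * (1 / (4 * ((k : ℝ) + 1))) ≤ 2 * d * Q := by
    rw [← h7]; linarith
  exact le_of_mul_le_mul_left h8 (by positivity)

end Pool.Agent.Helper14.BECX
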