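import Pool.Agent.Helper14.BECX.Mass
import Pool.Agent.Helper14.BECX.Pair
/-! Project BECX, piece Gain2: gain from two earlier neighbours whose positions are independent. -/
set_option autoImplicit false
namespace Pool.Agent.Helper14.BECX
open Finset Pool.Agent.Helper61.LE Pool.Agent.Helper5.BEC Pool.Agent.Helper5.BEC.C

variable {n k : ℕ} {D : Dat n} {w : Fin n → ℝ} {d Λ : ℝ}

theorem Xs_of_Ea_empty (φ : Cf n) (v : Fin n) (hv : Ea D v = ∅) : Xs D φ v = ∅ := by
  unfold Xs
  rw [hv]
  simp

/-- The positions of two vertices without earlier neighbours are independent: `Psi_prod` with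
`M = {u, u'}`, `o u a = [a = some x]`, `c u = ker D w ∅ x` (`Xs D φ u = ∅`), then sum over `x, x'`
(`Psi_mono`, `Psi_sum`, `Psi_smul`). -/
theorem Psi_two (hS : StdX D k d) (hw : Wt w Λ) (u u' : Fin n) (hne : u ≠ u')
    (hr : 1 ≤ D.r u) (hr' : 1 ≤ D.r u') (hu : Ea D u = ∅) (hu' : Ea D u' = ∅)
    (F : Fin n → Fin n → ℝ) (hF : ∀ x x', 0 ≤ F x x') :
    ∑ x, ∑ x', ker D w ∅ x * ker D w ∅ x' * F x x' ≤
      Psi D w D.T 0 (fun φ => ∑ x, ∑ x', if φ u = some x ∧ φ u' = some x' then F x x' else 0)
        (φ0 n) := by
  classical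
  -- one pair of positions
  have key : ∀ x x' : Fin n, ker D w ∅ x * ker D w ∅ x' ≤
      Psi D w D.T 0 (fun φ => if φ u = some x ∧ φ u' = some x' then (1 : ℝ) else 0) (φ0 n) := by
    intro x x'
    set o : Fin n → Option (Fin n) → ℝ := fun p a =>
      if p = u then (if a = some x then 1 else 0) else (if a = some x' then 1 else 0) with ho
    set c : Fin n → ℝ := fun p => if p = u then ker D w ∅ x else ker D w ∅ x' with hc
    have ho0 : ∀ p a, 0 ≤ o p a := by
      intro p a
      rw [ho]
      simp only
      split_ifs <;> norm_num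
    have hc0 : ∀ p, 0 ≤ c p := by
      intro p
      rw [hc]
      simp only
      split_ifs
      · exact ker_nonneg hS hw _ _
      · exact ker_nonneg hS hw _ _
    have hcM : ∀ p ∈ ({u, u'} : Finset (Fin n)), ∀ φ,
        c p ≤ ∑ z, ker D w (Xs D φ p) z * o p (some z) := by
      intro p hp φ
      rw [mem_insert, mem_singleton] at hp
      rcases hp with rfl | rfl
      · rw [Xs_of_Ea_empty φ p hu, ho, hc]
        simp only [if_true, Option.some.injEq]
        rw [Finset.sum_eq_single x]
        · simp
        · intro z _ hz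
          rw [if_neg hz, mul_zero]
        · intro h
          exact absurd (mem_univ x) h
      · rw [Xs_of_Ea_empty φ p hu', ho, hc]
        simp only [Option.some.injEq]
        rw [if_neg (fun h => hne h.symm)]
        rw [Finset.sum_eq_single x']
        · rw [if_neg (fun h => hne h.symm)]
          simp
        · intro z _ hz
          rw [if_neg (fun h => hne h.symm), if_neg hz, mul_zero]
        · intro h
          exact absurd (mem_univ x') h
    have h1 := Psi_prod hS hw ({u, u'} : Finset (Fin n)) o ho0 c hc0 hcM D.T 0 (φ0 n)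
    have ou : ∀ a, o u a = if a = some x then (1 : ℝ) else 0 := by
      intro a
      rw [ho]
      simp only [if_true]
    have ou' : ∀ a, o u' a = if a = some x' then (1 : ℝ) else 0 := by
      intro a
      rw [ho]
      simp only
      rw [if_neg (fun h : u' = u => hne h.symm)]
    have h2 : (fun φ : Cf n => ∏ p ∈ ({u, u'} : Finset (Fin n)), o p (φ p)) =
        fun φ => if φ u = some x ∧ φ u' = some x' then (1 : ℝ) else 0 := by
      funext φ
      rw [Finset.prod_pair hne, ou, ou']
      by_cases h : φ u = some x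
      · by_cases h' : φ u' = some x'
        · rw [if_pos h, if_pos h', if_pos ⟨h, h'⟩, one_mul]
        · rw [if_neg h', mul_zero,
            if_neg (fun hh : φ u = some x ∧ φ u' = some x' => h' hh.2)]
      · rw [if_neg h, zero_mul, if_neg (fun hh : φ u = some x ∧ φ u' = some x' => h hh.1)]
    rw [h2] at h1
    refine le_trans (le_of_eq ?_) h1
    rw [Finset.prod_pair hne, if_pos ⟨by omega, by have := hS.rT u; omega⟩,
      if_pos ⟨by omega, by have := hS.rT u'; omega⟩, hc]
    simp only [if_true]
    rw [if_neg (fun h : u' = u => hne h.symm)]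
  have h3 : (fun φ : Cf n => ∑ x, ∑ x', if φ u = some x ∧ φ u' = some x' then F x x' else 0) =
      fun φ => ∑ x, ∑ x', F x x' * (if φ u = some x ∧ φ u' = some x' then (1 : ℝ) else 0) := by
    funext φ
    apply sum_congr rfl
    intro x _
    apply sum_congr rfl
    intro x' _
    rw [mul_ite, mul_one, mul_zero]
  rw [h3, Psi_sum (D := D) (w := w) univ (fun x φ => ∑ x', F x x' *
    (if φ u = some x ∧ φ u' = some x' then (1 : ℝ) else 0)) D.T 0 (φ0 n)]
  apply sum_le_sum
  intro x _
  rw [Psi_sum (D := D) (w := w) univ (fun x' φ => F x x' *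
    (if φ u = some x ∧ φ u' = some x' then (1 : ℝ) else 0)) D.T 0 (φ0 n)]
  apply sum_le_sum
  intro x' _
  rw [Psi_smul]
  rw [mul_comm (ker D w ∅ x * ker D w ∅ x')]
  exact mul_le_mul_of_nonneg_left (key x x') (hF x x')

/-- A vertex `v` with `s` earlier neighbours, two of which (`u`, `u'`) are first vertices, goes to the
level set `S` with probability `≥ (1/(4(k+1))) (1-α)(1 - R/ρ)`, if `#S > s d - d/(4(k+1))`: if the
positions `x, x'` of `u, u'` satisfy `#((B.N x ∪ B.N x') ∩ S) ≤ 2 d - d/(2(k+1))`, then
`#(Av X ∩ S) ≥ #S - (2 d - d/(2(k+1))) - (s-2) d ≥ d/(4(k+1)) ≥ ρ n` and `massX` applies. -/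
theorem gain2 (hS : StdX D k d) (x : Fin n → ℝ) (hx : ∀ z, 0 ≤ x z) (θ ρ : ℝ) (s : ℕ)
    (hs : 2 ≤ s) (hsk : s ≤ k) (hd0 : 0 < d)
    (hlow : (s : ℝ) * d - d / (4 * (k + 1)) ≤ #(SX x θ))
    (hup : (#(SX x θ) : ℝ) ≤ (k + 1) * d) (hρ0 : 0 < ρ) (hρ : ρ * n ≤ d / (4 * (k + 1)))
    (hR : RX x θ ≤ ρ) (v : Fin n) (hv : v ∈ Ptwo D s) :
    1 / (4 * ((k : ℝ) + 1)) * ((1 - D.α) * (1 - RX x θ / ρ)) ≤ mS D (wx x) (SX x θ) v := by
  classical
  have hw := Wt_wx x hx
  set S := SX x θ with hSdef
  set q := (1 - D.α) * (1 - RX x θ / ρ) with hq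
  have hk : (0 : ℝ) < (k : ℝ) + 1 := by positivity
  have hα := hS.α1
  have hq0 : 0 ≤ q := by
    rw [hq]
    apply mul_nonneg
    · linarith
    · have : RX x θ / ρ ≤ 1 := (div_le_one hρ0).2 hR
      linarith
  unfold Ptwo at hv
  rw [mem_filter] at hv
  obtain ⟨-, hrv, hcard, u, huE, u', hu'E, hne, hu, hu'⟩ := hv
  have hru : 1 ≤ D.r u := (mem_filter.1 huE).2.1
  have hru' : 1 ≤ D.r u' := (mem_filter.1 hu'E).2.1
  set F : Fin n → Fin n → ℝ := fun a b =>
    q * (if (#((D.B.N a ∪ D.B.N b) ∩ S) : ℝ) ≤ 2 * d - d / (2 * (k + 1)) then 1 else 0) with hF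
  have hF0 : ∀ a b, 0 ≤ F a b := by
    intro a b
    rw [hF]
    simp only
    split_ifs
    · linarith
    · linarith
  have h1 := Psi_two hS hw u u' hne hru hru' hu hu' F hF0
  -- pointwise bound
  have h2 : ∀ φ : Cf n,
      (∑ a, ∑ b, if φ u = some a ∧ φ u' = some b then F a b else 0) ≤
        ∑ z ∈ S, ker D (wx x) (Xs D φ v) z := by
    intro φ
    have hG0 : 0 ≤ ∑ z ∈ S, ker D (wx x) (Xs D φ v) z :=
      sum_nonneg fun z _ => ker_nonneg hS hw _ _
    by_cases hab : ∃ a b, φ u = some a ∧ φ u' = some b
    · obtain ⟨a, b, ha, hb⟩ := hab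
      have e1 : (∑ a', ∑ b', if φ u = some a' ∧ φ u' = some b' then F a' b' else 0) = F a b := by
        rw [Finset.sum_eq_single a]
        · rw [Finset.sum_eq_single b]
          · rw [if_pos ⟨ha, hb⟩]
          · intro b' _ hb'
            rw [if_neg]
            rintro ⟨-, h⟩
            rw [hb] at h
            exact hb' (Option.some.inj h).symm
          · intro h
            exact absurd (mem_univ b) h
        · intro a' _ ha'
          apply sum_eq_zero
          intro b' _
          rw [if_neg]
          rintro ⟨h, -⟩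
          rw [ha] at h
          exact ha' (Option.some.inj h).symm
        · intro h
          exact absurd (mem_univ a) h
      rw [e1, hF]
      simp only
      split_ifs with hgood
      · rw [mul_one]
        refine (massX hS x hx θ (Xs D φ v) (Xs_card' hS φ v) ρ hρ0 ?_).1
        refine hρ.trans ?_
        -- the room
        set X := Xs D φ v with hX
        have e2 : #(X \ {a, b}) + 2 ≤ s := by
          have f1 : (X \ {a, b}).image some ⊆ ((Ea D v) \ {u, u'}).image φ := by
            intro y hy
            rw [mem_image] at hy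
            obtain ⟨z, hz, rfl⟩ := hy
            rw [mem_sdiff, hX] at hz
            obtain ⟨-, p, hp, hpz⟩ := mem_filter.mp hz.1
            rw [mem_image]
            refine ⟨p, ?_, hpz⟩
            rw [mem_sdiff]
            refine ⟨hp, ?_⟩
            intro hpu
            rw [mem_insert, mem_singleton] at hpu
            apply hz.2
            rw [mem_insert, mem_singleton]
            rcases hpu with rfl | rfl
            · left
              rw [ha] at hpz
              exact (Option.some.inj hpz).symm
            · right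
              rw [hb] at hpz
              exact (Option.some.inj hpz).symm
          have f2 : #(X \ {a, b}) ≤ #((Ea D v) \ {u, u'}) := by
            rw [← card_image_of_injective (X \ {a, b}) (Option.some_injective _)]
            exact (card_le_card f1).trans card_image_le
          have f3 : #((Ea D v) \ {u, u'}) + #({u, u'} : Finset (Fin n)) = #(Ea D v) := by
            apply card_sdiff_add_card_eq_card
            intro y hy
            rw [mem_insert, mem_singleton] at hy
            rcases hy with rfl | rfl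
            · exact huE
            · exact hu'E
          rw [card_pair hne, hcard] at f3
          omega
        have e3 : S ⊆ (Av D.B X ∩ S) ∪ (((D.B.N a ∪ D.B.N b) ∩ S) ∪ (X \ {a, b}).biUnion D.B.N) := by
          intro z hz
          by_cases h : ∃ y ∈ X, z ∈ D.B.N y
          · obtain ⟨y, hy, hzy⟩ := h
            by_cases hya : y = a
            · subst hya
              exact mem_union_right _ (mem_union_left _
                (mem_inter.2 ⟨mem_union_left _ hzy, hz⟩))
            · by_cases hyb : y = b
              · subst hyb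
                exact mem_union_right _ (mem_union_left _
                  (mem_inter.2 ⟨mem_union_right _ hzy, hz⟩))
              · refine mem_union_right _ (mem_union_right _ (mem_biUnion.2 ⟨y, ?_, hzy⟩))
                rw [mem_sdiff]
                refine ⟨hy, ?_⟩
                rw [mem_insert, mem_singleton]
                rintro (h | h)
                · exact hya h
                · exact hyb h
          · push Not at h
            exact mem_union_left _ (mem_inter.2 ⟨mem_filter.mpr ⟨mem_univ _, h⟩, hz⟩)
        have e4 : (#S : ℝ) ≤ #(Av D.B X ∩ S) + (#((D.B.N a ∪ D.B.N b) ∩ S) +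
            #((X \ {a, b}).biUnion D.B.N)) := by
          exact_mod_cast ((card_le_card e3).trans (card_union_le _ _)).trans
            (Nat.add_le_add_left (card_union_le _ _) _)
        have e5 : (#((X \ {a, b}).biUnion D.B.N) : ℝ) ≤ #(X \ {a, b}) * d := by
          calc (#((X \ {a, b}).biUnion D.B.N) : ℝ)
              ≤ ((∑ y ∈ X \ {a, b}, #(D.B.N y) : ℕ) : ℝ) := by
                exact_mod_cast card_biUnion_le
            _ = ∑ y ∈ X \ {a, b}, (#(D.B.N y) : ℝ) := by push_cast; rfl
            _ ≤ ∑ _y ∈ X \ {a, b}, d := sum_le_sum fun y _ => hS.dB y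
            _ = #(X \ {a, b}) * d := by rw [sum_const, nsmul_eq_mul]
        have e6 : (#(X \ {a, b}) : ℝ) * d + 2 * d ≤ s * d := by
          have : (#(X \ {a, b}) : ℝ) + 2 ≤ s := by exact_mod_cast e2
          nlinarith
        have e7 : d / (2 * ((k : ℝ) + 1)) = 2 * (d / (4 * (k + 1))) := by
          field_simp
          ring
        linarith
      · rw [mul_zero]
        exact hG0
    · refine le_trans (le_of_eq ?_) hG0
      apply sum_eq_zero
      intro a _
      apply sum_eq_zero
      intro b _
      rw [if_neg]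
      intro h
      exact hab ⟨a, b, h⟩
  have h3 := Psi_mono hS hw h2 D.T 0 (φ0 n)
  have h4 : mS D (wx x) S v =
      Psi D (wx x) D.T 0 (fun φ => ∑ z ∈ S, ker D (wx x) (Xs D φ v) z) (φ0 n) := rfl
  rw [h4]
  refine le_trans (le_trans ?_ h1) h3
  -- the pair probability
  have hk8 : d / (4 * ((k : ℝ) + 1)) ≤ d := by
    apply div_le_self hd0.le
    have : (0 : ℝ) ≤ k := Nat.cast_nonneg k
    linarith
  have hdS : d ≤ #S := by
    have hs2 : (2 : ℝ) ≤ s := by exact_mod_cast hs
    have : 2 * d ≤ s * d := mul_le_mul_of_nonneg_right hs2 hd0.le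
    linarith
  have h5 := pair_prob D.B k d hd0 hS.dB S hdS hup (ker D (wx x) ∅)
    (fun z => ker_nonneg hS hw _ z) (ker_sum hS hw ∅ (by simp))
  have h6 : ∑ a, ∑ b, ker D (wx x) ∅ a * ker D (wx x) ∅ b * F a b =
      q * ∑ a, ∑ b, ker D (wx x) ∅ a * ker D (wx x) ∅ b *
      (if (#((D.B.N a ∪ D.B.N b) ∩ S) : ℝ) ≤ 2 * d - d / (2 * (k + 1)) then 1 else 0) := by
    rw [mul_sum]
    apply sum_congr rfl
    intro a _
    rw [mul_sum]
    apply sum_congr rfl
    intro b _
    rw [hF]
    ring
  rw [h6, mul_comm]
  exact mul_le_mul_of_nonneg_left h5 hq0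

end Pool.Agent.Helper14.BECX
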