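import Pool.Agent.Helper14.BECX.Defs
/-! Stage C, piece Ker: the kernel. -/
set_option autoImplicit false
namespace Pool.Agent.Helper14.BECX
open Finset Pool.Agent.Helper61.LE Pool.Agent.Helper5.BEC Pool.Agent.Helper5.BEC.C

variable {n k : ℕ} {D : Dat n} {w : Fin n → ℝ} {ε d Λ : ℝ}

theorem Ea_card (hS : StdX D k d) (v : Fin n) : #(Ea D v) ≤ k :=
  (card_le_card (filter_subset _ _)).trans (hS.dA v)

theorem Xs_card (φ : Cf n) (v : Fin n) : #(Xs D φ v) ≤ #(Ea D v) := by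
  classical
  have h1 : (Xs D φ v).image some ⊆ (Ea D v).image φ := by
    intro o ho
    rw [mem_image] at ho
    obtain ⟨x, hx, rfl⟩ := ho
    obtain ⟨-, u, hu, hux⟩ := mem_filter.mp hx
    exact mem_image.mpr ⟨u, hu, hux⟩
  calc #(Xs D φ v) = #((Xs D φ v).image some) :=
        (card_image_of_injective _ (Option.some_injective _)).symm
    _ ≤ #((Ea D v).image φ) := card_le_card h1
    _ ≤ #(Ea D v) := card_image_le

theorem Xs_card' (hS : StdX D k d) (φ : Cf n) (v : Fin n) : #(Xs D φ v) ≤ k :=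
  (Xs_card φ v).trans (Ea_card hS v)

/-- `z ∉ Av X` iff `z ∈ N₂(x)` for some `x ∈ X` -/
theorem Av_card (hS : StdX D k d) (X : Finset (Fin n)) : (n : ℝ) - #X * d ≤ #(Av D.B X) := by
  classical
  have h1 : (univ : Finset (Fin n)) ⊆ Av D.B X ∪ X.biUnion D.B.N := by
    intro z _
    rw [mem_union, mem_biUnion]
    by_cases h : ∃ x ∈ X, z ∈ D.B.N x
    · exact Or.inr h
    · left
      push Not at h
      exact mem_filter.mpr ⟨mem_univ _, h⟩
  have h2 : (n : ℝ) ≤ #(Av D.B X) + #(X.biUnion D.B.N) := by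
    have h3 := (card_le_card h1).trans (card_union_le _ _)
    rw [card_univ, Fintype.card_fin] at h3
    exact_mod_cast h3
  have h4 : (#(X.biUnion D.B.N) : ℝ) ≤ #X * d := by
    calc (#(X.biUnion D.B.N) : ℝ) ≤ ((∑ x ∈ X, #(D.B.N x) : ℕ) : ℝ) := by
          exact_mod_cast card_biUnion_le
      _ = ∑ x ∈ X, (#(D.B.N x) : ℝ) := by push_cast; rfl
      _ ≤ ∑ _x ∈ X, d := sum_le_sum fun x _ => hS.dB x
      _ = #X * d := by rw [sum_const, nsmul_eq_mul]
  linarith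

/-- `k d ≤ ((2k+1)/(2(k+1))) n` -/
theorem Av_card' (hS : StdX D k d) (X : Finset (Fin n)) (hX : #X ≤ k) :
    (n : ℝ) / (2 * (k + 1)) ≤ #(Av D.B X) := by
  refine le_trans ?_ (Av_card hS X)
  have hk : (0 : ℝ) < (k : ℝ) + 1 := by positivity
  have hXk : (#X : ℝ) ≤ k := by exact_mod_cast hX
  have h1 : (#X : ℝ) * d ≤ k * d := mul_le_mul_of_nonneg_right hXk hS.d0
  have h2 := hS.hd
  have h3 : (n : ℝ) / (2 * (k + 1)) ≤ n - k * d := by
    rw [div_le_iff₀ (by positivity)]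
    nlinarith
  linarith

theorem ker_alpha (hS : StdX D k d) : D.α ≤ 1 / 8 := hS.α1

theorem ker_W_pos (hw : Wt w Λ) (X : Finset (Fin n)) :
    (#(Av D.B X) : ℝ) ≤ ∑ y ∈ Av D.B X, w y := by
  calc (#(Av D.B X) : ℝ) = ∑ _y ∈ Av D.B X, (1 : ℝ) := by simp
    _ ≤ _ := sum_le_sum fun y _ => hw.w1 y

theorem ker_nonneg (hS : StdX D k d) (hw : Wt w Λ) (X : Finset (Fin n)) (z : Fin n) :
    0 ≤ ker D w X z := by
  unfold ker
  have ha := ker_alpha hS
  have ha0 := hS.α0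
  have hwz := hw.w1 z
  split_ifs with h
  · have h1 : (0 : ℝ) ≤ ∑ y ∈ Av D.B X, w y :=
      sum_nonneg fun y _ => zero_le_one.trans (hw.w1 y)
    have h2 : (0 : ℝ) ≤ (1 - D.α) * w z := mul_nonneg (by linarith) (by linarith)
    have h3 : (0 : ℝ) ≤ D.α / #(Av D.B X) := div_nonneg ha0.le (Nat.cast_nonneg _)
    have h4 : (0 : ℝ) ≤ (1 - D.α) * w z / ∑ y ∈ Av D.B X, w y := div_nonneg h2 h1
    linarith
  · exact le_rfl

theorem ker_off (X : Finset (Fin n)) (z : Fin n) (h : z ∉ Av D.B X) : ker D w X z = 0 := by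
  unfold ker
  rw [if_neg h]

theorem ker_card_pos (hS : StdX D k d) (X : Finset (Fin n)) (hX : #X ≤ k) :
    (0 : ℝ) < #(Av D.B X) := by
  refine lt_of_lt_of_le ?_ (Av_card' hS X hX)
  have hn : (1 : ℝ) ≤ n := by exact_mod_cast hS.n1
  positivity

theorem ker_sum (hS : StdX D k d) (hw : Wt w Λ) (X : Finset (Fin n)) (hX : #X ≤ k) :
    ∑ z, ker D w X z = 1 := by
  have hc := ker_card_pos hS X hX
  have hW : (0 : ℝ) < ∑ y ∈ Av D.B X, w y := lt_of_lt_of_le hc (ker_W_pos hw X)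
  have h1 : ∑ z, ker D w X z = ∑ z ∈ Av D.B X,
      ((1 - D.α) * w z / (∑ y ∈ Av D.B X, w y) + D.α / #(Av D.B X)) := by
    unfold ker
    rw [← sum_filter, filter_mem_eq_inter, univ_inter]
  rw [h1, sum_add_distrib, sum_const, nsmul_eq_mul, ← sum_div, ← mul_sum,
    mul_div_assoc, div_self hW.ne', mul_div_cancel₀ _ hc.ne']
  ring

theorem ker_le_card (hS : StdX D k d) (hw : Wt w Λ) (X : Finset (Fin n)) (hX : #X ≤ k)
    (z : Fin n) : ker D w X z ≤ Λ / #(Av D.B X) := by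
  have hc := ker_card_pos hS X hX
  have hW : (0 : ℝ) < ∑ y ∈ Av D.B X, w y := lt_of_lt_of_le hc (ker_W_pos hw X)
  have ha := ker_alpha hS
  have ha0 := hS.α0
  have hΛ : 1 ≤ Λ := (hw.w1 z).trans (hw.w2 z)
  unfold ker
  split_ifs with h
  · have h1 : (1 - D.α) * w z / (∑ y ∈ Av D.B X, w y) ≤ (1 - D.α) * Λ / #(Av D.B X) := by
      have h2 : (1 - D.α) * w z ≤ (1 - D.α) * Λ :=
        mul_le_mul_of_nonneg_left (hw.w2 z) (by linarith)
      have h3 : 0 ≤ (1 - D.α) * Λ := mul_nonneg (by linarith) (by linarith)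
      exact div_le_div₀ h3 h2 hc (ker_W_pos hw X)
    have h4 : D.α / #(Av D.B X) ≤ D.α * Λ / #(Av D.B X) :=
      div_le_div_of_nonneg_right (by nlinarith) hc.le
    calc (1 - D.α) * w z / (∑ y ∈ Av D.B X, w y) + D.α / #(Av D.B X)
        ≤ (1 - D.α) * Λ / #(Av D.B X) + D.α * Λ / #(Av D.B X) := add_le_add h1 h4
      _ = Λ / #(Av D.B X) := by rw [← add_div]; congr 1; ring
  · exact div_nonneg (by linarith) hc.le

/-- `∑_{Av} w ≥ #Av ≥ n/(2(k+1))`, `w z ≤ Λ`, `1 ≤ Λ` -/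
theorem ker_le (hS : StdX D k d) (hw : Wt w Λ) (X : Finset (Fin n)) (hX : #X ≤ k) (z : Fin n) :
    ker D w X z ≤ 2 * Λ * (k + 1) / n := by
  have hΛ : 1 ≤ Λ := (hw.w1 z).trans (hw.w2 z)
  have hn : (0 : ℝ) < n := by exact_mod_cast hS.n1
  have hk : (0 : ℝ) < 2 * ((k : ℝ) + 1) := by positivity
  have hnk : (0 : ℝ) < (n : ℝ) / (2 * (k + 1)) := div_pos hn hk
  calc ker D w X z ≤ Λ / #(Av D.B X) := ker_le_card hS hw X hX z
    _ ≤ Λ / ((n : ℝ) / (2 * (k + 1))) :=
        div_le_div_of_nonneg_left (by linarith) hnk (Av_card' hS X hX)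
    _ = 2 * Λ * (k + 1) / n := by rw [div_div_eq_mul_div]; ring

theorem ker_ge (hS : StdX D k d) (hw : Wt w Λ) (X Y : Finset (Fin n)) (hX : #X ≤ k)
    (hY : Y ⊆ Av D.B X) : D.α * #Y / n ≤ ∑ z ∈ Y, ker D w X z := by
  have hc := ker_card_pos hS X hX
  have hn : (0 : ℝ) < n := by exact_mod_cast hS.n1
  have ha := ker_alpha hS
  have ha0 := hS.α0
  have hcn : (#(Av D.B X) : ℝ) ≤ n := by
    have := card_le_univ (Av D.B X)
    rw [Fintype.card_fin] at this
    exact_mod_cast this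
  have h1 : ∀ z ∈ Y, D.α / n ≤ ker D w X z := by
    intro z hz
    unfold ker
    rw [if_pos (hY hz)]
    have h2 : D.α / n ≤ D.α / #(Av D.B X) := div_le_div_of_nonneg_left ha0.le hc hcn
    have h3 : (0 : ℝ) ≤ (1 - D.α) * w z / ∑ y ∈ Av D.B X, w y :=
      div_nonneg (mul_nonneg (by linarith) (zero_le_one.trans (hw.w1 z)))
        (sum_nonneg fun y _ => zero_le_one.trans (hw.w1 y))
    linarith
  calc D.α * #Y / n = ∑ _z ∈ Y, D.α / n := by
        rw [sum_const, nsmul_eq_mul]; ring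
    _ ≤ _ := sum_le_sum h1

theorem isProb_idl (hS : StdX D k d) (hw : Wt w Λ) (s : ℕ) (φ : Cf n) :
    IsProb (idl D w s φ) := by
  constructor
  · intro u o
    unfold idl
    split_ifs with h
    · cases o with
      | none => exact le_rfl
      | some z => exact ker_nonneg hS hw _ _
    · cases o with
      | none => exact zero_le_one
      | some z => exact le_rfl
  · intro u
    rw [Fintype.sum_option]
    unfold idl
    split_ifs with h
    · change (0 : ℝ) + ∑ z, ker D w (Xs D φ u) z = 1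
      rw [ker_sum hS hw _ (Xs_card' hS φ u), zero_add]
    · change (1 : ℝ) + ∑ _z : Fin n, (0 : ℝ) = 1
      simp

/-- the kernel of `u` depends only on the positions of the earlier neighbours -/
theorem Xs_congr (φ φ' : Cf n) (u : Fin n) (h : ∀ p ∈ Ea D u, φ p = φ' p) :
    Xs D φ u = Xs D φ' u := by
  unfold Xs
  refine filter_congr fun x _ => ?_
  constructor
  · rintro ⟨p, hp, hpx⟩
    exact ⟨p, hp, (h p hp) ▸ hpx⟩
  · rintro ⟨p, hp, hpx⟩
    exact ⟨p, hp, (h p hp).trans hpx⟩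

/-- a round `s ≥ r u` does not change the earlier neighbours of `u` -/
theorem Xs_upd (φ ω : Cf n) (u : Fin n) (s : ℕ) (h : D.r u ≤ s) :
    Xs D (upd D s φ ω) u = Xs D φ u := by
  apply Xs_congr
  intro p hp
  obtain ⟨-, -, h2⟩ := mem_filter.mp hp
  unfold upd
  rw [if_neg (by omega)]

end Pool.Agent.Helper14.BECX
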