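import Pool.Agent.Helper14.BECX.Mass
/-! Project BECX, piece Law: the law of the position of one vertex in the ideal process. -/
set_option autoImplicit false
namespace Pool.Agent.Helper14.BECX
open Finset Pool.Agent.Helper61.LE Pool.Agent.Helper5.BEC Pool.Agent.Helper5.BEC.C

variable {n k : ℕ} {D : Dat n} {w : Fin n → ℝ} {d Λ : ℝ}

/-- induction on `i` -/
theorem Psi_add (i j s : ℕ) (g : Cf n → ℝ) (φ : Cf n) :
    Psi D w (i + j) s g φ = Psi D w i s (Psi D w j (s + i) g) φ := by
  induction i generalizing s φ with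
  | zero =>
    show Psi D w (0 + j) s g φ = Psi D w j (s + 0) g φ
    rw [Nat.zero_add, Nat.add_zero]
  | succ i ih =>
    have e1 : i + 1 + j = (i + j) + 1 := by omega
    have e2 : s + (i + 1) = s + 1 + i := by omega
    rw [e1, e2]
    show EE (idl D w (s + 1) φ) (fun ω => Psi D w (i + j) (s + 1) g (upd D (s + 1) φ ω)) =
      EE (idl D w (s + 1) φ) (fun ω => Psi D w i (s + 1) (Psi D w j (s + 1 + i) g)
        (upd D (s + 1) φ ω))
    exact EE_congr fun ω => ih (s + 1) _

/-- the outer rounds see only the values of the inner function -/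
private theorem Psi_congr_in {g g' : Cf n → ℝ} (h : ∀ φ, g φ = g' φ) (j s : ℕ) (φ : Cf n) :
    Psi D w j s g φ = Psi D w j s g' φ := by
  rw [funext h]

/-- expectation of a function of one coordinate -/
private theorem EE_coord {ι Ω : Type*} [Fintype ι] [DecidableEq ι] [Fintype Ω] [DecidableEq Ω]
    {μ : ι → Ω → ℝ} (h : IsProb μ) (i : ι) (f : Ω → ℝ) :
    EE μ (fun ω => f (ω i)) = ∑ a, μ i a * f a := by
  rw [← EE_resample h i (fun ω => f (ω i))]
  simp only [Function.update_self]
  exact EE_const h _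

/-- the kernel of `u` depends on labels below `r u` only -/
private theorem dep_ker (S : Finset (Fin n)) (u : Fin n) (s : ℕ) (hs : D.r u ≤ s + 1) :
    Dep (fun φ : Cf n => ∑ z ∈ S, ker D w (Xs D φ u) z) (univ.filter fun u => D.r u ≤ s) := by
  intro φ φ' hφ
  show ∑ z ∈ S, ker D w (Xs D φ u) z = ∑ z ∈ S, ker D w (Xs D φ' u) z
  rw [Xs_congr φ φ' u fun p hp => hφ p (mem_filter.2 ⟨mem_univ p, by
    have := (mem_filter.1 hp).2.2
    omega⟩)]

/-- splitting the rounds at the round of `u` -/
private theorem Psi_split (hS : StdX D k d) (u : Fin n) (hu : 1 ≤ D.r u) :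
    ∃ s j : ℕ, D.r u = s + 1 ∧ ∀ (g : Cf n → ℝ) (φ : Cf n), Psi D w D.T 0 g φ =
      Psi D w s 0 (Psi D w (j + 1) s g) φ := by
  have hT := hS.rT u
  refine ⟨D.r u - 1, D.T - D.r u, by omega, fun g φ => ?_⟩
  have e1 : D.T = (D.r u - 1) + (D.T - D.r u + 1) := by omega
  have e2 : Psi D w D.T 0 g φ = Psi D w ((D.r u - 1) + (D.T - D.r u + 1)) 0 g φ := by
    rw [← e1]
  rw [e2, Psi_add, Nat.zero_add]

/-- The position of `u` is drawn in round `r u` from the kernel: if `r u = s + 1`, then
`Psi T 0 = Psi s 0 ∘ Kop (s+1) ∘ Psi (T-s-1) (s+1)` (`Psi_add`); the inner `Psi` does nothing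
(`Psi_triv`, the function depends on `φ u` only), `Kop (s+1) g φ = idl D w (s+1) φ u (some x) =
ker D w (Xs D φ u) x` (`EE` of a function of one coordinate); in the same way (`Psi_triv`, `Xs` depends
on labels `≤ s` only, `Kop` does not change it) `mS D w {x} u = Psi s 0 (fun φ => ker D w (Xs D φ u) x)`. -/
theorem Psi_law (hS : StdX D k d) (hw : Wt w Λ) (u : Fin n) (hu : 1 ≤ D.r u) (x : Fin n) :
    Psi D w D.T 0 (fun φ => if φ u = some x then 1 else 0) (φ0 n) = mS D w {x} u := by
  obtain ⟨s, j, hs, hspl⟩ := Psi_split (w := w) hS u hu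
  unfold mS
  rw [hspl, hspl]
  refine Psi_congr_in (fun φ => ?_) s 0 (φ0 n)
  rw [Psi_triv hS hw (j + 1) s (dep_ker {x} u s hs.le) φ]
  show EE (idl D w (s + 1) φ) (fun ω => Psi D w j (s + 1)
    (fun φ => if φ u = some x then 1 else 0) (upd D (s + 1) φ ω)) =
      ∑ z ∈ {x}, ker D w (Xs D φ u) z
  have h1 : ∀ ω : Cf n, Psi D w j (s + 1) (fun φ : Cf n => if φ u = some x then (1 : ℝ) else 0)
      (upd D (s + 1) φ ω) = (fun o : Option (Fin n) => if o = some x then (1 : ℝ) else 0)
        (ω u) := by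
    intro ω
    rw [Psi_triv hS hw j (s + 1)]
    · show (if upd D (s + 1) φ ω u = some x then (1 : ℝ) else 0) = if ω u = some x then 1 else 0
      unfold upd
      rw [if_pos hs]
    · intro a b hab
      show (if a u = some x then (1 : ℝ) else 0) = if b u = some x then (1 : ℝ) else 0
      rw [hab u (mem_filter.2 ⟨mem_univ u, hs.le⟩)]
  rw [EE_congr h1, EE_coord (isProb_idl hS hw (s + 1) φ) u
    (fun o : Option (Fin n) => if o = some x then (1 : ℝ) else 0), Fintype.sum_option,
    sum_singleton]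
  have h2 : idl D w (s + 1) φ u (some x) = ker D w (Xs D φ u) x := by
    unfold idl
    rw [if_pos hs]
  have h3 : ∑ z : Fin n, idl D w (s + 1) φ u (some z) *
      (if (some z : Option (Fin n)) = some x then (1 : ℝ) else 0) =
      ∑ z : Fin n, if z = x then idl D w (s + 1) φ u (some z) else 0 := by
    refine sum_congr rfl fun z _ => ?_
    by_cases hz : z = x
    · rw [if_pos hz, if_pos (by rw [hz]), mul_one]
    · rw [if_neg hz, if_neg (fun h => hz (Option.some_injective _ h)), mul_zero]
  rw [h3, sum_ite_eq' univ x (fun z => idl D w (s + 1) φ u (some z)), if_pos (mem_univ x), h2,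
    if_neg (by simp), mul_zero, zero_add]

/-- if `u` is already placed, it stays placed -/
private theorem Psi_placed (hS : StdX D k d) (hw : Wt w Λ) (u : Fin n) (g : Cf n → ℝ)
    (h0 : ∀ φ, φ u ≠ none → g φ = 0) (j s : ℕ) (hs : D.r u ≤ s) (φ : Cf n) (hφ : φ u ≠ none) :
    Psi D w j s g φ = 0 := by
  induction j generalizing s φ with
  | zero => exact h0 φ hφ
  | succ j ih =>
    show EE (idl D w (s + 1) φ) (fun ω => Psi D w j (s + 1) g (upd D (s + 1) φ ω)) = 0
    have h1 : ∀ ω, Psi D w j (s + 1) g (upd D (s + 1) φ ω) = 0 := by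
      intro ω
      refine ih (s + 1) (by omega) _ ?_
      unfold upd
      rw [if_neg (by omega)]
      exact hφ
    rw [EE_congr h1, EE_const (isProb_idl hS hw (s + 1) φ)]

/-- `u` is always placed -/
theorem Psi_some (hS : StdX D k d) (hw : Wt w Λ) (u : Fin n) (hu : 1 ≤ D.r u)
    (g : Cf n → ℝ) (hg : ∀ φ, 0 ≤ g φ) (h0 : ∀ φ, φ u ≠ none → g φ = 0) :
    Psi D w D.T 0 g (φ0 n) = 0 := by
  obtain ⟨s, j, hs, hspl⟩ := Psi_split (w := w) hS u hu
  rw [hspl]
  have h1 : ∀ φ : Cf n, Psi D w (j + 1) s g φ = (fun _ : Cf n => (0 : ℝ)) φ := by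
    intro φ
    show EE (idl D w (s + 1) φ) (fun ω => Psi D w j (s + 1) g (upd D (s + 1) φ ω)) = 0
    rw [← EE_resample (isProb_idl hS hw (s + 1) φ) u
      (fun ω => Psi D w j (s + 1) g (upd D (s + 1) φ ω))]
    have h2 : ∀ ω : Cf n, ∑ a, idl D w (s + 1) φ u a *
        Psi D w j (s + 1) g (upd D (s + 1) φ (Function.update ω u a)) = 0 := by
      intro ω
      refine sum_eq_zero fun a _ => ?_
      cases a with
      | none =>
        have h3 : idl D w (s + 1) φ u none = 0 := by
          unfold idl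
          rw [if_pos hs]
        rw [h3, zero_mul]
      | some z =>
        rw [Psi_placed hS hw u g h0 j (s + 1) hs.le, mul_zero]
        unfold upd
        rw [if_pos hs, Function.update_self]
        simp
    rw [EE_congr h2, EE_const (isProb_idl hS hw (s + 1) φ)]
  rw [Psi_congr_in h1, Psi_const hS hw]

/-- A vertex with exactly one earlier neighbour `u`: `Xs D φ v = {x}` if `φ u = some x`; condition on
the position of `u` (`Psi_law`, `Psi_sum`, `Psi_smul`, `Psi_mono`; `φ u = none` does not occur: only the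
inequality is needed, so bound the mass from below by
`∑ x, (if φ u = some x then ∑ z ∈ S, ker D w {x} z else 0)`). -/
theorem mS_one (hS : StdX D k d) (hw : Wt w Λ) (v u : Fin n) (h : Ea D v = {u})
    (S : Finset (Fin n)) :
    ∑ x, mS D w {x} u * ∑ z ∈ S, ker D w {x} z ≤ mS D w S v := by
  have hu : 1 ≤ D.r u := by
    have h1 : u ∈ Ea D v := by
      rw [h]
      exact mem_singleton_self u
    exact (mem_filter.1 h1).2.1
  have h2 : ∑ x, mS D w {x} u * ∑ z ∈ S, ker D w {x} z =
      Psi D w D.T 0 (fun φ => ∑ x, (∑ z ∈ S, ker D w {x} z) *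
        (if φ u = some x then 1 else 0)) (φ0 n) := by
    rw [Psi_sum univ (fun x φ => (∑ z ∈ S, ker D w {x} z) *
      (if φ u = some x then 1 else 0)) D.T 0 (φ0 n)]
    refine sum_congr rfl fun x _ => ?_
    rw [Psi_smul, Psi_law hS hw u hu x, mul_comm]
  rw [h2]
  unfold mS
  refine Psi_mono hS hw (fun φ => ?_) D.T 0 (φ0 n)
  cases hφ : φ u with
  | none =>
    have h3 : ∑ x : Fin n, (∑ z ∈ S, ker D w {x} z) *
        (if (none : Option (Fin n)) = some x then (1 : ℝ) else 0) = 0 := by
      refine sum_eq_zero fun x _ => ?_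
      rw [if_neg (by simp), mul_zero]
    rw [h3]
    exact sum_nonneg fun z _ => ker_nonneg hS hw _ z
  | some y =>
    have h3 : Xs D φ v = {y} := by
      ext x
      unfold Xs
      rw [mem_filter, h, mem_singleton]
      constructor
      · rintro ⟨-, p, hp, hpx⟩
        rw [mem_singleton.1 hp, hφ] at hpx
        exact (Option.some_injective _ hpx).symm
      · rintro rfl
        exact ⟨mem_univ _, u, mem_singleton_self u, hφ⟩
    rw [h3]
    have h4 : ∑ x : Fin n, (∑ z ∈ S, ker D w {x} z) *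
        (if (some y : Option (Fin n)) = some x then (1 : ℝ) else 0) =
        ∑ x : Fin n, if y = x then ∑ z ∈ S, ker D w {x} z else 0 := by
      refine sum_congr rfl fun x _ => ?_
      by_cases hx : y = x
      · rw [if_pos hx, if_pos (by rw [hx]), mul_one]
      · rw [if_neg hx, if_neg (fun h => hx (Option.some_injective _ h)), mul_zero]
    rw [h4, sum_ite_eq univ y (fun x => ∑ z ∈ S, ker D w {x} z), if_pos (mem_univ y)]

/-- additivity in the set -/
theorem mS_sum (u : Fin n) (S : Finset (Fin n)) : ∑ x ∈ S, mS D w {x} u = mS D w S u := by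
  unfold mS
  rw [Psi_sum S (fun z φ => ker D w (Xs D φ u) z) D.T 0 (φ0 n)]
  refine sum_congr rfl fun x _ => ?_
  exact Psi_congr_in (fun φ => sum_singleton _ _) D.T 0 (φ0 n)

end Pool.Agent.Helper14.BECX
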