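import Pool.Agent.Helper14.BECX.Defs
/-! Project BECX, piece Leak: a level with small leak. -/
set_option autoImplicit false
namespace Pool.Agent.Helper14.BECX
open Finset

variable {n : ℕ}

lemma leak_geo {x : ℝ} (hx : 0 ≤ x) (N : ℕ) :
    (x < N → ∑ m ∈ Icc 1 N, (if x < (m : ℝ) then Real.exp (x - m) else 0) ≤
      2 - Real.exp (x - N)) ∧
    ((N : ℝ) ≤ x → ∑ m ∈ Icc 1 N, (if x < (m : ℝ) then Real.exp (x - m) else 0) = 0) := by
  induction N with
  | zero =>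
    refine ⟨fun h => ?_, fun _ => by simp⟩
    rw [Nat.cast_zero] at h
    exact absurd h (not_lt.2 hx)
  | succ N ih =>
    rw [Finset.sum_Icc_succ_top (by omega)]
    have hc : ((N + 1 : ℕ) : ℝ) = (N : ℝ) + 1 := by push_cast; ring
    rw [hc]
    refine ⟨fun h => ?_, fun h => ?_⟩
    · rw [if_pos h]
      rcases lt_or_ge x N with h1 | h1
      · have h2 := ih.1 h1
        have h3 : Real.exp (x - N) = Real.exp 1 * Real.exp (x - (N + 1)) := by
          rw [← Real.exp_add]; congr 1; ring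
        have h4 : (2 : ℝ) ≤ Real.exp 1 := by
          have := Real.add_one_le_exp (1 : ℝ)
          linarith
        have h5 : 0 < Real.exp (x - (N + 1)) := Real.exp_pos _
        nlinarith
      · rw [ih.2 h1]
        have h5 : Real.exp (x - (N + 1)) ≤ 1 := Real.exp_le_one_iff.2 (by linarith)
        linarith
    · rw [if_neg (not_lt.2 h), ih.2 (by linarith), add_zero]

/-- `∑_{θ=1}^{N} RX x θ ≤ ∑_z (1/n) ∑_{θ > x_z} e^{x_z-θ} ≤ 1/(1-1/e) ≤ 2`; so some integer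
`1 ≤ θ ≤ N` has `RX x θ ≤ 2/N`. -/
theorem exists_leak (hn : 1 ≤ n) (x : Fin n → ℝ) (hx : ∀ z, 0 ≤ x z) (N : ℕ) (hN : 1 ≤ N) :
    ∃ m : ℕ, 1 ≤ m ∧ m ≤ N ∧ RX x m ≤ 2 / N := by
  by_contra hcon
  push Not at hcon
  have hNp : (0 : ℝ) < N := by exact_mod_cast hN
  have hnp : (0 : ℝ) < n := by exact_mod_cast hn
  have h1 : ∑ m ∈ Icc 1 N, (2 / (N : ℝ)) < ∑ m ∈ Icc 1 N, RX x (m : ℝ) := by
    refine Finset.sum_lt_sum_of_nonempty ⟨1, Finset.mem_Icc.2 ⟨le_refl _, hN⟩⟩ ?_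
    intro m hm
    obtain ⟨ha, hb⟩ := Finset.mem_Icc.1 hm
    exact hcon m ha hb
  rw [Finset.sum_const, Nat.card_Icc, nsmul_eq_mul, Nat.add_sub_cancel,
    mul_div_cancel₀ _ hNp.ne'] at h1
  have h2 : ∑ m ∈ Icc 1 N, RX x (m : ℝ) =
      1 / n * ∑ z, ∑ m ∈ Icc 1 N, (if x z < (m : ℝ) then Real.exp (x z - m) else 0) := by
    rw [Finset.sum_comm, Finset.mul_sum]
    refine Finset.sum_congr rfl fun m _ => ?_
    rw [RX, Finset.sum_filter]
  have h3 : ∑ z, ∑ m ∈ Icc 1 N, (if x z < (m : ℝ) then Real.exp (x z - m) else 0) ≤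
      ∑ _z : Fin n, (2 : ℝ) := by
    refine Finset.sum_le_sum fun z _ => ?_
    rcases lt_or_ge (x z) N with h | h
    · have := (leak_geo (hx z) N).1 h
      have h5 : 0 < Real.exp (x z - N) := Real.exp_pos _
      linarith
    · rw [(leak_geo (hx z) N).2 h]
      norm_num
  rw [Finset.sum_const, Finset.card_univ, Fintype.card_fin, nsmul_eq_mul] at h3
  have h4 : ∑ m ∈ Icc 1 N, RX x (m : ℝ) ≤ 2 := by
    rw [h2]
    calc 1 / (n : ℝ) * ∑ z, ∑ m ∈ Icc 1 N, (if x z < (m : ℝ) then Real.exp (x z - m) else 0)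
        ≤ 1 / (n : ℝ) * (n * 2) := mul_le_mul_of_nonneg_left h3 (by positivity)
      _ = 2 := by field_simp
  linarith

end Pool.Agent.Helper14.BECX
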