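import Pool.Agent.Helper14.BECX.Gain1a
/-! Project BECX, piece LevS: level sets with small leak are not small. -/
set_option autoImplicit false
namespace Pool.Agent.Helper14.BECX
open Finset Pool.Agent.Helper61.LE Pool.Agent.Helper5.BEC Pool.Agent.Helper5.BEC.C

variable {n k : ℕ} {D : Dat n} {d γ c e τ η : ℝ} {x : Fin n → ℝ} {θ : ℝ}

/-- smallness of `e` -/
theorem lev_e_small (h : LevH D k d γ c e τ η x θ) : 1000 * ((k : ℝ) + 1) ^ 3 * e ≤ 1 := by
  have h1 := h.he
  have h2 : c ^ 2 ≤ 1 := by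
    have := h.c0
    have := h.c1
    nlinarith
  linarith

/-- a position of positive exponent has weight at most `(k+2) W / n` -/
theorem lev_weight (h : LevH D k d γ c e τ η x θ) (z : Fin n) (hz : 0 < x z) :
    wx x z * n ≤ (k + 2) * ∑ y, wx x y := by
  classical
  have hS := h.hS
  have hw := Wt_wx x h.hx
  have hn : (0 : ℝ) < n := by exact_mod_cast hS.n1
  have hk : (0 : ℝ) ≤ k := Nat.cast_nonneg k
  have he := lev_e_small h
  have he0 := h.e0
  have hα := h.hα
  have hα0 := hS.α0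
  have hη := h.hη
  have hη0 := h.η0
  have hτ0 : 0 < τ := lt_of_lt_of_le (by norm_num) h.hτ
  set W := ∑ y, wx x y with hW
  have hwz : 0 < wx x z := Real.exp_pos _
  have hW0 : 0 < W := sum_pos (fun y _ => Real.exp_pos _) ⟨z, mem_univ z⟩
  -- the kernel without conditions
  have hAv : Av D.B (∅ : Finset (Fin n)) = univ := by
    unfold Av
    simp
  have hker : (1 - D.α) * wx x z / W ≤ ker D (wx x) ∅ z := by
    unfold ker
    rw [hAv, if_pos (mem_univ z)]
    have : (0 : ℝ) ≤ D.α / #(univ : Finset (Fin n)) := div_nonneg hα0.le (Nat.cast_nonneg _)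
    linarith
  -- lower bound for `P z`
  set F := univ.filter fun v => 1 ≤ D.r v ∧ #(Ea D v) ≤ 0 with hF
  have hcnt : τ * (1 / (k + 1) - η) * n ≤ #F := by
    have h0 := h.hL.cnt 0 (Nat.zero_le k)
    rw [Nat.cast_zero, zero_add] at h0
    exact h0
  have hP1 : (#F : ℝ) * ((1 - D.α) * wx x z / W) ≤ P D (wx x) z := by
    have h1 := P_setX (D := D) (w := wx x) hS {z}
    rw [sum_singleton] at h1
    rw [h1]
    calc (#F : ℝ) * ((1 - D.α) * wx x z / W) = ∑ _v ∈ F, ((1 - D.α) * wx x z / W) := by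
          rw [sum_const, nsmul_eq_mul]
      _ ≤ ∑ v ∈ F, mS D (wx x) {z} v := by
          refine sum_le_sum fun v hv => ?_
          have hv' := (mem_filter.mp hv).2
          have hE : Ea D v = ∅ := card_eq_zero.mp (Nat.le_zero.mp hv'.2)
          rw [mS_first hS hw {z} v hE, sum_singleton]
          exact hker
      _ ≤ ∑ v ∈ univ.filter (fun v => 1 ≤ D.r v), mS D (wx x) {z} v := by
          refine sum_le_sum_of_subset_of_nonneg ?_ fun v _ _ => mS_nonneg hS hw _ v
          intro v hv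
          exact mem_filter.mpr ⟨mem_univ v, (mem_filter.mp hv).2.1⟩
  have hPz := h.hPx z hz
  -- arithmetic
  have hα1 : D.α ≤ 1 / 8 := hS.α1
  have hg : 1 / ((k : ℝ) + 2) ≤ (1 / (k + 1) - η) * (1 - D.α) := by
    have hk1 : (0 : ℝ) < (k : ℝ) + 1 := by linarith
    have hk2 : (0 : ℝ) < (k : ℝ) + 2 := by linarith
    have hinv : 1 / ((k : ℝ) + 1) ≤ 1 := by
      rw [div_le_one hk1]
      linarith
    have hinv0 : 0 < 1 / ((k : ℝ) + 1) := by positivity
    have h1 : 1 / ((k : ℝ) + 1) - η - D.α ≤ (1 / (k + 1) - η) * (1 - D.α) := by nlinarith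
    have h2 : e ≤ 1 / (1000 * ((k : ℝ) + 1) ^ 3) := by
      rw [le_div_iff₀ (by positivity)]
      linarith
    have h3 : 1 / ((k : ℝ) + 2) + 1 / (1000 * ((k : ℝ) + 1) ^ 3) ≤ 1 / ((k : ℝ) + 1) := by
      rw [div_add_div _ _ hk2.ne' (by positivity), div_le_div_iff₀ (by positivity) hk1]
      nlinarith [pow_pos hk1 2, pow_pos hk1 3, pow_pos hk1 4, mul_nonneg hk (pow_pos hk1 3).le]
    linarith
  have hprod : τ * ((1 / (k + 1) - η) * (1 - D.α)) * (wx x z * n / W) ≤ τ := by
    calc τ * ((1 / (k + 1) - η) * (1 - D.α)) * (wx x z * n / W)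
        = τ * (1 / (k + 1) - η) * n * ((1 - D.α) * wx x z / W) := by ring
      _ ≤ #F * ((1 - D.α) * wx x z / W) := by
          apply mul_le_mul_of_nonneg_right hcnt
          exact div_nonneg (mul_nonneg (by linarith) hwz.le) hW0.le
      _ ≤ P D (wx x) z := hP1
      _ ≤ τ := hPz
  have hq : 0 ≤ wx x z * n / W := by positivity
  have h5 : 1 / ((k : ℝ) + 2) * (wx x z * n / W) ≤ 1 := by
    have h6 : ((1 / (k + 1) - η) * (1 - D.α)) * (wx x z * n / W) ≤ 1 := by
      have : τ * (((1 / (k + 1) - η) * (1 - D.α)) * (wx x z * n / W)) ≤ τ * 1 := by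
        rw [mul_one]
        linarith
      exact le_of_mul_le_mul_left this hτ0
    exact (mul_le_mul_of_nonneg_right hg hq).trans h6
  have hk2 : (0 : ℝ) < (k : ℝ) + 2 := by linarith
  have h7 : wx x z * n / W ≤ k + 2 := by
    have := mul_le_mul_of_nonneg_left h5 hk2.le
    have h8 : ((k : ℝ) + 2) * (1 / (k + 2) * (wx x z * n / W)) = wx x z * n / W := by
      field_simp
    linarith
  rwa [div_le_iff₀ hW0] at h7

/-- Level sets with small leak are not small. First vertices (`VJ D 0`, at least `τ(1/(k+1)-η) n`) choose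
`z` with probability `≥ (1-α) w z/W`, `W = ∑ w`; `P z ≤ τ` for `x z > 0` gives
`w z ≤ (k+2) W/n` (`(1/(k+1)-η)(1-α) ≥ 1/(k+2)`). Take `z ∈ S`: `e^θ ≤ w z ≤ (k+2) W/n`. The weights outside `S`
sum up to `e^θ n R ≤ (k+2) R W ≤ W/2`; so the weights in `S` sum up to `≥ W/2`, each is
`≤ (k+2) W/n`: `#S ≥ n/(2(k+2))`. -/
theorem lev_start (h : LevH D k d γ c e τ η x θ) (hne : (SX x θ).Nonempty) :
    n / (2 * ((k : ℝ) + 2)) ≤ #(SX x θ) := by
  classical
  have hS := h.hS
  have hn : (0 : ℝ) < n := by exact_mod_cast hS.n1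
  have hk : (0 : ℝ) ≤ k := Nat.cast_nonneg k
  have hk2 : (0 : ℝ) < (k : ℝ) + 2 := by linarith
  have he := lev_e_small h
  have he0 := h.e0
  have hθ := h.θ0
  set W := ∑ y, wx x y with hW
  obtain ⟨z0, hz0⟩ := hne
  have hW0 : 0 < W := sum_pos (fun y _ => Real.exp_pos _) ⟨z0, mem_univ z0⟩
  have hmem : ∀ z ∈ SX x θ, θ ≤ x z := fun z hz => (mem_filter.mp hz).2
  have hwz : ∀ z ∈ SX x θ, wx x z * n ≤ (k + 2) * W := fun z hz =>
    lev_weight h z (lt_of_lt_of_le hθ (hmem z hz))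
  have hR0 : 0 ≤ RX x θ := RX_nonneg x θ
  have heθ : Real.exp θ * n ≤ (k + 2) * W := by
    refine le_trans ?_ (hwz z0 hz0)
    apply mul_le_mul_of_nonneg_right _ hn.le
    exact Real.exp_le_exp.mpr (hmem z0 hz0)
  -- weights outside
  have hout : ∑ z ∈ univ.filter (fun z => ¬ θ ≤ x z), wx x z = Real.exp θ * n * RX x θ := by
    have h1 : (univ.filter fun z => ¬ θ ≤ x z) = univ.filter fun z => x z < θ := by
      ext z
      simp [not_le]
    rw [h1]
    unfold RX
    have h2 : ∑ z ∈ univ.filter (fun z => x z < θ), wx x z =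
        Real.exp θ * ∑ z ∈ univ.filter (fun z => x z < θ), Real.exp (x z - θ) := by
      rw [mul_sum]
      apply sum_congr rfl
      intro y _
      unfold wx
      rw [← Real.exp_add]
      congr 1
      ring
    rw [h2]
    field_simp
  have hsplit : ∑ z ∈ SX x θ, wx x z + ∑ z ∈ univ.filter (fun z => ¬ θ ≤ x z), wx x z = W := by
    rw [hW]
    exact sum_filter_add_sum_filter_not univ (fun z => θ ≤ x z) _
  have hRs : (k + 2) * RX x θ ≤ 1 / 2 := by
    have h1 := h.hR
    have hk1 : (1 : ℝ) ≤ (k : ℝ) + 1 := by linarith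
    have h2 : (1 : ℝ) ≤ ((k : ℝ) + 1) ^ 2 := one_le_pow₀ hk1
    have h3 : ((k : ℝ) + 1) ≤ ((k : ℝ) + 1) ^ 3 := by nlinarith
    have h4 : 1000 * ((k : ℝ) + 1) * e ≤ 1 := by
      refine le_trans ?_ he
      apply mul_le_mul_of_nonneg_right _ he0.le
      linarith
    have h5 : e ≤ 1 := by nlinarith
    have h6 : e ^ 2 ≤ e := by nlinarith
    nlinarith
  have hout2 : ∑ z ∈ univ.filter (fun z => ¬ θ ≤ x z), wx x z ≤ W / 2 := by
    rw [hout]
    calc Real.exp θ * n * RX x θ ≤ (k + 2) * W * RX x θ :=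
          mul_le_mul_of_nonneg_right heθ hR0
      _ = ((k + 2) * RX x θ) * W := by ring
      _ ≤ 1 / 2 * W := mul_le_mul_of_nonneg_right hRs hW0.le
      _ = W / 2 := by ring
  have hin : W / 2 ≤ ∑ z ∈ SX x θ, wx x z := by linarith
  have hin2 : (∑ z ∈ SX x θ, wx x z) * n ≤ #(SX x θ) * ((k + 2) * W) := by
    rw [sum_mul]
    calc ∑ z ∈ SX x θ, wx x z * n ≤ ∑ _z ∈ SX x θ, ((k + 2) * W) := sum_le_sum hwz
      _ = #(SX x θ) * ((k + 2) * W) := by rw [sum_const, nsmul_eq_mul]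
  have h8 : W * n ≤ W * (#(SX x θ) * (2 * (k + 2))) := by
    have := mul_le_mul_of_nonneg_right hin hn.le
    nlinarith
  have h9 : (n : ℝ) ≤ #(SX x θ) * (2 * (k + 2)) := le_of_mul_le_mul_left h8 hW0
  rw [div_le_iff₀ (by positivity)]
  exact h9

end Pool.Agent.Helper14.BECX
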