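import Pool.Agent.Helper14.BECX.Gain1a
/-! Project BECX, piece LevT: the load of a very large level set. -/
set_option autoImplicit false
namespace Pool.Agent.Helper14.BECX
open Finset Pool.Agent.Helper61.LE Pool.Agent.Helper5.BEC Pool.Agent.Helper5.BEC.C

variable {n k : ℕ} {D : Dat n} {d γ c e τ η : ℝ} {x : Fin n → ℝ} {θ : ℝ}

/-- If `#S > k d + (e/5) n`, all labelled vertices go to `S` with probability
`≥ (1-α)(1-R/ρ) + α(1 - 2(k+1)(1-#S/n))` (`massX`, second bound, `room`). With `P(S) ≤ τ #S` and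
`#{r ≥ 1} ≥ τ(1-η) n` (`Lab.cnt` for `j = k`): `τ #S - P(S) ≤ n (η + R/ρ)`. (Put `b = 1-#S/n`:
`P(S) ≥ τ(1-η) n (1 - R/ρ - 2(k+1)αb)`, `P(S) ≤ τ n (1-b)`, `2(k+1)α ≤ 1/2`.) -/
theorem lev_top (h : LevH D k d γ c e τ η x θ) (hα2 : 4 * (k + 1) * D.α ≤ 1)
    (hS : (k : ℝ) * d + e / 5 * n < #(SX x θ)) :
    ∑ z ∈ SX x θ, (τ - P D (wx x) z) ≤ n * (η + RX x θ / (e / 5)) := by
  have hStd := h.hS
  have hw := Wt_wx x h.hx
  have he0 := h.e0
  have hk0 : (0 : ℝ) ≤ k := Nat.cast_nonneg _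
  have hn : (0 : ℝ) < n := by exact_mod_cast hStd.n1
  have hα0 := hStd.α0
  have hα1 := hStd.α1
  have hτ0 : 0 ≤ τ := by linarith [h.hτ]
  have hτ1 := h.hτ1
  have hη0 := h.η0
  have he1 : e ≤ 1 := by
    have h1 := h.he
    have h2 : c ^ 2 ≤ 1 := by nlinarith [h.c0, h.c1]
    have h3 : 1 ≤ ((k : ℝ) + 1) ^ 3 := one_le_pow₀ (by linarith)
    nlinarith
  have hη1 : η ≤ 1 / 5 := by linarith [h.hη]
  set S := SX x θ with hSdef
  set R' := RX x θ / (e / 5) with hR'
  have hR0 : 0 ≤ R' := div_nonneg (RX_nonneg x θ) (by positivity)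
  have hR1 : R' ≤ 1 / 5 := by
    have h1 : R' ≤ e / 5 := by
      rw [hR', div_le_iff₀ (by positivity)]
      nlinarith [h.hR]
    linarith
  set b := 1 - (#S : ℝ) / n with hb
  have hsn : (#S : ℝ) ≤ n := by
    have := card_le_univ S
    rw [Fintype.card_fin] at this
    exact_mod_cast this
  have hb0 : 0 ≤ b := by
    have : (#S : ℝ) / n ≤ 1 := by rwa [div_le_one hn]
    linarith
  have hb1 : b ≤ 1 := by
    have : (0 : ℝ) ≤ (#S : ℝ) / n := by positivity
    linarith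
  have hsb : (#S : ℝ) = n * (1 - b) := by
    rw [hb]
    field_simp
    ring
  -- every vertex goes to S with large probability
  have hq : ∀ v, 1 - R' - b / 2 ≤ mS D (wx x) S v := by
    intro v
    apply mS_ge hStd hw
    intro φ
    have hXc := Xs_card' hStd φ v
    have hroom : e / 5 * n ≤ #(Av D.B (Xs D φ v) ∩ SX x θ) := by
      refine le_trans ?_ (room hStd _ _)
      have h1 : (#(Xs D φ v) : ℝ) ≤ k := by exact_mod_cast hXc
      have h2 : (#(Xs D φ v) : ℝ) * d ≤ k * d := mul_le_mul_of_nonneg_right h1 hStd.d0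
      linarith
    have hm := (massX hStd x h.hx θ (Xs D φ v) hXc (e / 5) (by positivity) hroom).2
    refine le_trans ?_ hm
    rw [← hSdef, ← hR', ← hb]
    have h1 : D.α * (2 * (k + 1) * b) ≤ b / 2 := by nlinarith
    nlinarith
  -- the number of labelled vertices
  set V := univ.filter fun v : Fin n => 1 ≤ D.r v with hV
  have hVc : τ * (1 - η) * n ≤ #V := by
    have h1 := h.hL.cnt k le_rfl
    have hk1 : ((k : ℝ) + 1) / (k + 1) = 1 := div_self (by positivity)
    rw [hk1] at h1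
    refine h1.trans ?_
    have h2 : (univ.filter fun v : Fin n => 1 ≤ D.r v ∧ #(Ea D v) ≤ k) ⊆ V := by
      intro v hv
      rw [mem_filter] at hv
      rw [hV, mem_filter]
      exact ⟨hv.1, hv.2.1⟩
    exact_mod_cast card_le_card h2
  have hQ0 : 0 ≤ 1 - R' - b / 2 := by linarith
  have hP : τ * (1 - η) * n * (1 - R' - b / 2) ≤ ∑ z ∈ S, P D (wx x) z := by
    rw [P_setX hStd]
    calc τ * (1 - η) * n * (1 - R' - b / 2) ≤ #V * (1 - R' - b / 2) :=
          mul_le_mul_of_nonneg_right hVc hQ0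
      _ = ∑ _v ∈ V, (1 - R' - b / 2) := by rw [sum_const, nsmul_eq_mul]
      _ ≤ ∑ v ∈ V, mS D (wx x) S v := sum_le_sum fun v _ => hq v
  have hsum : ∑ z ∈ S, (τ - P D (wx x) z) = τ * #S - ∑ z ∈ S, P D (wx x) z := by
    rw [sum_sub_distrib, sum_const, nsmul_eq_mul]
    ring
  rw [hsum, hsb]
  have hfin : τ * (n * (1 - b)) - τ * (1 - η) * n * (1 - R' - b / 2) ≤ n * (η + R') := by
    have h1 : τ * (n * (1 - b)) - τ * (1 - η) * n * (1 - R' - b / 2) =
        τ * n * (η * (1 - R' - b / 2) + R' - b / 2) := by ring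
    rw [h1]
    have h2 : η * (1 - R' - b / 2) + R' - b / 2 ≤ η + R' := by nlinarith
    have h3 : 0 ≤ η + R' := by linarith
    calc τ * n * (η * (1 - R' - b / 2) + R' - b / 2) ≤ τ * n * (η + R') :=
          mul_le_mul_of_nonneg_left h2 (by positivity)
      _ ≤ 1 * n * (η + R') := by gcongr
      _ = n * (η + R') := by ring
  linarith

end Pool.Agent.Helper14.BECX
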