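import Pool.Agent.Helper14.BECX.LevS
import Pool.Agent.Helper14.BECX.Gain1
import Pool.Agent.Helper14.BECX.Gain2
/-! Project BECX, piece LevX: level sets with small leak are large. -/
set_option autoImplicit false
namespace Pool.Agent.Helper14.BECX
open Finset Pool.Agent.Helper61.LE Pool.Agent.Helper5.BEC Pool.Agent.Helper5.BEC.C

variable {n k : ℕ} {D : Dat n} {d γ c e τ η : ℝ} {x : Fin n → ℝ} {θ : ℝ}

/-- `e` is small: with `K = k + 1`, `1000 K³ e ≤ c`, `e ≤ 1/(1000 K²)` -/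
theorem lx_small (h : LevH D k d γ c e τ η x θ) :
    1000 * ((k : ℝ) + 1) ^ 3 * e ≤ c ∧ 1000 * ((k : ℝ) + 1) ^ 2 * e ≤ c ∧
      1000 * ((k : ℝ) + 1) * e ≤ c ∧ 1000 * e ≤ c := by
  have hK : (1 : ℝ) ≤ (k : ℝ) + 1 := by
    have : (0 : ℝ) ≤ (k : ℝ) := Nat.cast_nonneg k
    linarith
  have he0 := h.e0
  have h0 : 1000 * ((k : ℝ) + 1) ^ 3 * e ≤ c := by
    have h1 : c ^ 2 ≤ c := by nlinarith [h.c0, h.c1]
    exact h.he.trans h1
  have hK2 : (1 : ℝ) ≤ ((k : ℝ) + 1) ^ 2 := one_le_pow₀ hK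
  have h2 : 1000 * ((k : ℝ) + 1) ^ 2 * e ≤ 1000 * ((k : ℝ) + 1) ^ 3 * e := by
    have : ((k : ℝ) + 1) ^ 2 ≤ ((k : ℝ) + 1) ^ 3 := pow_le_pow_right₀ hK (by norm_num)
    nlinarith
  have h3 : 1000 * ((k : ℝ) + 1) * e ≤ 1000 * ((k : ℝ) + 1) ^ 2 * e := by
    have : ((k : ℝ) + 1) ≤ ((k : ℝ) + 1) ^ 2 := by nlinarith
    nlinarith
  have h4 : 1000 * e ≤ 1000 * ((k : ℝ) + 1) * e := by nlinarith
  exact ⟨h0, h2.trans h0, (h3.trans h2).trans h0, ((h4.trans h3).trans h2).trans h0⟩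

/-- lower bound of the load of the vertices with less than `s` earlier neighbours -/
theorem lx_first (h : LevH D k d γ c e τ η x θ) (q : ℝ) (hq : 1 - 2 * e / 5 ≤ q) (s : ℕ)
    (hs : 1 ≤ s) (hsk : s ≤ k) :
    τ * ((s : ℝ) / (k + 1) - 3 * e / 5) * n ≤ q * #(VJ D (s - 1)) := by
  have hc := h.hL.cnt (s - 1) (by omega)
  have hn : (0 : ℝ) < n := by exact_mod_cast h.hS.n1
  have hK : (0 : ℝ) < (k : ℝ) + 1 := by positivity
  have hcast : ((s - 1 : ℕ) : ℝ) + 1 = s := by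
    rw [Nat.cast_sub hs]; push_cast; ring
  rw [hcast] at hc
  have he0 := h.e0
  obtain ⟨_, _, _, hsm⟩ := lx_small h
  have he1 : e ≤ 1 / 1000 := by linarith [h.c1]
  have hτ : 0 < τ := by linarith [h.hτ]
  have hsK : (s : ℝ) / (k + 1) ≤ 1 := by
    rw [div_le_one hK]
    have : (s : ℝ) ≤ k := by exact_mod_cast hsk
    linarith
  have hs0 : 0 ≤ (s : ℝ) / (k + 1) := by positivity
  have hVJ : (VJ D (s - 1)) = univ.filter fun v => 1 ≤ D.r v ∧ #(Ea D v) ≤ s - 1 := rfl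
  rw [hVJ]
  have hcard : (0 : ℝ) ≤ #(univ.filter fun v => 1 ≤ D.r v ∧ #(Ea D v) ≤ s - 1) := by positivity
  have hq0 : 0 ≤ 1 - 2 * e / 5 := by linarith
  have hη := h.hη
  have hη0 := h.η0
  have h1 : (1 - 2 * e / 5) * (τ * ((s : ℝ) / (k + 1) - η) * n) ≤
      q * #(univ.filter fun v => 1 ≤ D.r v ∧ #(Ea D v) ≤ s - 1) := by
    calc (1 - 2 * e / 5) * (τ * ((s : ℝ) / (k + 1) - η) * n)
        ≤ (1 - 2 * e / 5) * #(univ.filter fun v => 1 ≤ D.r v ∧ #(Ea D v) ≤ s - 1) :=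
          mul_le_mul_of_nonneg_left hc hq0
      _ ≤ _ := mul_le_mul_of_nonneg_right hq hcard
  refine le_trans ?_ h1
  have h2 : (s : ℝ) / (k + 1) - 3 * e / 5 ≤ (1 - 2 * e / 5) * ((s : ℝ) / (k + 1) - η) := by
    have h3 : 2 * e / 5 * ((s : ℝ) / (k + 1)) ≤ 2 * e / 5 := by
      have : 0 ≤ 2 * e / 5 := by linarith
      nlinarith only [he0, hsK]
    have h4 : 0 ≤ 2 * e / 5 * η := by positivity
    nlinarith only [hη, h3, h4]
  have h5 : τ * n * ((s : ℝ) / (k + 1) - 3 * e / 5) ≤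
      τ * n * ((1 - 2 * e / 5) * ((s : ℝ) / (k + 1) - η)) :=
    mul_le_mul_of_nonneg_left h2 (by positivity)
  calc τ * ((s : ℝ) / (k + 1) - 3 * e / 5) * n = τ * n * ((s : ℝ) / (k + 1) - 3 * e / 5) := by ring
    _ ≤ τ * n * ((1 - 2 * e / 5) * ((s : ℝ) / (k + 1) - η)) := h5
    _ = (1 - 2 * e / 5) * (τ * ((s : ℝ) / (k + 1) - η) * n) := by ring

/-- the load of the level set is at most `τ` times its size -/
theorem lx_load (h : LevH D k d γ c e τ η x θ) :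
    ∑ z ∈ SX x θ, P D (wx x) z ≤ τ * #(SX x θ) := by
  calc ∑ z ∈ SX x θ, P D (wx x) z ≤ ∑ _z ∈ SX x θ, τ := by
        apply sum_le_sum
        intro z hz
        apply h.hPx
        have : θ ≤ x z := (mem_filter.mp hz).2
        linarith [h.θ0]
    _ = τ * #(SX x θ) := by rw [sum_const, nsmul_eq_mul]; ring

/-- Suppose `#S ≤ k d + (e/5) n`. Let `s` be the least natural number with `#S ≤ s d + (e/5) n`; `1 ≤ s ≤ k`
by `lev_start` (`e/5 < 1/(2(k+2))`). `s = 1`: `gain1`. `s ≥ 2`: `(s-1) d + (e/5) n < #S`, so with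
`q = (1-α)(1-R/ρ) ≥ 1 - 2e/5` (`q_ge`) the vertices of `VJ D (s-1)` have `mS S ≥ q` (`mS_level`), at least
`τ(s/(k+1)-η) n` vertices; and `P(S) ≤ τ #S`. If `#S ≤ s d - d/(4(k+1))`: contradiction, since
`1/(4(k+1)²) > e`. Otherwise the vertices of `Ptwo D s` (disjoint from `VJ D (s-1)`, at least `c n`) have
`mS ≥ q/(4(k+1))` (`gain2`, `ρ = e/5`, `R ≤ ρ`), and `c q/(4(k+1)) > e` is a contradiction (`P_ge`). -/
theorem levelX (h : LevH D k d γ c e τ η x θ) (hne : (SX x θ).Nonempty) :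
    (k : ℝ) * d + e / 5 * n < #(SX x θ) := by
  classical
  by_contra hcon
  push Not at hcon
  obtain ⟨hs3, hs2, hs1, hs0⟩ := lx_small h
  have hn : (0 : ℝ) < n := by exact_mod_cast h.hS.n1
  have hk0 : (0 : ℝ) ≤ k := Nat.cast_nonneg k
  have hK : (0 : ℝ) < (k : ℝ) + 1 := by positivity
  have he0 := h.e0
  have hc0 := h.c0
  have hc1 := h.c1
  have hγ0 := h.γ0
  have hγ := h.hγ
  have hτ0 : 0 < τ := by linarith [h.hτ]
  have hτ1 := h.hτ1
  have hd : d = (1 + γ) * n / (k + 1) := by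
    rw [eq_div_iff hK.ne', ← h.hd]; ring
  have hdn : n / ((k : ℝ) + 1) ≤ d := by
    rw [hd]
    apply div_le_div_of_nonneg_right _ hK.le
    nlinarith only [hγ0]
  have hd0 : 0 < d := lt_of_lt_of_le (by positivity) hdn
  set S := SX x θ with hSdef
  set q := (1 - D.α) * (1 - RX x θ / (e / 5)) with hqdef
  have hq : 1 - 2 * e / 5 ≤ q := q_ge h
  have hρ : 0 < e / 5 := by linarith
  -- the least `s`
  have hex : ∃ s : ℕ, (#S : ℝ) ≤ s * d + e / 5 * n := ⟨k, hcon⟩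
  obtain ⟨s, hs, hmin⟩ : ∃ s : ℕ, (#S : ℝ) ≤ s * d + e / 5 * n ∧
      ∀ t : ℕ, t < s → ¬ (#S : ℝ) ≤ t * d + e / 5 * n :=
    ⟨Nat.find hex, Nat.find_spec hex, fun t ht => Nat.find_min hex ht⟩
  have hsk : s ≤ k := by
    by_contra h1
    exact hmin k (by omega) hcon
  have hstart : n / (2 * ((k : ℝ) + 2)) ≤ #S := lev_start h hne
  have hse : e / 5 * n < n / (2 * ((k : ℝ) + 2)) := by
    rw [lt_div_iff₀ (by positivity)]
    have h1 : e / 5 * (2 * ((k : ℝ) + 2)) < 1 := by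
      nlinarith only [hs1, hs0, he0, hc1]
    nlinarith only [hn, hs2, hs1, hc1]
  have hspos : 1 ≤ s := by
    by_contra h1
    have h2 : s = 0 := by omega
    rw [h2, Nat.cast_zero, zero_mul, zero_add] at hs
    linarith
  rcases Nat.lt_or_ge s 2 with hs2' | hs2'
  · have h2 : s = 1 := by omega
    rw [h2, Nat.cast_one, one_mul] at hs
    exact gain1 h (by linarith) hs
  have hlow : ((s - 1 : ℕ) : ℝ) * d + e / 5 * n < #S := by
    have := hmin (s - 1) (by omega)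
    exact not_le.mp this
  have hVJ : ∀ v ∈ VJ D (s - 1), q ≤ mS D (wx x) S v := by
    intro v hv
    have hv' : 1 ≤ D.r v ∧ #(Ea D v) ≤ s - 1 := (mem_filter.mp hv).2
    exact mS_level h.hS x h.hx θ (e / 5) hρ (s - 1) hlow.le v hv'.2
  have hVJr : ∀ v ∈ VJ D (s - 1), 1 ≤ D.r v := fun v hv => (mem_filter.mp hv).2.1
  have hsum1 : q * #(VJ D (s - 1)) ≤ ∑ v ∈ VJ D (s - 1), mS D (wx x) S v := by
    calc q * #(VJ D (s - 1)) = ∑ _v ∈ VJ D (s - 1), q := by rw [sum_const, nsmul_eq_mul]; ring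
      _ ≤ _ := sum_le_sum hVJ
  have hfirst := lx_first h q hq s hspos hsk
  have hload := lx_load h
  rw [← hSdef] at hload
  have hsK : (s : ℝ) / (k + 1) ≤ 1 := by
    rw [div_le_one hK]
    have : (s : ℝ) ≤ k := by exact_mod_cast hsk
    linarith
  have hsd : (s : ℝ) * d ≤ ((s : ℝ) / (k + 1) + e / 5) * n := by
    have h1 : (s : ℝ) * d = (s : ℝ) / (k + 1) * n + γ * ((s : ℝ) / (k + 1)) * n := by
      rw [hd]; field_simp
    have h2 : γ * ((s : ℝ) / (k + 1)) ≤ e / 5 := by nlinarith only [hγ, hs0, he0, hc1, hγ0, hsK]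
    rw [h1, add_mul]
    have h3 := mul_le_mul_of_nonneg_right h2 hn.le
    linarith
  rcases le_or_gt (#S : ℝ) (s * d - d / (4 * (k + 1))) with hA | hB
  · -- level set too small
    have hP := P_ge h.hS (Wt_wx x h.hx) S (VJ D (s - 1)) ∅ (disjoint_empty_right _) hVJr
      (fun v hv => absurd hv (notMem_empty v))
    rw [sum_empty, add_zero] at hP
    have h1 : τ * ((s : ℝ) / (k + 1) - 3 * e / 5) * n ≤ τ * (s * d - d / (4 * (k + 1))) := by
      have h2 : τ * (#S : ℝ) ≤ τ * (s * d - d / (4 * (k + 1))) :=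
        mul_le_mul_of_nonneg_left hA hτ0.le
      linarith
    have h3 : ((s : ℝ) / (k + 1) - 3 * e / 5) * n ≤ s * d - d / (4 * (k + 1)) := by
      rw [mul_assoc] at h1
      exact le_of_mul_le_mul_left h1 hτ0
    have h4 : n / ((k : ℝ) + 1) / (4 * (k + 1)) ≤ d / (4 * (k + 1)) :=
      div_le_div_of_nonneg_right hdn (by positivity)
    have h5 : n / ((k : ℝ) + 1) / (4 * (k + 1)) ≤ 4 * e / 5 * n := by nlinarith only [hsd, h3, h4]
    have h6 : (1 : ℝ) / (k + 1) / (4 * (k + 1)) ≤ 4 * e / 5 := by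
      have h7 : n / ((k : ℝ) + 1) / (4 * (k + 1)) = (1 : ℝ) / (k + 1) / (4 * (k + 1)) * n := by
        field_simp
      rw [h7] at h5
      exact le_of_mul_le_mul_right h5 hn
    rw [div_div, div_le_iff₀ (by positivity)] at h6
    nlinarith only [hs2, hs0, he0, hc1, h6]
  · -- gain from `Ptwo`
    have hPt : ∀ v ∈ Ptwo D s, 1 / (4 * ((k : ℝ) + 1)) * q ≤ mS D (wx x) S v := by
      intro v hv
      refine gain2 h.hS x h.hx θ (e / 5) s hs2' hsk hd0 hB.le ?_ hρ ?_ ?_ v hv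
      · have h1 : (s : ℝ) * d ≤ k * d :=
          mul_le_mul_of_nonneg_right (by exact_mod_cast hsk) hd0.le
        have h2 : e / 5 * n ≤ d := by
          refine le_trans ?_ hdn
          rw [le_div_iff₀ hK]
          have : e / 5 * (k + 1) ≤ 1 := by nlinarith only [hs1, hs0, he0, hc1]
          nlinarith only [hn, hs2, hc1]
        have h3 : (#S : ℝ) ≤ s * d + e / 5 * n := hs
        calc (#S : ℝ) ≤ s * d + e / 5 * n := h3
          _ ≤ k * d + d := add_le_add h1 h2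
          _ = (k + 1) * d := by ring
      · rw [le_div_iff₀ (by positivity)]
        refine le_trans ?_ hdn
        rw [le_div_iff₀ hK]
        have : e / 5 * (4 * (k + 1)) * (k + 1) ≤ 1 := by nlinarith only [hs2, hs0, he0, hc1]
        nlinarith only [hn, hs3, hc1]
      · have hR := h.hR
        nlinarith only [he0, hR, hs1, hc1]
    have hPr : ∀ v ∈ Ptwo D s, 1 ≤ D.r v := fun v hv => (mem_filter.mp hv).2.1
    have hdis : Disjoint (VJ D (s - 1)) (Ptwo D s) := by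
      rw [disjoint_left]
      intro v hv hv'
      have h1 : #(Ea D v) ≤ s - 1 := (mem_filter.mp hv).2.2
      have h2 : #(Ea D v) = s := (mem_filter.mp hv').2.2.1
      omega
    have hP := P_ge h.hS (Wt_wx x h.hx) S (VJ D (s - 1)) (Ptwo D s) hdis hVJr hPr
    have hq0 : 1 / 2 ≤ q := by linarith
    have hsum2 : 1 / (4 * ((k : ℝ) + 1)) * q * (c * n) ≤
        ∑ v ∈ Ptwo D s, mS D (wx x) S v := by
      have h0 : 0 ≤ 1 / (4 * ((k : ℝ) + 1)) * q := by positivity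
      calc 1 / (4 * ((k : ℝ) + 1)) * q * (c * n) ≤ 1 / (4 * ((k : ℝ) + 1)) * q * #(Ptwo D s) :=
            mul_le_mul_of_nonneg_left (h.hP.two s hs2' hsk) h0
        _ = ∑ _v ∈ Ptwo D s, 1 / (4 * ((k : ℝ) + 1)) * q := by
            rw [sum_const, nsmul_eq_mul]; ring
        _ ≤ _ := sum_le_sum hPt
    have h1 : τ * (#S : ℝ) ≤ τ * (((s : ℝ) / (k + 1) + 2 * e / 5) * n) := by
      apply mul_le_mul_of_nonneg_left _ hτ0.le
      linarith
    have h2 : 1 / (4 * ((k : ℝ) + 1)) * q * (c * n) ≤ τ * e * n := by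
      nlinarith only [hsum1, hfirst, hload, hP, hsum2, h1]
    have h3 : 1 / (4 * ((k : ℝ) + 1)) * q * c ≤ τ * e := by
      have h4 : 1 / (4 * ((k : ℝ) + 1)) * q * c * n ≤ τ * e * n := by
        calc 1 / (4 * ((k : ℝ) + 1)) * q * c * n = 1 / (4 * ((k : ℝ) + 1)) * q * (c * n) := by ring
          _ ≤ _ := h2
      exact le_of_mul_le_mul_right h4 hn
    have h5 : τ * e ≤ e := by nlinarith only [he0, hτ1]
    have h6 : q * c ≤ e * (4 * (k + 1)) := by
      have h7 : 1 / (4 * ((k : ℝ) + 1)) * q * c = q * c / (4 * (k + 1)) := by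
        field_simp
      rw [h7] at h3
      have h8 := h3.trans h5
      rwa [div_le_iff₀ (by positivity)] at h8
    have h9 : 1 / 2 * c ≤ q * c := mul_le_mul_of_nonneg_right hq0 hc0.le
    nlinarith only [hs1, hs0, he0, h6, h9]

end Pool.Agent.Helper14.BECX
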