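import Pool.Agent.Helper14.BECX.Prod
/-! Project BECX, piece Mass: kernel mass of a level set; the probabilities `mS`. -/
set_option autoImplicit false
namespace Pool.Agent.Helper14.BECX
open Finset Pool.Agent.Helper61.LE Pool.Agent.Helper5.BEC Pool.Agent.Helper5.BEC.C

variable {n k : ℕ} {D : Dat n} {w : Fin n → ℝ} {d Λ : ℝ}

theorem Wt_wx (x : Fin n → ℝ) (hx : ∀ z, 0 ≤ x z) : Wt (wx x) (∑ y, Real.exp (x y)) := by
  constructor
  · intro z
    exact Real.one_le_exp (hx z)
  · intro z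
    exact single_le_sum (f := fun y => Real.exp (x y)) (fun y _ => (Real.exp_pos _).le)
      (mem_univ z)

theorem RX_nonneg (x : Fin n → ℝ) (θ : ℝ) : 0 ≤ RX x θ := by
  unfold RX
  have h1 : 0 ≤ ∑ z ∈ univ.filter (fun z => x z < θ), Real.exp (x z - θ) :=
    sum_nonneg fun z _ => (Real.exp_pos _).le
  positivity

/-- the room in `S` left by the positions `X` -/
theorem room (hS : StdX D k d) (X S : Finset (Fin n)) :
    (#S : ℝ) - #X * d ≤ #(Av D.B X ∩ S) := by
  classical
  have h1 : S ⊆ (Av D.B X ∩ S) ∪ X.biUnion D.B.N := by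
    intro z hz
    rw [mem_union, mem_biUnion, mem_inter]
    by_cases h : ∃ x ∈ X, z ∈ D.B.N x
    · exact Or.inr h
    · left
      push Not at h
      exact ⟨mem_filter.mpr ⟨mem_univ _, h⟩, hz⟩
  have h2 : (#S : ℝ) ≤ #(Av D.B X ∩ S) + #(X.biUnion D.B.N) := by
    exact_mod_cast (card_le_card h1).trans (card_union_le _ _)
  have h4 : (#(X.biUnion D.B.N) : ℝ) ≤ #X * d := by
    calc (#(X.biUnion D.B.N) : ℝ) ≤ ((∑ x ∈ X, #(D.B.N x) : ℕ) : ℝ) := by
          exact_mod_cast card_biUnion_le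
      _ = ∑ x ∈ X, (#(D.B.N x) : ℝ) := by push_cast; rfl
      _ ≤ ∑ _x ∈ X, d := sum_le_sum fun x _ => hS.dB x
      _ = #X * d := by rw [sum_const, nsmul_eq_mul]
  linarith

/-- Kernel mass of the level set `S`, if at least `ρ n` of its positions are available: the weights
on `S` are `≥ e^θ`, those outside sum up to `e^θ n R`. Second bound: with the uniform part. -/
theorem massX (hS : StdX D k d) (x : Fin n → ℝ) (hx : ∀ z, 0 ≤ x z) (θ : ℝ)
    (X : Finset (Fin n)) (hX : #X ≤ k) (ρ : ℝ) (hρ : 0 < ρ)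
    (hroom : ρ * n ≤ #(Av D.B X ∩ SX x θ)) :
    (1 - D.α) * (1 - RX x θ / ρ) ≤ ∑ z ∈ SX x θ, ker D (wx x) X z ∧
    (1 - D.α) * (1 - RX x θ / ρ) + D.α * (1 - 2 * (k + 1) * (1 - #(SX x θ) / n)) ≤
      ∑ z ∈ SX x θ, ker D (wx x) X z := by
  set S := SX x θ with hSdef
  set A := Av D.B X with hA
  set R := RX x θ with hR
  have hn : (0 : ℝ) < n := by exact_mod_cast hS.n1
  have hα0 := hS.α0
  have hα1 : D.α ≤ 1 := by linarith [hS.α1]
  have hR0 : 0 ≤ R := RX_nonneg x θ
  have hAc' := Av_card' hS X hX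
  rw [← hA] at hAc'
  have hAcomp : #(A \ S) + #S ≤ n := by
    have h1 : Disjoint (A \ S) S := disjoint_sdiff_self_left
    rw [← card_union_of_disjoint h1]
    exact (card_le_univ _).trans (by rw [Fintype.card_fin])
  have hAsplit : #(A \ S) + #(A ∩ S) = #A := card_sdiff_add_card_inter A S
  have hAcompR : (#(A \ S) : ℝ) + #S ≤ n := by exact_mod_cast hAcomp
  have hAsplitR : (#(A \ S) : ℝ) + #(A ∩ S) = #A := by exact_mod_cast hAsplit
  have hmpos : (0 : ℝ) < #(A ∩ S) := lt_of_lt_of_le (by positivity) hroom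
  have hApos : (0 : ℝ) < #A := by
    have : (0 : ℝ) ≤ #(A \ S) := by positivity
    linarith
  -- weights
  set a := ∑ y ∈ A ∩ S, Real.exp (x y) with ha
  set b := ∑ y ∈ A \ S, Real.exp (x y) with hb
  have hsumA : ∑ y ∈ A, wx x y = a + b := by
    rw [ha, hb, ← sum_inter_add_sum_sdiff A S]
    rfl
  have hage : ρ * n * Real.exp θ ≤ a := by
    calc ρ * n * Real.exp θ ≤ #(A ∩ S) * Real.exp θ :=
          mul_le_mul_of_nonneg_right hroom (Real.exp_pos _).le
      _ = ∑ _y ∈ A ∩ S, Real.exp θ := by rw [sum_const, nsmul_eq_mul]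
      _ ≤ a := by
          rw [ha]
          apply sum_le_sum
          intro y hy
          have : y ∈ S := (mem_inter.mp hy).2
          rw [hSdef] at this
          unfold SX at this
          exact Real.exp_le_exp.mpr (mem_filter.mp this).2
  have hble : b ≤ Real.exp θ * n * R := by
    have h1 : b ≤ ∑ y ∈ univ.filter (fun z => x z < θ), Real.exp (x y) := by
      rw [hb]
      apply sum_le_sum_of_subset_of_nonneg
      · intro y hy
        have h2 := (mem_sdiff.mp hy).2
        rw [mem_filter]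
        refine ⟨mem_univ _, ?_⟩
        by_contra h3
        apply h2
        rw [hSdef]
        unfold SX
        rw [mem_filter]
        exact ⟨mem_univ _, not_lt.mp h3⟩
      · intro y _ _
        exact (Real.exp_pos _).le
    have h2 : ∑ y ∈ univ.filter (fun z => x z < θ), Real.exp (x y) =
        Real.exp θ * ∑ y ∈ univ.filter (fun z => x z < θ), Real.exp (x y - θ) := by
      rw [mul_sum]
      apply sum_congr rfl
      intro y _
      rw [← Real.exp_add]
      congr 1
      ring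
    rw [h2] at h1
    refine h1.trans (le_of_eq ?_)
    rw [hR]
    unfold RX
    field_simp
  have hb0 : 0 ≤ b := by
    rw [hb]
    exact sum_nonneg fun y _ => (Real.exp_pos _).le
  have hE : 0 < Real.exp θ := Real.exp_pos _
  have ha0 : 0 < a := lt_of_lt_of_le (by positivity) hage
  have hfrac : 1 - R / ρ ≤ a / (a + b) := by
    rw [le_div_iff₀ (by positivity)]
    have h1 : b ≤ R / ρ * a := by
      calc b ≤ Real.exp θ * n * R := hble
        _ = R / ρ * (ρ * n * Real.exp θ) := by field_simp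
        _ ≤ R / ρ * a := mul_le_mul_of_nonneg_left hage (by positivity)
    have h2 : 0 ≤ R / ρ * b := by positivity
    nlinarith
  have hker : ∑ z ∈ S, ker D (wx x) X z =
      (1 - D.α) * (a / (a + b)) + D.α * (#(A ∩ S) / #A) := by
    have h1 : ∑ z ∈ S, ker D (wx x) X z =
        ∑ z ∈ A ∩ S, ((1 - D.α) * Real.exp (x z) / (a + b) + D.α / #A) := by
      rw [inter_comm, ← filter_mem_eq_inter, sum_filter]
      apply sum_congr rfl
      intro z _
      unfold ker
      rw [← hA, hsumA]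
      rfl
    rw [h1, sum_add_distrib, sum_const, nsmul_eq_mul, ← sum_div, ← mul_sum, ← ha]
    ring
  have h1α : 0 ≤ 1 - D.α := by linarith
  have hmain : (1 - D.α) * (1 - R / ρ) ≤ (1 - D.α) * (a / (a + b)) :=
    mul_le_mul_of_nonneg_left hfrac h1α
  rw [hker]
  constructor
  · have : 0 ≤ D.α * (#(A ∩ S) / #A : ℝ) := by positivity
    linarith
  · have h2 : 1 - 2 * ((k : ℝ) + 1) * (1 - #S / n) ≤ (#(A ∩ S) / #A : ℝ) := by
      rw [le_div_iff₀ hApos]
      have hk : (0 : ℝ) < 2 * ((k : ℝ) + 1) := by positivity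
      have h3 : (n : ℝ) ≤ #A * (2 * (k + 1)) := by
        rwa [div_le_iff₀ hk] at hAc'
      have h4 : (0 : ℝ) ≤ n - #S := by
        have : (0 : ℝ) ≤ #(A \ S) := by positivity
        linarith
      have h5 : (n - #S : ℝ) ≤ (2 * ((k : ℝ) + 1)) * (1 - #S / n) * #A := by
        have h6 : (1 - #S / n : ℝ) = (n - #S) / n := by
          field_simp
        rw [h6]
        calc (n - #S : ℝ) = (n - #S) / n * n := by field_simp
          _ ≤ (n - #S) / n * (#A * (2 * (k + 1))) := mul_le_mul_of_nonneg_left h3 (by positivity)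
          _ = 2 * ((k : ℝ) + 1) * ((n - #S) / n) * #A := by ring
      nlinarith
    have h3 : D.α * (1 - 2 * ((k : ℝ) + 1) * (1 - #S / n)) ≤ D.α * (#(A ∩ S) / #A : ℝ) :=
      mul_le_mul_of_nonneg_left h2 hα0.le
    linarith

theorem mS_ge (hS : StdX D k d) (hw : Wt w Λ) (S : Finset (Fin n)) (v : Fin n) (q : ℝ)
    (h : ∀ φ, q ≤ ∑ z ∈ S, ker D w (Xs D φ v) z) : q ≤ mS D w S v := by
  have h1 := Psi_mono hS hw (g := fun _ => q)
    (g' := fun φ => ∑ z ∈ S, ker D w (Xs D φ v) z) h D.T 0 (φ0 n)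
  rw [Psi_const hS hw] at h1
  exact h1

theorem mS_nonneg (hS : StdX D k d) (hw : Wt w Λ) (S : Finset (Fin n)) (v : Fin n) :
    0 ≤ mS D w S v :=
  mS_ge hS hw S v 0 fun _ => sum_nonneg fun z _ => ker_nonneg hS hw _ z

theorem mS_mono (hS : StdX D k d) (hw : Wt w Λ) {S S' : Finset (Fin n)} (h : S ⊆ S')
    (v : Fin n) : mS D w S v ≤ mS D w S' v :=
  Psi_mono hS hw (fun _ => sum_le_sum_of_subset_of_nonneg h fun z _ _ => ker_nonneg hS hw _ z)
    D.T 0 (φ0 n)

theorem mS_univ (hS : StdX D k d) (hw : Wt w Λ) (v : Fin n) : mS D w univ v = 1 := by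
  unfold mS
  have h2 : (fun φ : Cf n => ∑ z, ker D w (Xs D φ v) z) = fun _ => (1 : ℝ) := by
    funext φ
    exact ker_sum hS hw _ (Xs_card' hS φ v)
  rw [h2, Psi_const hS hw]

theorem mS_le_one (hS : StdX D k d) (hw : Wt w Λ) (S : Finset (Fin n)) (v : Fin n) :
    mS D w S v ≤ 1 :=
  (mS_mono hS hw (subset_univ S) v).trans (mS_univ hS hw v).le

theorem mS_union (S S' : Finset (Fin n)) (h : Disjoint S S') (v : Fin n) :
    mS D w (S ∪ S') v = mS D w S v + mS D w S' v := by
  classical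
  have h1 := Psi_sum (D := D) (w := w) (univ : Finset Bool)
    (fun b φ => ∑ z ∈ (if b then S else S'), ker D w (Xs D φ v) z) D.T 0 (φ0 n)
  rw [Fintype.sum_bool] at h1
  unfold mS
  have h2 : (fun φ : Cf n => ∑ z ∈ S ∪ S', ker D w (Xs D φ v) z) =
      fun φ => ∑ b : Bool, ∑ z ∈ (if b then S else S'), ker D w (Xs D φ v) z := by
    funext φ
    rw [Fintype.sum_bool, sum_union h]
    simp
  rw [h2, h1]
  simp

/-- a vertex without earlier neighbours -/
theorem mS_first (hS : StdX D k d) (hw : Wt w Λ) (S : Finset (Fin n)) (v : Fin n)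
    (hv : Ea D v = ∅) : mS D w S v = ∑ z ∈ S, ker D w ∅ z := by
  have h1 : (fun φ : Cf n => ∑ z ∈ S, ker D w (Xs D φ v) z) = fun _ => ∑ z ∈ S, ker D w ∅ z := by
    funext φ
    have : Xs D φ v = ∅ := by
      unfold Xs
      rw [hv]
      simp
    rw [this]
  unfold mS
  rw [h1, Psi_const hS hw]

/-- the total load of a set of positions -/
theorem P_setX (hS : StdX D k d) (S : Finset (Fin n)) :
    ∑ z ∈ S, P D w z = ∑ v ∈ univ.filter (fun v => 1 ≤ D.r v), mS D w S v := by
  classical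
  rw [P_set]
  have h1 : (univ.filter fun v : Fin n => 1 ≤ D.r v) =
      (Icc 1 D.T).biUnion fun s => univ.filter fun v => D.r v = s := by
    ext v
    simp only [mem_filter, mem_univ, true_and, mem_biUnion, mem_Icc]
    constructor
    · intro h
      exact ⟨D.r v, ⟨h, hS.rT v⟩, rfl⟩
    · rintro ⟨s, hs, rfl⟩
      exact hs.1
  rw [h1, sum_biUnion]
  · rfl
  · intro s _ t _ hst
    rw [Function.onFun, disjoint_left]
    intro v hv hv'
    rw [mem_filter] at hv hv'
    exact hst (hv.2.symm.trans hv'.2)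

/-- lower bound for the load of `S` by disjoint families of vertices -/
theorem P_ge (hS : StdX D k d) (hw : Wt w Λ) (S I J : Finset (Fin n)) (hIJ : Disjoint I J)
    (hI : ∀ v ∈ I, 1 ≤ D.r v) (hJ : ∀ v ∈ J, 1 ≤ D.r v) :
    ∑ v ∈ I, mS D w S v + ∑ v ∈ J, mS D w S v ≤ ∑ z ∈ S, P D w z := by
  classical
  rw [P_setX hS, ← sum_union hIJ]
  apply sum_le_sum_of_subset_of_nonneg
  · intro v hv
    rw [mem_filter]
    refine ⟨mem_univ _, ?_⟩
    rcases mem_union.mp hv with h | h
    · exact hI v h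
    · exact hJ v h
  · intro v _ _
    exact mS_nonneg hS hw S v

/-- vertices with at most `j` earlier neighbours go to a level set with room for them -/
theorem mS_level (hS : StdX D k d) (x : Fin n → ℝ) (hx : ∀ z, 0 ≤ x z) (θ ρ : ℝ) (hρ : 0 < ρ)
    (j : ℕ) (hj : (j : ℝ) * d + ρ * n ≤ #(SX x θ)) (v : Fin n) (hv : #(Ea D v) ≤ j) :
    (1 - D.α) * (1 - RX x θ / ρ) ≤ mS D (wx x) (SX x θ) v := by
  apply mS_ge hS (Wt_wx x hx)
  intro φ
  refine (massX hS x hx θ (Xs D φ v) (Xs_card' hS φ v) ρ hρ ?_).1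
  refine le_trans ?_ (room hS _ _)
  have h1 : (#(Xs D φ v) : ℝ) ≤ j := by
    exact_mod_cast (Xs_card (D := D) φ v).trans hv
  have h2 : (#(Xs D φ v) : ℝ) * d ≤ j * d := mul_le_mul_of_nonneg_right h1 hS.d0
  linarith

end Pool.Agent.Helper14.BECX
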