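import Pool.Agent.Helper14.BECX.LevX
import Pool.Agent.Helper14.BECX.LevT
import Pool.Agent.Helper14.BECX.Leak
import Pool.Agent.Helper14.BECX.Fin
import Pool.Agent.Helper5.BEC.C.Brouwer
import Pool.Agent.Helper5.BEC.C.Cont
/-! Project BECX, piece OverX: balanced weights. -/
set_option autoImplicit false
namespace Pool.Agent.Helper14.BECX
open Finset Pool.Agent.Helper61.LE Pool.Agent.Helper5.BEC Pool.Agent.Helper5.BEC.C

variable {n k : ℕ} {D : Dat n} {d γ c e τ η L r0 : ℝ}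

/-- `vi` for `F = P - τ` (see `C.Over.exists_weights`): `x ∈ [0,L]^n` with `P z ≤ τ` if `x z > 0`, `P z ≥ τ` if
`x z < L`. `exists_leak` with `N = ⌊L⌋₊` gives `θ = m ∈ (0,L]` with `RX x θ ≤ r0`. If `SX x θ = ∅`, then
`x z < θ ≤ L` for all `z` and `P ≥ τ` everywhere. Otherwise `levelX`, `lev_top`: outside `SX x θ` one has
`P ≥ τ`, inside `P ≤ τ`. So `∑ (τ-P)⁺ ≤ n (η + r0/(e/5))` in both cases, and
`∑ (P-τ)⁺ = ∑ (P-τ) + ∑ (τ-P)⁺`, `∑ P = #{r ≥ 1} ≤ τ(1+η) n` (`P_total`, `Lab.tot`). -/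
theorem exists_weightsX (hS : StdX D k d) (hk : 2 ≤ k) (hγ0 : 0 ≤ γ) (hγ : 5 * γ ≤ e)
    (hd : (k + 1) * d = (1 + γ) * n) (hα : 5 * D.α ≤ e) (hη0 : 0 ≤ η) (hη : 5 * η ≤ e)
    (hc0 : 0 < c) (hc1 : c ≤ 1) (he0 : 0 < e) (he : 1000 * ((k : ℝ) + 1) ^ 3 * e ≤ c ^ 2)
    (hτ : 1 / 2 ≤ τ) (hτ1 : τ ≤ 1) (hL : Lab D k τ η) (hP : Pat D k c)
    (hα2 : 4 * (k + 1) * D.α ≤ 1) (hr0 : 0 < r0) (hr : 25 * r0 ≤ e ^ 2) (hL0 : 2 / r0 + 1 ≤ L) :
    ∃ w, Wt w (Real.exp L) ∧ ∑ z, max (P D w z - τ) 0 ≤ n * (2 * η + r0 / (e / 5)) := by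
  have hn : (0 : ℝ) ≤ n := Nat.cast_nonneg n
  have h2r : 0 < 2 / r0 := by positivity
  have hL1 : 1 ≤ L := by linarith
  obtain ⟨x, hx, hx0, hxL⟩ := vi n (fun x z => P D (fun y => Real.exp (x y)) z - τ)
    (continuous_pi fun z => (P_cont D z).sub continuous_const) L (by linarith)
  have hw : Wt (wx x) (Real.exp L) :=
    ⟨fun z => Real.one_le_exp (hx z).1, fun z => Real.exp_le_exp.2 (hx z).2⟩
  refine ⟨wx x, hw, ?_⟩
  set Q : Fin n → ℝ := fun z => P D (wx x) z with hQ
  have hQ0 : ∀ z, 0 < x z → Q z ≤ τ := fun z hz => by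
    have h : P D (wx x) z - τ ≤ 0 := hx0 z hz
    show P D (wx x) z ≤ τ
    linarith
  have hQL : ∀ z, x z < L → τ ≤ Q z := fun z hz => by
    have h : 0 ≤ P D (wx x) z - τ := hxL z hz
    show τ ≤ P D (wx x) z
    linarith
  -- a level with small leak
  have hN1 : 1 ≤ ⌊L⌋₊ := Nat.le_floor (by exact_mod_cast hL1)
  have hNL : (⌊L⌋₊ : ℝ) ≤ L := Nat.floor_le (by linarith)
  have hNr : 2 / r0 ≤ (⌊L⌋₊ : ℝ) := by
    have := Nat.lt_floor_add_one L
    linarith
  obtain ⟨m, hm1, hmN, hmR⟩ := exists_leak hS.n1 x (fun z => (hx z).1) ⌊L⌋₊ hN1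
  have hN0 : (0 : ℝ) < (⌊L⌋₊ : ℝ) := by exact_mod_cast hN1
  have hR : RX x m ≤ r0 := by
    refine hmR.trans ?_
    rw [div_le_iff₀ hN0]
    rw [div_le_iff₀ hr0] at hNr
    linarith
  have hm0 : (0 : ℝ) < (m : ℝ) := by exact_mod_cast hm1
  have hmL : (m : ℝ) ≤ L := le_trans (by exact_mod_cast hmN) hNL
  have hlow : ∑ z, max (τ - Q z) 0 ≤ n * (η + r0 / (e / 5)) := by
    have hsplit : ∑ z, max (τ - Q z) 0 = ∑ z ∈ SX x m, (τ - Q z) := by
      rw [← Finset.sum_subset (Finset.subset_univ (SX x (m : ℝ)))]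
      · refine Finset.sum_congr rfl fun z hz => ?_
        unfold SX at hz
        rw [Finset.mem_filter] at hz
        have := hQ0 z (lt_of_lt_of_le hm0 hz.2)
        exact max_eq_left (by linarith)
      · intro z _ hz
        unfold SX at hz
        rw [Finset.mem_filter] at hz
        push Not at hz
        have := hQL z (lt_of_lt_of_le (hz (Finset.mem_univ z)) hmL)
        exact max_eq_right (by linarith)
    rw [hsplit]
    rcases Finset.eq_empty_or_nonempty (SX x (m : ℝ)) with h0 | hne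
    · rw [h0, Finset.sum_empty]
      positivity
    · have hH : LevH D k d γ c e τ η x m :=
        { hS := hS
          k2 := hk
          γ0 := hγ0
          hγ := hγ
          hd := hd
          hα := hα
          η0 := hη0
          hη := hη
          c0 := hc0
          c1 := hc1
          e0 := he0
          he := he
          hτ := hτ
          hτ1 := hτ1
          hL := hL
          hP := hP
          hx := fun z => (hx z).1
          hPx := fun z hz => hQ0 z hz
          θ0 := hm0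
          hR := by linarith }
      refine (lev_top hH hα2 (levelX hH hne)).trans ?_
      have h5 : RX x m / (e / 5) ≤ r0 / (e / 5) :=
        div_le_div_of_nonneg_right hR (by linarith)
      exact mul_le_mul_of_nonneg_left (by linarith) hn
  have hmax : ∀ z, max (Q z - τ) 0 = (Q z - τ) + max (τ - Q z) 0 := by
    intro z
    rcases le_total (Q z) τ with h | h
    · rw [max_eq_right (by linarith), max_eq_left (by linarith)]
      ring
    · rw [max_eq_left (by linarith), max_eq_right (by linarith)]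
      ring
  have htot : ∑ z, (Q z - τ) ≤ n * η := by
    have h0 : ∑ z, Q z = #(univ.filter fun v => 1 ≤ D.r v) := P_total hS hw
    rw [Finset.sum_sub_distrib, Finset.sum_const, Finset.card_univ, Fintype.card_fin, nsmul_eq_mul,
      h0]
    have h1 := hL.tot
    have h2 : τ * η * n ≤ 1 * η * n := by gcongr
    linarith
  calc ∑ z, max (Q z - τ) 0 = ∑ z, (Q z - τ) + ∑ z, max (τ - Q z) 0 := by
        rw [← Finset.sum_add_distrib]
        exact Finset.sum_congr rfl fun z _ => hmax z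
    _ ≤ n * η + n * (η + r0 / (e / 5)) := add_le_add htot hlow
    _ = n * (2 * η + r0 / (e / 5)) := by ring

end Pool.Agent.Helper14.BECX
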