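import Pool.Agent.Helper14.BECX.Psi
/-! Stage C, piece Prod: lower bounds for products; the candidate functional. -/
set_option autoImplicit false
namespace Pool.Agent.Helper14.BECX
open Finset Pool.Agent.Helper61.LE Pool.Agent.Helper5.BEC Pool.Agent.Helper5.BEC.C

variable {n k : ℕ} {D : Dat n} {w : Fin n → ℝ} {d Λ : ℝ}

/-- Induction on `j` (last round first is not needed: `Psi (j+1) s g = Kop (s+1) (Psi j (s+1) g)`,
use the induction hypothesis for `Psi j (s+1)`, then `EE` of a product of functions of the single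
coordinates `ω p`, `r p = s+1` (`EE_prod`)). -/
theorem Psi_prod (hS : StdX D k d) (hw : Wt w Λ) (M : Finset (Fin n))
    (o : Fin n → Option (Fin n) → ℝ) (ho : ∀ p a, 0 ≤ o p a) (c : Fin n → ℝ)
    (hc0 : ∀ p, 0 ≤ c p)
    (hc : ∀ p ∈ M, ∀ φ, c p ≤ ∑ z, ker D w (Xs D φ p) z * o p (some z)) (j s : ℕ) (φ : Cf n) :
    ∏ p ∈ M, (if s < D.r p ∧ D.r p ≤ s + j then c p else o p (φ p)) ≤
      Psi D w j s (fun φ => ∏ p ∈ M, o p (φ p)) φ := by
  induction j generalizing s φ with
  | zero =>
    apply le_of_eq
    show _ = ∏ p ∈ M, o p (φ p)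
    apply Finset.prod_congr rfl
    intro p _
    rw [if_neg]
    omega
  | succ j ih =>
    have hP := isProb_idl hS hw (s + 1) φ
    set G : Fin n → Option (Fin n) → ℝ := fun p a =>
      if p ∈ M then
        (if s + 1 < D.r p ∧ D.r p ≤ s + 1 + j then c p else
          if D.r p = s + 1 then o p a else o p (φ p)) else 1 with hG
    have h1 : Psi D w (j + 1) s (fun φ => ∏ p ∈ M, o p (φ p)) φ =
        EE (idl D w (s + 1) φ)
          (fun ω => Psi D w j (s + 1) (fun φ => ∏ p ∈ M, o p (φ p)) (upd D (s + 1) φ ω)) := rfl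
    have h2 : EE (idl D w (s + 1) φ) (fun ω => ∏ p, G p (ω p)) ≤
        EE (idl D w (s + 1) φ)
          (fun ω => Psi D w j (s + 1) (fun φ => ∏ p ∈ M, o p (φ p)) (upd D (s + 1) φ ω)) := by
      apply EE_mono hP
      intro ω
      refine le_trans (le_of_eq ?_) (ih (s + 1) (upd D (s + 1) φ ω))
      rw [hG]
      rw [Finset.prod_ite_mem, Finset.univ_inter]
      apply Finset.prod_congr rfl
      intro p _
      by_cases h : s + 1 < D.r p ∧ D.r p ≤ s + 1 + j
      · rw [if_pos h, if_pos h]
      · rw [if_neg h, if_neg h]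
        unfold upd
        by_cases h' : D.r p = s + 1
        · rw [if_pos h', if_pos h']
        · rw [if_neg h', if_neg h']
    rw [h1]
    refine le_trans ?_ h2
    rw [EE_prod]
    have h3 : ∏ p ∈ M, (∑ a, idl D w (s + 1) φ p a * G p a) =
        ∏ p, ∑ a, idl D w (s + 1) φ p a * G p a := by
      apply Finset.prod_subset (Finset.subset_univ M)
      intro p _ hp
      have : ∀ a, idl D w (s + 1) φ p a * G p a = idl D w (s + 1) φ p a := by
        intro a
        rw [hG]
        simp only
        rw [if_neg hp, mul_one]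
      simp only [this]
      exact hP.sum_one p
    rw [← h3]
    apply Finset.prod_le_prod
    · intro p _
      split_ifs
      · exact hc0 p
      · exact ho p _
    · intro p hp
      by_cases h : s + 1 < D.r p ∧ D.r p ≤ s + 1 + j
      · have e1 : ∀ a, idl D w (s + 1) φ p a * G p a = idl D w (s + 1) φ p a * c p := by
          intro a
          rw [hG]
          simp only
          rw [if_pos hp, if_pos h]
        simp only [e1]
        rw [← Finset.sum_mul, hP.sum_one p, one_mul, if_pos (by omega)]
      · by_cases h' : D.r p = s + 1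
        · rw [if_pos (by omega)]
          refine le_trans (hc p hp φ) ?_
          rw [Fintype.sum_option]
          have e2 : idl D w (s + 1) φ p none * G p none = 0 := by
            unfold idl
            rw [if_pos h']
            simp
          rw [e2, zero_add]
          apply le_of_eq
          apply Finset.sum_congr rfl
          intro z _
          rw [hG]
          simp only
          rw [if_pos hp, if_neg h, if_pos h']
          unfold idl
          rw [if_pos h']
        · have e1 : ∀ a, idl D w (s + 1) φ p a * G p a = idl D w (s + 1) φ p a * o p (φ p) := by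
            intro a
            rw [hG]
            simp only
            rw [if_pos hp, if_neg h, if_neg h']
          simp only [e1]
          rw [← Finset.sum_mul, hP.sum_one p, one_mul, if_neg (by omega)]

/-- `M = insert v (A.N v)`; `o v none = 0`, `o v (some z) = [z ∈ Av X]`, `c v = α/(2(k+1))`
(`Xs D φ v = ∅`, `ker_ge`, `Av_card'`); for a neighbour `p`: `o p none = 1`,
`o p (some z) = [z ∉ N₂(y)]`, `c p = α/(2(k+1))` (`#(Av X' \ N₂(y)) ≥ n - (k-1) d - d`). -/
theorem cand_lowX (hS : StdX D k d) (hw : Wt w Λ) (X : Finset (Fin n)) (hX : #X ≤ k)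
    (y v : Fin n) (hv : 1 ≤ D.r v) (hE : Ea D v = ∅) (hp1 : ∀ p ∈ D.A.N v, #(Ea D p) + 1 ≤ k) :
    (D.α / (2 * (k + 1))) ^ (k + 1) ≤ Psi D w D.T 0 (qcand D X y v) (φ0 n) := by
  classical
  have hα := hS.α0
  have hα1 := hS.α1
  have hn : (0 : ℝ) < n := by
    have := hS.n1
    exact_mod_cast this
  have hk : (0 : ℝ) < (k : ℝ) + 1 := by positivity
  have hk1 : (1 : ℝ) ≤ (k : ℝ) := by exact_mod_cast hS.k1
  set c0 : ℝ := D.α / (2 * (k + 1)) with hc0def
  have hc00 : 0 ≤ c0 := by positivity
  have hc01 : c0 ≤ 1 := by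
    rw [hc0def, div_le_one (by positivity)]
    nlinarith
  have hc0n : c0 * n = D.α * (n / (2 * (k + 1))) := by
    rw [hc0def]; ring
  set o : Fin n → Option (Fin n) → ℝ := fun p a =>
    if p = v then (if ∃ z ∈ Av D.B X, a = some z then 1 else 0)
    else (if ∃ z ∈ D.B.N y, a = some z then 0 else 1) with hodef
  set c : Fin n → ℝ := fun _ => c0 with hcdef
  have ho : ∀ p a, 0 ≤ o p a := by
    intro p a
    rw [hodef]
    simp only
    split_ifs <;> norm_num
  have hc0 : ∀ p, 0 ≤ c p := fun p => hc00
  have hvN : v ∉ D.A.N v := D.A.irr v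
  have hc : ∀ p ∈ insert v (D.A.N v), ∀ φ, c p ≤ ∑ z, ker D w (Xs D φ p) z * o p (some z) := by
    intro p hpM φ
    by_cases hpv : p = v
    · subst hpv
      have e0 : Xs D φ p = ∅ := by
        unfold Xs
        rw [hE]
        simp
      have e1 : Av D.B X ⊆ Av D.B (Xs D φ p) := by
        rw [e0]
        intro z _
        simp [Av]
      have e2 := ker_ge hS hw (Xs D φ p) (Av D.B X) (by rw [e0]; simp) e1
      have e3 := Av_card' hS X hX
      have e5 : ∑ z, ker D w (Xs D φ p) z * o p (some z) =
          ∑ z ∈ Av D.B X, ker D w (Xs D φ p) z := by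
        rw [← Finset.sum_filter_add_sum_filter_not Finset.univ (fun z => z ∈ Av D.B X)]
        have f1 : (Finset.univ.filter fun z => z ∈ Av D.B X) = Av D.B X := by
          ext z; simp
        rw [f1]
        have f2 : ∑ z ∈ Av D.B X, ker D w (Xs D φ p) z * o p (some z) =
            ∑ z ∈ Av D.B X, ker D w (Xs D φ p) z := by
          apply Finset.sum_congr rfl
          intro z hz
          have : o p (some z) = 1 := by
            rw [hodef]
            simp only
            rw [if_pos trivial, if_pos ⟨z, hz, rfl⟩]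
          rw [this, mul_one]
        have f3 : ∑ z ∈ Finset.univ.filter (fun z => z ∉ Av D.B X),
            ker D w (Xs D φ p) z * o p (some z) = 0 := by
          apply Finset.sum_eq_zero
          intro z hz
          have hz' : z ∉ Av D.B X := (Finset.mem_filter.1 hz).2
          have : o p (some z) = 0 := by
            rw [hodef]
            simp only
            rw [if_pos trivial, if_neg]
            rintro ⟨z', hz1, hz2⟩
            exact hz' (Option.some.inj hz2 ▸ hz1)
          rw [this, mul_zero]
        rw [f2, f3, add_zero]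
      rw [e5]
      refine le_trans ?_ e2
      rw [le_div_iff₀ hn]
      change c0 * n ≤ _
      rw [hc0n]
      exact mul_le_mul_of_nonneg_left e3 hα.le
    · have hpN : p ∈ D.A.N v := (Finset.mem_insert.1 hpM).resolve_left hpv
      have e1 : Av D.B (Xs D φ p) \ D.B.N y ⊆ Av D.B (Xs D φ p) := Finset.sdiff_subset
      have e2 := ker_ge hS hw (Xs D φ p) (Av D.B (Xs D φ p) \ D.B.N y) (Xs_card' hS φ p) e1
      have e3 : ∑ z ∈ Av D.B (Xs D φ p) \ D.B.N y, ker D w (Xs D φ p) z ≤
          ∑ z, ker D w (Xs D φ p) z * o p (some z) := by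
        have f1 : ∑ z ∈ Av D.B (Xs D φ p) \ D.B.N y, ker D w (Xs D φ p) z =
            ∑ z ∈ Av D.B (Xs D φ p) \ D.B.N y, ker D w (Xs D φ p) z * o p (some z) := by
          apply Finset.sum_congr rfl
          intro z hz
          have hz' : z ∉ D.B.N y := (Finset.mem_sdiff.1 hz).2
          have : o p (some z) = 1 := by
            rw [hodef]
            simp only
            rw [if_neg hpv, if_neg]
            rintro ⟨z', hz1, hz2⟩
            exact hz' (Option.some.inj hz2 ▸ hz1)
          rw [this, mul_one]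
        rw [f1]
        apply Finset.sum_le_sum_of_subset_of_nonneg (Finset.subset_univ _)
        intro z _ _
        exact mul_nonneg (ker_nonneg hS hw _ z) (ho p _)
      refine le_trans ?_ (le_trans e2 e3)
      rw [le_div_iff₀ hn]
      change c0 * n ≤ _
      rw [hc0n]
      have g1 : (#(Av D.B (Xs D φ p)) : ℝ) - #(D.B.N y) ≤ #(Av D.B (Xs D φ p) \ D.B.N y) := by
        have := Finset.le_card_sdiff (D.B.N y) (Av D.B (Xs D φ p))
        have h' : #(Av D.B (Xs D φ p)) ≤ #(Av D.B (Xs D φ p) \ D.B.N y) + #(D.B.N y) := by omega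
        have h'' : (#(Av D.B (Xs D φ p)) : ℝ) ≤ #(Av D.B (Xs D φ p) \ D.B.N y) + #(D.B.N y) := by
          exact_mod_cast h'
        linarith
      have g2 := Av_card hS (Xs D φ p)
      have g3 := hS.dB y
      have g4 : (#(Xs D φ p) : ℝ) + 1 ≤ k := by
        have h1 := Xs_card (D := D) φ p
        have h2 := hp1 p hpN
        exact_mod_cast (by omega : #(Xs D φ p) + 1 ≤ k)
      have g5 := hS.hd
      have g6 := hS.d0
      have g7 : (n : ℝ) / (2 * (k + 1)) ≤ #(Av D.B (Xs D φ p) \ D.B.N y) := by
        rw [div_le_iff₀ (by positivity)]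
        have g8 : (#(Xs D φ p) : ℝ) * d + d ≤ k * d := by nlinarith
        nlinarith
      exact mul_le_mul_of_nonneg_left g7 hα.le
  have h1 := Psi_prod hS hw (insert v (D.A.N v)) o ho c hc0 hc D.T 0 (φ0 n)
  have h2 : (fun φ : Cf n => ∏ p ∈ insert v (D.A.N v), o p (φ p)) = qcand D X y v := by
    funext φ
    rw [Finset.prod_insert hvN]
    unfold qcand
    have ev : o v (φ v) = if ∃ z ∈ Av D.B X, φ v = some z then 1 else 0 := by
      rw [hodef]; simp
    by_cases h : ∃ z ∈ Av D.B X, φ v = some z
    · rw [ev, if_pos h, one_mul]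
      by_cases h' : ∀ p ∈ D.A.N v, ∀ z ∈ D.B.N y, φ p ≠ some z
      · rw [if_pos ⟨hv, h, h'⟩]
        apply Finset.prod_eq_one
        intro p hp
        have hpv : p ≠ v := fun h => hvN (h ▸ hp)
        rw [hodef]
        simp only
        rw [if_neg hpv, if_neg]
        rintro ⟨z, hz, he⟩
        exact h' p hp z hz he
      · rw [if_neg (fun hh => h' hh.2.2)]
        push Not at h'
        obtain ⟨p, hp, z, hz, he⟩ := h'
        apply Finset.prod_eq_zero hp
        have hpv : p ≠ v := fun h => hvN (h ▸ hp)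
        rw [hodef]
        simp only
        rw [if_neg hpv, if_pos ⟨z, hz, he⟩]
    · rw [ev, if_neg h, zero_mul, if_neg (fun hh => h hh.2.1)]
  rw [h2] at h1
  refine le_trans ?_ h1
  have h3 : ∏ _p ∈ insert v (D.A.N v), c0 ≤
      ∏ p ∈ insert v (D.A.N v), (if 0 < D.r p ∧ D.r p ≤ 0 + D.T then c p else o p (φ0 n p)) := by
    apply Finset.prod_le_prod
    · intro p _
      exact hc00
    · intro p hp
      split_ifs with hr
      · exact le_rfl
      · have hpv : p ≠ v := by
          rintro rfl
          have := hS.rT p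
          apply hr
          omega
        have : o p (φ0 n p) = 1 := by
          rw [hodef]
          simp [hpv, φ0]
        rw [this]
        exact hc01
  refine le_trans ?_ h3
  rw [Finset.prod_const]
  refine pow_le_pow_of_le_one hc00 hc01 ?_
  rw [Finset.card_insert_of_notMem hvN]
  have := hS.dA v
  omega

/-- the candidates from the pattern `Pfst` -/
theorem candH_of_Pfst (hS : StdX D k d) (hw : Wt w Λ) {c : ℝ} (hP : c * n ≤ #(Pfst D k)) :
    CandH D w k (c * (D.α / (2 * (k + 1))) ^ (k + 1)) := by
  intro X hX y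
  have hα := hS.α0
  have hbd : ∀ v ψ, 0 ≤ qcand D X y v ψ ∧ qcand D X y v ψ ≤ 1 := by
    intro v ψ
    unfold qcand
    split_ifs
    · exact ⟨zero_le_one, le_rfl⟩
    · exact ⟨le_rfl, zero_le_one⟩
  have h1 : ∑ v ∈ Pfst D k, (D.α / (2 * (k + 1))) ^ (k + 1) ≤
      ∑ v, Psi D w D.T 0 (qcand D X y v) (φ0 n) := by
    refine le_trans (Finset.sum_le_sum fun v hv => ?_)
      (Finset.sum_le_sum_of_subset_of_nonneg (subset_univ _)
        (fun v _ _ => (Psi_bd hS hw (hbd v) D.T 0 (φ0 n)).1))
    unfold Pfst at hv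
    rw [mem_filter] at hv
    exact cand_lowX hS hw X hX y v hv.2.1 hv.2.2.1 hv.2.2.2
  rw [Finset.sum_const, nsmul_eq_mul] at h1
  refine le_trans ?_ h1
  have h2 : (0 : ℝ) ≤ (D.α / (2 * (k + 1))) ^ (k + 1) := by positivity
  calc c * (D.α / (2 * (k + 1))) ^ (k + 1) * n = c * n * (D.α / (2 * (k + 1))) ^ (k + 1) := by ring
    _ ≤ _ := mul_le_mul_of_nonneg_right hP h2

end Pool.Agent.Helper14.BECX
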