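import Pool.Agent.Helper14.BECX.RA
import Pool.Agent.Helper14.BECX.Fs
import Pool.Agent.Helper5.BEC.St.T1
/-! Stage C, piece RB: quasirandomness of the free positions after one round. -/
set_option autoImplicit false
namespace Pool.Agent.Helper14.BECX
open Finset Pool.Agent.Helper61.LE Pool.Agent.Helper5.BEC Pool.Agent.Helper5.BEC.C

variable {n k : ℕ} {D : Dat n} {w : Fin n → ℝ} {ε d Λ τ η ζ a b M t : ℝ}
  {Bs : Finset (Fin n)} {H : Finset (Fin n → ℝ)}

/-- the law of the round `s+1` -/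
noncomputable def law (D : Dat n) (w : Fin n → ℝ) (Bs : Finset (Fin n)) (b : ℝ) (s : ℕ)
    (φ : Cf n) : Fin n → Option (Fin n) → ℝ :=
  rl D w (fs D w Bs s) (Fr Bs φ) b (s + 1) φ

theorem rb_exp {x : ℝ} (h0 : 0 ≤ x) (h1 : x ≤ 1 / 2) : Real.exp (-(x + x ^ 2)) ≤ 1 - x := by
  have h := Real.quadratic_le_exp_of_nonneg (x := x + x ^ 2) (by positivity)
  have h3 : x + x ^ 2 + x ^ 3 ≤ 1 := by
    have : x ^ 2 ≤ x / 2 := by nlinarith
    have : x ^ 3 ≤ x / 4 := by nlinarith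
    linarith
  have h2 : 1 ≤ (1 - x) * Real.exp (x + x ^ 2) := by
    have h4 : (1 - x) * (1 + (x + x ^ 2) + (x + x ^ 2) ^ 2 / 2) ≤
        (1 - x) * Real.exp (x + x ^ 2) := mul_le_mul_of_nonneg_left h (by linarith)
    have h5 : (1 - x) * (1 + (x + x ^ 2) + (x + x ^ 2) ^ 2 / 2) =
        1 + x ^ 2 / 2 * (1 - (x + x ^ 2 + x ^ 3)) := by ring
    have h6 : 0 ≤ x ^ 2 / 2 * (1 - (x + x ^ 2 + x ^ 3)) :=
      mul_nonneg (by positivity) (by linarith)
    linarith
  rw [Real.exp_neg, inv_le_iff_one_le_mul₀ (Real.exp_pos _)]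
  exact h2

theorem rb_prod {ι : Type*} (S : Finset ι) (x : ι → ℝ) (h0 : ∀ i ∈ S, 0 ≤ x i)
    (h1 : ∀ i ∈ S, x i ≤ 1 / 2) :
    Real.exp (-(∑ i ∈ S, x i + ∑ i ∈ S, x i ^ 2)) ≤ ∏ i ∈ S, (1 - x i) ∧
      ∏ i ∈ S, (1 - x i) ≤ Real.exp (-∑ i ∈ S, x i) := by
  constructor
  · have h2 : -(∑ i ∈ S, x i + ∑ i ∈ S, x i ^ 2) = ∑ i ∈ S, -(x i + x i ^ 2) := by
      rw [Finset.sum_neg_distrib, Finset.sum_add_distrib]
    rw [h2, Real.exp_sum]
    exact Finset.prod_le_prod (fun i _ => (Real.exp_pos _).le)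
      (fun i hi => rb_exp (h0 i hi) (h1 i hi))
  · have h2 : -∑ i ∈ S, x i = ∑ i ∈ S, -(x i) := by rw [Finset.sum_neg_distrib]
    rw [h2, Real.exp_sum]
    refine Finset.prod_le_prod (fun i hi => by linarith [h1 i hi]) (fun i hi => ?_)
    have := Real.add_one_le_exp (-(x i))
    linarith

theorem rb_PP {μ : Fin n → Option (Fin n) → ℝ} (h : IsProb μ) (S : Finset (Fin n)) (z : Fin n) :
    PP μ (fun ω => ∀ u ∈ S, ω u ≠ some z) = ∏ u ∈ S, (1 - μ u (some z)) := by
  rw [Pool.Agent.Helper5.AVD.PP_forall_of_disjoint h S (fun u ω => ω u ≠ some z) (fun u => {u})]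
  · refine Finset.prod_congr rfl (fun u _ => ?_)
    rw [Pool.Agent.Helper5.AVD.PP_coord h u (fun o => o ≠ some z)]
    have h1 := h.sum_one u
    have h2 : ∀ o : Option (Fin n), (if o ≠ some z then μ u o else 0) =
        μ u o - (if o = some z then μ u o else 0) := by
      intro o
      by_cases ho : o = some z
      · simp [ho]
      · simp [ho]
    rw [Finset.sum_congr rfl (fun o _ => h2 o), Finset.sum_sub_distrib, h1,
      Finset.sum_ite_eq' Finset.univ (some z)]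
    simp
  · intro u _ ω ω' hω
    have := hω u (Finset.mem_singleton_self u)
    simp only [this]
  · intro u _ u' _ huu'
    exact Finset.disjoint_singleton.2 huu'

/-- Survival probability of `z ∈ Fr Bs φ`, `z ∉ Bs`: the product of `1 - x_u` over the `u` of round
`s+1`, `x_u = (1-b) ker/f ≤ M/(ζ n)` (`M = Λ(k+1)`), `∑ x_u = (1-b) ell(z)/f`,
`|ell(z) - load(z)| ≤ M a` (hypothesis), `ell ≤ M`; `exp(-x-x²) ≤ 1-x ≤ exp(-x)` for `x ≤ 1/2`.
So it is `(fs (s+1) z/fs s z) exp(±e)`, `e = M(a+b)/ζ + M²/(ζ² n)`. -/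
theorem surv (hS : StdX D k d) (hw : Wt w Λ) (hM : M = 2 * Λ * (k + 1)) (hζ : 0 < ζ) (hζ1 : ζ ≤ 1)
    {s : ℕ} (hf : ∀ z, ζ ≤ fs D w Bs s z) (φ : Cf n) (ha : 0 ≤ a) (hb0 : 0 ≤ b) (hb1 : b ≤ 1)
    (hl : IsProb (law D w Bs b s φ)) (hn : 2 * M ≤ ζ * n)
    (he : M * (a + b) / ζ + M ^ 2 / (ζ ^ 2 * n) ≤ 1) (z : Fin n) (hz : z ∈ Fr Bs φ)
    (hzB : z ∉ Bs) (hlab : ∀ u, φ u ≠ none → D.r u ≤ s)
    (hload : |ell D w (s + 1) z φ - load D w (s + 1) z| ≤ M * a) :
    |PP (law D w Bs b s φ) (fun ω => z ∈ Fr Bs (upd D (s + 1) φ ω)) -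
      fs D w Bs (s + 1) z / fs D w Bs s z| ≤
      2 * (M * (a + b) / ζ + M ^ 2 / (ζ ^ 2 * n)) * (fs D w Bs (s + 1) z / fs D w Bs s z) := by
  classical
  set f := fs D w Bs s z with hfdef
  have hfz : ζ ≤ f := hf z
  have hf0 : 0 < f := lt_of_lt_of_le hζ hfz
  have hn0 : (0 : ℝ) < n := by
    have := hS.n1
    exact_mod_cast this
  have hΛ : 1 ≤ Λ := (hw.w1 z).trans (hw.w2 z)
  have hM0 : 0 ≤ M := by
    rw [hM]
    positivity
  have hfree : ∀ u, φ u ≠ some z := by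
    have h1 := (Finset.mem_filter.1 hz).2
    exact h1.resolve_left hzB
  set S : Finset (Fin n) := univ.filter (fun u => D.r u = s + 1) with hSdef
  have hev : PP (law D w Bs b s φ) (fun ω => z ∈ Fr Bs (upd D (s + 1) φ ω)) =
      PP (law D w Bs b s φ) (fun ω => ∀ u ∈ S, ω u ≠ some z) := by
    congr 1
    funext ω
    apply propext
    constructor
    · intro h u hu
      have h1 := (Finset.mem_filter.1 h).2.resolve_left hzB u
      have h2 : D.r u = s + 1 := (Finset.mem_filter.1 hu).2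
      rw [upd, if_pos h2] at h1
      exact h1
    · intro h
      refine Finset.mem_filter.2 ⟨Finset.mem_univ _, Or.inr fun u => ?_⟩
      by_cases h2 : D.r u = s + 1
      · rw [upd, if_pos h2]
        exact h u (Finset.mem_filter.2 ⟨Finset.mem_univ _, h2⟩)
      · rw [upd, if_neg h2]
        exact hfree u
  set x : Fin n → ℝ := fun u => (1 - b) * (ker D w (Xs D φ u) z / f) with hxdef
  have hlaw : ∀ u ∈ S, law D w Bs b s φ u (some z) = x u := by
    intro u hu
    have h2 : D.r u = s + 1 := (Finset.mem_filter.1 hu).2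
    simp only [law, rl, if_pos h2, if_pos hz]
    rfl
  have hker0 : ∀ u, 0 ≤ ker D w (Xs D φ u) z := fun u => ker_nonneg hS hw _ z
  have hker1 : ∀ u, ker D w (Xs D φ u) z ≤ M / n := by
    intro u
    rw [hM]
    exact ker_le hS hw _ (Xs_card' hS φ u) z
  have hx0 : ∀ u, 0 ≤ x u := fun u =>
    mul_nonneg (by linarith) (div_nonneg (hker0 u) hf0.le)
  have hx1 : ∀ u, x u ≤ M / (ζ * n) := by
    intro u
    have h1 : ker D w (Xs D φ u) z / f ≤ M / n / ζ := by
      have h2 : ker D w (Xs D φ u) z / f ≤ ker D w (Xs D φ u) z / ζ :=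
        div_le_div_of_nonneg_left (hker0 u) hζ hfz
      exact h2.trans (div_le_div_of_nonneg_right (hker1 u) hζ.le)
    have h3 : x u ≤ 1 * (ker D w (Xs D φ u) z / f) :=
      mul_le_mul_of_nonneg_right (by linarith) (div_nonneg (hker0 u) hf0.le)
    have h4 : M / n / ζ = M / (ζ * n) := by rw [div_div, mul_comm]
    rw [h4] at h1
    linarith
  have hxh : M / (ζ * n) ≤ 1 / 2 := by
    rw [div_le_iff₀ (mul_pos hζ hn0)]
    linarith
  have hxh0 : 0 ≤ M / (ζ * n) := by positivity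
  have hPP : PP (law D w Bs b s φ) (fun ω => z ∈ Fr Bs (upd D (s + 1) φ ω)) =
      ∏ u ∈ S, (1 - x u) := by
    rw [hev, rb_PP hl]
    exact Finset.prod_congr rfl (fun u hu => by rw [hlaw u hu])
  have hprod := rb_prod S x (fun u _ => hx0 u) (fun u _ => (hx1 u).trans hxh)
  set X := ∑ u ∈ S, x u with hXdef
  have hell0 : 0 ≤ ell D w (s + 1) z φ := Finset.sum_nonneg fun u _ => hker0 u
  have hellM : ell D w (s + 1) z φ ≤ M := by
    have h1 : ell D w (s + 1) z φ ≤ ∑ u ∈ S, M / n := Finset.sum_le_sum fun u _ => hker1 u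
    rw [Finset.sum_const, nsmul_eq_mul] at h1
    have h2 : (#S : ℝ) ≤ n := by
      have h3 : #S ≤ n := by
        have h4 := Finset.card_le_univ S
        rwa [Fintype.card_fin] at h4
      exact_mod_cast h3
    have h5 : (#S : ℝ) * (M / n) ≤ n * (M / n) :=
      mul_le_mul_of_nonneg_right h2 (by positivity)
    have h6 : (n : ℝ) * (M / n) = M := by field_simp
    linarith
  have hX : X = (1 - b) * ell D w (s + 1) z φ / f := by
    rw [hXdef, ell, mul_div_assoc, Finset.sum_div, Finset.mul_sum]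
  have hXM : X ≤ M / ζ := by
    rw [hX]
    have h1 : (1 - b) * ell D w (s + 1) z φ ≤ M := by nlinarith only [hellM, hb0, hell0]
    have h2 : (1 - b) * ell D w (s + 1) z φ / f ≤ M / f := div_le_div_of_nonneg_right h1 hf0.le
    exact h2.trans (div_le_div_of_nonneg_left hM0 hζ hfz)
  have hX0 : 0 ≤ X := Finset.sum_nonneg fun u _ => hx0 u
  have hsq : ∑ u ∈ S, x u ^ 2 ≤ M ^ 2 / (ζ ^ 2 * n) := by
    have h1 : ∑ u ∈ S, x u ^ 2 ≤ ∑ u ∈ S, M / (ζ * n) * x u := by
      refine Finset.sum_le_sum fun u _ => ?_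
      rw [sq]
      exact mul_le_mul_of_nonneg_right (hx1 u) (hx0 u)
    rw [← Finset.mul_sum, ← hXdef] at h1
    have h2 : M / (ζ * n) * X ≤ M / (ζ * n) * (M / ζ) := mul_le_mul_of_nonneg_left hXM hxh0
    have h3 : M / (ζ * n) * (M / ζ) = M ^ 2 / (ζ ^ 2 * n) := by
      rw [div_mul_div_comm]
      congr 1 <;> ring
    linarith
  have hsq0 : 0 ≤ ∑ u ∈ S, x u ^ 2 := Finset.sum_nonneg fun u _ => sq_nonneg _
  set ld := load D w (s + 1) z with hlddef
  have hXl : |X - ld / f| ≤ M * (a + b) / ζ := by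
    have h1 : X - ld / f = ((ell D w (s + 1) z φ - ld) - b * ell D w (s + 1) z φ) / f := by
      rw [hX, ← sub_div]
      congr 1
      ring
    rw [h1, abs_div, abs_of_pos hf0]
    have h2 : |(ell D w (s + 1) z φ - ld) - b * ell D w (s + 1) z φ| ≤ M * (a + b) := by
      have h3 := abs_sub (ell D w (s + 1) z φ - ld) (b * ell D w (s + 1) z φ)
      have h4 : |b * ell D w (s + 1) z φ| ≤ M * b := by
        rw [abs_of_nonneg (mul_nonneg hb0 hell0), mul_comm]
        exact mul_le_mul_of_nonneg_right hellM hb0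
      have h5 : M * (a + b) = M * a + M * b := by ring
      rw [h5]
      exact h3.trans (add_le_add hload h4)
    have h6 : 0 ≤ M * (a + b) := mul_nonneg hM0 (by linarith)
    exact (div_le_div_of_nonneg_right h2 hf0.le).trans (div_le_div_of_nonneg_left h6 hζ hfz)
  set e := M * (a + b) / ζ + M ^ 2 / (ζ ^ 2 * n) with hedef
  have he0 : 0 ≤ M ^ 2 / (ζ ^ 2 * n) := by positivity
  have he1 : 0 ≤ M * (a + b) / ζ := div_nonneg (mul_nonneg hM0 (by linarith)) hζ.le
  have hρ : fs D w Bs (s + 1) z / f = Real.exp (-(ld / f)) := by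
    rw [fs, if_neg hzB, ← hfdef, mul_comm, mul_div_assoc, div_self hf0.ne', mul_one]
  rw [hPP, hρ]
  have hXl' := abs_le.1 hXl
  set ρ := Real.exp (-(ld / f)) with hρdef
  have hρ0 : 0 < ρ := Real.exp_pos _
  have hup : ∏ u ∈ S, (1 - x u) ≤ ρ * Real.exp e := by
    refine hprod.2.trans ?_
    rw [hρdef, ← Real.exp_add]
    refine Real.exp_le_exp.2 ?_
    linarith [hXl'.1]
  have hlo : ρ * Real.exp (-e) ≤ ∏ u ∈ S, (1 - x u) := by
    refine le_trans ?_ hprod.1
    rw [hρdef, ← Real.exp_add]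
    refine Real.exp_le_exp.2 ?_
    linarith [hXl'.2]
  have hee : 0 ≤ e := by linarith
  have hexp1 : Real.exp e ≤ 1 + 2 * e := by
    have h1 := Real.abs_exp_sub_one_le (x := e) (by rw [abs_of_nonneg hee]; exact he)
    rw [abs_of_nonneg hee] at h1
    have := le_abs_self (Real.exp e - 1)
    linarith
  have hexp2 : 1 - e ≤ Real.exp (-e) := by
    have := Real.add_one_le_exp (-e)
    linarith
  rw [abs_le]
  constructor
  · have h1 : ρ * (1 - e) ≤ ρ * Real.exp (-e) := mul_le_mul_of_nonneg_left hexp2 hρ0.le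
    have h2 : 0 ≤ e * ρ := mul_nonneg hee hρ0.le
    nlinarith only [hlo, h1, h2]
  · have h1 : ρ * Real.exp e ≤ ρ * (1 + 2 * e) := mul_le_mul_of_nonneg_left hexp1 hρ0.le
    nlinarith only [hup, h1]

end Pool.Agent.Helper14.BECX
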