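import Pool.Agent.Helper5.BEC.St.T1
/-! Project BECX, piece Rand: random unions of tiles. -/
set_option autoImplicit false
namespace Pool.Agent.Helper14.BECX
open Finset Pool.Agent.Helper61.LE Pool.Agent.Helper5.BEC

/-- `m! / m^m` -/
noncomputable def gg (m : ℕ) : ℝ := (m.factorial : ℝ) / (m : ℝ) ^ m

theorem gg_pos (m : ℕ) : 0 < gg m := by
  unfold gg
  rcases Nat.eq_zero_or_pos m with rfl | hm
  · simp
  · positivity

theorem gg_succ (m : ℕ) (hm : 0 < m) : gg (m + 1) = gg m * ((m : ℝ) / (m + 1)) ^ m := by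
  unfold gg
  rw [Nat.factorial_succ]
  push_cast
  have h1 : (m : ℝ) ≠ 0 := by positivity
  have h2 : ((m : ℝ) + 1) ≠ 0 := by positivity
  rw [div_pow, pow_succ]
  field_simp

theorem ratio_lower (m : ℕ) (hm : 0 < m) : Real.exp (-1) ≤ ((m : ℝ) / (m + 1)) ^ m := by
  have hm' : (0 : ℝ) < m := by exact_mod_cast hm
  have h1 : Real.exp (-(1 / (m : ℝ))) ≤ (m : ℝ) / (m + 1) := by
    rw [Real.exp_neg, inv_le_comm₀ (Real.exp_pos _) (by positivity)]
    have h2 := Real.add_one_le_exp (1 / (m : ℝ))
    have h3 : ((m : ℝ) / (m + 1))⁻¹ = 1 / (m : ℝ) + 1 := by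
      field_simp
      ring
    rw [h3]
    exact h2
  calc Real.exp (-1) = Real.exp (-(1 / (m : ℝ))) ^ m := by
        rw [← Real.exp_nat_mul]
        congr 1
        field_simp
    _ ≤ _ := pow_le_pow_left₀ (Real.exp_pos _).le h1 m

theorem ratio_upper (m : ℕ) : ((m : ℝ) / (m + 1)) ^ (m + 1) ≤ Real.exp (-1) := by
  have h1 : (m : ℝ) / (m + 1) ≤ Real.exp (-(1 / ((m : ℝ) + 1))) := by
    have h2 := Real.add_one_le_exp (-(1 / ((m : ℝ) + 1)))
    refine le_trans (le_of_eq ?_) h2
    field_simp
    ring
  calc ((m : ℝ) / (m + 1)) ^ (m + 1) ≤ Real.exp (-(1 / ((m : ℝ) + 1))) ^ (m + 1) :=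
        pow_le_pow_left₀ (by positivity) h1 _
    _ = Real.exp (-1) := by
        rw [← Real.exp_nat_mul]
        congr 1
        push_cast
        field_simp

theorem gg_lower (m : ℕ) : Real.exp (-1) * gg m ≤ gg (m + 1) := by
  rcases Nat.eq_zero_or_pos m with rfl | hm
  · unfold gg
    simp
  · rw [gg_succ m hm, mul_comm]
    exact mul_le_mul_of_nonneg_left (ratio_lower m hm) (gg_pos m).le

theorem gg_lower' (m k : ℕ) : Real.exp (-(k : ℝ)) * gg m ≤ gg (m + k) := by
  induction k with
  | zero => simp
  | succ k ih =>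
    have h1 := gg_lower (m + k)
    rw [← add_assoc]
    refine le_trans ?_ h1
    have h2 : Real.exp (-((k + 1 : ℕ) : ℝ)) = Real.exp (-1) * Real.exp (-(k : ℝ)) := by
      rw [← Real.exp_add]
      congr 1
      push_cast
      ring
    rw [h2, mul_assoc]
    exact mul_le_mul_of_nonneg_left ih (Real.exp_pos _).le

theorem gg_upper (m : ℕ) (hm : 1 ≤ m) :
    gg m ≤ m * (Real.exp 1 * Real.exp (-(m : ℝ))) := by
  induction m, hm using Nat.le_induction with
  | base =>
    unfold gg
    rw [← Real.exp_add]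
    simp
  | succ m hm ih =>
    have hm' : (0 : ℝ) < m := by exact_mod_cast hm
    rw [gg_succ m hm]
    have h1 : ((m : ℝ) / (m + 1)) ^ m = ((m : ℝ) / (m + 1)) ^ (m + 1) * (((m : ℝ) + 1) / m) := by
      rw [pow_succ]
      field_simp
    have h2 : ((m : ℝ) / (m + 1)) ^ m ≤ Real.exp (-1) * (((m : ℝ) + 1) / m) := by
      rw [h1]
      exact mul_le_mul_of_nonneg_right (ratio_upper m) (by positivity)
    calc gg m * ((m : ℝ) / (m + 1)) ^ m
        ≤ (m * (Real.exp 1 * Real.exp (-(m : ℝ)))) * (Real.exp (-1) * (((m : ℝ) + 1) / m)) :=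
          mul_le_mul ih h2 (by positivity) (by positivity)
      _ = (m + 1) * (Real.exp 1 * (Real.exp (-(m : ℝ)) * Real.exp (-1))) := by
          field_simp
      _ = _ := by
          rw [← Real.exp_add (-(m : ℝ)) (-1)]
          push_cast
          congr 3
          ring_nf

theorem binom_lower (N q : ℕ) (hq : 1 ≤ q) (hqN : q ≤ N) :
    1 / (Real.exp 1 * q) ≤
      (N.choose q : ℝ) * (((q : ℝ) / N) ^ q * (1 - (q : ℝ) / N) ^ (N - q)) := by
  obtain ⟨m, rfl⟩ := Nat.exists_eq_add_of_le hqN
  have hq' : (0 : ℝ) < q := by exact_mod_cast hq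
  have hN' : (0 : ℝ) < ((q + m : ℕ) : ℝ) := by
    push_cast
    positivity
  have e1 : q + m - q = m := by omega
  rw [e1]
  have e2 : (1 - (q : ℝ) / ((q + m : ℕ) : ℝ)) = (m : ℝ) / ((q + m : ℕ) : ℝ) := by
    push_cast
    field_simp
    ring
  rw [e2]
  have e3 : ((q + m).choose q : ℝ) = ((q + m).factorial : ℝ) / (q.factorial * m.factorial) := by
    rw [Nat.choose_eq_factorial_div_factorial (by omega), e1]
    rw [Nat.cast_div (by
      have := Nat.factorial_mul_factorial_dvd_factorial (show q ≤ q + m by omega)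
      rwa [e1] at this) (by positivity)]
    push_cast
    rfl
  have e4 : ((q + m).choose q : ℝ) * (((q : ℝ) / ((q + m : ℕ) : ℝ)) ^ q *
      ((m : ℝ) / ((q + m : ℕ) : ℝ)) ^ m) = gg (q + m) / (gg q * gg m) := by
    rw [e3]
    unfold gg
    rw [div_pow, div_pow, pow_add]
    have h3 : (m : ℝ) ^ m ≠ 0 := by
      rcases Nat.eq_zero_or_pos m with rfl | hm
      · simp
      · positivity
    have h4 : (q : ℝ) ^ q ≠ 0 := by positivity
    have h5 : (((q + m : ℕ) : ℝ)) ^ q ≠ 0 := by positivity
    have h6 : (((q + m : ℕ) : ℝ)) ^ m ≠ 0 := by positivity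
    have h7 : (q.factorial : ℝ) ≠ 0 := by positivity
    have h8 : (m.factorial : ℝ) ≠ 0 := by positivity
    field_simp
  rw [e4, le_div_iff₀ (mul_pos (gg_pos _) (gg_pos _))]
  have h1 := gg_lower' m q
  have h2 := gg_upper q hq
  have h3 := gg_pos m
  have h4 : 1 / (Real.exp 1 * q) * gg q ≤ Real.exp (-(q : ℝ)) := by
    rw [div_mul_eq_mul_div, div_le_iff₀ (by positivity), one_mul]
    refine h2.trans (le_of_eq ?_)
    ring
  rw [add_comm] at h1
  calc 1 / (Real.exp 1 * q) * (gg q * gg m) = (1 / (Real.exp 1 * q) * gg q) * gg m := by ring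
    _ ≤ Real.exp (-(q : ℝ)) * gg m := mul_le_mul_of_nonneg_right h4 h3.le
    _ ≤ _ := h1

/-- Bernoulli weights -/
noncomputable def ber (N : ℕ) (p : ℝ) : Fin N → Bool → ℝ := fun _ b => if b then p else 1 - p

theorem ber_isProb (N : ℕ) (p : ℝ) (h0 : 0 ≤ p) (h1 : p ≤ 1) : IsProb (ber N p) := by
  refine ⟨fun i a => ?_, fun i => ?_⟩
  · unfold ber
    split_ifs <;> linarith
  · unfold ber
    rw [Fintype.sum_bool]
    simp

theorem wt_ber (N : ℕ) (p : ℝ) (ω : Fin N → Bool) :
    wt (ber N p) ω = p ^ #(univ.filter fun i => ω i = true) *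
      (1 - p) ^ (N - #(univ.filter fun i => ω i = true)) := by
  unfold wt ber
  rw [Finset.prod_ite, Finset.prod_const, Finset.prod_const]
  congr 2
  have h := Finset.card_filter_add_card_filter_not (s := (univ : Finset (Fin N)))
    (fun i => ω i = true)
  rw [Finset.card_univ, Fintype.card_fin] at h
  omega

theorem card_sel (N q : ℕ) :
    N.choose q ≤ #(univ.filter fun ω : Fin N → Bool => #(univ.filter fun i => ω i = true) = q) := by
  have h := Finset.card_powersetCard q (univ : Finset (Fin N))
  rw [Finset.card_univ, Fintype.card_fin] at h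
  rw [← h]
  refine Finset.card_le_card_of_injOn (fun S i => decide (i ∈ S)) ?_ ?_
  · intro S hS
    rw [Finset.mem_coe, Finset.mem_powersetCard] at hS
    rw [Finset.mem_coe, Finset.mem_filter]
    refine ⟨Finset.mem_univ _, ?_⟩
    rw [← hS.2]
    congr 1
    ext i
    simp
  · intro S _ T _ hST
    ext i
    have := congrFun hST i
    simpa using this

theorem PP_card_lower (N q : ℕ) (hq : 1 ≤ q) (hqN : q ≤ N) :
    1 / (Real.exp 1 * q) ≤
      PP (ber N ((q : ℝ) / N)) (fun ω => #(univ.filter fun i => ω i = true) = q) := by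
  classical
  refine (binom_lower N q hq hqN).trans ?_
  have hp0 : (0 : ℝ) ≤ (q : ℝ) / N := by positivity
  have hp1 : (q : ℝ) / N ≤ 1 := by
    rw [div_le_one (by
      have : 0 < N := by omega
      exact_mod_cast this)]
    exact_mod_cast hqN
  have h1 : PP (ber N ((q : ℝ) / N)) (fun ω => #(univ.filter fun i => ω i = true) = q) =
      #(univ.filter fun ω : Fin N → Bool => #(univ.filter fun i => ω i = true) = q) *
        (((q : ℝ) / N) ^ q * (1 - (q : ℝ) / N) ^ (N - q)) := by
    unfold PP EE
    simp only [mul_ite, mul_one, mul_zero]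
    rw [← Finset.sum_filter]
    rw [Finset.sum_congr rfl (g := fun _ => ((q : ℝ) / N) ^ q * (1 - (q : ℝ) / N) ^ (N - q))]
    · rw [Finset.sum_const, nsmul_eq_mul]
    · intro ω hω
      rw [Finset.mem_filter] at hω
      rw [wt_ber, hω.2]
  rw [h1]
  refine mul_le_mul_of_nonneg_right ?_ (mul_nonneg (pow_nonneg hp0 _) (pow_nonneg (by linarith) _))
  exact_mod_cast card_sel N q

/-- one coordinate -/
theorem PP_coord (N : ℕ) (p : ℝ) (h0 : 0 ≤ p) (h1 : p ≤ 1) (i : Fin N) :
    PP (ber N p) (fun ω => ω i = true) = p := by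
  classical
  have h := ber_isProb N p h0 h1
  unfold PP
  rw [← EE_resample h i]
  simp only [Function.update_self, Fintype.sum_bool]
  unfold ber
  simp only [if_true, Bool.false_eq_true, if_false, mul_one, mul_zero, add_zero]
  exact EE_const h p

/-- the weighted number of selected coordinates -/
noncomputable def sel {N : ℕ} (a : Fin N → ℝ) (ω : Fin N → Bool) : ℝ :=
  ∑ i, if ω i = true then a i else 0

theorem EE_sel (N : ℕ) (p : ℝ) (h0 : 0 ≤ p) (h1 : p ≤ 1) (a : Fin N → ℝ) :
    EE (ber N p) (sel a) = p * ∑ i, a i := by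
  classical
  unfold sel
  rw [EE_sum, Finset.mul_sum]
  refine Finset.sum_congr rfl fun i _ => ?_
  have h2 : EE (ber N p) (fun ω => if ω i = true then a i else 0) =
      EE (ber N p) (fun ω => a i * (if ω i = true then 1 else 0)) :=
    EE_congr fun ω => by split_ifs <;> ring
  rw [h2, EE_const_mul]
  have h3 := PP_coord N p h0 h1 i
  unfold PP at h3
  have h4 : EE (ber N p) (fun ω => if ω i = true then (1 : ℝ) else 0) = p := by
    refine Eq.trans (EE_congr fun ω => ?_) h3
    by_cases hω : ω i = true <;> simp [hω]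
  rw [h4, mul_comm]

theorem sel_tail (N : ℕ) (p : ℝ) (h0 : 0 ≤ p) (h1 : p ≤ 1) (K L : ℝ) (hK : 0 < K) (a : Fin N → ℝ)
    (ha0 : ∀ i, 0 ≤ a i) (ha : ∀ i, a i ≤ K) (hL : p * N * K ≤ L) (hL0 : 0 < L)
    (t : ℝ) (ht : 0 ≤ t) (htL : t ≤ 4 * L) :
    PP (ber N p) (fun ω => t ≤ sel a ω - p * ∑ i, a i) ≤ Real.exp (-(t ^ 2 / (16 * K * L))) := by
  have h := ber_isProb N p h0 h1
  rw [← EE_sel N p h0 h1 a]
  refine tail1 h (fun _ b => if b then K else 0) (sel a) (fun i b => ?_) (fun i b => ?_) hK ?_ hL0
    ht htL (fun i ω b b' => ?_)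
  · split_ifs <;> linarith
  · split_ifs <;> linarith
  · simp only [Fintype.sum_bool, if_true, Bool.false_eq_true, if_false, mul_zero, add_zero]
    unfold ber
    simp only [if_true, Finset.sum_const, Finset.card_univ, Fintype.card_fin, nsmul_eq_mul]
    refine le_trans (le_of_eq ?_) hL
    ring
  · have h2 : ∀ b : Bool, sel a (Function.update ω i b) =
        (if b = true then a i else 0) + ∑ j ∈ univ.erase i, if ω j = true then a j else 0 := by
      intro b
      unfold sel
      rw [← Finset.add_sum_erase _ _ (Finset.mem_univ i)]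
      congr 1
      · simp
      · refine Finset.sum_congr rfl fun j hj => ?_
        rw [Function.update_of_ne (Finset.ne_of_mem_erase hj)]
    rw [h2, h2]
    have ha0i := ha0 i
    have hai := ha i
    rw [show (if b = true then a i else 0) + ∑ j ∈ univ.erase i, (if ω j = true then a j else 0) -
      ((if b' = true then a i else 0) + ∑ j ∈ univ.erase i, if ω j = true then a j else 0) =
      (if b = true then a i else 0) - (if b' = true then a i else 0) by ring]
    rw [abs_le]
    constructor
    · cases b <;> cases b' <;> simp <;> linarith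
    · cases b <;> cases b' <;> simp <;> linarith

theorem sel_dep {N : ℕ} (a : Fin N → ℝ) (i : Fin N) (hi : a i = 0) : Dep (sel a) ({i}ᶜ) := by
  intro ω ω' hω
  unfold sel
  refine Finset.sum_congr rfl fun j _ => ?_
  by_cases hj : j = i
  · subst hj
    simp [hi]
  · rw [hω j (by simp [hj])]

/-- The positions are partitioned into `N` tiles (`t v = j < N`) of size `K` and one tile (`t v = N`) of size `c < K`; all
degrees of `B` are `≤ N`. Then some `q` tiles together with the last one span few edges: all degrees of `B` inside are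
`≤ (1+ε) q`.
Proof. Select every tile independently with probability `q/N`. Exactly `q` tiles are selected with probability at least
`1/(e q)` (`PP_card_lower`), and the expected number of bad vertices of selected tiles is at most `K (q+1) exp(-c q)`:
the number of neighbours in selected tiles other than the own tile is concentrated (`sel_tail`) and independent of the
selection of the own tile. -/
theorem random_tiles (K : ℕ) (hK : 1 ≤ K) (ε : ℝ) (hε : 0 < ε) :
    ∃ q0 : ℕ, ∀ (n N q c : ℕ), q0 ≤ q → q ≤ N → c < K → ∀ (B : Nb n),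
      (∀ y, #(B.N y) ≤ N) → ∀ t : Fin n → ℕ, (∀ j < N, #(univ.filter fun v => t v = j) = K) →
      #(univ.filter fun v => t v = N) = c → (∀ v, t v ≤ N) →
      ∃ J ⊆ range N, #J = q ∧ ∀ v, (t v ∈ J ∨ t v = N) →
        (#((B.N v).filter fun u => t u ∈ J ∨ t u = N) : ℝ) ≤ (1 + ε) * q := by
  classical
  obtain ⟨e, he0, he1, heε⟩ : ∃ e : ℝ, 0 < e ∧ e ≤ 1 ∧ e ≤ ε :=
    ⟨min ε 1, lt_min hε one_pos, min_le_right _ _, min_le_left _ _⟩
  have hKr : (1 : ℝ) ≤ K := by exact_mod_cast hK
  have hK0 : (0 : ℝ) < K := by linarith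
  obtain ⟨c1, hc1⟩ : ∃ c1 : ℝ, c1 = e ^ 2 / (64 * K ^ 2) := ⟨_, rfl⟩
  have hc10 : 0 < c1 := by rw [hc1]; positivity
  obtain ⟨q0, hq0⟩ := exists_nat_gt (max (4 * K / e) (36 * K / c1 ^ 3))
  refine ⟨q0, ?_⟩
  intro n N q c hq hqN hc B hB t ht htN htv
  have hqr : (q0 : ℝ) ≤ q := by exact_mod_cast hq
  have hq1 : 4 * K / e < q := ((le_max_left _ _).trans_lt hq0).trans_le hqr
  have hq2 : 36 * K / c1 ^ 3 < q := ((le_max_right _ _).trans_lt hq0).trans_le hqr
  have hqpos : (0 : ℝ) < q := lt_of_le_of_lt (by positivity) hq1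
  have hq1' : 1 ≤ q := by exact_mod_cast hqpos
  have hNpos : (0 : ℝ) < N := lt_of_lt_of_le hqpos (by exact_mod_cast hqN)
  by_contra hcon
  push Not at hcon
  obtain ⟨p, hp⟩ : ∃ p : ℝ, p = (q : ℝ) / N := ⟨_, rfl⟩
  have hp0 : 0 ≤ p := by rw [hp]; positivity
  have hp1 : p ≤ 1 := by
    rw [hp, div_le_one hNpos]
    exact_mod_cast hqN
  have hpN : p * N = q := by rw [hp]; field_simp
  have hIP := ber_isProb N p hp0 hp1
  obtain ⟨T, hT⟩ : ∃ T : ℝ, T = e * q / 2 := ⟨_, rfl⟩
  have hT0 : 0 ≤ T := by rw [hT]; positivity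
  have h2K : 2 * K ≤ T := by
    rw [hT]
    rw [div_lt_iff₀ he0] at hq1
    linarith
  let a : Fin n → Fin N → ℝ := fun v i =>
    if t v = i then 0 else (#((B.N v).filter fun u => t u = i) : ℝ)
  let A : Fin n → (Fin N → Bool) → Prop := fun v ω => T ≤ sel (a v) ω - p * ∑ i, a v i
  let D : Fin n → (Fin N → Bool) → Prop := fun v ω =>
    (t v = N ∨ ∃ i : Fin N, (i : ℕ) = t v ∧ ω i = true) ∧ A v ω
  have hsize : ∀ v, #(univ.filter fun u => t u = t v) ≤ K := by
    intro v
    rcases (htv v).lt_or_eq with h | h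
    · exact (ht _ h).le
    · rw [h, htN]
      exact hc.le
  have ha0 : ∀ v i, 0 ≤ a v i := by
    intro v i
    simp only [a]
    split_ifs
    · exact le_refl _
    · positivity
  have haK : ∀ v i, a v i ≤ K := by
    intro v i
    simp only [a]
    split_ifs
    · exact hK0.le
    · rw [← ht i i.2]
      exact_mod_cast Finset.card_le_card (Finset.filter_subset_filter _ (Finset.subset_univ _))
  have hmean : ∀ v, p * ∑ i, a v i ≤ q := by
    intro v
    rw [← hpN]
    refine mul_le_mul_of_nonneg_left ?_ hp0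
    calc ∑ i, a v i ≤ ∑ i : Fin N, (#((B.N v).filter fun u => t u = i) : ℝ) := by
          refine Finset.sum_le_sum fun i _ => ?_
          simp only [a]
          split_ifs
          · positivity
          · exact le_refl _
      _ = ((∑ i : Fin N, #((B.N v).filter fun u => t u = i) : ℕ) : ℝ) := by push_cast; rfl
      _ ≤ (#(B.N v) : ℝ) := by
          have h1 : ∑ i : Fin N, #((B.N v).filter fun u => t u = i) =
              #((univ : Finset (Fin N)).biUnion fun i => (B.N v).filter fun u => t u = i) := by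
            rw [Finset.card_biUnion]
            intro i _ j _ hij
            refine Finset.disjoint_left.2 fun u hu hu' => ?_
            rw [Finset.mem_filter] at hu hu'
            exact hij (Fin.ext (hu.2.symm.trans hu'.2))
          rw [h1]
          exact_mod_cast Finset.card_le_card (Finset.biUnion_subset.2
            fun i _ => Finset.filter_subset _ _)
      _ ≤ N := by exact_mod_cast hB v
  have key : ∀ ω : Fin N → Bool, #(univ.filter fun i => ω i = true) = q →
      ∃ v ∈ (univ : Finset (Fin n)), D v ω := by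
    intro ω hω
    obtain ⟨v, hv1, hv2⟩ := hcon ((univ.filter fun i => ω i = true).map Fin.valEmbedding)
      (by
        intro j hj
        rw [Finset.mem_map] at hj
        obtain ⟨i, _, rfl⟩ := hj
        exact Finset.mem_range.2 i.2) (by rw [Finset.card_map, hω])
    set J := (univ.filter fun i => ω i = true).map Fin.valEmbedding with hJ
    have hmem : ∀ j, j ∈ J ↔ ∃ i : Fin N, (i : ℕ) = j ∧ ω i = true := by
      intro j
      rw [hJ, Finset.mem_map]
      constructor
      · rintro ⟨i, hi, rfl⟩
        exact ⟨i, rfl, (Finset.mem_filter.1 hi).2⟩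
      · rintro ⟨i, rfl, hi⟩
        exact ⟨i, Finset.mem_filter.2 ⟨Finset.mem_univ _, hi⟩, rfl⟩
    refine ⟨v, Finset.mem_univ _, ?_, ?_⟩
    · rcases hv1 with h | h
      · exact Or.inr ((hmem _).1 h)
      · exact Or.inl h
    · have h1 : #((B.N v).filter fun u => t u ∈ J ∨ t u = N) ≤
          #((B.N v).filter fun u => t u ∈ J ∧ t u ≠ t v) + (#(univ.filter fun u => t u = t v) +
            #(univ.filter fun u => t u = N)) := by
        refine (Finset.card_le_card ?_).trans ((Finset.card_union_le _ _).trans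
          (Nat.add_le_add_left (Finset.card_union_le _ _) _))
        intro u hu
        rw [Finset.mem_filter] at hu
        simp only [Finset.mem_union, Finset.mem_filter, Finset.mem_univ, true_and]
        by_cases h : t u = t v
        · exact Or.inr (Or.inl h)
        · rcases hu.2 with h' | h'
          · exact Or.inl ⟨hu.1, h', h⟩
          · exact Or.inr (Or.inr h')
      have h2 : (#((B.N v).filter fun u => t u ∈ J ∧ t u ≠ t v) : ℝ) ≤ sel (a v) ω := by
        rw [Finset.card_eq_sum_card_fiberwise (f := t) (t := J) (by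
          intro u hu
          rw [Finset.mem_coe, Finset.mem_filter] at hu
          exact hu.2.1)]
        rw [hJ, Finset.sum_map, Finset.sum_filter]
        push_cast
        unfold sel
        refine Finset.sum_le_sum fun i _ => ?_
        by_cases hi : ω i = true
        · rw [if_pos hi, if_pos hi]
          simp only [a]
          split_ifs with hvi
          · have h3 : ((B.N v).filter fun u => t u ∈ J ∧ t u ≠ t v).filter
                (fun u => t u = Fin.valEmbedding i) = ∅ := by
              rw [Finset.filter_eq_empty_iff]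
              intro u hu h4
              rw [Finset.mem_filter] at hu
              exact hu.2.2 (h4.trans hvi.symm)
            rw [← hJ, h3]
            simp
          · have h3 : ((B.N v).filter fun u => t u ∈ J ∧ t u ≠ t v).filter
                (fun u => t u = Fin.valEmbedding i) ⊆ (B.N v).filter fun u => t u = i := by
              intro u hu
              rw [Finset.mem_filter, Finset.mem_filter] at hu
              exact Finset.mem_filter.2 ⟨hu.1.1, hu.2⟩
            rw [← hJ]
            exact_mod_cast Finset.card_le_card h3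
        · rw [if_neg hi, if_neg hi]
      have h3 : (#((B.N v).filter fun u => t u ∈ J ∨ t u = N) : ℝ) ≤ sel (a v) ω + 2 * K := by
        have h4 : (#((B.N v).filter fun u => t u ∈ J ∨ t u = N) : ℝ) ≤
          #((B.N v).filter fun u => t u ∈ J ∧ t u ≠ t v) + (#(univ.filter fun u => t u = t v) +
            #(univ.filter fun u => t u = N)) := by exact_mod_cast h1
        have h5 : (#(univ.filter fun u => t u = t v) : ℝ) ≤ K := by exact_mod_cast hsize v
        have h6 : (#(univ.filter fun u => t u = N) : ℝ) ≤ K := by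
          rw [htN]
          exact_mod_cast hc.le
        linarith
      have h4 : (1 + e) * q ≤ (1 + ε) * q := mul_le_mul_of_nonneg_right (by linarith) hqpos.le
      have h5 := hmean v
      show T ≤ sel (a v) ω - p * ∑ i, a v i
      have h6 : (1 + e) * q = q + 2 * T := by rw [hT]; ring
      linarith
  have hL0 : (0 : ℝ) < q * K := by positivity
  have hTL : T ≤ 4 * (q * K) := by
    rw [hT]
    nlinarith
  have hx : Real.exp (-(T ^ 2 / (16 * K * (q * K)))) = Real.exp (-(c1 * q)) := by
    congr 2
    rw [hT, hc1]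
    field_simp
    ring
  have hA : ∀ v, PP (ber N p) (A v) ≤ Real.exp (-(c1 * q)) := by
    intro v
    rw [← hx]
    exact sel_tail N p hp0 hp1 K (q * K) hK0 (a v) (ha0 v) (haK v) (by rw [hpN]) hL0 T hT0 hTL
  have hD : ∀ v, PP (ber N p) (D v) ≤ (if t v = N then 1 else p) * Real.exp (-(c1 * q)) := by
    intro v
    split_ifs with hv
    · rw [one_mul]
      exact (PP_mono hIP fun ω hω => hω.2).trans (hA v)
    · have hvN : t v < N := lt_of_le_of_ne (htv v) hv
      have h1 : PP (ber N p) (D v) ≤
          PP (ber N p) (fun ω => ω ⟨t v, hvN⟩ = true ∧ A v ω) := by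
        refine PP_mono hIP fun ω hω => ⟨?_, hω.2⟩
        rcases hω.1 with h | ⟨i, hi, hi'⟩
        · exact absurd h hv
        · have : i = ⟨t v, hvN⟩ := Fin.ext hi
          rw [← this]
          exact hi'
      refine h1.trans ?_
      have hdep : Dep (sel (a v)) ({(⟨t v, hvN⟩ : Fin N)}ᶜ) := by
        refine sel_dep _ _ ?_
        simp only [a]
        simp
      rw [PP_and_of_disjoint hIP (A := fun ω => ω ⟨t v, hvN⟩ = true) (B := A v)
        (S := {(⟨t v, hvN⟩ : Fin N)}) (T := ({(⟨t v, hvN⟩ : Fin N)}ᶜ)) ?_ ?_ ?_]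
      · rw [PP_coord N p hp0 hp1]
        exact mul_le_mul_of_nonneg_left (hA v) hp0
      · intro ω ω' hω
        show (ω ⟨t v, hvN⟩ = true) = (ω' ⟨t v, hvN⟩ = true)
        rw [hω _ (Finset.mem_singleton_self _)]
      · intro ω ω' hω
        show (T ≤ sel (a v) ω - p * ∑ i, a v i) = (T ≤ sel (a v) ω' - p * ∑ i, a v i)
        rw [hdep ω ω' hω]
      · exact disjoint_compl_right
  have hsum : ∑ v : Fin n, (if t v = N then 1 else p) ≤ 2 * K * q := by
    have h1 : ∑ v : Fin n, (if t v = N then 1 else p) =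
        (#(univ.filter fun v => t v = N) : ℝ) + #(univ.filter fun v => ¬ t v = N) * p := by
      rw [Finset.sum_ite, Finset.sum_const, Finset.sum_const]
      simp only [nsmul_eq_mul, mul_one]
    have h2 : #(univ.filter fun v => ¬ t v = N) ≤ N * K := by
      rw [Finset.card_eq_sum_card_fiberwise (f := t) (t := range N) (by
        intro v hv
        rw [Finset.mem_coe, Finset.mem_filter] at hv
        rw [Finset.mem_coe, Finset.mem_range]
        exact lt_of_le_of_ne (htv v) hv.2)]
      calc ∑ j ∈ range N, #((univ.filter fun v => ¬ t v = N).filter fun v => t v = j)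
          ≤ ∑ j ∈ range N, K := by
            refine Finset.sum_le_sum fun j hj => ?_
            rw [← ht j (Finset.mem_range.1 hj)]
            exact Finset.card_le_card (Finset.filter_subset_filter _ (Finset.subset_univ _))
        _ = N * K := by rw [Finset.sum_const, Finset.card_range, smul_eq_mul]
    have h3 : (#(univ.filter fun v => ¬ t v = N) : ℝ) ≤ N * K := by exact_mod_cast h2
    have h4 : (#(univ.filter fun v => t v = N) : ℝ) ≤ K := by
      rw [htN]
      exact_mod_cast hc.le
    rw [h1]
    have h5 := mul_le_mul_of_nonneg_right h3 hp0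
    have h6 : (N : ℝ) * K * p = K * q := by rw [← hpN]; ring
    have h7 : (1 : ℝ) ≤ q := by exact_mod_cast hq1'
    nlinarith
  have hmain : 1 / (Real.exp 1 * q) ≤ 2 * K * q * Real.exp (-(c1 * q)) := by
    calc 1 / (Real.exp 1 * q) ≤ PP (ber N ((q : ℝ) / N))
          (fun ω => #(univ.filter fun i => ω i = true) = q) := PP_card_lower N q hq1' hqN
      _ = PP (ber N p) (fun ω => #(univ.filter fun i => ω i = true) = q) := by rw [hp]
      _ ≤ PP (ber N p) (fun ω => ∃ v ∈ (univ : Finset (Fin n)), D v ω) := PP_mono hIP key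
      _ ≤ ∑ v : Fin n, PP (ber N p) (D v) := PP_exists_le hIP _ _
      _ ≤ ∑ v : Fin n, (if t v = N then 1 else p) * Real.exp (-(c1 * q)) :=
          Finset.sum_le_sum fun v _ => hD v
      _ = (∑ v : Fin n, (if t v = N then 1 else p)) * Real.exp (-(c1 * q)) := by
          rw [Finset.sum_mul]
      _ ≤ _ := mul_le_mul_of_nonneg_right hsum (Real.exp_pos _).le
  -- contradiction
  have he3 : Real.exp 1 < 3 := lt_trans Real.exp_one_lt_d9 (by norm_num)
  have hexp : (c1 * q) ^ 3 / 6 ≤ Real.exp (c1 * q) := by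
    have := Real.pow_div_factorial_le_exp (c1 * q) (by positivity) 3
    norm_num [Nat.factorial] at this
    exact this
  have h1 : Real.exp (c1 * q) ≤ 2 * K * q * (Real.exp 1 * q) := by
    rw [Real.exp_neg] at hmain
    rw [div_le_iff₀ (by positivity)] at hmain
    have h2 : 2 * (K : ℝ) * q * (Real.exp (c1 * q))⁻¹ * (Real.exp 1 * q) =
        (2 * K * q * (Real.exp 1 * q)) / Real.exp (c1 * q) := by
      field_simp
    rw [h2, le_div_iff₀ (Real.exp_pos _), one_mul] at hmain
    exact hmain
  have h2 : 2 * (K : ℝ) * q * (Real.exp 1 * q) ≤ 6 * K * q ^ 2 := by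
    have : 0 < 2 * (K : ℝ) * q ^ 2 := by positivity
    nlinarith
  have h3 : (c1 * q) ^ 3 ≤ 36 * K * q ^ 2 := by linarith
  rw [div_lt_iff₀ (by positivity)] at hq2
  have h4 : 36 * (K : ℝ) * q ^ 2 < q * c1 ^ 3 * q ^ 2 :=
    mul_lt_mul_of_pos_right hq2 (by positivity)
  have h5 : q * c1 ^ 3 * (q : ℝ) ^ 2 = (c1 * q) ^ 3 := by ring
  linarith

end Pool.Agent.Helper14.BECX
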