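import Pool.Agent.Helper14.BECX.RBc
import Pool.Agent.Helper14.BECX.RAc
/-! Stage C, piece Round: one round. -/
set_option autoImplicit false
namespace Pool.Agent.Helper14.BECX
open Finset Pool.Agent.Helper61.LE Pool.Agent.Helper5.BEC Pool.Agent.Helper5.BEC.C

variable {n k : ℕ} {D : Dat n} {w : Fin n → ℝ} {ε d Λ τ η ζ a b M t : ℝ}
  {Bs : Finset (Fin n)} {H : Finset (Fin n → ℝ)}

private theorem M_pos (hS : StdX D k d) (hw : Wt w Λ) (hM : M = 2 * Λ * (k + 1)) : 0 < M := by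
  have hn := hS.n1
  have h1 := hw.w1 ⟨0, hn⟩
  have h2 := hw.w2 ⟨0, hn⟩
  have h3 : 0 < Λ := by linarith
  rw [hM]
  positivity

/-- the functionals are local with values in `[0,1]` -/
theorem qf_loc (hS : StdX D k d) (hw : Wt w Λ) (hM : M = 2 * Λ * (k + 1)) :
    Loc D (II D k) (qf D w M) := by
  have hM0 := M_pos hS hw hM
  have hn : (0 : ℝ) < n := by exact_mod_cast hS.n1
  constructor
  · intro i _ v φ
    rcases i with ⟨s, z⟩ | ⟨X, y⟩
    · show 0 ≤ qload D w M s z v φ ∧ qload D w M s z v φ ≤ 1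
      unfold qload
      split_ifs
      · have h1 := ker_nonneg hS hw (Xs D φ v) z
        have h2 := ker_le hS hw (Xs D φ v) (Xs_card' hS φ v) z
        rw [← hM] at h2
        refine ⟨by positivity, ?_⟩
        calc (n : ℝ) / M * ker D w (Xs D φ v) z ≤ n / M * (M / n) :=
              mul_le_mul_of_nonneg_left h2 (by positivity)
          _ = 1 := by field_simp
      · exact ⟨le_rfl, zero_le_one⟩
    · show 0 ≤ qcand D X y v φ ∧ qcand D X y v φ ≤ 1
      unfold qcand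
      split_ifs
      · exact ⟨zero_le_one, le_rfl⟩
      · exact ⟨le_rfl, zero_le_one⟩
  · intro i _ v φ φ' h
    have hN : ∀ p ∈ D.A.N v, φ p = φ' p := fun p hp => h p (by
      rw [bal_one]
      exact mem_insert_of_mem hp)
    have hv : φ v = φ' v := h v (mem_bal_self 1 v)
    rcases i with ⟨s, z⟩ | ⟨X, y⟩
    · show qload D w M s z v φ = qload D w M s z v φ'
      unfold qload
      rw [Xs_congr φ φ' v fun p hp => hN p (mem_of_mem_filter p hp)]
    · show qcand D X y v φ = qcand D X y v φ'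
      unfold qcand
      rw [hv]
      congr 1
      rw [eq_iff_iff]
      constructor
      · rintro ⟨h1, h2, h3⟩
        refine ⟨h1, h2, fun p hp z hz => ?_⟩
        rw [← hN p hp]
        exact h3 p hp z hz
      · rintro ⟨h1, h2, h3⟩
        refine ⟨h1, h2, fun p hp z hz => ?_⟩
        rw [hN p hp]
        exact h3 p hp z hz

private theorem sum_qload (hM0 : M ≠ 0) (hn : (n : ℝ) ≠ 0) (s : ℕ) (z : Fin n) :
    (fun φ : Cf n => ∑ v, qf D w M (Sum.inl (s, z)) v φ) =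
      fun φ => (n : ℝ) / M * ell D w s z φ := by
  funext φ
  show ∑ v, qload D w M s z v φ = _
  unfold qload ell
  rw [← Finset.sum_filter, Finset.mul_sum]

/-- `ell (s+1) z = (M/n) ∑_v qload (s+1) z v`, so `QA` gives `|ell - load| ≤ M a` (`ell_psi`,
`Psi_smul`) -/
theorem load_close (hS : StdX D k d) (hw : Wt w Λ) (hM : M = 2 * Λ * (k + 1)) (s : ℕ)
    (hs : s < D.T) (φ : Cf n) (hQ : QA D w (II D k) (qf D w M) s φ a) (z : Fin n) :
    |ell D w (s + 1) z φ - load D w (s + 1) z| ≤ M * a := by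
  have hM0 := M_pos hS hw hM
  have hn : (0 : ℝ) < n := by exact_mod_cast hS.n1
  have hi : (Sum.inl (s + 1, z) : Ix n) ∈ II D k := by
    unfold II
    refine mem_union_left _ (mem_image_of_mem _ ?_)
    rw [mem_product, mem_Icc]
    exact ⟨⟨by omega, hs⟩, mem_univ _⟩
  have h1 := hQ _ hi
  rw [sum_qload hM0.ne' hn.ne', Psi_smul, Psi_smul, ell_psi hS hw] at h1
  have h2 : Psi D w D.T 0 (ell D w (s + 1) z) (φ0 n) = load D w (s + 1) z := rfl
  rw [h2, ← mul_sub, abs_mul, abs_of_pos (div_pos hn hM0)] at h1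
  have h3 : |ell D w (s + 1) z φ - load D w (s + 1) z| =
      M / n * (n / M * |ell D w (s + 1) z φ - load D w (s + 1) z|) := by
    field_simp
  rw [h3]
  calc M / n * (n / M * |ell D w (s + 1) z φ - load D w (s + 1) z|) ≤ M / n * (a * n) :=
        mul_le_mul_of_nonneg_left h1 (by positivity)
    _ = M * a := by field_simp

/-- The initial state. -/
theorem start (hS : StdX D k d) (hw : Wt w Λ) (hM : M = 2 * Λ * (k + 1)) :
    Stt D w k M Bs H 0 (φ0 n) 0 0 := by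
  constructor
  · intro u hu
    exact (hu rfl).elim
  · intro v u _ x y hx
    exact absurd hx (by simp [φ0])
  · intro i _
    simp
  · intro h _
    have hF : Fr Bs (φ0 n) = univ := by
      ext z
      simp [Fr, φ0]
    rw [hF]
    simp [fs]

private theorem exists_good {ι Ω : Type*} [Fintype ι] [DecidableEq ι] [Fintype Ω]
    [DecidableEq Ω] {μ : ι → Ω → ℝ} (h : IsProb μ) {κ κ' : Type*} (I : Finset κ) (J : Finset κ')
    (A : κ → (ι → Ω) → Prop) (B : κ' → (ι → Ω) → Prop) {x y : ℝ}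
    (hA : ∀ i ∈ I, PP μ (A i) ≤ x) (hB : ∀ i ∈ J, PP μ (B i) ≤ y) (hxy : #I * x + #J * y < 1) :
    ∃ ω, (∀ i, μ i (ω i) ≠ 0) ∧ (∀ i ∈ I, ¬ A i ω) ∧ ∀ i ∈ J, ¬ B i ω := by
  have h1 : PP μ (fun ω => ∃ i ∈ I, A i ω) ≤ #I * x := by
    refine (PP_exists_le h I A).trans ?_
    calc ∑ i ∈ I, PP μ (A i) ≤ ∑ i ∈ I, x := Finset.sum_le_sum hA
      _ = #I * x := by rw [Finset.sum_const, nsmul_eq_mul]
  have h2 : PP μ (fun ω => ∃ i ∈ J, B i ω) ≤ #J * y := by
    refine (PP_exists_le h J B).trans ?_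
    calc ∑ i ∈ J, PP μ (B i) ≤ ∑ i ∈ J, y := Finset.sum_le_sum hB
      _ = #J * y := by rw [Finset.sum_const, nsmul_eq_mul]
  have h3 := PP_split (μ := μ) (fun _ => True) (fun ω => ∃ i ∈ I, A i ω)
  have h4 := PP_split (μ := μ) (fun ω => True ∧ ¬ ∃ i ∈ I, A i ω) (fun ω => ∃ i ∈ J, B i ω)
  have h5 : PP μ (fun ω => True ∧ ∃ i ∈ I, A i ω) ≤ PP μ (fun ω => ∃ i ∈ I, A i ω) :=
    PP_mono h fun ω hω => hω.2
  have h6 : PP μ (fun ω => (True ∧ ¬ ∃ i ∈ I, A i ω) ∧ ∃ i ∈ J, B i ω) ≤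
      PP μ (fun ω => ∃ i ∈ J, B i ω) := PP_mono h fun ω hω => hω.2
  rw [PP_true h] at h3
  have h7 : 0 < PP μ (fun ω => (True ∧ ¬ ∃ i ∈ I, A i ω) ∧ ¬ ∃ i ∈ J, B i ω) := by linarith
  obtain ⟨ω, hω, hω'⟩ := exists_of_PP_pos h7
  refine ⟨ω, hω, fun i hi hAi => hω'.1.2 ⟨i, hi, hAi⟩, fun i hi hBi => hω'.2 ⟨i, hi, hBi⟩⟩

private theorem tri {x y z c r s t : ℝ} (h1 : |x - y| < t) (h2 : |y - z| ≤ s) (h3 : |z - c| ≤ r) :
    |x - c| ≤ r + s + t := by
  rw [abs_le]
  rw [abs_lt] at h1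
  rw [abs_le] at h2 h3
  constructor <;> linarith [h1.1, h1.2, h2.1, h2.2, h3.1, h3.2]

/-- One round: union bound over the functionals (`roundA_tail`, `roundA_mean` for every `v`) and
the tests (`roundB_tail`, `roundB_mean`); `exists_of_PP_pos` also gives that every pick has
positive probability, hence `some z` only with `r u = s+1`, `z ∈ Fr Bs φ`, `z ∈ Av (Xs φ u)`,
which yields `lab` and `val`. -/
theorem round (hS : StdX D k d) (hw : Wt w Λ) (hM : M = 2 * Λ * (k + 1)) (hζ : 0 < ζ)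
    (hζ1 : ζ ≤ 1) (hB : ∀ z ∉ Bs, P D w z ≤ 1 - ζ) {s : ℕ} (hs : s < D.T) (φ : Cf n)
    (ha : 0 ≤ a) (hb0 : 0 ≤ b) (hb1 : b ≤ 1)
    (hn : 2 * M ≤ ζ * n) (he : M * (a + b) / ζ + M ^ 2 / (ζ ^ 2 * n) ≤ 1)
    (hT : Tests D w (fs D w Bs D.T) M (II D k) (qf D w M) H) (ht : 0 < t) (ht1 : t ≤ 1)
    (hcard : #(II D k) * (2 * Real.exp (-(t ^ 2 * n / (4 * (((k : ℝ) + 1) ^ (D.T + 1)) ^ 2)))) +
      #H * (2 * Real.exp (-(t ^ 2 * ζ ^ 2 * n / (16 * M ^ 2)))) < 1)
    (hst : Stt D w k M Bs H s φ a b) :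
    ∃ φ', Stt D w k M Bs H (s + 1) φ' (a + 4 * b * ((k : ℝ) + 1) ^ (D.T + 1) + t)
      (b + 2 * (M * (a + b) / ζ + M ^ 2 / (ζ ^ 2 * n)) * (M / ζ) + t) := by
  have hf : ∀ z, ζ ≤ fs D w Bs s z := fs_ge hS hw hζ hζ1 hB s hs.le
  have hf' : ∀ z, ζ ≤ fs D w Bs (s + 1) z := fs_ge hS hw hζ hζ1 hB (s + 1) hs
  have hfp : ∀ z, 0 < fs D w Bs s z := fun z => hζ.trans_le (hf z)
  have hl : IsProb (law D w Bs b s φ) := isProb_rl hS hw hfp hb0 hb1 hst.qb hT.kr (s + 1) φ
  have hload := load_close hS hw hM s hs φ hst.qa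
  have hlab : ∀ u, φ u ≠ none → D.r u ≤ s := fun u hu => (hst.lab u hu).2
  have hloc := qf_loc hS hw hM
  obtain ⟨ω, hω, hωA, hωB⟩ := exists_good hl (II D k) H
    (fun i ω => t * n ≤ |Psi D w (D.T - (s + 1)) (s + 1) (fun φ => ∑ v, qf D w M i v φ)
        (upd D (s + 1) φ ω) -
      EE (law D w Bs b s φ) (fun ω => Psi D w (D.T - (s + 1)) (s + 1)
        (fun φ => ∑ v, qf D w M i v φ) (upd D (s + 1) φ ω))|)
    (fun h ω => t ≤ |∑ z ∈ Fr Bs (upd D (s + 1) φ ω), h z / fs D w Bs (s + 1) z -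
        EE (law D w Bs b s φ) (fun ω => ∑ z ∈ Fr Bs (upd D (s + 1) φ ω),
          h z / fs D w Bs (s + 1) z)|)
    (fun i hi => roundA_tail hS hw hl (qf D w M i) (hloc.bd i hi) (hloc.dep i hi) s hs φ ht.le ht1)
    (fun h hh => roundB_tail hS hw hM hζ hζ1 hf' φ hl ht.le ht1 hlab h (hT.bd h hh))
    hcard
  refine ⟨upd D (s + 1) φ ω, ?_, ?_, ?_, ?_⟩
  · -- labels
    intro u hu
    by_cases hr : D.r u = s + 1
    · omega
    · have h1 : upd D (s + 1) φ ω u = φ u := if_neg hr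
      rw [h1] at hu
      have := hst.lab u hu
      omega
  · -- validity
    intro v u hu x y hx hy
    have hu2 := (mem_filter.1 hu).2
    by_cases hr : D.r v = s + 1
    · have h1 : upd D (s + 1) φ ω v = ω v := if_pos hr
      have h2 : upd D (s + 1) φ ω u = φ u := if_neg (by omega)
      rw [h1] at hy
      rw [h2] at hx
      have h3 := hω v
      rw [hy] at h3
      have h4 : ker D w (Xs D φ v) y ≠ 0 := by
        intro h0
        apply h3
        show rl D w (fs D w Bs s) (Fr Bs φ) b (s + 1) φ v (some y) = 0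
        unfold rl
        rw [if_pos hr]
        simp [h0]
      have h5 : y ∈ Av D.B (Xs D φ v) := by
        by_contra h6
        exact h4 (ker_off _ _ h6)
      have h6 : x ∈ Xs D φ v := mem_filter.2 ⟨mem_univ _, u, hu, hx⟩
      exact (mem_filter.1 h5).2 x h6
    · have h1 : upd D (s + 1) φ ω v = φ v := if_neg hr
      rw [h1] at hy
      have h2 := hst.lab v (by rw [hy]; exact Option.some_ne_none y)
      have h3 : upd D (s + 1) φ ω u = φ u := if_neg (by omega)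
      rw [h3] at hx
      exact hst.val v u hu x y hx hy
  · -- functionals
    intro i hi
    have h1 := not_le.1 (hωA i hi)
    have h2 : |EE (law D w Bs b s φ) (fun ω => Psi D w (D.T - (s + 1)) (s + 1)
        (fun φ => ∑ v, qf D w M i v φ) (upd D (s + 1) φ ω)) -
        Psi D w (D.T - s) s (fun φ => ∑ v, qf D w M i v φ) φ| ≤
        n * (4 * b * ((k : ℝ) + 1) ^ (D.T + 1)) := by
      have e1 : EE (law D w Bs b s φ) (fun ω => Psi D w (D.T - (s + 1)) (s + 1)
          (fun φ => ∑ v, qf D w M i v φ) (upd D (s + 1) φ ω)) =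
          ∑ v, EE (law D w Bs b s φ) (fun ω => Psi D w (D.T - (s + 1)) (s + 1)
            (qf D w M i v) (upd D (s + 1) φ ω)) := by
        rw [← EE_sum]
        refine EE_congr fun ω => ?_
        exact Psi_sum univ (qf D w M i) _ _ _
      have e2 : Psi D w (D.T - s) s (fun φ => ∑ v, qf D w M i v φ) φ =
          ∑ v, Psi D w (D.T - s) s (qf D w M i v) φ := Psi_sum univ (qf D w M i) _ _ _
      rw [e1, e2, ← Finset.sum_sub_distrib]
      refine (Finset.abs_sum_le_sum_abs _ _).trans ?_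
      calc ∑ v, |EE (law D w Bs b s φ) (fun ω => Psi D w (D.T - (s + 1)) (s + 1)
            (qf D w M i v) (upd D (s + 1) φ ω)) - Psi D w (D.T - s) s (qf D w M i v) φ|
          ≤ ∑ v : Fin n, 4 * b * ((k : ℝ) + 1) ^ (D.T + 1) := by
            refine Finset.sum_le_sum fun v _ => ?_
            exact roundA_mean hS hw hfp hb0 hb1 hst.qb hT.kr (qf D w M i v) (hloc.bd i hi v) v
              (hloc.dep i hi v) (fun u φ s hs j hj => hT.fn i hi v u φ s hs j hj) s hs φ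
        _ = n * (4 * b * ((k : ℝ) + 1) ^ (D.T + 1)) := by
            rw [Finset.sum_const, Finset.card_univ, Fintype.card_fin, nsmul_eq_mul]
    have h3 := hst.qa i hi
    have h4 := tri h1 h2 h3
    refine h4.trans (le_of_eq ?_)
    ring
  · -- tests
    intro h hh
    have h1 := not_le.1 (hωB h hh)
    have h2 := roundB_mean hS hw hM hζ hζ1 hf hf' φ ha hb0 hb1 hl hn he hlab hload h (hT.bd h hh)
    exact tri h1 h2 (hst.qb h hh)

end Pool.Agent.Helper14.BECX
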