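import Pool.Agent.Helper14.BECX.Tiles
/-! Project BECX: the theorems for simple graphs on a finite type. -/
set_option autoImplicit false
namespace Pool.Agent.Helper14.BECX
open Finset Pool.Agent.Helper5.BEC

/-- neighbour lists of a simple graph -/
noncomputable def ofS {V : Type} [Fintype V] {n : ℕ} (e : V ≃ Fin n) (G : SimpleGraph V) : Nb n := by
  classical
  exact
  { N := fun v => univ.filter fun u => G.Adj (e.symm v) (e.symm u)
    symm := fun u v h => by
      simp only [mem_filter, mem_univ, true_and] at h ⊢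
      exact h.symm
    irr := fun v => by simp }

variable {V : Type} [Fintype V] {n : ℕ}

theorem mem_ofS (e : V ≃ Fin n) (G : SimpleGraph V) (u v : Fin n) :
    u ∈ (ofS e G).N v ↔ G.Adj (e.symm v) (e.symm u) := by
  simp [ofS]

theorem card_ofS (e : V ≃ Fin n) (G : SimpleGraph V) (v : Fin n) :
    #((ofS e G).N v) = (G.neighborSet (e.symm v)).ncard := by
  have h1 : ((ofS e G).N v : Set (Fin n)) = e '' (G.neighborSet (e.symm v)) := by
    ext u
    simp only [mem_coe, mem_ofS, Set.mem_image, SimpleGraph.mem_neighborSet]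
    constructor
    · intro h
      exact ⟨e.symm u, h, by simp⟩
    · rintro ⟨x, hx, rfl⟩
      simpa using hx
  rw [← Set.ncard_coe_finset, h1, Set.ncard_image_of_injective _ e.injective]

/-- a vertex with a complete closed neighbourhood on `k+1` vertices is in a clique -/
theorem clique_of_InK (e : V ≃ Fin n) (G : SimpleGraph V) (k : ℕ) (v : Fin n)
    (h : InK (ofS e G) k v) : ∃ s : Finset V, G.IsNClique (k + 1) s ∧ e.symm v ∈ s := by
  classical
  obtain ⟨h1, h2⟩ := h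
  refine ⟨insert (e.symm v) (((ofS e G).N v).map e.symm.toEmbedding), ?_, mem_insert_self _ _⟩
  have hnot : e.symm v ∉ ((ofS e G).N v).map e.symm.toEmbedding := by
    intro h
    rw [mem_map] at h
    obtain ⟨a, ha, hb⟩ := h
    have : a = v := e.symm.injective (by simpa using hb)
    subst this
    exact (ofS e G).irr a ha
  refine ⟨?_, ?_⟩
  · rw [SimpleGraph.isClique_iff]
    intro x hx y hy hxy
    simp only [coe_insert, coe_map, Set.mem_insert_iff, Set.mem_image, mem_coe, Equiv.coe_toEmbedding] at hx hy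
    rcases hx with rfl | ⟨a, ha, rfl⟩
    · rcases hy with rfl | ⟨b, hb, rfl⟩
      · exact absurd rfl hxy
      · exact (mem_ofS _ _ _ _).1 hb
    · rcases hy with rfl | ⟨b, hb, rfl⟩
      · exact ((mem_ofS _ _ _ _).1 ha).symm
      · have hab : a ≠ b := fun h => hxy (by rw [h])
        exact (mem_ofS _ _ _ _).1 (h2 a ha b hb hab)
  · rw [card_insert_of_notMem hnot, card_map, h1]

theorem noK_of_cliqueFree (e : V ≃ Fin n) (G : SimpleGraph V) (k : ℕ) (h : G.CliqueFree (k + 1)) :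
    NoK (ofS e G) k := by
  intro v hv
  by_contra hc
  have : InK (ofS e G) k v := by
    refine ⟨hv, ?_⟩
    intro u hu u' hu' hne
    by_contra hh
    exact hc ⟨u, hu, u', hu', hne, hh⟩
  obtain ⟨s, hs, -⟩ := clique_of_InK e G k v this
  exact h s hs

/-- transfer of a packing -/
theorem pack_of (e : V ≃ Fin n) (G₁ G₂ : SimpleGraph V)
    (h : ∃ τ : Equiv.Perm (Fin n), ∀ u v, u ∈ (ofS e G₁).N v → τ u ∉ (ofS e G₂).N (τ v)) :
    ∃ σ : Equiv.Perm V, ∀ u v, G₁.Adj u v → ¬ G₂.Adj (σ u) (σ v) := by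
  obtain ⟨τ, hτ⟩ := h
  refine ⟨(e.trans τ).trans e.symm, ?_⟩
  intro u v huv h
  have h1 : e u ∈ (ofS e G₁).N (e v) := by
    rw [mem_ofS]
    simpa using huv.symm
  have h2 := hτ _ _ h1
  apply h2
  rw [mem_ofS]
  simpa using h.symm

/-- beyond the bound for graphs without `K_{k+1}` -/
theorem cplus_simple (k : ℕ) (hk : 2 ≤ k) :
    ∃ γ : ℝ, 0 < γ ∧ ∃ n₀ : ℕ, ∀ (V : Type) [Fintype V] (G₁ G₂ : SimpleGraph V) (D : ℕ),
      n₀ ≤ Fintype.card V → (∀ v, (G₁.neighborSet v).ncard ≤ k) → G₁.CliqueFree (k + 1) →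
      (∀ v, (G₂.neighborSet v).ncard ≤ D) → ((k : ℝ) + 1) * D ≤ (1 + γ) * Fintype.card V →
      ∃ σ : Equiv.Perm V, ∀ u v, G₁.Adj u v → ¬ G₂.Adj (σ u) (σ v) := by
  obtain ⟨γ, hγ, n0, h0⟩ := cplus k hk
  refine ⟨γ, hγ, n0, ?_⟩
  intro V _ G₁ G₂ D hV h1 hcf h2 hD
  obtain ⟨e⟩ : Nonempty (V ≃ Fin (Fintype.card V)) := ⟨Fintype.equivFin V⟩
  refine pack_of e G₁ G₂ (h0 _ hV _ _ ?_ (noK_of_cliqueFree e G₁ k hcf) ?_)
  · intro v
    rw [card_ofS]
    exact h1 _
  · intro y
    rw [card_ofS]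
    refine le_trans ?_ hD
    have : (((G₂.neighborSet (e.symm y)).ncard : ℕ) : ℝ) ≤ D := by exact_mod_cast h2 _
    have hk0 : (0 : ℝ) ≤ (k : ℝ) + 1 := by positivity
    exact mul_le_mul_of_nonneg_left this hk0

/-- the exact bound with many vertices outside the complete subgraphs `K_{k+1}` -/
theorem packing_plus_simple (k : ℕ) (hk : 2 ≤ k) :
    ∃ n₁ : ℕ, ∀ (V : Type) [Fintype V] (G₁ G₂ : SimpleGraph V) (D : ℕ),
      n₁ ≤ {v | ∀ s : Finset V, G₁.IsNClique (k + 1) s → v ∉ s}.ncard →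
      (∀ v, (G₁.neighborSet v).ncard ≤ k) → (∀ v, (G₂.neighborSet v).ncard ≤ D) →
      (k + 1) * (D + 1) ≤ Fintype.card V + 1 →
      ∃ σ : Equiv.Perm V, ∀ u v, G₁.Adj u v → ¬ G₂.Adj (σ u) (σ v) := by
  classical
  obtain ⟨n1, h0⟩ := packing_plus k hk
  refine ⟨n1, ?_⟩
  intro V _ G₁ G₂ D hR h1 h2 hD
  obtain ⟨e⟩ : Nonempty (V ≃ Fin (Fintype.card V)) := ⟨Fintype.equivFin V⟩
  refine pack_of e G₁ G₂ (h0 _ _ _ D ?_ ?_ hD ?_)
  · intro v
    rw [card_ofS]
    exact h1 _
  · intro y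
    rw [card_ofS]
    exact h2 _
  · refine ⟨univ.filter fun v => ∀ s : Finset V, G₁.IsNClique (k + 1) s → e.symm v ∉ s, ?_, ?_⟩
    · refine hR.trans (le_of_eq ?_)
      rw [← Set.ncard_coe_finset]
      rw [← Set.ncard_image_of_injective {v | ∀ s : Finset V, G₁.IsNClique (k + 1) s → v ∉ s}
        e.injective]
      congr 1
      ext u
      simp only [Set.mem_image, Set.mem_ofPred_eq, coe_filter, mem_univ, true_and]
      constructor
      · rintro ⟨x, hx, rfl⟩
        simpa using hx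
      · intro h
        exact ⟨e.symm u, h, by simp⟩
    · intro v hv hK
      rw [mem_filter] at hv
      obtain ⟨s, hs, hvs⟩ := clique_of_InK e G₁ k v hK
      exact hv.2 s hs hvs

end Pool.Agent.Helper14.BECX
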