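import Pool.Agent.Helper14.BECX.Simple
import Pool.Agent.Helper14.BECX.CplusEps
/-! Project BECX: the theorem beyond the bound for simple graphs. -/
set_option autoImplicit false
namespace Pool.Agent.Helper14.BECX
open Finset Pool.Agent.Helper5.BEC

/-- beyond the bound, if at least `ε n` vertices are outside the complete subgraphs `K_{k+1}` -/
theorem cplus_eps_simple (k : ℕ) (hk : 2 ≤ k) (ε : ℝ) (hε : 0 < ε) :
    ∃ γ : ℝ, 0 < γ ∧ ∃ n₀ : ℕ, ∀ (V : Type) [Fintype V] (G₁ G₂ : SimpleGraph V) (D : ℕ),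
      n₀ ≤ Fintype.card V → (∀ v, (G₁.neighborSet v).ncard ≤ k) →
      ε * Fintype.card V ≤ {v | ∀ s : Finset V, G₁.IsNClique (k + 1) s → v ∉ s}.ncard →
      (∀ v, (G₂.neighborSet v).ncard ≤ D) → ((k : ℝ) + 1) * D ≤ (1 + γ) * Fintype.card V →
      ∃ σ : Equiv.Perm V, ∀ u v, G₁.Adj u v → ¬ G₂.Adj (σ u) (σ v) := by
  classical
  obtain ⟨γ, hγ, n0, h0⟩ := cplus_eps k hk ε hε
  refine ⟨γ, hγ, n0, ?_⟩
  intro V _ G₁ G₂ D hV h1 hR h2 hD
  obtain ⟨e⟩ : Nonempty (V ≃ Fin (Fintype.card V)) := ⟨Fintype.equivFin V⟩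
  refine pack_of e G₁ G₂ (h0 _ _ _ D hV ?_ ?_ hD ?_)
  · intro v
    rw [card_ofS]
    exact h1 _
  · intro y
    rw [card_ofS]
    exact h2 _
  · refine ⟨univ.filter fun v => ∀ s : Finset V, G₁.IsNClique (k + 1) s → e.symm v ∉ s, ?_, ?_⟩
    · refine hR.trans (le_of_eq ?_)
      congr 1
      rw [← Set.ncard_coe_finset]
      rw [← Set.ncard_image_of_injective {v | ∀ s : Finset V, G₁.IsNClique (k + 1) s → v ∉ s}
        e.injective]
      congr 1
      ext u
      simp only [Set.mem_image, Set.mem_ofPred_eq, coe_filter, mem_univ, true_and]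
      constructor
      · rintro ⟨x, hx, rfl⟩
        simpa using hx
      · intro h
        exact ⟨e.symm u, h, by simp⟩
    · intro v hv hK
      rw [mem_filter] at hv
      obtain ⟨s, hs, hvs⟩ := clique_of_InK e G₁ k v hK
      exact hv.2 s hs hvs

end Pool.Agent.Helper14.BECX
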