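import Pool.Agent.Helper14.BECX.Cplus
/-! Project BECX, piece TilesB: `cplus` for subsets. -/
set_option autoImplicit false
namespace Pool.Agent.Helper14.BECX
open Finset Pool.Agent.Helper5.BEC Pool.Agent.Helper5.BEC.C

/-- The neighbourhood system induced by an injective map. -/
def comapNb {n m : ℕ} (A : Nb n) (g : Fin m → Fin n) : Nb m where
  N i := univ.filter fun j => g j ∈ A.N (g i)
  symm u v h := by
    simp only [mem_filter, mem_univ, true_and] at h ⊢
    exact A.symm _ _ h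
  irr v h := by
    simp only [mem_filter, mem_univ, true_and] at h
    exact A.irr _ h

theorem mem_comapNb {n m : ℕ} (A : Nb n) (g : Fin m → Fin n) (i j : Fin m) :
    j ∈ (comapNb A g).N i ↔ g j ∈ A.N (g i) := by
  simp [comapNb]

theorem card_comapNb {n m : ℕ} (A : Nb n) (g : Fin m → Fin n) (hg : Function.Injective g)
    (R : Finset (Fin n)) (hR : ∀ z, z ∈ R ↔ ∃ j, g j = z) (i : Fin m) :
    #((comapNb A g).N i) = #(A.N (g i) ∩ R) := by
  rw [← card_image_of_injective _ hg]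
  congr 1
  ext z
  simp only [mem_image, mem_comapNb, mem_inter, hR]
  constructor
  · rintro ⟨j, hj, rfl⟩
    exact ⟨hj, j, rfl⟩
  · rintro ⟨hz, j, rfl⟩
    exact ⟨j, hz, rfl⟩

/-- Transport of `cplus` to subsets: `R` = vertices outside the complete components, `W` = set of positions with `#W = #R`. -/
theorem cplus_sub (k : ℕ) (hk : 2 ≤ k) :
    ∃ γ : ℝ, 0 < γ ∧ ∃ n0 : ℕ, ∀ n : ℕ, ∀ A B : Nb n, ∀ R W : Finset (Fin n), n0 ≤ #R → #W = #R →
      (∀ v ∈ R, #(A.N v) ≤ k ∧ A.N v ⊆ R) →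
      (∀ v ∈ R, #(A.N v) = k → ∃ u ∈ A.N v, ∃ u' ∈ A.N v, u ≠ u' ∧ u' ∉ A.N u) →
      (∀ y ∈ W, ((k : ℝ) + 1) * #(B.N y ∩ W) ≤ (1 + γ) * #W) →
      ∃ f : Fin n → Fin n, Set.InjOn f (R : Set (Fin n)) ∧ (∀ v ∈ R, f v ∈ W) ∧
        ∀ u ∈ R, ∀ v ∈ R, u ∈ A.N v → f u ∉ B.N (f v) := by
  obtain ⟨γ, hγ, n0, H⟩ := cplus k hk
  refine ⟨γ, hγ, n0, fun n A B R W hn hW hA hK hB => ?_⟩
  classical
  let eR : R ≃ Fin #R := R.equivFin
  let eW : W ≃ Fin #R := W.equivFinOfCardEq hW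
  set g : Fin #R → Fin n := fun i => (eR.symm i : Fin n) with hgdef
  set h : Fin #R → Fin n := fun i => (eW.symm i : Fin n) with hhdef
  have hg : Function.Injective g := fun i j hij => eR.symm.injective (Subtype.ext hij)
  have hh : Function.Injective h := fun i j hij => eW.symm.injective (Subtype.ext hij)
  have hgR : ∀ i, g i ∈ R := fun i => (eR.symm i).2
  have hhW : ∀ i, h i ∈ W := fun i => (eW.symm i).2
  have hgs : ∀ z, z ∈ R ↔ ∃ j, g j = z := by
    intro z
    constructor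
    · intro hz
      exact ⟨eR ⟨z, hz⟩, by simp [hgdef]⟩
    · rintro ⟨j, rfl⟩
      exact hgR j
  have hhs : ∀ z, z ∈ W ↔ ∃ j, h j = z := by
    intro z
    constructor
    · intro hz
      exact ⟨eW ⟨z, hz⟩, by simp [hhdef]⟩
    · rintro ⟨j, rfl⟩
      exact hhW j
  have hcA : ∀ i, #((comapNb A g).N i) = #(A.N (g i)) := by
    intro i
    rw [card_comapNb A g hg R hgs i, inter_eq_left.2 (hA _ (hgR i)).2]
  have hcB : ∀ i, #((comapNb B h).N i) = #(B.N (h i) ∩ W) := fun i =>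
    card_comapNb B h hh W hhs i
  obtain ⟨τ, hτ⟩ := H #R hn (comapNb A g) (comapNb B h)
    (fun i => by rw [hcA]; exact (hA _ (hgR i)).1)
    (by
      intro i hi
      rw [hcA] at hi
      obtain ⟨u, hu, u', hu', hne, hnot⟩ := hK _ (hgR i) hi
      obtain ⟨a, rfl⟩ := (hgs u).1 ((hA _ (hgR i)).2 hu)
      obtain ⟨b, rfl⟩ := (hgs u').1 ((hA _ (hgR i)).2 hu')
      refine ⟨a, (mem_comapNb A g i a).2 hu, b, (mem_comapNb A g i b).2 hu', ?_, ?_⟩
      · rintro rfl
        exact hne rfl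
      · rw [mem_comapNb]
        exact hnot)
    (fun y => by
      rw [hcB]
      have := hB _ (hhW y)
      rwa [hW] at this)
  refine ⟨fun v => if hv : v ∈ R then h (τ (eR ⟨v, hv⟩)) else v, ?_, ?_, ?_⟩
  · intro a ha b hb hab
    have ha' : a ∈ R := ha
    have hb' : b ∈ R := hb
    simp only [ha', hb', dif_pos] at hab
    have := eR.injective (τ.injective (hh hab))
    simpa using this
  · intro v hv
    simp only [hv, dif_pos]
    exact hhW _
  · intro u hu v hv huv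
    simp only [hu, hv, dif_pos]
    have hgu : g (eR ⟨u, hu⟩) = u := by simp [hgdef]
    have hgv : g (eR ⟨v, hv⟩) = v := by simp [hgdef]
    have := hτ (eR ⟨u, hu⟩) (eR ⟨v, hv⟩) (by rw [mem_comapNb, hgu, hgv]; exact huv)
    rwa [mem_comapNb] at this

end Pool.Agent.Helper14.BECX
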