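import Pool.Agent.Helper14.BECX.TilesA
import Pool.Agent.Helper14.BECX.TilesB
import Pool.Agent.Helper14.BECX.Rand
import Pool.Agent.Helper14.BECX.Glue
/-! Project BECX, piece Tiles: the exact theorem with many vertices outside complete components. -/
set_option autoImplicit false
namespace Pool.Agent.Helper14.BECX
open Finset Pool.Agent.Helper5.BEC Pool.Agent.Helper5.BEC.C

/-- The exact theorem, if at least `n1` vertices of the first graph are outside complete components. `R` = these vertices,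
`#R = q (k+1) + c` (`c < k+1`); the other vertices form `m` complete components of size `k+1` (`InK` vertices: closed neighbourhoods are
classes), `n = (m+q)(k+1) + c`, `N = n/(k+1) = m + q`, `c = n % (k+1)`, `d ≤ N`. `exists_tiles`, `random_tiles` (`K = k+1`,
`ε` with `(1+ε) q (k+1) ≤ (1+γ)(q(k+1)+c)`), `W` = union of the tiles in `J` and the last tile, `cplus_sub`; the complete components go to the remaining `m`
tiles (bijections of the classes with the tiles); inside a tile there are no `B`-edges. -/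
theorem packing_plus (k : ℕ) (hk : 2 ≤ k) :
    ∃ n1 : ℕ, ∀ (n : ℕ) (A B : Nb n) (d : ℕ), (∀ v, #(A.N v) ≤ k) → (∀ y, #(B.N y) ≤ d) →
      (k + 1) * (d + 1) ≤ n + 1 →
      (∃ R : Finset (Fin n), n1 ≤ #R ∧ ∀ v ∈ R, ¬ InK A k v) →
      ∃ τ : Equiv.Perm (Fin n), ∀ u v, u ∈ A.N v → τ u ∉ B.N (τ v) := by
  classical
  obtain ⟨γc, hγc, n2, hn2⟩ := cplus_sub k hk
  obtain ⟨q0, hq0⟩ := random_tiles (k + 1) (by omega) γc hγc
  refine ⟨max n2 ((q0 + 1) * (k + 1)), ?_⟩
  intro n A B d hA hB hd hR0
  obtain ⟨R', hR'1, hR'2⟩ := hR0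
  have hK0 : (0 : ℝ) < (k : ℝ) + 1 := by positivity
  -- the vertices outside the complete components
  obtain ⟨R, hR⟩ : ∃ R : Finset (Fin n), ∀ v, v ∈ R ↔ ¬ InK A k v :=
    ⟨univ.filter fun v => ¬ InK A k v, fun v => by simp⟩
  have hRR : #R' ≤ #R := card_le_card (fun v hv => (hR v).2 (hR'2 v hv))
  have hRa : n2 ≤ #R := ((le_max_left _ _).trans hR'1).trans hRR
  have hRb : (q0 + 1) * (k + 1) ≤ #R := ((le_max_right _ _).trans hR'1).trans hRR
  obtain ⟨m, C, hC1, hC2, hC3, hC4, hC5, hC6⟩ := classes_exist A k hA R hR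
  -- the tiles
  obtain ⟨t, ht1, ht2, ht3, ht4⟩ := exists_tiles k n B d hB hd
  obtain ⟨N, hN⟩ : ∃ N, N = n / (k + 1) := ⟨_, rfl⟩
  obtain ⟨c, hc⟩ : ∃ c, c = n % (k + 1) := ⟨_, rfl⟩
  have hNc : (k + 1) * N + c = n := by rw [hN, hc]; exact Nat.div_add_mod n (k + 1)
  have hck : c < k + 1 := by rw [hc]; exact Nat.mod_lt _ (Nat.succ_pos k)
  rw [← hN] at ht1 ht2 ht3
  rw [← hc] at ht2
  have hdN : d ≤ N := by
    by_contra hcon
    push Not at hcon
    have h1 : (k + 1) * (N + 2) ≤ (k + 1) * (d + 1) := Nat.mul_le_mul_left _ (by omega)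
    have h2 : (k + 1) * (N + 2) = (k + 1) * N + 2 * (k + 1) := by ring
    omega
  have hmN : m ≤ N := by
    by_contra hcon
    push Not at hcon
    have h1 : (k + 1) * (N + 1) ≤ (k + 1) * m := Nat.mul_le_mul_left _ hcon
    have h2 : (k + 1) * (N + 1) = (k + 1) * N + (k + 1) := by ring
    omega
  obtain ⟨q, hq⟩ : ∃ q, m + q = N := ⟨N - m, by omega⟩
  have hqR : q * (k + 1) + c = #R := by
    have h1 : (k + 1) * (m + q) = (k + 1) * m + q * (k + 1) := by ring
    rw [hq] at h1
    omega
  have hqq : q0 ≤ q := by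
    by_contra hcon
    push Not at hcon
    have h1 : (q + 1) * (k + 1) ≤ q0 * (k + 1) := Nat.mul_le_mul_right _ hcon
    have h2 : (q + 1) * (k + 1) = q * (k + 1) + (k + 1) := by ring
    have h3 : (q0 + 1) * (k + 1) = q0 * (k + 1) + (k + 1) := by ring
    omega
  obtain ⟨J, hJ1, hJ2, hJ3⟩ := hq0 n N q c hqq (by omega) hck B
    (fun y => (hB y).trans hdN) t ht1 ht2 ht3
  -- the set of positions for `R`
  obtain ⟨W, hW⟩ : ∃ W : Finset (Fin n), ∀ v, v ∈ W ↔ (t v ∈ J ∨ t v = N) :=
    ⟨univ.filter fun v => t v ∈ J ∨ t v = N, fun v => by simp⟩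
  have hJpart : #(univ.filter fun v => t v ∈ J) = q * (k + 1) := by
    have h1 : (univ.filter fun v => t v ∈ J) =
        J.biUnion fun j => univ.filter fun v => t v = j := by
      ext v
      simp only [mem_filter, mem_univ, true_and, mem_biUnion]
      constructor
      · intro h
        exact ⟨t v, h, rfl⟩
      · rintro ⟨j, h1, h2⟩
        rw [h2]; exact h1
    rw [h1, card_biUnion]
    · rw [sum_const_nat (m := k + 1)]
      · rw [hJ2]
      · intro j hj
        exact ht1 j (mem_range.1 (hJ1 hj))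
    · intro i _ j _ hij
      rw [Function.onFun, disjoint_left]
      intro v hv hv'
      rw [mem_filter] at hv hv'
      exact hij (hv.2.symm.trans hv'.2)
  have hWe : W = (univ.filter fun v => t v ∈ J) ∪ (univ.filter fun v => t v = N) := by
    ext v
    rw [hW]
    simp
  have hWc : #W = #R := by
    rw [hWe, card_union_of_disjoint, hJpart, ht2, hqR]
    rw [disjoint_left]
    intro v hv hv'
    rw [mem_filter] at hv hv'
    have := mem_range.1 (hJ1 hv.2)
    omega
  have hWd : ∀ y ∈ W, ((k : ℝ) + 1) * #(B.N y ∩ W) ≤ (1 + γc) * #W := by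
    intro y hy
    have h1 := hJ3 y ((hW y).1 hy)
    have h2 : B.N y ∩ W = (B.N y).filter fun u => t u ∈ J ∨ t u = N := by
      ext u
      rw [mem_inter, mem_filter, hW]
    rw [h2, hWc, ← hqR]
    push_cast
    have h3 : ((k : ℝ) + 1) * #((B.N y).filter fun u => t u ∈ J ∨ t u = N) ≤
        ((k : ℝ) + 1) * ((1 + γc) * q) := mul_le_mul_of_nonneg_left h1 hK0.le
    have h4 : (0 : ℝ) ≤ (1 + γc) * c := by positivity
    linarith
  obtain ⟨f, hf1, hf2, hf3⟩ := hn2 n A B R W hRa hWc (by
      intro v hv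
      refine ⟨hA v, ?_⟩
      intro u hu
      rw [hR]
      intro huK
      have := (inK_nb A k hA u v huK (A.symm _ _ hu)).2
      exact (hR v).1 hv this) (by
      intro v hv hvk
      have h1 := (hR v).1 hv
      by_contra hcon
      apply h1
      refine ⟨hvk, ?_⟩
      intro u hu u' hu' hne
      by_contra h2
      exact hcon ⟨u, hu, u', hu', hne, h2⟩) hWd
  -- the tiles for the complete components
  have hJc : #(range N \ J) = m := by
    rw [card_sdiff_of_subset hJ1, card_range, hJ2]
    omega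
  let ι : Fin m ≃ (range N \ J : Finset ℕ) := ((range N \ J).equivFinOfCardEq hJc).symm
  have hι : ∀ i, (ι i : ℕ) < N ∧ (ι i : ℕ) ∉ J := by
    intro i
    have := (ι i).2
    rw [mem_sdiff, mem_range] at this
    exact this
  obtain ⟨σ, hσ1, hσ2⟩ := glue_perm C (fun i => univ.filter fun v => t v = (ι i : ℕ)) hC1
    (by
      intro i j hij
      rw [disjoint_left]
      intro v hv hv'
      rw [mem_filter] at hv hv'
      exact hij (ι.injective (Subtype.ext (hv.2.symm.trans hv'.2))))
    (by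
      intro i
      rw [hC2, ht1 _ (hι i).1]) R hC3 hC4 f hf1
    (by
      intro a ha i hi
      rw [mem_filter] at hi
      have h1 := (hW _).1 (hf2 a ha)
      rw [hi.2] at h1
      rcases h1 with h1 | h1
      · exact (hι i).2 h1
      · exact absurd (hι i).1 (by omega))
  refine ⟨σ, ?_⟩
  intro u v huv
  rcases hC3 v with hv | ⟨i, hi⟩
  · have hu : u ∈ R := by
      rw [hR]
      intro huK
      exact (hR v).1 hv (inK_nb A k hA u v huK (A.symm _ _ huv)).2
    rw [hσ1 u hu, hσ1 v hv]
    exact hf3 u hu v hv huv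
  · have hu := hC5 i v hi u huv
    have h1 := hσ2 i u hu
    have h2 := hσ2 i v hi
    rw [mem_filter] at h1 h2
    intro h3
    exact ht4 _ _ h3 (h1.2.trans h2.2.symm)

end Pool.Agent.Helper14.BECX
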