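import Pool.Agent.Helper5.BEC.Defs
import Pool.Agent.Helper64.BEC.Final
/-! Project BECX, piece TilesA: a partition into independent sets of size `k+1`. -/
set_option autoImplicit false
namespace Pool.Agent.Helper14.BECX
open Finset Pool.Agent.Helper5.BEC

/-- Tiles: `Helper64.BEC.packing` (or `CliqueComponents`) for `G₁ = B` (degrees `≤ d`) and the disjoint union `G₂` of complete graphs on the
blocks `{i | i/(k+1) = j}` of `Fin n`, components of size `≤ k+1`, `(d+1)(k+1) ≤ n+1`. With the permutation `σ` put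
`t v = (σ v)/(k+1)`. -/
theorem exists_tiles (k n : ℕ) (B : Nb n) (d : ℕ) (hB : ∀ y, #(B.N y) ≤ d)
    (hd : (k + 1) * (d + 1) ≤ n + 1) :
    ∃ t : Fin n → ℕ, (∀ j < n / (k + 1), #(univ.filter fun v => t v = j) = k + 1) ∧
      #(univ.filter fun v => t v = n / (k + 1)) = n % (k + 1) ∧ (∀ v, t v ≤ n / (k + 1)) ∧
      ∀ u v, u ∈ B.N v → t u ≠ t v := by
  classical
  let G : SimpleGraph (Fin n) :=
    { Adj := fun u v => u ∈ B.N v
      symm := ⟨fun u v h => B.symm u v h⟩
      loopless := ⟨fun v h => B.irr v h⟩ }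
  have hG : ∀ u v, G.Adj u v ↔ u ∈ B.N v := fun _ _ => Iff.rfl
  let s : ℕ → ℕ := fun j => if j = n / (k + 1) then n % (k + 1) else k + 1
  have hs0 : ∀ j < n / (k + 1), s j = k + 1 := by
    intro j hj
    simp only [s]
    rw [if_neg (by omega)]
  have hs1 : s (n / (k + 1)) = n % (k + 1) := by simp [s]
  have hmod : n % (k + 1) < k + 1 := Nat.mod_lt _ (Nat.succ_pos k)
  obtain ⟨f, hf⟩ := Helper64.BEC.exact_exists (V := Fin n) s (k + 1)
    (univ : Finset (Fin n)).card G univ (range (n / (k + 1) + 1)) d rfl (by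
      intro v _
      refine le_trans (card_le_card ?_) (hB v)
      intro w hw
      rw [Helper64.BEC.mem_nbs] at hw
      exact B.symm _ _ ((hG v w).1 hw.2)) (by
      rw [sum_range_succ, hs1, sum_congr rfl (fun j hj => hs0 j (mem_range.1 hj)), sum_const,
        card_range, smul_eq_mul, card_univ, Fintype.card_fin]
      have h := Nat.div_add_mod n (k + 1)
      nlinarith [h]) (by
      intro i hi
      rw [mem_range] at hi
      by_cases h : i = n / (k + 1)
      · rw [h, hs1]; exact hmod.le
      · rw [hs0 i (by omega)]) (by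
      rw [card_univ, Fintype.card_fin, mul_comm]
      exact hd)
  refine ⟨f, ?_, ?_, ?_, ?_⟩
  · intro j hj
    have h := hf.card j (mem_range.2 (by omega))
    rw [hs0 j hj] at h
    rw [← h]
    congr 1
    ext v
    simp [Helper64.BEC.mem_cl]
  · have h := hf.card (n / (k + 1)) (mem_range.2 (by omega))
    rw [hs1] at h
    rw [← h]
    congr 1
    ext v
    simp [Helper64.BEC.mem_cl]
  · intro v
    have h := mem_range.1 (hf.maps v (mem_univ v))
    omega
  · intro u v huv
    exact hf.proper u (mem_univ u) v (mem_univ v) ((hG u v).2 huv)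

end Pool.Agent.Helper14.BECX
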